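import Pool.Agent.HBD.DefsK

/-!
HBD: the two event theorems for the half plane words from the events for the joined words.
-/

set_option autoImplicit false

namespace HexObs

namespace EN

open Finset TS SDN NTW NTA

open scoped ENNReal

namespace KA

/-- products of two sets of words, joined with a unique joint -/
lemma glue_mass {A S U : Set (List Bool)} (hsub : ∀ s ∈ A, ∀ w ∈ S, rev s ++ w ∈ U)
    (hinj : ∀ s ∈ A, ∀ s' ∈ A, ∀ w ∈ S, ∀ w' ∈ S, rev s ++ w = rev s' ++ w' → s.length = s'.length) :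
    gf A * gf S ≤ gf U := by
  have h1 : gf A * gf S = ∑' s : A, ∑' w : S, wE (rev s.1 ++ w.1) := by
    unfold gf
    rw [← ENNReal.tsum_mul_right]
    refine tsum_congr fun s => ?_
    rw [← ENNReal.tsum_mul_left]
    exact tsum_congr fun w => by rw [wE_append, wE_rev]
  rw [h1, ← ENNReal.tsum_prod (f := fun (s : A) (w : S) => wE (rev s.1 ++ w.1))]
  obtain ⟨φ, hφ⟩ : ∃ φ : A × S → U, φ = fun p => ⟨rev p.1.1 ++ p.2.1, hsub _ p.1.2 _ p.2.2⟩ := ⟨_, rfl⟩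
  have hi : Function.Injective φ := by
    intro p q h
    rw [hφ] at h
    have h2 : rev p.1.1 ++ p.2.1 = rev q.1.1 ++ q.2.1 := congrArg Subtype.val h
    have h3 := hinj _ p.1.2 _ q.1.2 _ p.2.2 _ q.2.2 h2
    have h4 := List.append_inj h2 (by rw [rev_length, rev_length, h3])
    have h5 : p.1.1 = q.1.1 := by
      have := congrArg rev h4.1
      rwa [rev_rev, rev_rev] at this
    exact Prod.ext (Subtype.ext h5) (Subtype.ext h4.2)
  have h2 : (fun p : A × S => wE (rev p.1.1 ++ p.2.1)) = fun p => wE (φ p).1 := by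
    rw [hφ]
  rw [h2]
  unfold gf
  exact ENNReal.tsum_comp_le_tsum_of_injective hi (fun W : U => wE W.1)

/-- division by a mass -/
lemma cancel {a b : ℝ} (ha : 0 < a) (hb : 0 ≤ b) {x y g : ℝ≥0∞} (hx0 : x ≠ 0) (hx : x ≠ ⊤)
    (h : ENNReal.ofReal a * x * g ≤ ENNReal.ofReal b * (x * y)) : g ≤ ENNReal.ofReal (b / a) * y := by
  have h1 : ENNReal.ofReal b * (x * y) = ENNReal.ofReal a * x * (ENNReal.ofReal (b / a) * y) := by
    have e : b = a * (b / a) := by field_simp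
    calc ENNReal.ofReal b * (x * y) = ENNReal.ofReal (a * (b / a)) * (x * y) := by rw [← e]
      _ = _ := by
        rw [ENNReal.ofReal_mul ha.le]
        ring
  rw [h1] at h
  refine (ENNReal.mul_le_mul_iff_right ?_ ?_).1 h
  · exact mul_ne_zero (by rw [Ne, ENNReal.ofReal_eq_zero, not_le]; exact ha) hx0
  · exact ENNReal.mul_ne_top ENNReal.ofReal_ne_top hx

lemma num_eq {a b c : ℝ} (ha : 0 ≤ a) (hb : 0 ≤ b) (hc : 0 ≤ c) (x : ℝ≥0∞) :
    ENNReal.ofReal a * (ENNReal.ofReal b * (ENNReal.ofReal c * x) ^ 2) = ENNReal.ofReal (a * b * c ^ 2) * (x * x) := by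
  rw [ENNReal.ofReal_mul (by positivity), ENNReal.ofReal_mul ha, ENNReal.ofReal_pow hc]
  ring

lemma num_eq2 {a b c d : ℝ} (ha : 0 ≤ a) (hb : 0 ≤ b) (hc : 0 ≤ c) (hd : 0 ≤ d) (x y : ℝ≥0∞) :
    ENNReal.ofReal a * (ENNReal.ofReal b * ((ENNReal.ofReal c * x) * (ENNReal.ofReal d * y))) =
      ENNReal.ofReal (a * b * (c * d)) * (x * y) := by
  rw [ENNReal.ofReal_mul (by positivity), ENNReal.ofReal_mul ha, ENNReal.ofReal_mul hc]
  ring

lemma one_pow_le {M : ℝ} (hM : 1 ≤ M) {J : ℕ} (hJ : 1 ≤ J) : M ≤ M ^ J := by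
  calc M = M ^ 1 := (pow_one _).symm
    _ ≤ _ := pow_le_pow_right₀ hM hJ

/-- the joint part -/
lemma cnt_join {s w : List Bool} {al : List Bool → ℕ} {n : ℕ} (h1 : al (rev s ++ w) = s.length)
    (h2 : ∀ i, s.length ≤ i → i ≤ (rev s ++ w).length → al ((rev s ++ w).take i) = s.length) (hn : w.length = n) :
    Cnt al n (rev s ++ w) := by
  refine ⟨by rw [h1, List.length_append, rev_length, hn], fun i hi1 hi2 => ?_⟩
  rw [h1] at hi1 ⊢
  exact h2 i hi1 hi2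

end KA

open KA in
/-- **the run event for the half plane words** -/
theorem run_HL (h1 : K1) (h4 : K4') (h5 : K5) (h6 : K6) : RunC HL Xb := by
  obtain ⟨C1, k1, hC1, h1⟩ := h1
  obtain ⟨C4, hC4, h4⟩ := h4
  obtain ⟨c, lam, s0, hc, hlam, h5⟩ := h5
  obtain ⟨D, hD, hDX⟩ := Xb_pow
  have hC10 : 0 < C1 := by linarith
  have hC40 : 0 < C4 := by linarith
  have hD0 : 0 < D := by linarith
  obtain ⟨M, hM⟩ : ∃ M : ℝ, M = C4 * C1 ^ (s0 + 3) * 2 ^ (s0 + 3) * (D ^ (s0 + 3)) ^ 2 / c + 1 := ⟨_, rfl⟩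
  have hM1 : 1 ≤ M := by
    have : 0 ≤ C4 * C1 ^ (s0 + 3) * 2 ^ (s0 + 3) * (D ^ (s0 + 3)) ^ 2 / c := by positivity
    linarith
  refine ⟨C1 * M, k1, one_le_mul_of_one_le_of_one_le hC1 hM1, fun dir kc J n R δ hk hJ hδ hS => ?_⟩
  obtain ⟨A, δ', al, hδ', hmass, hA⟩ := h5 (kc + J)
  obtain ⟨η, hη, h6⟩ := h6 dir δ' hδ'
  have hU := Ub_pos (kc + J)
  have hU' := Ub_pos (kc + (J + (s0 + 3)))
  obtain ⟨S, hSd⟩ : ∃ S, S = {t | t.length = n ∧ t ∈ HL (kc + J) ∧ HasRun dir kc R t} := ⟨_, rfl⟩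
  obtain ⟨T, hTd⟩ : ∃ T, T = {t | t ∈ WL (kc + J + s0) ∧ Cnt al n t ∧ RunX η 2 (al t) kc R t} := ⟨_, rfl⟩
  rw [← hSd]
  have hglue : gf A * gf S ≤ gf T := by
    refine glue_mass (fun s hs w hw => ?_) fun s hs s' hs' w hw w' hw' he => ?_
    · rw [hSd] at hw
      obtain ⟨w1, w2, w3⟩ := hw
      obtain ⟨a1, a2, a3, a4⟩ := hA s hs
      obtain ⟨b1, b2, b3, b4⟩ := a4 w w2.2
      rw [hTd]
      refine ⟨b4 _ le_rfl w2.1, cnt_join b2 b3 w1, ?_⟩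
      rw [b2]
      exact (h6 kc R s w a1).2 w3
    · rw [hSd] at hw hw'
      have e1 := ((hA s hs).2.2.2 w hw.2.1.2).2.1
      have e2 := ((hA s' hs').2.2.2 w' hw'.2.1.2).2.1
      rw [← e1, ← e2, he]
  have hT : gf T ≤ ENNReal.ofReal C4 * (ENNReal.ofReal (C1 ^ (J + (s0 + 3)) * δ * Ub (kc + (J + (s0 + 3)))) *
      Xb (kc + (J + (s0 + 3))) ^ 2) := by
    rw [hTd]
    refine h4 η kc (kc + J + s0) n R _ hη (fun al' n' => ?_) al
    rw [show kc + J + s0 + 3 = kc + (J + (s0 + 3)) by ring]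
    exact h1 al' kc (J + (s0 + 3)) n' R δ hk (by omega) hδ hS
  have hUb : Ub (kc + (J + (s0 + 3))) ≤ 2 ^ (s0 + 3) * Ub (kc + J) := by
    have := UU_ratio_up (kc + J) (s0 + 3)
    rwa [show kc + J + (s0 + 3) = kc + (J + (s0 + 3)) by ring] at this
  have hXb : Xb (kc + (J + (s0 + 3))) ≤ ENNReal.ofReal (D ^ (s0 + 3)) * Xb (kc + J) := by
    have := hDX (kc + J) (s0 + 3)
    rwa [show kc + J + (s0 + 3) = kc + (J + (s0 + 3)) by ring] at this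
  obtain ⟨b, hb⟩ : ∃ b : ℝ, b = C4 * (C1 ^ (J + (s0 + 3)) * δ * (2 ^ (s0 + 3) * Ub (kc + J))) * (D ^ (s0 + 3)) ^ 2 :=
    ⟨_, rfl⟩
  have hb0 : 0 ≤ b := by rw [hb]; positivity
  have hmain : ENNReal.ofReal c * Xb (kc + J) * gf S ≤ ENNReal.ofReal b * (Xb (kc + J) * Xb (kc + J)) := by
    refine (mul_le_mul_left hmass (gf S)).trans (hglue.trans (hT.trans ?_))
    calc ENNReal.ofReal C4 * (ENNReal.ofReal (C1 ^ (J + (s0 + 3)) * δ * Ub (kc + (J + (s0 + 3)))) *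
          Xb (kc + (J + (s0 + 3))) ^ 2)
        ≤ ENNReal.ofReal C4 * (ENNReal.ofReal (C1 ^ (J + (s0 + 3)) * δ * (2 ^ (s0 + 3) * Ub (kc + J))) *
          (ENNReal.ofReal (D ^ (s0 + 3)) * Xb (kc + J)) ^ 2) := by
          refine mul_le_mul_right (mul_le_mul' (ENNReal.ofReal_le_ofReal ?_) (pow_le_pow_left' hXb 2)) _
          exact mul_le_mul_of_nonneg_left hUb (by positivity)
      _ = _ := by
          rw [hb]
          exact num_eq hC40.le (by positivity) (by positivity) _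
  refine (cancel hc hb0 (Xb_ne_zero _) (Xb_ne_top _) hmain).trans (mul_le_mul_left (ENNReal.ofReal_le_ofReal ?_) _)
  have e1 : b / c = C1 ^ J * (C4 * C1 ^ (s0 + 3) * 2 ^ (s0 + 3) * (D ^ (s0 + 3)) ^ 2 / c) * δ * Ub (kc + J) := by
    rw [hb, pow_add C1 J]
    ring
  rw [e1, mul_pow]
  have e2 : C4 * C1 ^ (s0 + 3) * 2 ^ (s0 + 3) * (D ^ (s0 + 3)) ^ 2 / c ≤ M ^ J := by
    refine le_trans ?_ (one_pow_le hM1 (by omega : 1 ≤ J))
    linarith
  gcongr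

namespace KA

lemma wd_HP (d : Fin 3) {t : List Bool} (ht : Saw HP oo up t) : Saw HP oo up (wd d t) := by
  have hSA : t ∈ SA := ⟨fun _ _ _ => Set.mem_univ _, ht.2⟩
  refine ⟨fun i h1 h2 => ?_, (wd_SA d hSA).2⟩
  rw [wd_length] at h2
  have h3 : 0 < lvl false (vx oo up t i) := ht.1 i h1 h2
  have h4 : lvl false (vx oo up (wd d t) i) = lvl false (vx oo up t i) := by
    unfold wd
    split_ifs
    · exact (lvl_mw t (by omega)).1
    · rfl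
  show 0 < lvl false (vx oo up (wd d t) i)
  rw [h4]
  exact h3

lemma gf_wd_le (d : Fin 3) {P Q : Set (List Bool)} (h : ∀ t ∈ P, wd d t ∈ Q) : gf P ≤ gf Q := by
  by_cases hd : d = 2
  · refine gf_mw_le fun t ht => ?_
    have h1 := h t ht
    unfold wd at h1
    rwa [if_pos hd] at h1
  · refine gf_mono fun t ht => ?_
    have h1 := h t ht
    unfold wd at h1
    rwa [if_neg hd] at h1

end KA

open KA in
/-- **the outer mark for the half plane words** -/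
theorem exs_HL (h1 : K1) (h2 : K2) (h3 : K3) (h4 : K4) (h5 : K5) (h6 : K6) : ExsL HL Xb := by
  obtain ⟨C1, k1, hC1, h1⟩ := h1
  obtain ⟨C2, k2, hC2, h2⟩ := h2
  obtain ⟨C4, hC4, h4⟩ := h4
  obtain ⟨c, lam, s0, hc, hlam, h5⟩ := h5
  obtain ⟨D, hD, hDX⟩ := Xb_pow
  obtain ⟨C0, hC0⟩ : ∃ C0, C0 = max C1 C2 := ⟨_, rfl⟩
  have hC01 : C1 ≤ C0 := hC0 ▸ le_max_left _ _
  have hC02 : C2 ≤ C0 := hC0 ▸ le_max_right _ _
  have hC1' : 1 ≤ C0 := hC1.trans hC01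
  have hC10 : 0 < C1 := by linarith
  have hC20 : 0 < C2 := by linarith
  have hC00 : 0 < C0 := by linarith
  have hC40 : 0 < C4 := by linarith
  have hD0 : 0 < D := by linarith
  obtain ⟨M, hM⟩ : ∃ M : ℝ, M = C4 * C0 ^ (s0 + 5) * 2 ^ (s0 + 5) * (D ^ (s0 + 5) * D ^ (s0 + 5)) / c + 1 := ⟨_, rfl⟩
  have hM1 : 1 ≤ M := by
    have : 0 ≤ C4 * C0 ^ (s0 + 5) * 2 ^ (s0 + 5) * (D ^ (s0 + 5) * D ^ (s0 + 5)) / c := by positivity
    linarith
  refine ⟨C0 * D * M, max k1 k2, s0 + 5, lam, one_le_mul_of_one_le_of_one_le (one_le_mul_of_one_le_of_one_le hC1' hD) hM1,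
    hlam, fun d kc J n L H m1 R δ δ' ε hk hJ hδ hδ' hε hm hL hS hS' hSS => ?_⟩
  have hk1 : k1 ≤ kc := (le_max_left _ _).trans hk
  have hk2 : k2 ≤ kc := (le_max_right _ _).trans hk
  obtain ⟨A, dl, al, hdl, hmass, hA⟩ := h5 kc
  obtain ⟨η, hη, h6⟩ := h6 (dr d) dl hdl
  have hU := Ub_pos (kc + J)
  have hU' := Ub_pos (kc + (J + (s0 + 5)))
  obtain ⟨X, hX⟩ : ∃ X : ℤ, X = 6 * ((m1 : ℤ) + 2) * 2 ^ H := ⟨_, rfl⟩
  have hX8 : X + 8 ≤ 6 * ((m1 : ℤ) + 4) * 2 ^ H := by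
    have hpw : (1 : ℤ) ≤ 2 ^ H := one_le_pow₀ (by norm_num)
    have e1 : 6 * ((m1 : ℤ) + 4) * 2 ^ H = 6 * ((m1 : ℤ) + 2) * 2 ^ H + 12 * 2 ^ H := by ring
    rw [hX, e1]
    omega
  obtain ⟨S, hSd⟩ : ∃ S, S = {t | t.length = n ∧ t ∈ HL (kc + J + 2) ∧ HasRun (dr d) kc R t ∧ ∃ i j, i ≤ n ∧ j ≤ n ∧
    6 * ((m1 : ℤ) + 4) * 2 ^ H ≤ lvl (dr d) (vx oo up t i) - lvl (dr d) (vx oo up t j)} := ⟨_, rfl⟩
  obtain ⟨T, hTd⟩ : ∃ T, T = {t | t ∈ WL (kc + J + 2 + s0) ∧ Cnt al n t ∧ RunX η 2 (al t) kc R t ∧ t.length ≤ L ∧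
    ∃ i j, i ≤ t.length ∧ j ≤ t.length ∧ X + 8 ≤ ip (vx oo up t i) η - ip (vx oo up t j) η} := ⟨_, rfl⟩
  have hfirst : gf {t | t.length = n ∧ t ∈ HL (kc + J) ∧ HR d kc R t ∧ ∃ i j, i ≤ n ∧ j ≤ n ∧
    6 * ((m1 : ℤ) + 4) * 2 ^ H ≤ lv3 d (vx oo up t i) - lv3 d (vx oo up t j)} ≤ gf S := by
    refine gf_wd_le d ?_
    rintro t ⟨t1, t2, t3, i, j, hi, hj, hij⟩
    rw [hSd]
    refine ⟨by rw [wd_length, t1], ⟨wd_WL d t2.1, wd_HP d t2.2⟩, t3, i, j, hi, hj, ?_⟩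
    rw [lvl_wd d t (by omega), lvl_wd d t (by omega)]
    exact hij
  have hglue : gf A * gf S ≤ gf T := by
    refine glue_mass (fun s hs w hw => ?_) fun s hs s' hs' w hw w' hw' he => ?_
    · rw [hSd] at hw
      obtain ⟨w1, w2, w3, i, j, hi, hj, hij⟩ := hw
      obtain ⟨a1, a2, a3, a4⟩ := hA s hs
      obtain ⟨b1, b2, b3, b4⟩ := a4 w w2.2
      have hlen : (rev s ++ w).length = s.length + n := by rw [List.length_append, rev_length, w1]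
      rw [hTd]
      refine ⟨b4 _ (by omega) w2.1, cnt_join b2 b3 w1, ?_, ?_, s.length + i, s.length + j, by omega, by omega, ?_⟩
      · rw [b2]
        exact (h6 kc R s w a1).2 w3
      · rw [hlen]
        have h7 : ((s.length + n : ℕ) : ℝ) ≤ L := by
          push_cast
          linarith
        exact_mod_cast h7
      · rw [← (h6 kc R s w a1).1 i j]
        exact hX8.trans hij
    · rw [hSd] at hw hw'
      have e1 := ((hA s hs).2.2.2 w hw.2.1.2).2.1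
      have e2 := ((hA s' hs').2.2.2 w' hw'.2.1.2).2.1
      rw [← e1, ← e2, he]
  have hT : gf T ≤ ENNReal.ofReal C4 * (ENNReal.ofReal (C0 ^ (J + (s0 + 5)) * (δ * ε + δ') * Ub (kc + (J + (s0 + 5)))) *
      Xb (kc + (J + (s0 + 5))) ^ 2) := by
    rw [hTd]
    refine h4 η kc (kc + J + 2 + s0) n X L R _ hη (fun al' n' => ?_) al
    rw [show kc + J + 2 + s0 + 3 = kc + (J + (s0 + 5)) by ring]
    have hsub : {s | Cnt al' n' s ∧ s ∈ ERMk (al' s) kc (kc + (J + (s0 + 5))) R ∧ s.length ≤ L ∧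
        ∃ i j, i ≤ s.length ∧ j ≤ s.length ∧ X ≤ lev s i - lev s j} ⊆
        {s | Cnt al' n' s ∧ s ∈ ERMk (al' s) kc (kc + (J + (s0 + 5)))
          {ms | ms ∈ R ∧ ∃ g ∈ ms, 2 ^ H ≤ hgt g ∧ g.length ≤ L}} ∪
        {s | Cnt al' n' s ∧ s ∈ ERSk (al' s) kc (J + (s0 + 5)) R {g | 2 ^ H ≤ hgt g ∧ g.length ≤ L}} := by
      rintro s ⟨s1, s2, s3, s4⟩
      rcases h3 (al' s) kc (J + (s0 + 5)) L H m1 R s hm s3 s2 (by rw [hX] at s4; exact s4) with h7 | h7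
      · exact Or.inl ⟨s1, h7⟩
      · exact Or.inr ⟨s1, h7⟩
    refine (gf_mono hsub).trans ((gf_union_le _ _).trans ((add_le_add
      (h1 al' kc (J + (s0 + 5)) n' _ δ' hk1 (by omega) hδ' hS')
      (h2 al' kc (J + (s0 + 5)) n' R _ δ ε hk2 (by omega) hδ hε hS ?_)).trans ?_))
    · intro k3 g1 g2
      have h7 := hSS k3 g1 (by omega)
      have e1 : {g | 2 ^ H ≤ hgt g ∧ g.length ≤ L} ∩ BrR (2 ^ (k3 + 4)) (2 ^ (kc + (J + (s0 + 5)) + 2)) =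
          {g | g ∈ BrR (2 ^ (k3 + 4)) (2 ^ (kc + J + (s0 + 5) + 2)) ∧ 2 ^ H ≤ hgt g ∧ g.length ≤ L} := by
        rw [show kc + (J + (s0 + 5)) + 2 = kc + J + (s0 + 5) + 2 by ring]
        ext g
        exact ⟨fun h => ⟨h.2, h.1⟩, fun h => ⟨h.2, h.1⟩⟩
      rw [e1]
      exact h7
    · rw [← add_mul, ← ENNReal.ofReal_add (by positivity) (by positivity)]
      refine mul_le_mul_left (ENNReal.ofReal_le_ofReal ?_) _
      have e1 : C1 ^ (J + (s0 + 5)) ≤ C0 ^ (J + (s0 + 5)) := pow_le_pow_left₀ hC10.le hC01 _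
      have e2 : C2 ^ (J + (s0 + 5)) ≤ C0 ^ (J + (s0 + 5)) := pow_le_pow_left₀ hC20.le hC02 _
      calc C1 ^ (J + (s0 + 5)) * δ' * Ub (kc + (J + (s0 + 5))) + C2 ^ (J + (s0 + 5)) * (δ * ε) * Ub (kc + (J + (s0 + 5)))
          ≤ C0 ^ (J + (s0 + 5)) * δ' * Ub (kc + (J + (s0 + 5))) + C0 ^ (J + (s0 + 5)) * (δ * ε) * Ub (kc + (J + (s0 + 5))) := by
            gcongr
        _ = _ := by ring
  have hUb : Ub (kc + (J + (s0 + 5))) ≤ 2 ^ (s0 + 5) * Ub (kc + J) := by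
    have := UU_ratio_up (kc + J) (s0 + 5)
    rwa [show kc + J + (s0 + 5) = kc + (J + (s0 + 5)) by ring] at this
  have hXb : Xb (kc + (J + (s0 + 5))) ≤ ENNReal.ofReal (D ^ (s0 + 5)) * Xb (kc + J) := by
    have := hDX (kc + J) (s0 + 5)
    rwa [show kc + J + (s0 + 5) = kc + (J + (s0 + 5)) by ring] at this
  have hXb2 : Xb (kc + (J + (s0 + 5))) ≤ ENNReal.ofReal (D ^ (J + (s0 + 5))) * Xb kc := hDX kc (J + (s0 + 5))
  obtain ⟨b, hb⟩ : ∃ b : ℝ, b = C4 * (C0 ^ (J + (s0 + 5)) * (δ * ε + δ') * (2 ^ (s0 + 5) * Ub (kc + J))) *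
    (D ^ (J + (s0 + 5)) * D ^ (s0 + 5)) := ⟨_, rfl⟩
  have hb0 : 0 ≤ b := by rw [hb]; positivity
  have hmain : ENNReal.ofReal c * Xb kc * gf S ≤ ENNReal.ofReal b * (Xb kc * Xb (kc + J)) := by
    refine (mul_le_mul_left hmass (gf S)).trans (hglue.trans (hT.trans ?_))
    calc ENNReal.ofReal C4 * (ENNReal.ofReal (C0 ^ (J + (s0 + 5)) * (δ * ε + δ') * Ub (kc + (J + (s0 + 5)))) *
          Xb (kc + (J + (s0 + 5))) ^ 2)
        ≤ ENNReal.ofReal C4 * (ENNReal.ofReal (C0 ^ (J + (s0 + 5)) * (δ * ε + δ') * (2 ^ (s0 + 5) * Ub (kc + J))) *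
          ((ENNReal.ofReal (D ^ (J + (s0 + 5))) * Xb kc) * (ENNReal.ofReal (D ^ (s0 + 5)) * Xb (kc + J)))) := by
          rw [sq]
          refine mul_le_mul_right (mul_le_mul' (ENNReal.ofReal_le_ofReal ?_) (mul_le_mul' hXb2 hXb)) _
          exact mul_le_mul_of_nonneg_left hUb (by positivity)
      _ = _ := by
          rw [hb]
          exact num_eq2 hC40.le (by positivity) (by positivity) (by positivity) _ _
  refine hfirst.trans ((cancel hc hb0 (Xb_ne_zero _) (Xb_ne_top _) hmain).trans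
    (mul_le_mul_left (ENNReal.ofReal_le_ofReal ?_) _))
  have e1 : b / c = C0 ^ J * D ^ J * (C4 * C0 ^ (s0 + 5) * 2 ^ (s0 + 5) * (D ^ (s0 + 5) * D ^ (s0 + 5)) / c) *
      (δ * ε + δ') * Ub (kc + J) := by
    rw [hb, pow_add C0 J, pow_add D J]
    ring
  rw [e1, mul_pow, mul_pow]
  have e2 : C4 * C0 ^ (s0 + 5) * 2 ^ (s0 + 5) * (D ^ (s0 + 5) * D ^ (s0 + 5)) / c ≤ M ^ J := by
    refine le_trans ?_ (one_pow_le hM1 (by omega : 1 ≤ J))
    linarith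
  gcongr

end EN

end HexObs
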