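import Pool.Agent.HBD.DefsK

/-!
HBD: the axis reduction (K4, K4'): a run of folds of the axis η (one of six directions) behind the mark is a run of vertical
folds behind the mark, after the initial zigzag is taken away (helper68).
-/

set_option autoImplicit false

namespace HexObs

namespace EN

open Finset TS SDN NTW NTA

open scoped ENNReal

namespace AxK

/-! ### 1. The initial zigzag -/

/-- parallel to the axis η -/
def par (η d : Pt) : Prop := d = η ∨ d = -η

instance decPar (η d : Pt) : Decidable (par η d) := inferInstanceAs (Decidable (_ ∨ _))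

/-- the directions of the zigzag that avoids the axis η -/
def zd (η : Pt) : ℕ → Pt
  | 0 => up
  | i + 1 => turn (!decide (par η (turn true (zd η i)))) (zd η i)

/-- the letters of the zigzag -/
def zl (η : Pt) (i : ℕ) : Bool := !decide (par η (turn true (zd η i)))

/-- the zigzag with q letters, the last letter makes the next step parallel to η -/
def Zq (η : Pt) (q : ℕ) : List Bool := (List.range q).map fun i => if i + 1 < q then zl η i else !(zl η i)

lemma Zq_length (η : Pt) (q : ℕ) : (Zq η q).length = q := by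
  unfold Zq
  rw [List.length_map, List.length_range]

lemma par_check : ∀ η ∈ dirs, ∀ d ∈ dirs, ¬ par η d → ∀ b : Bool,
    (par η (turn b d) ↔ b = decide (par η (turn true d))) ∧ |ip d η| ≤ 1 ∧
      (¬ par η (turn b d) → ip (turn b d) η = - ip d η) := by
  decide

lemma dir_check : ∀ e ∈ dirs, e = up ∨ e = -up ∨ e = hd true ∨ e = -hd true ∨ e = up + hd true ∨ e = -(up + hd true) := by
  decide

variable {η : Pt} {t : List Bool} {q : ℕ}

lemma zz_dir (hη : η ∈ dirs) (h : ∀ i, i < q → ¬ par η (dx up t i)) : ∀ i, i < q → dx up t i = zd η i := by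
  intro i
  induction i with
  | zero =>
    intro _
    rfl
  | succ i ih =>
    intro hi
    have h1 := ih (by omega)
    have h2 := h (i + 1) hi
    have h3 := h i (by omega)
    have h4 := (par_check η hη _ (dx_mem upd t i) h3 (tf t i)).1
    rw [dx_succ] at h2 ⊢
    have h5 : tf t i = !decide (par η (turn true (dx up t i))) := by
      rw [h4] at h2
      cases ha : tf t i <;> cases hb : decide (par η (turn true (dx up t i))) <;> simp_all
    rw [h5, h1]
    rfl

lemma take_eq (hη : η ∈ dirs) (hq : q ≤ t.length) (h : ∀ i, i < q → ¬ par η (dx up t i)) (hv : par η (dx up t q)) :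
    t.take q = Zq η q := by
  apply List.ext_getElem
  · rw [List.length_take, Zq_length]
    omega
  · intro i h1 h2
    rw [List.length_take] at h1
    have hi : i < t.length := by omega
    have e1 : (t.take q)[i] = tf t i := by
      rw [List.getElem_take]
      unfold tf
      rw [List.getD_eq_getElem _ _ hi]
    have e2 : (Zq η q)[i] = if i + 1 < q then zl η i else !(zl η i) := by
      simp only [Zq, List.getElem_map, List.getElem_range]
    have h3 := h i (by omega)
    have h4 := (par_check η hη _ (dx_mem upd t i) h3 (tf t i)).1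
    rw [e1, e2]
    unfold zl
    rw [← zz_dir hη h i (by omega)]
    split_ifs with h5
    · have h6 := h (i + 1) h5
      rw [dx_succ, h4] at h6
      cases ha : tf t i <;> cases hb : decide (par η (turn true (dx up t i))) <;> simp_all
    · have h6 : q = i + 1 := by omega
      rw [h6, dx_succ, h4] at hv
      rw [Bool.not_not]
      exact hv

/-- the level before the first parallel step -/
lemma zz_lvl (hη : η ∈ dirs) (h : ∀ i, i < q → ¬ par η (dx up t i)) :
    ∀ i, i ≤ q → ip (vx oo up t i) η = if Even i then 0 else ip up η := by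
  have hip : ∀ i, i < q → ip (dx up t i) η = if Even i then ip up η else - ip up η := by
    intro i
    induction i with
    | zero =>
      intro _
      rw [if_pos (by decide)]
      rfl
    | succ i ih =>
      intro hi
      have h1 := ih (by omega)
      have h2 := h (i + 1) hi
      rw [dx_succ] at h2 ⊢
      rw [(par_check η hη _ (dx_mem upd t i) (h i (by omega)) (tf t i)).2.2 h2, h1]
      by_cases he : Even i
      · rw [if_pos he, if_neg (by rw [Nat.even_add_one]; simpa using he)]
      · rw [if_neg he, if_pos (Nat.even_add_one.2 he), neg_neg]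
  intro i
  induction i with
  | zero =>
    intro _
    rw [if_pos (by decide)]
    show ip oo η = 0
    simp [ip, oo]
  | succ i ih =>
    intro hi
    have h1 := ih (by omega)
    have h2 := hip i (by omega)
    have h3 : ip (vx oo up t (i + 1)) η = ip (vx oo up t i) η + ip (dx up t i) η := by
      rw [vx_succ]
      unfold ip
      simp only [Prod.fst_add, Prod.snd_add]
      ring
    rw [h3, h1, h2]
    by_cases he : Even i
    · rw [if_pos he, if_pos he, if_neg (by rw [Nat.even_add_one]; simpa using he), zero_add]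
    · rw [if_neg he, if_neg he, if_pos (Nat.even_add_one.2 he), add_neg_cancel]

lemma zz_osc (hη : η ∈ dirs) (h : ∀ i, i < q → ¬ par η (dx up t i)) {i : ℕ} (hi : i ≤ q) :
    |ip (vx oo up t i) η - ip (vx oo up t q) η| ≤ 2 := by
  rcases Nat.eq_zero_or_pos q with h0 | h0
  · rw [h0] at hi ⊢
    rw [Nat.le_zero.1 hi, sub_self, abs_zero]
    norm_num
  · have h1 := (par_check η hη _ (dx_mem upd t 0) (h 0 h0) true).2.1
    have h2 : |ip up η| ≤ 1 := h1
    rw [zz_lvl hη h i hi, zz_lvl hη h q le_rfl]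
    rw [abs_le] at h2 ⊢
    split_ifs <;> constructor <;> omega

/-! ### 2. Behind the zigzag -/

lemma ip_add_left (p q r : Pt) : ip (p + q) r = ip p r + ip q r := by
  unfold ip
  simp only [Prod.fst_add, Prod.snd_add]
  ring

lemma ip_neg_right (p r : Pt) : ip p (-r) = - ip p r := by
  unfold ip
  simp only [Prod.fst_neg, Prod.snd_neg]
  ring

lemma ip_add_right (p q r : Pt) : ip p (q + r) = ip p q + ip p r := by
  unfold ip
  simp only [Prod.fst_add, Prod.snd_add]
  ring

lemma ip_mulE {u : Pt} (hu : nrm u = 1) (p r : Pt) : ip (mulE u p) (mulE u r) = ip p r := by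
  unfold nrm at hu
  unfold ip mulE
  linear_combination (2 * (p.1 * r.1 + p.2 * r.2) + p.1 * r.2 + p.2 * r.1) * hu

/-- the part behind a parallel step, in its own frame -/
lemma drop_dir (hq : q ≤ t.length) (hv : par η (dx up t q)) :
    ∃ (σ : ℤ) (u : Pt), (σ = 1 ∨ σ = -1) ∧ nrm u = 1 ∧
      (∀ j, vx oo up t (q + j) = vx oo up t q + mulE u (vx oo up (t.drop q) j)) ∧
      ∀ j, ip (vx oo up t (q + j)) η = ip (vx oo up t q) η + σ * lev (t.drop q) j := by
  obtain ⟨s, hs⟩ : ∃ s, s = t.take q := ⟨_, rfl⟩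
  obtain ⟨r, hr⟩ : ∃ r, r = t.drop q := ⟨_, rfl⟩
  have ht : t = s ++ r := by
    rw [hs, hr, List.take_append_drop]
  have hl : s.length = q := by
    rw [hs, List.length_take]
    omega
  have h1 : ∀ j, vx oo up t (q + j) = vx (vx oo up t q) (dx up t q) r j := by
    intro j
    rw [ht, ← hl]
    unfold vx dx
    rw [vs_shift]
    apply vs_congr
    intro k _
    exact tf_append_right k
  rw [← hr]
  have hu : mulE (rotTo up (dx up t q)) up = dx up t q := rotTo_apply _ upd
  have hn : nrm (rotTo up (dx up t q)) = 1 := nrm_rotTo upd (dx_mem upd t q)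
  obtain ⟨u, hu'⟩ : ∃ u, u = rotTo up (dx up t q) := ⟨_, rfl⟩
  rw [← hu'] at hu hn
  have h2 : ∀ j, vx oo up t (q + j) = vx oo up t q + mulE u (vx oo up r j) := by
    intro j
    rw [h1, ← hu, vx_mulE u oo]
    congr 2
    exact sub_zero _
  rcases hv with h | h
  · refine ⟨1, u, Or.inl rfl, hn, h2, fun j => ?_⟩
    rw [h2, ip_add_left, ← h, ← hu, ip_mulE hn, one_mul]
    rfl
  · refine ⟨-1, u, Or.inr rfl, hn, h2, fun j => ?_⟩
    have h3 : η = - mulE u up := by
      rw [hu, h, neg_neg]
    rw [h2, ip_add_left, h3, ip_neg_right (mulE u _), ip_mulE hn]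
    show _ = _ + -1 * ip (vx oo up r j) up
    ring

/-- the box of the part behind a parallel step -/
lemma drop_WL {K : ℕ} {u : Pt} (ht : t ∈ WL K) (hq : q ≤ t.length) (hn : nrm u = 1)
    (h : ∀ j, vx oo up t (q + j) = vx oo up t q + mulE u (vx oo up (t.drop q) j)) : t.drop q ∈ WL (K + 3) := by
  refine ⟨⟨fun _ _ _ => Set.mem_univ _, ?_⟩, ?_⟩
  · intro i k hik hk heq
    rw [List.length_drop] at hk
    exact ht.1.inj (q + i) (q + k) (by omega) (by omega) (by rw [h i, h k, heq])
  · intro i hi dir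
    rw [List.length_drop] at hi
    have hX : (1 : ℤ) ≤ 2 ^ K := one_le_pow₀ (by norm_num)
    have a1 := ht.2 (q + i) (by omega) true
    have a2 := ht.2 (q + i) (by omega) false
    have a3 := ht.2 q hq true
    have a4 := ht.2 q hq false
    have e3 : (2 : ℤ) ^ (K + 3) = 8 * 2 ^ K := by ring
    have b0 : lvl dir (vx oo up (t.drop q) i) = ip (mulE u (vx oo up (t.drop q) i)) (mulE u (hd dir)) :=
      (ip_mulE hn _ _).symm
    have hd0 : nrm (mulE u (hd dir)) = 1 := by
      rw [nrm_mulE, hn]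
      cases dir <;> decide
    have b1 := dir_check _ (mem_dirs.2 hd0)
    have b2 : ∀ dir', ip (mulE u (vx oo up (t.drop q) i)) (hd dir') = lvl dir' (vx oo up t (q + i)) - lvl dir' (vx oo up t q) := by
      intro dir'
      show _ = ip _ _ - ip _ _
      rw [h i, ip_add_left]
      ring
    have b3 := b2 true
    have b4 : ip (mulE u (vx oo up (t.drop q) i)) up = lvl false (vx oo up t (q + i)) - lvl false (vx oo up t q) := b2 false
    rw [e3]
    unfold row at a1 a2 a3 a4 ⊢
    rw [b0]
    rw [abs_le] at a1 a2 a3 a4 ⊢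
    obtain ⟨X, hXX⟩ : ∃ X : ℤ, X = 2 ^ K := ⟨_, rfl⟩
    rw [← hXX] at a1 a2 a3 a4 hX ⊢
    rcases b1 with h' | h' | h' | h' | h' | h' <;> rw [h'] <;>
      (try simp only [ip_neg_right, ip_add_right]) <;> omega

/-- **the run behind the zigzag** -/
theorem run_drop (hη : η ∈ dirs) {kc K a : ℕ} {R : Set (List (List Bool))} (hW : t ∈ WL K) (hrun : RunX η 2 a kc R t) :
    ∃ (q : ℕ) (σ : ℤ), q ≤ t.length ∧ t.take q = Zq η q ∧ (σ = 1 ∨ σ = -1) ∧
      (∀ i, i ≤ q → |ip (vx oo up t i) η - ip (vx oo up t q) η| ≤ 2) ∧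
      (∀ j, ip (vx oo up t (q + j)) η = ip (vx oo up t q) η + σ * lev (t.drop q) j) ∧
      t.drop q ∈ ERMk (a - q) kc (K + 3) R := by
  classical
  obtain ⟨m, u, e, hL, l, d, hl, hd, hm, hae, hR⟩ := hrun
  have hRR : (4 : ℤ) < RR (kc + 5) := by
    unfold RR
    have h1 : (2 : ℤ) ^ 5 ≤ 2 ^ (kc + 5) := pow_le_pow_right₀ (by norm_num) (by omega)
    norm_num at h1
    omega
  have hbig := hL.big 0 (by omega)
  have hmon : ∀ j, j ≤ m → e j ≤ t.length := fun j hj => (hL.monoA hj le_rfl).trans hL.le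
  have hex : ∃ q, q ≤ t.length ∧ par η (dx up t q) := by
    by_contra hc
    push Not at hc
    have h1 : ∀ i, i < t.length → ¬ par η (dx up t i) := fun i hi => hc i hi.le
    have h2 := zz_osc hη h1 (hmon 0 (by omega))
    have h3 := zz_osc hη h1 (hmon 1 (by omega))
    simp only [zero_add, add_zero] at hbig
    rw [abs_le] at h2 h3
    unfold Tight.sg at hbig
    split_ifs at hbig <;> omega
  obtain ⟨hq, hv⟩ := Nat.find_spec hex
  have hmin : ∀ i, i < Nat.find hex → ¬ par η (dx up t i) := fun i hi h => Nat.find_min hex hi ⟨by omega, h⟩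
  set q := Nat.find hex
  obtain ⟨σ, v, hσ, hn, h0, h1⟩ := drop_dir hq hv
  have hWd := drop_WL hW hq hn h0
  refine ⟨q, σ, hq, take_eq hη hq hmin hv, hσ, fun i hi => zz_osc hη hmin hi, h1, hWd, ?_⟩
  -- the folds
  obtain ⟨m', rfl⟩ : ∃ m', m = m' + 1 := ⟨m - 1, by omega⟩
  obtain ⟨c, e', hc, hH, he⟩ := RD.hyst_tail (F := fun i => ip (vx oo up t i) η) (q := q) hRR
    (fun i hi => zz_osc hη hmin hi) hL
  obtain ⟨u', hH'⟩ := RD.hyst_sgn (f := fun i => lvl false (vx oo up (t.drop q) i)) (c := ip (vx oo up t q) η) hσ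
    (fun i _ => h1 i) hH
  rw [← List.length_drop] at hH'
  refine ⟨m' + 1 - c, u', e', hH', l - c, d, by omega, hd, by omega, ?_, ?_⟩
  · have e1 := he (l - c) (by omega) (by omega)
    rw [show l - c + c = l by omega] at e1
    omega
  · have h4 : lws (t.drop q) e' (l - c) d = lws t e l d := by
      unfold lws
      apply List.map_congr_left
      intro i hi
      rw [List.mem_range] at hi
      have e1 := he (l - c + i) (by omega) (by omega)
      have e2 := he (l - c + i + 1) (by omega) (by omega)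
      rw [show l - c + i + c = l + i by omega] at e1
      rw [show l - c + i + 1 + c = l + i + 1 by omega] at e2
      have e3 : e' (l - c + i) < e' (l - c + i + 1) := hH.lt (l - c + i) (by omega)
      rw [e1, e2, RD.lw_dropQ (by omega)]
    rw [h4]
    exact hR

/-! ### 3. The weights -/

lemma gf_zq (η : Pt) (q : ℕ) (S : Set (List Bool)) {c : ℝ≥0∞} (hS : gf S ≤ c) :
    gf {t | ∃ s ∈ S, t = Zq η q ++ s} ≤ ENNReal.ofReal (xc ^ q) * c := by
  have h3 : gf ({Zq η q} : Set (List Bool)) = ENNReal.ofReal (xc ^ q) := by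
    have := gf_finset {Zq η q}
    rw [Finset.coe_singleton, Finset.sum_singleton, Zq_length] at this
    exact this
  rw [← h3]
  refine (gf_le_mul (R := S) fun t ht => ?_).trans (mul_le_mul_right hS _)
  obtain ⟨s, hs, h4⟩ := ht
  exact ⟨Zq η q, rfl, s, hs, h4⟩

/-- **the axis reduction with a further property P** -/
theorem axis_red (hη : η ∈ dirs) (kc K n : ℕ) (R : Set (List (List Bool))) (c : ℝ≥0∞) (P Q : List Bool → Prop)
    (hPQ : ∀ (q : ℕ) (t : List Bool) (σ : ℤ), q ≤ t.length → (σ = 1 ∨ σ = -1) →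
      (∀ i, i ≤ q → |ip (vx oo up t i) η - ip (vx oo up t q) η| ≤ 2) →
      (∀ j, ip (vx oo up t (q + j)) η = ip (vx oo up t q) η + σ * lev (t.drop q) j) → P t → Q (t.drop q))
    (hc : ∀ (al' : List Bool → ℕ) (n' : ℕ), gf {s | Cnt al' n' s ∧ s ∈ ERMk (al' s) kc (K + 3) R ∧ Q s} ≤ c)
    (al : List Bool → ℕ) :
    gf {t | t ∈ WL K ∧ Cnt al n t ∧ RunX η 2 (al t) kc R t ∧ P t} ≤ ENNReal.ofReal (2 * DirA.CD) * c := by
  have hCD := DirA.CD_ge
  obtain ⟨S1, hS1⟩ : ∃ S1 : ℕ → Set (List Bool), S1 = fun q => {s | Cnt (fun s => al (Zq η q ++ s) - q) n s ∧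
    s ∈ ERMk (al (Zq η q ++ s) - q) kc (K + 3) R ∧ Q s} := ⟨_, rfl⟩
  obtain ⟨S2, hS2⟩ : ∃ S2 : ℕ → Set (List Bool), S2 = fun q => {s | Cnt (fun _ => 0) (al (Zq η q) + n - q) s ∧
    s ∈ ERMk 0 kc (K + 3) R ∧ Q s} := ⟨_, rfl⟩
  have hsub : {t | t ∈ WL K ∧ Cnt al n t ∧ RunX η 2 (al t) kc R t ∧ P t} ⊆
      ⋃ q : ℕ, ({t | ∃ s ∈ S1 q, t = Zq η q ++ s} ∪ {t | ∃ s ∈ S2 q, t = Zq η q ++ s}) := by
    rintro t ⟨hW, ⟨hlen, hal⟩, hrun, hP⟩
    obtain ⟨q, σ, hq, htk, hσ, h1, h2, h3⟩ := run_drop hη hW hrun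
    have ht : Zq η q ++ t.drop q = t := by
      rw [← htk, List.take_append_drop]
    have hQ := hPQ q t σ hq hσ h1 h2 hP
    rw [Set.mem_iUnion]
    refine ⟨q, ?_⟩
    rcases Nat.lt_or_ge (al t) q with hcs | hcs
    · right
      refine ⟨t.drop q, ?_, ht.symm⟩
      rw [hS2]
      have h4 : al (Zq η q) = al t := by
        rw [← htk]
        exact hal q hcs.le hq
      refine ⟨⟨?_, fun _ _ _ => rfl⟩, ?_, hQ⟩
      · rw [List.length_drop, h4, hlen, zero_add]
      · rwa [show al t - q = 0 by omega] at h3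
    · left
      refine ⟨t.drop q, ?_, ht.symm⟩
      rw [hS1]
      refine ⟨⟨?_, ?_⟩, ?_, hQ⟩
      · show _ = al (Zq η q ++ t.drop q) - q + n
        rw [ht, List.length_drop, hlen]
        omega
      · intro i hi1 hi2
        show al (Zq η q ++ (t.drop q).take i) - q = al (Zq η q ++ t.drop q) - q
        have hi1' : al (Zq η q ++ t.drop q) - q ≤ i := hi1
        rw [ht] at hi1' ⊢
        rw [List.length_drop] at hi2
        have h5 : Zq η q ++ (t.drop q).take i = t.take (q + i) := by
          rw [← htk, ← List.take_add]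
        rw [h5, hal (q + i) (by omega) (by omega)]
      · show t.drop q ∈ ERMk (al (Zq η q ++ t.drop q) - q) kc (K + 3) R
        rw [ht]
        exact h3
  refine (gf_mono hsub).trans ((ENNReal.tsum_iUnion_le_tsum wE _).trans ?_)
  have h2 : ∀ q : ℕ, gf ({t | ∃ s ∈ S1 q, t = Zq η q ++ s} ∪ {t | ∃ s ∈ S2 q, t = Zq η q ++ s}) ≤
      ENNReal.ofReal (xc ^ q) * (2 * c) := by
    intro q
    refine (gf_union_le _ _).trans ?_
    have a1 := gf_zq η q (S1 q) (c := c) (by rw [hS1]; exact hc (fun s => al (Zq η q ++ s) - q) n)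
    have a2 := gf_zq η q (S2 q) (c := c) (by rw [hS2]; exact hc (fun _ => 0) (al (Zq η q) + n - q))
    refine (add_le_add a1 a2).trans (le_of_eq ?_)
    ring
  refine (ENNReal.tsum_le_tsum h2).trans ?_
  rw [ENNReal.tsum_mul_right, DirA.tsum_xc, ENNReal.ofReal_mul (by norm_num), show ENNReal.ofReal 2 = 2 by norm_num]
  refine le_of_eq ?_
  ring

end AxK

/-- **K4: the reduction of the axis η to the vertical axis, with the range** -/
theorem k4 : K4 := by
  have hCD := DirA.CD_ge
  refine ⟨2 * DirA.CD, by linarith, fun η kc K n X L R c hη hc al => ?_⟩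
  refine AxK.axis_red hη kc K n R c
    (fun t => t.length ≤ L ∧ ∃ i j, i ≤ t.length ∧ j ≤ t.length ∧ X + 8 ≤ ip (vx oo up t i) η - ip (vx oo up t j) η)
    (fun s => s.length ≤ L ∧ ∃ i j, i ≤ s.length ∧ j ≤ s.length ∧ X ≤ lev s i - lev s j) ?_ hc al
  rintro q t σ hq hσ h1 h2 ⟨hL, i, j, hi, hj, hX⟩
  refine ⟨by rw [List.length_drop]; omega, ?_⟩
  have h3 : ∀ i, i ≤ t.length → ∃ i', i' ≤ (t.drop q).length ∧
      |ip (vx oo up t i) η - (ip (vx oo up t q) η + σ * lev (t.drop q) i')| ≤ 2 := by
    intro i hi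
    rcases Nat.lt_or_ge i q with h | h
    · refine ⟨0, Nat.zero_le _, ?_⟩
      rw [← h2 0, add_zero]
      exact h1 i h.le
    · refine ⟨i - q, by rw [List.length_drop]; omega, ?_⟩
      rw [← h2 (i - q), show q + (i - q) = i by omega, sub_self, abs_zero]
      norm_num
  obtain ⟨i', hi', a1⟩ := h3 i hi
  obtain ⟨j', hj', a2⟩ := h3 j hj
  rw [abs_le] at a1 a2
  rcases hσ with rfl | rfl
  · exact ⟨i', j', hi', hj', by omega⟩
  · exact ⟨j', i', hj', hi', by omega⟩

/-- **K4': the reduction of the axis η to the vertical axis** -/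
theorem k4' : K4' := by
  have hCD := DirA.CD_ge
  refine ⟨2 * DirA.CD, by linarith, fun η kc K n R c hη hc al => ?_⟩
  refine le_trans (gf_mono ?_) (AxK.axis_red hη kc K n R c (fun _ => True) (fun _ => True) (fun _ _ _ _ _ _ _ _ => trivial)
    (fun al' n' => le_trans (gf_mono ?_) (hc al' n')) al)
  · rintro t ⟨h1, h2, h3⟩
    exact ⟨h1, h2, h3, trivial⟩
  · rintro s ⟨h1, h2, -⟩
    exact ⟨h1, h2⟩

end EN

end HexObs
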