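import Pool.Agent.HBD.HLDefs
import Pool.Agent.EN.OutExS
import Pool.Agent.NTA.Quan
import Pool.Agent.BAR.PwGlue

/-!
HBD: the literal statements for words v = A w with an initial part A whose letters are not counted.
-/

set_option autoImplicit false

namespace HexObs

namespace EN

open Finset TS SDN NTW NTA

open scoped ENNReal

/-- n letters behind the mark al t; the mark is determined by every prefix that contains it -/
def Cnt (al : List Bool → ℕ) (n : ℕ) (t : List Bool) : Prop :=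
  t.length = al t + n ∧ ∀ i, al t ≤ i → i ≤ t.length → al (t.take i) = al t

/-- ERM with the run behind the letter a -/
def ERMk (a kc K : ℕ) (R : Set (List (List Bool))) : Set (List Bool) :=
  {t | t ∈ WL K ∧ ∃ (m u : ℕ) (e : ℕ → ℕ), Lf false (kc + 5) t m u e ∧ ∃ l d : ℕ, 1 ≤ l ∧ 1 ≤ d ∧ l + d + 1 ≤ m ∧
    a ≤ e l ∧ lws t e l d ∈ R}

/-- ERS with the run behind the letter a -/
def ERSk (a kc J : ℕ) (R : Set (List (List Bool))) (S : Set (List Bool)) : Set (List Bool) :=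
  {t | t ∈ WL (kc + J) ∧ ∃ (r u p d : ℕ) (E : ℕ → ℕ), p + d < r ∧ a ≤ E p ∧ FoldG t r u E ∧
    (∀ gs, RepG t r u E gs → (∀ g ∈ gs, g ∈ BrR (2 ^ (kc + 4)) (2 ^ (kc + J + 2))) →
      (gs.drop p).take (d + 1) ∈ R ∧
        ((1 ≤ p ∧ gs.headD [] ∈ S) ∨ (p + d + 1 < r ∧ gs.getLastD [] ∈ S))) ∧
    (∀ q, q < r → RR (kc + 5) ≤ RG t u E q) ∧ (∀ q, q + 1 < p → RG t u E (q + 1) ≤ RG t u E q) ∧
    (∀ q, p + d < q → q + 1 < r → RG t u E q ≤ RG t u E (q + 1)) ∧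
    (∀ i, i < E 0 → Tight.sg u (lev t i) - Tight.sg u (lev t (E 0)) ≤ if p = 0 then RR (kc + 5) else RG t u E 0) ∧
    (∀ i, E r < i → i ≤ t.length → Tight.sg (u + (r - 1)) (lev t (E r)) - Tight.sg (u + (r - 1)) (lev t i) ≤
      if p + d + 1 = r then RR (kc + 5) else RG t u E (r - 1))}

/-- K1 (65): the event theorem for runs, the letters before the mark not counted -/
def K1 : Prop := ∃ (C : ℝ) (k0 : ℕ), 1 ≤ C ∧
  ∀ (al : List Bool → ℕ) (kc J n : ℕ) (R : Set (List (List Bool))) (δ : ℝ), k0 ≤ kc → 6 ≤ J → 0 < δ → SmRX DmJ kc R δ →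
  gf {t | Cnt al n t ∧ t ∈ ERMk (al t) kc (kc + J) R} ≤ ENNReal.ofReal (C ^ J * δ * Ub (kc + J)) * Xb (kc + J) ^ 2

/-- K2 (89): the outer mark, the letters before the mark not counted -/
def K2 : Prop := ∃ (C : ℝ) (k0 : ℕ), 1 ≤ C ∧
  ∀ (al : List Bool → ℕ) (kc J n : ℕ) (R : Set (List (List Bool))) (S : Set (List Bool)) (δ ε : ℝ), k0 ≤ kc → 6 ≤ J →
  0 < δ → 0 < ε → SmRX DmJ kc R δ →
  (∀ k1, kc ≤ k1 → k1 ≤ kc + J → SmD DmJ k1 (S ∩ BrR (2 ^ (k1 + 4)) (2 ^ (kc + J + 2))) ε) →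
  gf {t | Cnt al n t ∧ t ∈ ERSk (al t) kc J R S} ≤
    ENNReal.ofReal (C ^ J * (δ * ε) * Ub (kc + J)) * Xb (kc + J) ^ 2

/-- K3 (72): the geometry of a large range; L bounds all the letters -/
def K3 : Prop := ∀ (a kc J L H m1 : ℕ) (R : Set (List (List Bool))) (t : List Bool), (∀ ms ∈ R, ms.length ≤ m1) →
  t.length ≤ L → t ∈ ERMk a kc (kc + J) R →
  (∃ i j, i ≤ t.length ∧ j ≤ t.length ∧ 6 * ((m1 : ℤ) + 2) * 2 ^ H ≤ lev t i - lev t j) →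
  t ∈ ERMk a kc (kc + J) {ms | ms ∈ R ∧ ∃ g ∈ ms, 2 ^ H ≤ hgt g ∧ g.length ≤ L} ∨
    t ∈ ERSk a kc J R {g | 2 ^ H ≤ hgt g ∧ g.length ≤ L}

/-- the folds of t in the direction of the axis η (one of the six directions) -/
def LfX (η : Pt) (b : ℕ) (t : List Bool) (m u : ℕ) (e : ℕ → ℕ) : Prop :=
  Hyst (fun i => ip (vx oo up t i) η) t.length (RR b) m u e

/-- t has a run in R of folds of the axis η behind the letter a, with l leaves before it -/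
def RunX (η : Pt) (l0 a kc : ℕ) (R : Set (List (List Bool))) (t : List Bool) : Prop :=
  ∃ (m u : ℕ) (e : ℕ → ℕ), LfX η (kc + 5) t m u e ∧ ∃ l d : ℕ, l0 ≤ l ∧ 1 ≤ d ∧ l + d + 1 ≤ m ∧ a ≤ e l ∧ lws t e l d ∈ R

/-- K4 (68): the reduction of the axis η to the vertical axis: E is any class of words, F the class of the vertical words;
t = (zigzag with q letters) ++ s, the run and the range go over -/
def K4 : Prop := ∃ C : ℝ, 1 ≤ C ∧ ∀ (η : Pt) (kc K n : ℕ) (X : ℤ) (L : ℕ) (R : Set (List (List Bool))) (c : ℝ≥0∞),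
  η ∈ dirs →
  (∀ (al' : List Bool → ℕ) (n' : ℕ), gf {s | Cnt al' n' s ∧ s ∈ ERMk (al' s) kc (K + 3) R ∧ s.length ≤ L ∧
    ∃ i j, i ≤ s.length ∧ j ≤ s.length ∧ X ≤ lev s i - lev s j} ≤ c) →
  ∀ al : List Bool → ℕ, gf {t | t ∈ WL K ∧ Cnt al n t ∧ RunX η 2 (al t) kc R t ∧ t.length ≤ L ∧
    ∃ i j, i ≤ t.length ∧ j ≤ t.length ∧ X + 8 ≤ ip (vx oo up t i) η - ip (vx oo up t j) η} ≤ ENNReal.ofReal C * c

/-- K4 without range (take X negative in K4, or separately) -/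
def K4' : Prop := ∃ C : ℝ, 1 ≤ C ∧ ∀ (η : Pt) (kc K n : ℕ) (R : Set (List (List Bool))) (c : ℝ≥0∞),
  η ∈ dirs →
  (∀ (al' : List Bool → ℕ) (n' : ℕ), gf {s | Cnt al' n' s ∧ s ∈ ERMk (al' s) kc (K + 3) R} ≤ c) →
  ∀ al : List Bool → ℕ, gf {t | t ∈ WL K ∧ Cnt al n t ∧ RunX η 2 (al t) kc R t} ≤ ENNReal.ofReal C * c

/-- K5 (14): the initial parts rev s: s without cuts, in a box, short, all with the same direction δ of the joint;
their weight is at least c Xb k; al finds the joint; the box of the joined word -/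
def K5 : Prop := ∃ (c lam : ℝ) (s0 : ℕ), 0 < c ∧ 1 ≤ lam ∧ ∀ k : ℕ, ∃ (A : Set (List Bool)) (δ : Pt)
  (al : List Bool → ℕ), δ ∈ dirs ∧ ENNReal.ofReal c * Xb k ≤ gf A ∧ ∀ s ∈ A, BAR.jd s = δ ∧
    (s.length : ℝ) ≤ lam * PW.mZ (2 ^ k) ∧ BX (2 ^ (k + s0)) s ∧
    ∀ w : List Bool, Saw HP oo up w → rev s ++ w ∈ SA ∧ al (rev s ++ w) = s.length ∧
      (∀ i, s.length ≤ i → i ≤ (rev s ++ w).length → al ((rev s ++ w).take i) = s.length) ∧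
      ∀ K : ℕ, k ≤ K → w ∈ WL K → rev s ++ w ∈ WL (K + s0)

/-- K6 (48): the run and the range of w go over to rev s ++ w; η = the axis dir of w in the frame of the joint -/
def K6 : Prop := ∀ (dir : Bool) (δ : Pt), δ ∈ dirs → ∃ η ∈ dirs, ∀ (kc : ℕ) (R : Set (List (List Bool))) (s w : List Bool),
  BAR.jd s = δ → (∀ i j, lvl dir (vx oo up w i) - lvl dir (vx oo up w j) =
    ip (vx oo up (rev s ++ w) (s.length + i)) η - ip (vx oo up (rev s ++ w) (s.length + j)) η) ∧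
  ((∃ (m u : ℕ) (e : ℕ → ℕ), Lf dir (kc + 5) w m u e ∧ ∃ l d : ℕ, 2 ≤ l ∧ 1 ≤ d ∧ l + d + 1 ≤ m ∧ lws w e l d ∈ R) →
    RunX η 2 s.length kc R (rev s ++ w))

/-- ExsC with a bound L of the letters of the marks (L ≥ n + lam mZ (2 ^ kc)) and b0 more scales -/
def ExsL (E : ℕ → Set (List Bool)) (X : ℕ → ℝ≥0∞) : Prop := ∃ (C : ℝ) (k0 b0 : ℕ) (lam : ℝ), 1 ≤ C ∧ 1 ≤ lam ∧
  ∀ (d : Fin 3) (kc J n L H m1 : ℕ) (R : Set (List (List Bool))) (δ δ' ε : ℝ),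
  k0 ≤ kc → 6 ≤ J → 0 < δ → 0 < δ' → 0 < ε → (∀ ms ∈ R, ms.length ≤ m1) → (n : ℝ) + lam * PW.mZ (2 ^ kc) ≤ L →
  SmRX DmJ kc R δ → SmRX DmJ kc {ms | ms ∈ R ∧ ∃ g ∈ ms, 2 ^ H ≤ hgt g ∧ g.length ≤ L} δ' →
  (∀ k1, kc ≤ k1 → k1 ≤ kc + J + b0 →
    SmD DmJ k1 {g | g ∈ BrR (2 ^ (k1 + 4)) (2 ^ (kc + J + b0 + 2)) ∧ 2 ^ H ≤ hgt g ∧ g.length ≤ L} ε) →
  gf {t | t.length = n ∧ t ∈ E (kc + J) ∧ HR d kc R t ∧ ∃ i j, i ≤ n ∧ j ≤ n ∧
    6 * ((m1 : ℤ) + 4) * 2 ^ H ≤ lv3 d (vx oo up t i) - lv3 d (vx oo up t j)} ≤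
    ENNReal.ofReal (C ^ J * (δ * ε + δ') * Ub (kc + J)) * X (kc + J)

end EN

end HexObs
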