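import Pool.Agent.HBD.EspG

/-!
HBD: the words of a class with exactly n letters are an ensemble; the tail of their infixes.
-/

set_option autoImplicit false

namespace HexObs

namespace EN

open Finset TS SDN NTW NTA

open scoped ENNReal

namespace CX

/-- **the words of the class with exactly n letters, all n, are an ensemble** -/
theorem ensC {E : ℕ → Set (List Bool)} {X : ℕ → ℝ≥0∞} (hcl : ClsX E X) (hR : RunC E X) {m : ℕ → ℝ} (hm : MLow m)
    (hu : MUp m) {J0 : ℕ} (hGB : GBm m J0) :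
    EnsR (fun n K => {t | t ∈ E K ∧ t.length = n}) (fun K => ENNReal.ofReal (Ub K / m K) * X K)
      (fun kc R δ => SmRX DmJ kc R (δ / m kc)) := by
  have hmp := hm.pos
  obtain ⟨Cm, hCm, hup⟩ := TI.mup_pow hu
  obtain ⟨qs, hqs⟩ := sq_two hcl
  refine ⟨fun n K t ht => hcl.sub K ht.1, ?_, ?_, fun mu => crowd_x hmp hGB mu, fill_x hmp hGB, ?_, ?_⟩
  · obtain ⟨C, k0, hC, h⟩ := hR
    have hC0 : 0 < C := by linarith
    have hCm0 : 0 < Cm := by linarith
    refine ⟨C * Cm, k0, one_le_mul_of_one_le_of_one_le hC hCm, fun n dir kc J R δ hk hJ hδ hS => ?_⟩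
    have hmk := hmp kc
    have hmK := hmp (kc + J)
    have hU := Ub_pos (kc + J)
    have h1 := h dir kc J n R (δ / m kc) hk hJ (by positivity) hS
    refine (gf_mono fun t ht => ?_).trans (h1.trans ?_)
    · exact ⟨ht.1.2, ht.1.1, ht.2⟩
    · rw [← mul_assoc, ← ENNReal.ofReal_mul (by positivity)]
      refine mul_le_mul_left (ENNReal.ofReal_le_ofReal ?_) _
      have e1 := hup kc J
      have e2 : 1 / m kc ≤ Cm ^ J / m (kc + J) := by
        rw [div_le_div_iff₀ hmk hmK, one_mul]
        exact e1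
      calc C ^ J * (δ / m kc) * Ub (kc + J) = C ^ J * δ * Ub (kc + J) * (1 / m kc) := by ring
        _ ≤ C ^ J * δ * Ub (kc + J) * (Cm ^ J / m (kc + J)) := by gcongr
        _ = (C * Cm) ^ J * δ * (Ub (kc + J) / m (kc + J)) := by
            rw [mul_pow]
            ring
  · intro kc R δ δ' h1 h2
    have := hmp kc
    exact SmRX.le h1 (by gcongr)
  · obtain ⟨C, hC, h⟩ := tot_WL
    have hC0 : 0 < C := by linarith
    have hCm0 : 0 < Cm := by linarith
    have h0 := hmp 0
    refine ⟨C * Cm * (m 0 + 1) * 2 ^ qs, ?_, fun n K => ?_⟩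
    · exact one_le_mul_of_one_le_of_one_le (one_le_mul_of_one_le_of_one_le (one_le_mul_of_one_le_of_one_le hC hCm)
        (by linarith)) (one_le_pow₀ (by norm_num))
    · have hU := Ub_pos K
      have hmK := hmp K
      have h1 : gf {t | t ∈ E K ∧ t.length = n} ≤ gf (WL K) := gf_mono fun t ht => hcl.sub K ht.1
      refine h1.trans ((h K).trans ((mul_le_mul_right (mul_le_mul_right (hqs K (K + 1) le_rfl) _) _).trans ?_))
      rw [← mul_assoc (ENNReal.ofReal (Ub K)) _ (X K), ← ENNReal.ofReal_mul (by positivity),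
        ← mul_assoc (ENNReal.ofReal C) _ (X K), ← ENNReal.ofReal_mul (by positivity),
        ← mul_assoc (ENNReal.ofReal ((_ : ℝ) ^ (K + 1))) _ (X K), ← ENNReal.ofReal_mul (by positivity)]
      refine mul_le_mul_left (ENNReal.ofReal_le_ofReal ?_) _
      have e1 : m K ≤ Cm ^ K * m 0 := by
        have := hup 0 K
        rwa [zero_add] at this
      have e2 : C * m K * 2 ^ (qs * (K + 1)) ≤ (C * Cm * (m 0 + 1) * 2 ^ qs) ^ (K + 1) := by
        have f1 : C ≤ C ^ (K + 1) := by
          calc C = C ^ 1 := (pow_one C).symm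
            _ ≤ _ := pow_le_pow_right₀ hC (by omega)
        have f2 : Cm ^ K ≤ Cm ^ (K + 1) := pow_le_pow_right₀ hCm (by omega)
        have f3 : m 0 + 1 ≤ (m 0 + 1) ^ (K + 1) := by
          calc m 0 + 1 = (m 0 + 1) ^ 1 := (pow_one _).symm
            _ ≤ _ := pow_le_pow_right₀ (by linarith) (by omega)
        rw [mul_pow, mul_pow, mul_pow, ← pow_mul 2 qs]
        calc C * m K * 2 ^ (qs * (K + 1)) ≤ C * (Cm ^ K * (m 0 + 1)) * 2 ^ (qs * (K + 1)) := by
              gcongr
              refine e1.trans ?_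
              gcongr
              linarith
          _ ≤ C ^ (K + 1) * (Cm ^ (K + 1) * (m 0 + 1) ^ (K + 1)) * 2 ^ (qs * (K + 1)) := by gcongr
          _ = _ := by ring
      calc C * (Ub K * 2 ^ (qs * (K + 1))) = C * m K * 2 ^ (qs * (K + 1)) * (Ub K / m K) := by
            field_simp
        _ ≤ (C * Cm * (m 0 + 1) * 2 ^ qs) ^ (K + 1) * (Ub K / m K) := by gcongr
  · obtain ⟨c, hc, h⟩ := ens_WL.low
    have hCm0 : 0 < Cm := by linarith
    have h0 := hmp 0
    refine ⟨Cm * (m 0 + 1) * (1 + 1 / c) * 2 ^ qs, ?_, fun K => ?_⟩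
    · refine one_le_mul_of_one_le_of_one_le (one_le_mul_of_one_le_of_one_le (one_le_mul_of_one_le_of_one_le hCm
        (by linarith)) ?_) (one_le_pow₀ (by norm_num))
      have : 0 < 1 / c := by positivity
      linarith
    · have hU := Ub_pos K
      have hmK := hmp K
      have e1 : m K ≤ Cm ^ K * m 0 := by
        have := hup 0 K
        rwa [zero_add] at this
      obtain ⟨P, hP⟩ : ∃ P : ℝ, P = 2 ^ (qs * (K + 1)) := ⟨_, rfl⟩
      have hP0 : 0 < P := by
        rw [hP]
        positivity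
      have hq := hqs K (K + 1) le_rfl
      rw [← hP] at hq
      have e5 : ENNReal.ofReal (1 / (m K * P)) * (ENNReal.ofReal (Ub K) * Xb K ^ 2) ≤
          ENNReal.ofReal (Ub K / m K) * X K := by
        refine (mul_le_mul_right (mul_le_mul_right hq _) _).trans (le_of_eq ?_)
        rw [← mul_assoc (ENNReal.ofReal (Ub K)) _ (X K), ← ENNReal.ofReal_mul hU.le, ← mul_assoc, ← ENNReal.ofReal_mul
          (by positivity)]
        congr 2
        field_simp
      refine le_trans ?_ e5
      refine le_trans ?_ (mul_le_mul_right (h K) _)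
      rw [← ENNReal.ofReal_mul (by positivity)]
      refine ENNReal.ofReal_le_ofReal ?_
      obtain ⟨Y, hY⟩ : ∃ Y, Y = Cm * (m 0 + 1) * (1 + 1 / c) * 2 ^ qs := ⟨_, rfl⟩
      have g1 : 1 ≤ 1 + 1 / c := by
        have : 0 < 1 / c := by positivity
        linarith
      have e2 : m K * P * (1 / c) ≤ Y ^ (K + 1) := by
        have f2 : Cm ^ K ≤ Cm ^ (K + 1) := pow_le_pow_right₀ hCm (by omega)
        have f3 : m 0 + 1 ≤ (m 0 + 1) ^ (K + 1) := by
          calc m 0 + 1 = (m 0 + 1) ^ 1 := (pow_one _).symm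
            _ ≤ _ := pow_le_pow_right₀ (by linarith) (by omega)
        have f4 : 1 / c ≤ (1 + 1 / c) ^ (K + 1) := by
          calc 1 / c ≤ (1 + 1 / c) ^ 1 := by rw [pow_one]; linarith
            _ ≤ _ := pow_le_pow_right₀ g1 (by omega)
        rw [hY, mul_pow, mul_pow, mul_pow, ← pow_mul 2 qs, ← hP]
        calc m K * P * (1 / c) ≤ (Cm ^ K * (m 0 + 1)) * P * (1 / c) := by
              gcongr
              refine e1.trans ?_
              gcongr
              linarith
          _ ≤ (Cm ^ (K + 1) * (m 0 + 1) ^ (K + 1)) * P * (1 + 1 / c) ^ (K + 1) := by gcongr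
          _ = _ := by ring
      have hYp : 0 < Y ^ (K + 1) := by
        refine lt_of_lt_of_le ?_ e2
        positivity
      rw [← hY, div_le_iff₀ hYp]
      have e6 : 1 / (m K * P) * c * (m K * P * (1 / c)) = 1 := by
        field_simp
      calc (1 : ℝ) = 1 / (m K * P) * c * (m K * P * (1 / c)) := e6.symm
        _ ≤ 1 / (m K * P) * c * Y ^ (K + 1) := by gcongr

/-- **tail of the time spent in the boxes, exactly n letters** -/
theorem extC {E : ℕ → Set (List Bool)} {X : ℕ → ℝ≥0∞} (hcl : ClsX E X) (hR : RunC E X) {m : ℕ → ℝ} (hm : MLow m)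
    (hu : MUp m) (hp : MPow m) (hL : LongN m) (hB : TB m) {J0 : ℕ} (hGB : GBm m J0) : ExtC E X m :=
  infix_tail hm hu hp hL hB (ensC hcl hR hm hu hGB)

/-- **the pointwise upper bound for a class, for the mean length of the bridges** -/
theorem upC_M {E : ℕ → Set (List Bool)} {X : ℕ → ℝ≥0∞} (hcl : ClsX E X) (hR : RunC E X) (hE : ExsC E X) :
    ∃ C : ℝ, 0 < C ∧ ∀ k n : ℕ, PW.mZ (2 ^ k) ≤ n → n < PW.mZ (2 ^ (k + 1)) →
      gf {t | (∃ K, t ∈ E K) ∧ t.length = n} ≤
        ENNReal.ofReal C * (ENNReal.ofReal (Ub k / PW.mZ (2 ^ k)) * X k) := by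
  obtain ⟨J00, hg⟩ := gbm_M
  exact upC hcl mlow_M mup_M asm_M gbu_M hE
    (extC hcl hR mlow_M mup_M mpow_M longN_M tb_M (hg J00 le_rfl))

end CX

end EN

end HexObs
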