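import Pool.Agent.EN.EspM
import Pool.Agent.EN.ExtX
import Pool.Agent.EN.FactsX

/-!
HBD: the pointwise upper bound at exactly n letters for a class E of words of the boxes, closed under the restriction of the
box, with the normalisation Ub K * X K (all words: X = Xb ^ 2, half plane words: X = Xb, bridges: X = 1).
-/

set_option autoImplicit false

namespace HexObs

namespace EN

open Finset TS SDN NTW NTA

open scoped ENNReal

/-- a class E of words of the boxes with the normalisation X -/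
structure ClsX (E : ℕ → Set (List Bool)) (X : ℕ → ℝ≥0∞) : Prop where
  sub : ∀ K, E K ⊆ WL K
  her : ∀ (K K' : ℕ) (t : List Bool), t ∈ E K → t ∈ WL K' → t ∈ E K'
  dbl : ∃ D : ℝ, 1 ≤ D ∧ ∀ k j : ℕ, X (k + j) ≤ ENNReal.ofReal (D ^ j) * X k
  sq : ∃ D : ℝ, 1 ≤ D ∧ ∀ k : ℕ, Xb k ^ 2 ≤ ENNReal.ofReal (D ^ (k + 1)) * X k

/-- the event theorem for runs of interior leaves in the class, two directions, exactly n letters -/
def RunC (E : ℕ → Set (List Bool)) (X : ℕ → ℝ≥0∞) : Prop := ∃ (C : ℝ) (k0 : ℕ), 1 ≤ C ∧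
  ∀ (dir : Bool) (kc J n : ℕ) (R : Set (List (List Bool))) (δ : ℝ), k0 ≤ kc → 6 ≤ J → 0 < δ → SmRX DmJ kc R δ →
  gf {t | t.length = n ∧ t ∈ E (kc + J) ∧ HasRun dir kc R t} ≤ ENNReal.ofReal (C ^ J * δ * Ub (kc + J)) * X (kc + J)

/-- the event theorem with an outer mark in the class, three directions, exactly n letters -/
def ExsC (E : ℕ → Set (List Bool)) (X : ℕ → ℝ≥0∞) : Prop := ∃ (C : ℝ) (k0 : ℕ), 1 ≤ C ∧
  ∀ (d : Fin 3) (kc J n H m1 : ℕ) (R : Set (List (List Bool))) (δ δ' ε : ℝ),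
  k0 ≤ kc → 6 ≤ J → 0 < δ → 0 < δ' → 0 < ε → (∀ ms ∈ R, ms.length ≤ m1) → SmRX DmJ kc R δ →
  SmRX DmJ kc {ms | ms ∈ R ∧ ∃ g ∈ ms, 2 ^ H ≤ hgt g ∧ g.length ≤ n} δ' →
  (∀ k1, kc ≤ k1 → k1 ≤ kc + J + 8 →
    SmD DmJ k1 {g | g ∈ BrR (2 ^ (k1 + 4)) (2 ^ (kc + J + 10)) ∧ 2 ^ H ≤ hgt g ∧ g.length ≤ n} ε) →
  gf {t | t.length = n ∧ t ∈ E (kc + J) ∧ HR d kc R t ∧ ∃ i j, i ≤ n ∧ j ≤ n ∧
    6 * ((m1 : ℤ) + 3) * 2 ^ H ≤ lv3 d (vx oo up t i) - lv3 d (vx oo up t j)} ≤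
    ENNReal.ofReal (C ^ J * (δ * ε + δ') * Ub (kc + J)) * X (kc + J)

/-- the tail of the infixes in the class, exactly n letters -/
def ExtC (E : ℕ → Set (List Bool)) (X : ℕ → ℝ≥0∞) (m : ℕ → ℝ) : Prop := ∃ C : ℝ, 1 ≤ C ∧ ∀ Q : ℕ, ∃ A : ℝ, 1 ≤ A ∧
  ∀ (n K l : ℕ) (lam : ℝ), l ≤ K → 1 ≤ lam →
  gf {t | (t ∈ E K ∧ t.length = n) ∧ ∃ x z : ℕ, Bx (l + 2) t x z ∧ lam * m l ≤ (z : ℝ) - x} ≤
    ENNReal.ofReal (A / lam ^ Q * C ^ (K - l)) * (ENNReal.ofReal (Ub K / m K) * X K)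

namespace CX

/-- **the words with few leaves in two directions** -/
theorem fewC {E : ℕ → Set (List Bool)} {X : ℕ → ℝ≥0∞} (hcl : ClsX E X) {m : ℕ → ℝ} (hm : MLow m) (hX : ExtC E X m) {J : ℕ} (hJ : 1 ≤ J) : ∃ J2 : ℕ, 6 ≤ J2 ∧ ∀ Q : ℕ,
    ∃ A : ℝ, 1 ≤ A ∧ ∀ (p q : Fin 3), p ≠ q → ∀ k i n : ℕ, 8 * i + J2 ≤ k → m k ≤ n →
    gf {t | t.length = n ∧ t ∈ E (k + i) ∧ ∀ d, d = p ∨ d = q →
      ¬ HR d (k - (8 * i + J2)) (RJ (k - (8 * i + J2)) (2 ^ (k + i + 3)) J) t} ≤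
      ENNReal.ofReal (A * (1 / 2) ^ (Q * i) * (Ub k / m k)) * X k := by
  obtain ⟨C, hC, hQ⟩ := hX
  obtain ⟨D, hD, hDX⟩ := hcl.dbl
  have hm0 := hm.pos 0
  obtain ⟨c, hc⟩ : ∃ c : ℝ, c = 2 * ((J : ℝ) + 11) / m 0 + ((J : ℝ) + 6) ^ 2 * (1 + 1 / m 0) := ⟨_, rfl⟩
  have hc0 : 0 < c := by
    rw [hc]
    positivity
  obtain ⟨j, hj⟩ := two_pow_ge (c * 2 ^ 8)
  obtain ⟨j1, hj1⟩ : ∃ j1, j1 = j + 1 := ⟨_, rfl⟩
  have hjc : c * 2 ^ 8 < 2 ^ j1 := hj.trans_le (pow_le_pow_right₀ (by norm_num) (by omega))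
  obtain ⟨q1, hq1⟩ := two_pow_ge (2 * C ^ 9 * D)
  have hC0 : 0 < C := by linarith
  have hD0 : 0 < D := by linarith
  refine ⟨4 * j1 + 5, by omega, fun Q => ?_⟩
  obtain ⟨A, hA, hext⟩ := hQ (Q + q1)
  refine ⟨A * C ^ (4 * j1), one_le_mul_of_one_le_of_one_le hA (one_le_pow₀ hC), fun p q hpq k i n hk hn => ?_⟩
  obtain ⟨s, hs⟩ : ∃ s, s = k - (8 * i + (4 * j1 + 5)) := ⟨_, rfl⟩
  obtain ⟨l, hl⟩ : ∃ l, l = s + 5 := ⟨_, rfl⟩
  obtain ⟨μ, hμ⟩ : ∃ μ, μ = 9 * i + (4 * j1 + 5) - 2 := ⟨_, rfl⟩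
  rw [← hs]
  have hml := hm.pos l
  have hmk := hm.pos k
  have hA0 : 0 < A := by linarith
  have hU := Ub_pos k
  have hU2 := Ub_pos (k + i)
  have h2i : (1 : ℝ) ≤ 2 ^ i := one_le_pow₀ (by norm_num)
  -- the number of letters
  have hnum : 2 * ((J : ℝ) + 11) + ((J : ℝ) + 6) ^ 2 * (2 ^ (μ + 5) * (2 ^ i * m l + 1)) < n := by
    refine lt_of_lt_of_le ?_ hn
    have h0 : 1 ≤ m l / m 0 := by
      rw [le_div_iff₀ hm0, one_mul]
      exact hm.mono (Nat.zero_le _)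
    have h1 := hm.low l (4 * (2 * i + j1))
    rw [show l + 4 * (2 * i + j1) = k by omega] at h1
    have h2 : (2 : ℝ) ^ (5 / 4 * ((4 * (2 * i + j1) : ℕ) : ℝ)) = 2 ^ (10 * i + 5 * j1) := by
      rw [← Real.rpow_natCast]
      congr 1
      push_cast
      ring
    rw [h2] at h1
    have h3 : (1 : ℝ) ≤ 2 ^ (μ + 5) := one_le_pow₀ (by norm_num)
    have h4 : (1 : ℝ) ≤ 2 ^ (μ + 5) * 2 ^ i := one_le_mul_of_one_le_of_one_le h3 h2i
    have h5 : 2 * ((J : ℝ) + 11) + ((J : ℝ) + 6) ^ 2 * (2 ^ (μ + 5) * (2 ^ i * m l + 1)) ≤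
        c * (2 ^ (μ + 5) * 2 ^ i) * m l := by
      have e1 : 2 * ((J : ℝ) + 11) ≤ 2 * ((J : ℝ) + 11) / m 0 * (2 ^ (μ + 5) * 2 ^ i) * m l := by
        calc 2 * ((J : ℝ) + 11) = 2 * ((J : ℝ) + 11) * 1 * 1 := by ring
          _ ≤ 2 * ((J : ℝ) + 11) * (2 ^ (μ + 5) * 2 ^ i) * (m l / m 0) := by gcongr
          _ = _ := by ring
      have e2 : ((J : ℝ) + 6) ^ 2 * (2 ^ (μ + 5) * (2 ^ i * m l + 1)) ≤
          ((J : ℝ) + 6) ^ 2 * (1 + 1 / m 0) * (2 ^ (μ + 5) * 2 ^ i) * m l := by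
        have e3 : 2 ^ i * m l + 1 ≤ (1 + 1 / m 0) * 2 ^ i * m l := by
          have e4 : (1 : ℝ) ≤ 2 ^ i * (m l / m 0) := one_le_mul_of_one_le_of_one_le h2i h0
          calc 2 ^ i * m l + 1 ≤ 2 ^ i * m l + 2 ^ i * (m l / m 0) := by linarith
            _ = _ := by ring
        calc ((J : ℝ) + 6) ^ 2 * (2 ^ (μ + 5) * (2 ^ i * m l + 1)) ≤
              ((J : ℝ) + 6) ^ 2 * (2 ^ (μ + 5) * ((1 + 1 / m 0) * 2 ^ i * m l)) := by gcongr
          _ = _ := by ring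
      rw [hc]
      calc _ ≤ 2 * ((J : ℝ) + 11) / m 0 * (2 ^ (μ + 5) * 2 ^ i) * m l +
            ((J : ℝ) + 6) ^ 2 * (1 + 1 / m 0) * (2 ^ (μ + 5) * 2 ^ i) * m l := add_le_add e1 e2
        _ = _ := by ring
    have h6 : c * (2 ^ (μ + 5) * 2 ^ i) < 2 ^ (10 * i + 5 * j1) := by
      have e1 : (2 : ℝ) ^ (μ + 5) * 2 ^ i = 2 ^ 8 * 2 ^ (10 * i + 4 * j1) := by
        rw [← pow_add, ← pow_add]
        congr 1
        omega
      rw [e1, ← mul_assoc, show 10 * i + 5 * j1 = j1 + (10 * i + 4 * j1) by ring, pow_add 2 j1]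
      exact mul_lt_mul_of_pos_right hjc (by positivity)
    calc _ ≤ c * (2 ^ (μ + 5) * 2 ^ i) * m l := h5
      _ < 2 ^ (10 * i + 5 * j1) * m l := mul_lt_mul_of_pos_right h6 hml
      _ ≤ m k := h1
  -- the infix
  have hsub : {t | t.length = n ∧ t ∈ E (k + i) ∧ ∀ d, d = p ∨ d = q → ¬ HR d s (RJ s (2 ^ (k + i + 3)) J) t} ⊆
      {t | (t ∈ E (k + i) ∧ t.length = n) ∧ ∃ x z : ℕ, Bx (l + 2) t x z ∧ (2 : ℝ) ^ i * m l ≤ (z : ℝ) - x} := by
    rintro t ⟨h1, h2, h3⟩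
    refine ⟨⟨h2, h1⟩, ?_⟩
    have h4 := few_infix hpq (kc := s) (μ := μ) (S1 := 2 ^ i * m l) (hcl.sub _ h2) (by omega) hJ (by positivity) (by
      rw [show s + 5 + μ = k + i + 3 by omega]
      exact h3) (by
      rw [h1]
      exact hnum)
    rwa [show s + 7 = l + 2 by omega] at h4
  refine (gf_mono hsub).trans ((hext n (k + i) l (2 ^ i) (by omega) h2i).trans ?_)
  -- the numbers
  have hUK : Ub (k + i) ≤ 2 ^ i * Ub k := UU_ratio_up k i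
  have hmK : m k ≤ m (k + i) := hm.mono (Nat.le_add_right _ _)
  have hmK0 := hm.pos (k + i)
  have e1 : Ub (k + i) / m (k + i) ≤ 2 ^ i * (Ub k / m k) := by
    rw [← mul_div_assoc]
    exact div_le_div₀ (by positivity) hUK hmk hmK
  calc ENNReal.ofReal (A / (2 ^ i) ^ (Q + q1) * C ^ (k + i - l)) * (ENNReal.ofReal (Ub (k + i) / m (k + i)) * X (k + i))
      ≤ ENNReal.ofReal (A / (2 ^ i) ^ (Q + q1) * C ^ (k + i - l)) * (ENNReal.ofReal (2 ^ i * (Ub k / m k)) *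
          (ENNReal.ofReal (D ^ i) * X k)) := by
        refine mul_le_mul_right (mul_le_mul' (ENNReal.ofReal_le_ofReal e1) (hDX k i)) _
    _ = ENNReal.ofReal (A / (2 ^ i) ^ (Q + q1) * C ^ (k + i - l) * (2 ^ i * (Ub k / m k)) * D ^ i) * X k := by
        rw [← mul_assoc, ← mul_assoc, ← ENNReal.ofReal_mul (by positivity),
          ← ENNReal.ofReal_mul (by positivity)]
    _ ≤ _ := by
        refine mul_le_mul_left (ENNReal.ofReal_le_ofReal ?_) _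
        rw [show k + i - l = 9 * i + 4 * j1 by omega]
        have e2 : (2 * C ^ 9 * D) ^ i ≤ (2 ^ q1) ^ i := pow_le_pow_left₀ (by positivity) hq1.le i
        have e3 : A / (2 ^ i) ^ (Q + q1) * C ^ (9 * i + 4 * j1) * (2 ^ i * (Ub k / m k)) * D ^ i =
            A * C ^ (4 * j1) * (Ub k / m k) * (2 * C ^ 9 * D) ^ i / (2 ^ i) ^ (Q + q1) := by
          rw [mul_pow, mul_pow, pow_add C]
          ring
        rw [e3, div_le_iff₀ (by positivity)]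
        have e4 : ((2 : ℝ) ^ i) ^ (Q + q1) = 2 ^ (Q * i) * (2 ^ q1) ^ i := by
          rw [← pow_mul, ← pow_mul, ← pow_add]
          congr 1
          ring
        have e5 : ((1 : ℝ) / 2) ^ (Q * i) * 2 ^ (Q * i) = 1 := by
          rw [← mul_pow]
          norm_num
        rw [e4]
        calc A * C ^ (4 * j1) * (Ub k / m k) * (2 * C ^ 9 * D) ^ i ≤
              A * C ^ (4 * j1) * (Ub k / m k) * (2 ^ q1) ^ i := by gcongr
          _ = A * C ^ (4 * j1) * (Ub k / m k) * (((1 : ℝ) / 2) ^ (Q * i) * 2 ^ (Q * i)) * (2 ^ q1) ^ i := by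
              rw [e5, mul_one]
          _ = _ := by ring

/-- **the words with many leaves in a direction of large range** -/
theorem manyC {E : ℕ → Set (List Bool)} {X : ℕ → ℝ≥0∞} (hcl : ClsX E X) {m : ℕ → ℝ} (hm : MLow m) (hd : MUp m)
    (hA : ASm m) (hG : GBU m) (hE : ExsC E X) : ∃ J : ℕ, 1 ≤ J ∧
    ∀ J2 : ℕ, 6 ≤ J2 → ∀ Q : ℕ, ∃ (A : ℝ) (D : ℕ), 1 ≤ A ∧ ∀ (d : Fin 3) (k i n : ℕ), D * (i + 1) ≤ k →
    (n : ℝ) < m (k + 1) →
    gf {t | t.length = n ∧ t ∈ E (k + i) ∧ HR d (k - (8 * i + J2)) (RJ (k - (8 * i + J2)) (2 ^ (k + i + 3)) J) t ∧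
      ∃ a b, a ≤ n ∧ b ≤ n ∧ (2 : ℤ) ^ (k + i) ≤ 2 * (lv3 d (vx oo up t a) - lv3 d (vx oo up t b))} ≤
      ENNReal.ofReal (A * (1 / 2) ^ (Q * i) * (Ub k / m k)) * X k := by
  obtain ⟨J0, C2, k0, hC2, hG⟩ := hG
  obtain ⟨Ce, ke, hCe, hexs⟩ := hE
  obtain ⟨K, hK, hbox⟩ := smD_box
  obtain ⟨Cm, hCm, hmu⟩ := hd.pow
  obtain ⟨Dx, hDx, hDX⟩ := hcl.dbl
  obtain ⟨cH, hcH⟩ : ∃ cH : ℕ, 12 * (J0 + 2 + 3) ≤ 2 ^ cH := ⟨12 * (J0 + 2 + 3), Nat.lt_two_pow_self.le⟩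
  refine ⟨J0 + 2, by omega, fun J2 hJ2 Q => ?_⟩
  obtain ⟨c5, B, hB, hS⟩ := smD_S hA cH J2
  have hCe0 : 0 < Ce := by linarith
  have hC20 : 0 < C2 := by linarith
  have hCm0 : 0 < Cm := by linarith
  have hK0 : 0 < K := by linarith
  have hB0 : 0 < B := by linarith
  have hDx0 : 0 < Dx := by linarith
  obtain ⟨W, hW⟩ : ∃ W : ℝ, W = Ce ^ 9 * (2 ^ (J0 + 2)) ^ 9 * C2 ^ 9 * Cm ^ 8 * B * 2 * Dx := ⟨_, rfl⟩
  have hW0 : 0 < W := by
    rw [hW]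
    positivity
  obtain ⟨qW, hqW⟩ := two_pow_ge W
  obtain ⟨A, D, hA1, hSQ⟩ := hS (Q + qW)
  have hA0 : 0 < A := by linarith
  obtain ⟨F, hF⟩ : ∃ F : ℝ, F = Ce ^ J2 * 2 * (4 * K) ^ (J0 + 2) * (2 ^ (J0 + 2)) ^ (J2 + 1) * C2 ^ (J2 + 2) * Cm ^ J2 * A :=
    ⟨_, rfl⟩
  have hF1 : 1 ≤ F := by
    rw [hF]
    have a1 : 1 ≤ Ce ^ J2 := one_le_pow₀ hCe
    have a2 : (1 : ℝ) ≤ 2 := by norm_num
    have a3 : 1 ≤ (4 * K) ^ (J0 + 2) := one_le_pow₀ (by linarith)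
    have a4 : (1 : ℝ) ≤ (2 ^ (J0 + 2)) ^ (J2 + 1) := one_le_pow₀ (one_le_pow₀ (by norm_num))
    have a5 : 1 ≤ C2 ^ (J2 + 2) := one_le_pow₀ hC2
    have a6 : 1 ≤ Cm ^ J2 := one_le_pow₀ hCm
    exact one_le_mul_of_one_le_of_one_le (one_le_mul_of_one_le_of_one_le (one_le_mul_of_one_le_of_one_le
      (one_le_mul_of_one_le_of_one_le (one_le_mul_of_one_le_of_one_le (one_le_mul_of_one_le_of_one_le a1 a2) a3) a4)
      a5) a6) hA1
  have hF0 : 0 < F := by linarith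
  refine ⟨F * 2 ^ ((Q + qW) * c5), D + 8 + J2 + cH + k0 + ke, one_le_mul_of_one_le_of_one_le hF1
    (one_le_pow₀ (by norm_num)), fun d k i n hk hn => ?_⟩
  have hkD : (D + 8 + J2 + cH + k0 + ke) * (i + 1) =
      D * (i + 1) + 8 * i + 8 + J2 * (i + 1) + cH * (i + 1) + k0 * (i + 1) + ke * (i + 1) := by ring
  have b1 : J2 ≤ J2 * (i + 1) := Nat.le_mul_of_pos_right _ (by omega)
  have b2 : cH ≤ cH * (i + 1) := Nat.le_mul_of_pos_right _ (by omega)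
  have b3 : k0 ≤ k0 * (i + 1) := Nat.le_mul_of_pos_right _ (by omega)
  have b4 : ke ≤ ke * (i + 1) := Nat.le_mul_of_pos_right _ (by omega)
  rw [hkD] at hk
  obtain ⟨s, hs⟩ : ∃ s, s = k - (8 * i + J2) := ⟨_, rfl⟩
  rw [← hs]
  obtain ⟨mu, hmu1⟩ : ∃ mu, mu = 9 * i + (J2 + 1) := ⟨_, rfl⟩
  have hsm : s + mu + 2 = k + i + 3 := by omega
  have hms := hm.pos s
  have hmk := hm.pos k
  have hU := Ub_pos k
  obtain ⟨ε, hε⟩ : ∃ ε : ℝ, ε = A * B ^ i * (1 / 2) ^ ((Q + qW) * (i - c5)) := ⟨_, rfl⟩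
  have hε0 : 0 < ε := by
    rw [hε]
    positivity
  have hSk : ∀ k1, s ≤ k1 → k1 ≤ k + i + 8 →
      SmD DmJ k1 {g | g ∈ BrR (2 ^ (k1 + 4)) (2 ^ (k + i + 10)) ∧ 2 ^ (k + i - cH) ≤ hgt g ∧ g.length ≤ n} ε := by
    intro k1 h1 h2
    rw [hε]
    exact hSQ k i n k1 (by omega) hn (by omega) h2
  obtain ⟨δ, hδ⟩ : ∃ δ : ℝ, δ = (4 * (K * 2 ^ mu)) ^ (J0 + 2) * (C2 ^ (mu + 1) / m s) := ⟨_, rfl⟩
  have hδ0 : 0 < δ := by
    rw [hδ]
    positivity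
  obtain ⟨h1, h2⟩ := smRX_RJ hG hK hbox (s := s) (mu := mu) (n := n) (H := k + i - cH) (ε := ε) (by omega) hε0.le (by
    refine smD_anti ?_ (hSk s le_rfl (by omega))
    rintro g ⟨g1, g2⟩
    exact ⟨brR_mono (Nat.pow_le_pow_right (by norm_num) (by omega)) g1, g2⟩)
  rw [← hδ, hsm] at h1 h2
  have h3 := hexs d s (9 * i + J2) n (k + i - cH) (J0 + 2) (RJ s (2 ^ (k + i + 3)) (J0 + 2)) δ (δ * ε) ε (by omega)
    (by omega) hδ0 (by positivity) hε0 (fun ms hms => le_of_eq hms.1) h1 h2 (by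
    intro k1 g1 g2
    have := hSk k1 g1 (by omega)
    rwa [show s + (9 * i + J2) + 10 = k + i + 10 by omega])
  rw [show s + (9 * i + J2) = k + i by omega] at h3
  refine (gf_mono ?_).trans (h3.trans ?_)
  · rintro t ⟨t1, t2, t3, a, b, t4, t5, t6⟩
    refine ⟨t1, t2, t3, a, b, t4, t5, ?_⟩
    have e1 : 12 * (((J0 + 2 : ℕ) : ℤ) + 3) * 2 ^ (k + i - cH) ≤ 2 ^ (k + i) := by
      have e2 : (12 : ℤ) * (((J0 + 2 : ℕ) : ℤ) + 3) ≤ 2 ^ cH := by exact_mod_cast hcH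
      calc 12 * (((J0 + 2 : ℕ) : ℤ) + 3) * 2 ^ (k + i - cH) ≤ 2 ^ cH * 2 ^ (k + i - cH) := by gcongr
        _ = 2 ^ (k + i) := by
            rw [← pow_add]
            congr 1
            omega
    linarith
  -- the numbers
  have hUK : Ub (k + i) ≤ 2 ^ i * Ub k := UU_ratio_up k i
  have hms2 : m k ≤ Cm ^ (8 * i + J2) * m s := by
    have := hmu s (8 * i + J2)
    rwa [show s + (8 * i + J2) = k by omega] at this
  have hUK0 := Ub_pos (k + i)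
  calc ENNReal.ofReal (Ce ^ (9 * i + J2) * (δ * ε + δ * ε) * Ub (k + i)) * X (k + i)
      ≤ ENNReal.ofReal (Ce ^ (9 * i + J2) * (δ * ε + δ * ε) * Ub (k + i)) * (ENNReal.ofReal (Dx ^ i) * X k) :=
        mul_le_mul_right (hDX k i) _
    _ = ENNReal.ofReal (Ce ^ (9 * i + J2) * (δ * ε + δ * ε) * Ub (k + i) * Dx ^ i) * X k := by
        rw [← mul_assoc, ← ENNReal.ofReal_mul (by positivity)]
    _ ≤ _ := by
        refine mul_le_mul_left (ENNReal.ofReal_le_ofReal ?_) _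
        have e1 : 1 / m s ≤ Cm ^ (8 * i + J2) / m k := by
          rw [div_le_div_iff₀ hms hmk, one_mul]
          exact hms2
        have e2 : Ce ^ (9 * i + J2) * (δ * ε + δ * ε) * Ub (k + i) * Dx ^ i =
            Ce ^ (9 * i + J2) * 2 * (4 * (K * 2 ^ mu)) ^ (J0 + 2) * C2 ^ (mu + 1) * (A * B ^ i) * Dx ^ i *
              (1 / m s) * Ub (k + i) * (1 / 2) ^ ((Q + qW) * (i - c5)) := by
          rw [hδ, hε]
          ring
        have e3 : Ce ^ (9 * i + J2) * 2 * (4 * (K * 2 ^ mu)) ^ (J0 + 2) * C2 ^ (mu + 1) * (A * B ^ i) * Dx ^ i *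
              (Cm ^ (8 * i + J2) / m k) * (2 ^ i * Ub k) = F * W ^ i * (Ub k / m k) := by
          have f1 : Ce ^ (9 * i + J2) = Ce ^ J2 * (Ce ^ 9) ^ i := by
            rw [pow_add, pow_mul]
            ring
          have f2 : (4 * (K * 2 ^ mu)) ^ (J0 + 2) =
              (4 * K) ^ (J0 + 2) * (2 ^ (J0 + 2)) ^ (J2 + 1) * ((2 ^ (J0 + 2)) ^ 9) ^ i := by
            rw [hmu1, ← mul_assoc, mul_pow (4 * K), mul_assoc, ← pow_mul, ← pow_mul, ← pow_mul, ← pow_mul, ← pow_add]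
            congr 2
            ring
          have f3 : C2 ^ (mu + 1) = C2 ^ (J2 + 2) * (C2 ^ 9) ^ i := by
            rw [hmu1, ← pow_mul, ← pow_add]
            congr 1
            ring
          have f4 : Cm ^ (8 * i + J2) = Cm ^ J2 * (Cm ^ 8) ^ i := by
            rw [pow_add, pow_mul]
            ring
          rw [f1, f2, f3, f4, hF, hW, mul_pow, mul_pow, mul_pow, mul_pow, mul_pow, mul_pow]
          ring
        have e4 : ((1 : ℝ) / 2) ^ ((Q + qW) * (i - c5)) ≤ 2 ^ ((Q + qW) * c5) * (1 / 2) ^ ((Q + qW) * i) := by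
          have e5 : ((1 : ℝ) / 2) ^ ((Q + qW) * (i - c5) + (Q + qW) * c5) ≤ (1 / 2) ^ ((Q + qW) * i) := by
            apply pow_le_pow_of_le_one (by norm_num) (by norm_num)
            rw [← mul_add]
            exact Nat.mul_le_mul_left _ (by omega)
          have e6 : ((1 : ℝ) / 2) ^ ((Q + qW) * c5) * 2 ^ ((Q + qW) * c5) = 1 := by
            rw [← mul_pow]
            norm_num
          rw [pow_add] at e5
          calc ((1 : ℝ) / 2) ^ ((Q + qW) * (i - c5)) =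
                2 ^ ((Q + qW) * c5) * ((1 / 2) ^ ((Q + qW) * (i - c5)) * (1 / 2) ^ ((Q + qW) * c5)) := by
                rw [mul_comm (((1 : ℝ) / 2) ^ ((Q + qW) * (i - c5))), ← mul_assoc, mul_comm ((2 : ℝ) ^ _), e6, one_mul]
            _ ≤ _ := by gcongr
        have e7 : W ^ i * (1 / 2) ^ ((Q + qW) * i) ≤ (1 / 2) ^ (Q * i) := by
          have e8 : W ^ i ≤ (2 ^ qW) ^ i := pow_le_pow_left₀ hW0.le hqW.le i
          have e9 : ((2 : ℝ) ^ qW) ^ i * (1 / 2) ^ ((Q + qW) * i) = (1 / 2) ^ (Q * i) := by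
            rw [← pow_mul, add_mul, pow_add, mul_comm ((1 / 2 : ℝ) ^ (Q * i)), ← mul_assoc, ← mul_pow]
            norm_num
          calc W ^ i * (1 / 2) ^ ((Q + qW) * i) ≤ (2 ^ qW) ^ i * (1 / 2) ^ ((Q + qW) * i) := by gcongr
            _ = _ := e9
        rw [e2]
        calc _ ≤ Ce ^ (9 * i + J2) * 2 * (4 * (K * 2 ^ mu)) ^ (J0 + 2) * C2 ^ (mu + 1) * (A * B ^ i) * Dx ^ i *
              (Cm ^ (8 * i + J2) / m k) * (2 ^ i * Ub k) * (1 / 2) ^ ((Q + qW) * (i - c5)) := by gcongr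
          _ = F * W ^ i * (Ub k / m k) * (1 / 2) ^ ((Q + qW) * (i - c5)) := by rw [e3]
          _ ≤ F * W ^ i * (Ub k / m k) * (2 ^ ((Q + qW) * c5) * (1 / 2) ^ ((Q + qW) * i)) := by gcongr
          _ = F * 2 ^ ((Q + qW) * c5) * (W ^ i * (1 / 2) ^ ((Q + qW) * i)) * (Ub k / m k) := by ring
          _ ≤ F * 2 ^ ((Q + qW) * c5) * (1 / 2) ^ (Q * i) * (Ub k / m k) := by gcongr

/-- the square of the half plane weight is at most exponentially larger than X -/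
lemma sq_two {E : ℕ → Set (List Bool)} {X : ℕ → ℝ≥0∞} (hcl : ClsX E X) : ∃ qs : ℕ, ∀ k N : ℕ, k + 1 ≤ N →
    Xb k ^ 2 ≤ ENNReal.ofReal (2 ^ (qs * N)) * X k := by
  obtain ⟨D, hD, h⟩ := hcl.sq
  obtain ⟨q, hq⟩ := two_pow_ge D
  refine ⟨q, fun k N hN => (h k).trans (mul_le_mul_left (ENNReal.ofReal_le_ofReal ?_) _)⟩
  calc D ^ (k + 1) ≤ (2 ^ q) ^ (k + 1) := pow_le_pow_left₀ (by linarith) hq.le _
    _ = 2 ^ (q * (k + 1)) := (pow_mul _ _ _).symm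
    _ ≤ _ := pow_le_pow_right₀ (by norm_num) (Nat.mul_le_mul_left _ hN)

/-- **the spatial tail at exact n, every shell** -/
theorem allC {E : ℕ → Set (List Bool)} {X : ℕ → ℝ≥0∞} (hcl : ClsX E X) {m : ℕ → ℝ} (hm : MLow m) (hd : MUp m)
    (hA : ASm m) (hG : GBU m) (hE : ExsC E X) (hX : ExtC E X m) (Q : ℕ) :
    ∃ A : ℝ, 1 ≤ A ∧ ∀ k i n : ℕ, 1 ≤ i → m k ≤ n → (n : ℝ) < m (k + 1) →
    gf {t | t ∈ E (k + i) ∧ t ∉ WL (k + i - 1) ∧ t.length = n} ≤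
      ENNReal.ofReal (A * (1 / 2) ^ (Q * i)) * (ENNReal.ofReal (Ub k / m k) * X k) := by
  obtain ⟨J, hJ, hmany⟩ := manyC hcl hm hd hA hG hE
  obtain ⟨J2, hJ2, hfew⟩ := fewC hcl hm hX hJ
  obtain ⟨A1, D, hA1, h1⟩ := hmany J2 hJ2 Q
  obtain ⟨A2, hA2, h2⟩ := hfew Q
  obtain ⟨Cm, hCm, hmu⟩ := hd.pow
  obtain ⟨qm, hqm⟩ := two_pow_ge Cm
  obtain ⟨qs, hqs⟩ := sq_two hcl
  obtain ⟨D2, hD2⟩ : ∃ D2, D2 = D + 8 + J2 := ⟨_, rfl⟩
  obtain ⟨qq, hqq⟩ : ∃ qq, qq = qm + qs := ⟨_, rfl⟩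
  obtain ⟨A3, hA3, h3⟩ := sp_tail hA (Q + qq * D2)
  obtain ⟨C4, hC4, h4⟩ := tot_WL
  obtain ⟨Dx, hDx, hDX⟩ := Xb_pow
  have hm0 := hm.pos 0
  have hA10 : 0 < A1 := by linarith
  have hA20 : 0 < A2 := by linarith
  have hA30 : 0 < A3 := by linarith
  have hC40 : 0 < C4 := by linarith
  have hDx0 : 0 < Dx := by linarith
  have hCm0 : 0 < Cm := by linarith
  obtain ⟨A, hAd⟩ : ∃ A : ℝ, A = 9 * A2 + 3 * A1 + A3 * m 0 * 2 ^ (Q + 2 * (qq * D2)) +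
    C4 * 2 * Dx ^ 2 * 2 ^ qs * m 0 * 2 ^ Q := ⟨_, rfl⟩
  have t1 : 0 < A3 * m 0 * 2 ^ (Q + 2 * (qq * D2)) := by positivity
  have t2 : 0 < C4 * 2 * Dx ^ 2 * 2 ^ qs * m 0 * 2 ^ Q := by positivity
  refine ⟨A, by linarith, fun k i n hi hn1 hn2 => ?_⟩
  have hmk := hm.pos k
  have hU := Ub_pos k
  have hkD : D2 * (i + 1) = D * (i + 1) + 8 * i + 8 + J2 * (i + 1) := by
    rw [hD2]
    ring
  have hJ2i : J2 ≤ J2 * (i + 1) := Nat.le_mul_of_pos_right _ (by omega)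
  rcases Nat.lt_or_ge k (D2 * (i + 1)) with hk | hk
  · -- large i
    rcases Nat.eq_zero_or_pos (k + (i - 1)) with h0 | h0
    · have e1 : k = 0 := by omega
      have e2 : i = 1 := by omega
      subst e1 e2
      refine (gf_mono (fun t ht => hcl.sub _ ht.1 : {t | t ∈ E (0 + 1) ∧ t ∉ WL (0 + 1 - 1) ∧ t.length = n} ⊆ WL (0 + 1))).trans
        ((h4 (0 + 1)).trans ?_)
      have hU1 : Ub (0 + 1) ≤ 2 * Ub 0 := Ub_succ 0
      have hX1 := hDX 0 1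
      rw [pow_one] at hX1
      have hX0 := hqs 0 1 le_rfl
      rw [mul_one] at hX0
      calc ENNReal.ofReal C4 * (ENNReal.ofReal (Ub (0 + 1)) * Xb (0 + 1) ^ 2)
          ≤ ENNReal.ofReal C4 * (ENNReal.ofReal (2 * Ub 0) * (ENNReal.ofReal Dx * Xb 0) ^ 2) := by
            refine mul_le_mul_right (mul_le_mul' (ENNReal.ofReal_le_ofReal hU1) (pow_le_pow_left' hX1 2)) _
        _ = ENNReal.ofReal (C4 * (2 * Ub 0) * Dx ^ 2) * Xb 0 ^ 2 := by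
            rw [mul_pow, ← ENNReal.ofReal_pow (by positivity), ← mul_assoc, ← mul_assoc, ← ENNReal.ofReal_mul (by positivity),
              ← ENNReal.ofReal_mul (by positivity)]
        _ ≤ ENNReal.ofReal (C4 * (2 * Ub 0) * Dx ^ 2) * (ENNReal.ofReal (2 ^ qs) * X 0) := mul_le_mul_right hX0 _
        _ = ENNReal.ofReal (C4 * (2 * Ub 0) * Dx ^ 2 * 2 ^ qs) * X 0 := by
            rw [← mul_assoc, ← ENNReal.ofReal_mul (by positivity)]
        _ ≤ ENNReal.ofReal (A * (1 / 2) ^ (Q * 1) * (Ub 0 / m 0)) * X 0 := by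
            refine mul_le_mul_left (ENNReal.ofReal_le_ofReal ?_) _
            have e5 : ((2 : ℝ)) ^ Q * (1 / 2) ^ Q = 1 := by
              rw [← mul_pow]
              norm_num
            have e6 : C4 * (2 * Ub 0) * Dx ^ 2 * 2 ^ qs =
                C4 * 2 * Dx ^ 2 * 2 ^ qs * m 0 * 2 ^ Q * (1 / 2) ^ (Q * 1) * (Ub 0 / m 0) := by
              rw [mul_one, mul_assoc (C4 * 2 * Dx ^ 2 * 2 ^ qs * m 0), e5]
              field_simp
            rw [e6]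
            have : C4 * 2 * Dx ^ 2 * 2 ^ qs * m 0 * 2 ^ Q ≤ A := by linarith
            gcongr
        _ = _ := by
            rw [← mul_assoc, ← ENNReal.ofReal_mul (by rw [hAd]; positivity)]
    · have h5 := h3 k (i - 1) n hn2.le (by omega)
      refine (gf_mono ?_).trans (h5.trans ((mul_le_mul_right (hqs k (D2 * (i + 1)) hk) _).trans ?_))
      · rintro t ⟨a1, a2, a3⟩
        refine ⟨⟨(hcl.sub _ a1).1, a3.le⟩, ?_⟩
        rwa [show k + (i - 1) = k + i - 1 by omega]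
      · rw [← mul_assoc (ENNReal.ofReal (A3 * _ * _)) _ (X k), ← mul_assoc (ENNReal.ofReal (A * _)) _ (X k),
          ← ENNReal.ofReal_mul (by positivity), ← ENNReal.ofReal_mul (by rw [hAd]; positivity)]
        refine mul_le_mul_left (ENNReal.ofReal_le_ofReal ?_) _
        have e1 : m k ≤ 2 ^ (qm * (D2 * (i + 1))) * m 0 := by
          have e2 := hmu 0 k
          rw [zero_add] at e2
          refine e2.trans (mul_le_mul_of_nonneg_right ?_ hm0.le)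
          calc Cm ^ k ≤ (2 ^ qm) ^ k := pow_le_pow_left₀ hCm0.le hqm.le k
            _ = 2 ^ (qm * k) := (pow_mul _ _ _).symm
            _ ≤ 2 ^ (qm * (D2 * (i + 1))) := pow_le_pow_right₀ (by norm_num) (Nat.mul_le_mul_left _ hk.le)
        have e3 : ((1 : ℝ) / 2) ^ ((Q + qq * D2) * (i - 1)) * (2 ^ (qm * (D2 * (i + 1))) * 2 ^ (qs * (D2 * (i + 1)))) =
            2 ^ (Q + 2 * (qq * D2)) * (1 / 2) ^ (Q * i) := by
          obtain ⟨r, rfl⟩ := Nat.exists_eq_add_of_le hi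
          rw [show 1 + r - 1 = r by omega, one_div, inv_pow, inv_pow, ← div_eq_inv_mul, ← div_eq_mul_inv,
            div_eq_div_iff (by positivity) (by positivity), ← pow_add, ← pow_add, ← pow_add, hqq]
          congr 1
          ring
        have e4 : Ub k = m k * (Ub k / m k) := by field_simp
        calc A3 * (1 / 2) ^ ((Q + qq * D2) * (i - 1)) * Ub k * 2 ^ (qs * (D2 * (i + 1))) =
              A3 * (1 / 2) ^ ((Q + qq * D2) * (i - 1)) * (m k * (Ub k / m k)) * 2 ^ (qs * (D2 * (i + 1))) := by rw [← e4]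
          _ ≤ A3 * (1 / 2) ^ ((Q + qq * D2) * (i - 1)) * (2 ^ (qm * (D2 * (i + 1))) * m 0 * (Ub k / m k)) *
              2 ^ (qs * (D2 * (i + 1))) := by gcongr
          _ = A3 * m 0 * ((1 / 2) ^ ((Q + qq * D2) * (i - 1)) * (2 ^ (qm * (D2 * (i + 1))) * 2 ^ (qs * (D2 * (i + 1))))) *
              (Ub k / m k) := by ring
          _ = A3 * m 0 * 2 ^ (Q + 2 * (qq * D2)) * (1 / 2) ^ (Q * i) * (Ub k / m k) := by
              rw [e3]
              ring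
          _ ≤ A * (1 / 2) ^ (Q * i) * (Ub k / m k) := by
              have : A3 * m 0 * 2 ^ (Q + 2 * (qq * D2)) ≤ A := by linarith
              gcongr
  · -- the exact estimates
    obtain ⟨s, hs⟩ : ∃ s, s = k - (8 * i + J2) := ⟨_, rfl⟩
    have hsub : {t | t ∈ E (k + i) ∧ t ∉ WL (k + i - 1) ∧ t.length = n} ⊆
        (⋃ x : Fin 3 × Fin 3, {t | x.1 ≠ x.2 ∧ t.length = n ∧ t ∈ E (k + i) ∧ ∀ d, d = x.1 ∨ d = x.2 →
          ¬ HR d (k - (8 * i + J2)) (RJ (k - (8 * i + J2)) (2 ^ (k + i + 3)) J) t}) ∪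
        ⋃ d : Fin 3, {t | t.length = n ∧ t ∈ E (k + i) ∧
          HR d (k - (8 * i + J2)) (RJ (k - (8 * i + J2)) (2 ^ (k + i + 3)) J) t ∧
          ∃ a b, a ≤ n ∧ b ≤ n ∧ (2 : ℤ) ^ (k + i) ≤ 2 * (lv3 d (vx oo up t a) - lv3 d (vx oo up t b))} := by
      rintro t ⟨ht, ho, hlen⟩
      obtain ⟨d, d', hdd, r1, r2⟩ := out_range (hcl.sub _ ht).1 ho
      rw [show k + i - 1 + 1 = k + i by omega, hlen] at r1 r2
      by_cases g1 : HR d (k - (8 * i + J2)) (RJ (k - (8 * i + J2)) (2 ^ (k + i + 3)) J) t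
      · exact Or.inr (Set.mem_iUnion.2 ⟨d, hlen, ht, g1, r1⟩)
      · by_cases g2 : HR d' (k - (8 * i + J2)) (RJ (k - (8 * i + J2)) (2 ^ (k + i + 3)) J) t
        · exact Or.inr (Set.mem_iUnion.2 ⟨d', hlen, ht, g2, r2⟩)
        · refine Or.inl (Set.mem_iUnion.2 ⟨(d, d'), Ne.symm hdd, hlen, ht, ?_⟩)
          rintro e (rfl | rfl)
          · exact g1
          · exact g2
    refine (gf_mono hsub).trans ((gf_union_le _ _).trans ((add_le_add (Crw.gf_iUnion_le _) (Crw.gf_iUnion_le _)).trans ?_))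
    rw [tsum_fintype, tsum_fintype]
    have u1 : ∑ x : Fin 3 × Fin 3, gf {t | x.1 ≠ x.2 ∧ t.length = n ∧ t ∈ E (k + i) ∧ ∀ d, d = x.1 ∨ d = x.2 →
          ¬ HR d (k - (8 * i + J2)) (RJ (k - (8 * i + J2)) (2 ^ (k + i + 3)) J) t} ≤
        9 * (ENNReal.ofReal (A2 * (1 / 2) ^ (Q * i) * (Ub k / m k)) * X k) := by
      refine (Finset.sum_le_card_nsmul _ _ (ENNReal.ofReal (A2 * (1 / 2) ^ (Q * i) * (Ub k / m k)) * X k)
        fun x _ => ?_).trans (le_of_eq ?_)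
      · by_cases hx : x.1 ≠ x.2
        · refine (gf_mono ?_).trans (h2 x.1 x.2 hx k i n (by omega) hn1)
          rintro t ⟨-, h⟩
          exact h
        · refine le_trans (gf_mono ?_) (le_trans (le_of_eq gf_empty) zero_le)
          rintro t ⟨h, -⟩
          exact absurd h hx
      · rw [Finset.card_univ, Fintype.card_prod, Fintype.card_fin, nsmul_eq_mul]
        norm_num
    have u2 : ∑ d : Fin 3, gf {t | t.length = n ∧ t ∈ E (k + i) ∧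
          HR d (k - (8 * i + J2)) (RJ (k - (8 * i + J2)) (2 ^ (k + i + 3)) J) t ∧
          ∃ a b, a ≤ n ∧ b ≤ n ∧ (2 : ℤ) ^ (k + i) ≤ 2 * (lv3 d (vx oo up t a) - lv3 d (vx oo up t b))} ≤
        3 * (ENNReal.ofReal (A1 * (1 / 2) ^ (Q * i) * (Ub k / m k)) * X k) := by
      refine (Finset.sum_le_card_nsmul _ _ (ENNReal.ofReal (A1 * (1 / 2) ^ (Q * i) * (Ub k / m k)) * X k)
        fun d _ => h1 d k i n (by omega) hn2).trans (le_of_eq ?_)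
      rw [Finset.card_univ, Fintype.card_fin, nsmul_eq_mul]
      norm_num
    refine (add_le_add u1 u2).trans ?_
    rw [← mul_assoc, ← mul_assoc, ← mul_assoc, ← add_mul]
    refine mul_le_mul_left ?_ _
    rw [show (9 : ℝ≥0∞) = ENNReal.ofReal 9 by norm_num, show (3 : ℝ≥0∞) = ENNReal.ofReal 3 by norm_num,
      ← ENNReal.ofReal_mul (by norm_num), ← ENNReal.ofReal_mul (by norm_num), ← ENNReal.ofReal_add (by positivity)
      (by positivity), ← ENNReal.ofReal_mul (by rw [hAd]; positivity)]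
    refine ENNReal.ofReal_le_ofReal ?_
    calc 9 * (A2 * (1 / 2) ^ (Q * i) * (Ub k / m k)) + 3 * (A1 * (1 / 2) ^ (Q * i) * (Ub k / m k)) =
          (9 * A2 + 3 * A1) * (1 / 2) ^ (Q * i) * (Ub k / m k) := by ring
      _ ≤ A * (1 / 2) ^ (Q * i) * (Ub k / m k) := by
          have : 9 * A2 + 3 * A1 ≤ A := by linarith
          gcongr

/-- **the pointwise upper bound for a class** -/
theorem upC {E : ℕ → Set (List Bool)} {X : ℕ → ℝ≥0∞} (hcl : ClsX E X) {m : ℕ → ℝ} (hm : MLow m) (hd : MUp m)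
    (hA : ASm m) (hG : GBU m) (hE : ExsC E X) (hX : ExtC E X m) :
    ∃ C : ℝ, 0 < C ∧ ∀ k n : ℕ, m k ≤ n → n < m (k + 1) →
      gf {t | (∃ K, t ∈ E K) ∧ t.length = n} ≤ ENNReal.ofReal C * (ENNReal.ofReal (Ub k / m k) * X k) := by
  obtain ⟨A, hA1, h⟩ := allC hcl hm hd hA hG hE hX 1
  obtain ⟨C, hC, hQ⟩ := hX
  obtain ⟨A0, hA0, h0⟩ := hQ 0
  have hA' : 0 < A := by linarith
  have hA0' : 0 < A0 := by linarith
  refine ⟨A0 + A, by linarith, fun k n h1 h2 => ?_⟩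
  have hmk := hm.pos k
  have hsub : {t | (∃ K, t ∈ E K) ∧ t.length = n} ⊆
      {t | (t ∈ E k ∧ t.length = n) ∧ ∃ x z : ℕ, Bx (k + 2) t x z ∧ 1 * m k ≤ (z : ℝ) - x} ∪
      ⋃ j : ℕ, {t | t ∈ E (k + (1 + j)) ∧ t ∉ WL (k + (1 + j) - 1) ∧ t.length = n} := by
    rintro t ⟨⟨K, hK⟩, ht⟩
    have hex : ∃ K', t ∈ WL K' := ⟨K, hcl.sub K hK⟩
    classical
    have h3 := hcl.her K _ t hK (Nat.find_spec hex)
    by_cases h4 : t ∈ WL k
    · left
      refine ⟨⟨hcl.her K k t hK h4, ht⟩, 0, t.length, bx_all h4, ?_⟩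
      rw [ht, one_mul]
      simpa using h1
    · right
      have h5 : k < Nat.find hex := by
        by_contra hc
        exact h4 (WL_mono (by omega) (Nat.find_spec hex))
      have h6 : t ∉ WL (Nat.find hex - 1) := Nat.find_min hex (by omega)
      rw [Set.mem_iUnion]
      refine ⟨Nat.find hex - k - 1, ?_, ?_, ht⟩
      · rw [show k + (1 + (Nat.find hex - k - 1)) = Nat.find hex by omega]
        exact h3
      · rw [show k + (1 + (Nat.find hex - k - 1)) - 1 = Nat.find hex - 1 by omega]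
        exact h6
  refine (gf_mono hsub).trans ((gf_union_le _ _).trans ?_)
  rw [ENNReal.ofReal_add hA0'.le hA'.le, add_mul]
  refine add_le_add ?_ ((Crw.gf_iUnion_le _).trans ?_)
  · refine (h0 n k k 1 le_rfl le_rfl).trans (le_of_eq ?_)
    rw [Nat.sub_self, pow_zero, pow_zero, div_one, mul_one]
  · have h3 : ∀ j : ℕ, gf {t | t ∈ E (k + (1 + j)) ∧ t ∉ WL (k + (1 + j) - 1) ∧ t.length = n} ≤
        ENNReal.ofReal (A * (1 / 2 / 2 ^ j)) * (ENNReal.ofReal (Ub k / m k) * X k) := by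
      intro j
      refine (h k (1 + j) n (by omega) h1 h2).trans (mul_le_mul_left (ENNReal.ofReal_le_ofReal (le_of_eq ?_)) _)
      rw [one_mul, pow_add, pow_one, one_div, inv_pow, ← div_eq_mul_inv]
    refine (ENNReal.tsum_le_tsum h3).trans ?_
    rw [ENNReal.tsum_mul_right]
    refine mul_le_mul_left ?_ _
    rw [← ENNReal.ofReal_tsum_of_nonneg (fun j => by positivity) ((summable_geometric_two' 1).mul_left _)]
    refine ENNReal.ofReal_le_ofReal (le_of_eq ?_)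
    rw [tsum_mul_left, tsum_geometric_two', mul_one]

end CX

end EN

end HexObs
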