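import Pool.Agent.HBD.DefsK

/-!
HBD (K8): the pointwise upper bound at exactly n letters for a class, from the event theorem with an outer mark in the form
ExsL (a separate bound L of the letters of the marks).
-/

set_option autoImplicit false

namespace HexObs

namespace EN

open Finset TS SDN NTW NTA

open scoped ENNReal

/-- ExsL for a general sequence m -/
def ExsM (E : ℕ → Set (List Bool)) (X : ℕ → ℝ≥0∞) (m : ℕ → ℝ) : Prop := ∃ (C : ℝ) (k0 b0 : ℕ) (lam : ℝ), 1 ≤ C ∧ 1 ≤ lam ∧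
  ∀ (d : Fin 3) (kc J n L H m1 : ℕ) (R : Set (List (List Bool))) (δ δ' ε : ℝ),
  k0 ≤ kc → 6 ≤ J → 0 < δ → 0 < δ' → 0 < ε → (∀ ms ∈ R, ms.length ≤ m1) → (n : ℝ) + lam * m kc ≤ L →
  SmRX DmJ kc R δ → SmRX DmJ kc {ms | ms ∈ R ∧ ∃ g ∈ ms, 2 ^ H ≤ hgt g ∧ g.length ≤ L} δ' →
  (∀ k1, kc ≤ k1 → k1 ≤ kc + J + b0 →
    SmD DmJ k1 {g | g ∈ BrR (2 ^ (k1 + 4)) (2 ^ (kc + J + b0 + 2)) ∧ 2 ^ H ≤ hgt g ∧ g.length ≤ L} ε) →
  gf {t | t.length = n ∧ t ∈ E (kc + J) ∧ HR d kc R t ∧ ∃ i j, i ≤ n ∧ j ≤ n ∧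
    6 * ((m1 : ℤ) + 4) * 2 ^ H ≤ lv3 d (vx oo up t i) - lv3 d (vx oo up t j)} ≤
    ENNReal.ofReal (C ^ J * (δ * ε + δ') * Ub (kc + J)) * X (kc + J)

namespace CX

/-- **the words with many leaves in a direction of large range** -/
theorem manyL {E : ℕ → Set (List Bool)} {X : ℕ → ℝ≥0∞} (hcl : ClsX E X) {m : ℕ → ℝ} (hm : MLow m) (hd : MUp m)
    (hA : ASm m) (hG : GBU m) (hE : ExsM E X m) : ∃ J : ℕ, 1 ≤ J ∧
    ∀ J2 : ℕ, 6 ≤ J2 → ∀ Q : ℕ, ∃ (A : ℝ) (D : ℕ), 1 ≤ A ∧ ∀ (d : Fin 3) (k i n : ℕ), D * (i + 1) ≤ k →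
    (n : ℝ) < m (k + 1) →
    gf {t | t.length = n ∧ t ∈ E (k + i) ∧ HR d (k - (8 * i + J2)) (RJ (k - (8 * i + J2)) (2 ^ (k + i + 3)) J) t ∧
      ∃ a b, a ≤ n ∧ b ≤ n ∧ (2 : ℤ) ^ (k + i) ≤ 2 * (lv3 d (vx oo up t a) - lv3 d (vx oo up t b))} ≤
      ENNReal.ofReal (A * (1 / 2) ^ (Q * i) * (Ub k / m k)) * X k := by
  obtain ⟨J0, C2, k0, hC2, hG⟩ := hG
  obtain ⟨Ce, ke, b0, lam, hCe, hlam, hexs⟩ := hE
  obtain ⟨K, hK, hbox⟩ := smD_box
  obtain ⟨Cm, hCm, hmu⟩ := hd.pow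
  obtain ⟨Dx, hDx, hDX⟩ := hcl.dbl
  obtain ⟨cH, hcH⟩ : ∃ cH : ℕ, 12 * (J0 + 2 + 4) ≤ 2 ^ cH := ⟨12 * (J0 + 2 + 4), Nat.lt_two_pow_self.le⟩
  refine ⟨J0 + 2, by omega, fun J2 hJ2 Q => ?_⟩
  have hm0 := hm.pos 0
  obtain ⟨j0', hj0'⟩ := two_pow_ge (1 + lam + 1 / m 0)
  obtain ⟨j0, hj0d⟩ : ∃ j0, j0 = j0' + b0 := ⟨_, rfl⟩
  have hj0 : 1 + lam + 1 / m 0 < 2 ^ j0 := hj0'.trans_le (pow_le_pow_right₀ (by norm_num) (by omega))
  obtain ⟨c5, B, hB, hS⟩ := smD_S hA (cH + j0) (J2 + j0)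
  have hCe0 : 0 < Ce := by linarith
  have hC20 : 0 < C2 := by linarith
  have hCm0 : 0 < Cm := by linarith
  have hK0 : 0 < K := by linarith
  have hB0 : 0 < B := by linarith
  have hDx0 : 0 < Dx := by linarith
  obtain ⟨W, hW⟩ : ∃ W : ℝ, W = Ce ^ 9 * (2 ^ (J0 + 2)) ^ 9 * C2 ^ 9 * Cm ^ 8 * B * 2 * Dx := ⟨_, rfl⟩
  have hW0 : 0 < W := by
    rw [hW]
    positivity
  obtain ⟨qW, hqW⟩ := two_pow_ge W
  obtain ⟨A, D, hA1, hSQ⟩ := hS (Q + qW)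
  have hA0 : 0 < A := by linarith
  obtain ⟨F, hF⟩ : ∃ F : ℝ, F = Ce ^ J2 * 2 * (4 * K) ^ (J0 + 2) * (2 ^ (J0 + 2)) ^ (J2 + 1) * C2 ^ (J2 + 2) * Cm ^ J2 * A :=
    ⟨_, rfl⟩
  have hF1 : 1 ≤ F := by
    rw [hF]
    have a1 : 1 ≤ Ce ^ J2 := one_le_pow₀ hCe
    have a2 : (1 : ℝ) ≤ 2 := by norm_num
    have a3 : 1 ≤ (4 * K) ^ (J0 + 2) := one_le_pow₀ (by linarith)
    have a4 : (1 : ℝ) ≤ (2 ^ (J0 + 2)) ^ (J2 + 1) := one_le_pow₀ (one_le_pow₀ (by norm_num))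
    have a5 : 1 ≤ C2 ^ (J2 + 2) := one_le_pow₀ hC2
    have a6 : 1 ≤ Cm ^ J2 := one_le_pow₀ hCm
    exact one_le_mul_of_one_le_of_one_le (one_le_mul_of_one_le_of_one_le (one_le_mul_of_one_le_of_one_le
      (one_le_mul_of_one_le_of_one_le (one_le_mul_of_one_le_of_one_le (one_le_mul_of_one_le_of_one_le a1 a2) a3) a4)
      a5) a6) hA1
  have hF0 : 0 < F := by linarith
  refine ⟨F * 2 ^ ((Q + qW) * c5), D + 8 + J2 + cH + k0 + ke, one_le_mul_of_one_le_of_one_le hF1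
    (one_le_pow₀ (by norm_num)), fun d k i n hk hn => ?_⟩
  have hkD : (D + 8 + J2 + cH + k0 + ke) * (i + 1) =
      D * (i + 1) + 8 * i + 8 + J2 * (i + 1) + cH * (i + 1) + k0 * (i + 1) + ke * (i + 1) := by ring
  have b1 : J2 ≤ J2 * (i + 1) := Nat.le_mul_of_pos_right _ (by omega)
  have b2 : cH ≤ cH * (i + 1) := Nat.le_mul_of_pos_right _ (by omega)
  have b3 : k0 ≤ k0 * (i + 1) := Nat.le_mul_of_pos_right _ (by omega)
  have b4 : ke ≤ ke * (i + 1) := Nat.le_mul_of_pos_right _ (by omega)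
  rw [hkD] at hk
  obtain ⟨s, hs⟩ : ∃ s, s = k - (8 * i + J2) := ⟨_, rfl⟩
  rw [← hs]
  obtain ⟨mu, hmu1⟩ : ∃ mu, mu = 9 * i + (J2 + 1) := ⟨_, rfl⟩
  have hsm : s + mu + 2 = k + i + 3 := by omega
  have hms := hm.pos s
  have hmk := hm.pos k
  have hU := Ub_pos k
  obtain ⟨ε, hε⟩ : ∃ ε : ℝ, ε = A * B ^ i * (1 / 2) ^ ((Q + qW) * (i - c5)) := ⟨_, rfl⟩
  have hε0 : 0 < ε := by
    rw [hε]
    positivity
  -- the letters of the marks
  obtain ⟨L, hLd⟩ : ∃ L : ℕ, L = ⌈(n : ℝ) + lam * m s⌉₊ := ⟨_, rfl⟩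
  have hL1 : (n : ℝ) + lam * m s ≤ L := by
    rw [hLd]
    exact Nat.le_ceil _
  have hL2 : (L : ℝ) < m (k + j0 + 1) := by
    have g0 : 0 ≤ (n : ℝ) + lam * m s := by positivity
    have g1 : (L : ℝ) < (n : ℝ) + lam * m s + 1 := by
      rw [hLd]
      exact Nat.ceil_lt_add_one g0
    have g2 : m s ≤ m (k + 1) := hm.mono (by omega)
    have g3 : m 0 ≤ m (k + 1) := hm.mono (Nat.zero_le _)
    have g4 : (1 : ℝ) ≤ 1 / m 0 * m (k + 1) := by
      rw [div_mul_eq_mul_div, one_mul, le_div_iff₀ hm0, one_mul]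
      exact g3
    have g5 : (n : ℝ) + lam * m s + 1 ≤ (1 + lam + 1 / m 0) * m (k + 1) := by nlinarith
    have g6 := hm.low (k + 1) j0
    have g7 : (2 : ℝ) ^ j0 ≤ 2 ^ (5 / 4 * (j0 : ℝ)) := by
      rw [← Real.rpow_natCast]
      apply Real.rpow_le_rpow_of_exponent_le (by norm_num)
      have h3 : (0 : ℝ) ≤ j0 := Nat.cast_nonneg _
      linarith
    have g8 := hm.pos (k + 1)
    rw [show k + j0 + 1 = k + 1 + j0 by omega]
    calc (L : ℝ) < (n : ℝ) + lam * m s + 1 := g1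
      _ ≤ (1 + lam + 1 / m 0) * m (k + 1) := g5
      _ ≤ 2 ^ j0 * m (k + 1) := by gcongr
      _ ≤ 2 ^ (5 / 4 * (j0 : ℝ)) * m (k + 1) := by gcongr
      _ ≤ m (k + 1 + j0) := g6
  have hSk : ∀ k1, s ≤ k1 → k1 ≤ k + i + b0 →
      SmD DmJ k1 {g | g ∈ BrR (2 ^ (k1 + 4)) (2 ^ (k + i + b0 + 10)) ∧ 2 ^ (k + i - cH) ≤ hgt g ∧ g.length ≤ L} ε := by
    intro k1 h1 h2
    rw [hε]
    refine smD_anti ?_ (hSQ (k + j0) i L k1 (by omega) hL2 (by omega) (by omega))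
    rintro g ⟨g1, g2, g3⟩
    refine ⟨brR_mono (Nat.pow_le_pow_right (by norm_num) (by omega)) g1, ?_, g3⟩
    rwa [show k + j0 + i - (cH + j0) = k + i - cH by omega]
  obtain ⟨δ, hδ⟩ : ∃ δ : ℝ, δ = (4 * (K * 2 ^ mu)) ^ (J0 + 2) * (C2 ^ (mu + 1) / m s) := ⟨_, rfl⟩
  have hδ0 : 0 < δ := by
    rw [hδ]
    positivity
  obtain ⟨h1, h2⟩ := smRX_RJ hG hK hbox (s := s) (mu := mu) (n := L) (H := k + i - cH) (ε := ε) (by omega) hε0.le (by
    refine smD_anti ?_ (hSk s le_rfl (by omega))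
    rintro g ⟨g1, g2⟩
    exact ⟨brR_mono (Nat.pow_le_pow_right (by norm_num) (by omega)) g1, g2⟩)
  rw [← hδ, hsm] at h1 h2
  have h3 := hexs d s (9 * i + J2) n L (k + i - cH) (J0 + 2) (RJ s (2 ^ (k + i + 3)) (J0 + 2)) δ (δ * ε) ε (by omega)
    (by omega) hδ0 (by positivity) hε0 (fun ms hms => le_of_eq hms.1) hL1 h1 h2 (by
    intro k1 g1 g2
    refine smD_anti ?_ (hSk k1 g1 (by omega))
    rintro g ⟨g3, g4⟩
    exact ⟨brR_mono (Nat.pow_le_pow_right (by norm_num) (by omega)) g3, g4⟩)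
  rw [show s + (9 * i + J2) = k + i by omega] at h3
  refine (gf_mono ?_).trans (h3.trans ?_)
  · rintro t ⟨t1, t2, t3, a, b, t4, t5, t6⟩
    refine ⟨t1, t2, t3, a, b, t4, t5, ?_⟩
    have e1 : 12 * (((J0 + 2 : ℕ) : ℤ) + 4) * 2 ^ (k + i - cH) ≤ 2 ^ (k + i) := by
      have e2 : (12 : ℤ) * (((J0 + 2 : ℕ) : ℤ) + 4) ≤ 2 ^ cH := by exact_mod_cast hcH
      calc 12 * (((J0 + 2 : ℕ) : ℤ) + 4) * 2 ^ (k + i - cH) ≤ 2 ^ cH * 2 ^ (k + i - cH) := by gcongr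
        _ = 2 ^ (k + i) := by
            rw [← pow_add]
            congr 1
            omega
    linarith
  -- the numbers
  have hUK : Ub (k + i) ≤ 2 ^ i * Ub k := UU_ratio_up k i
  have hms2 : m k ≤ Cm ^ (8 * i + J2) * m s := by
    have := hmu s (8 * i + J2)
    rwa [show s + (8 * i + J2) = k by omega] at this
  have hUK0 := Ub_pos (k + i)
  calc ENNReal.ofReal (Ce ^ (9 * i + J2) * (δ * ε + δ * ε) * Ub (k + i)) * X (k + i)
      ≤ ENNReal.ofReal (Ce ^ (9 * i + J2) * (δ * ε + δ * ε) * Ub (k + i)) * (ENNReal.ofReal (Dx ^ i) * X k) :=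
        mul_le_mul_right (hDX k i) _
    _ = ENNReal.ofReal (Ce ^ (9 * i + J2) * (δ * ε + δ * ε) * Ub (k + i) * Dx ^ i) * X k := by
        rw [← mul_assoc, ← ENNReal.ofReal_mul (by positivity)]
    _ ≤ _ := by
        refine mul_le_mul_left (ENNReal.ofReal_le_ofReal ?_) _
        have e1 : 1 / m s ≤ Cm ^ (8 * i + J2) / m k := by
          rw [div_le_div_iff₀ hms hmk, one_mul]
          exact hms2
        have e2 : Ce ^ (9 * i + J2) * (δ * ε + δ * ε) * Ub (k + i) * Dx ^ i =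
            Ce ^ (9 * i + J2) * 2 * (4 * (K * 2 ^ mu)) ^ (J0 + 2) * C2 ^ (mu + 1) * (A * B ^ i) * Dx ^ i *
              (1 / m s) * Ub (k + i) * (1 / 2) ^ ((Q + qW) * (i - c5)) := by
          rw [hδ, hε]
          ring
        have e3 : Ce ^ (9 * i + J2) * 2 * (4 * (K * 2 ^ mu)) ^ (J0 + 2) * C2 ^ (mu + 1) * (A * B ^ i) * Dx ^ i *
              (Cm ^ (8 * i + J2) / m k) * (2 ^ i * Ub k) = F * W ^ i * (Ub k / m k) := by
          have f1 : Ce ^ (9 * i + J2) = Ce ^ J2 * (Ce ^ 9) ^ i := by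
            rw [pow_add, pow_mul]
            ring
          have f2 : (4 * (K * 2 ^ mu)) ^ (J0 + 2) =
              (4 * K) ^ (J0 + 2) * (2 ^ (J0 + 2)) ^ (J2 + 1) * ((2 ^ (J0 + 2)) ^ 9) ^ i := by
            rw [hmu1, ← mul_assoc, mul_pow (4 * K), mul_assoc, ← pow_mul, ← pow_mul, ← pow_mul, ← pow_mul, ← pow_add]
            congr 2
            ring
          have f3 : C2 ^ (mu + 1) = C2 ^ (J2 + 2) * (C2 ^ 9) ^ i := by
            rw [hmu1, ← pow_mul, ← pow_add]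
            congr 1
            ring
          have f4 : Cm ^ (8 * i + J2) = Cm ^ J2 * (Cm ^ 8) ^ i := by
            rw [pow_add, pow_mul]
            ring
          rw [f1, f2, f3, f4, hF, hW, mul_pow, mul_pow, mul_pow, mul_pow, mul_pow, mul_pow]
          ring
        have e4 : ((1 : ℝ) / 2) ^ ((Q + qW) * (i - c5)) ≤ 2 ^ ((Q + qW) * c5) * (1 / 2) ^ ((Q + qW) * i) := by
          have e5 : ((1 : ℝ) / 2) ^ ((Q + qW) * (i - c5) + (Q + qW) * c5) ≤ (1 / 2) ^ ((Q + qW) * i) := by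
            apply pow_le_pow_of_le_one (by norm_num) (by norm_num)
            rw [← mul_add]
            exact Nat.mul_le_mul_left _ (by omega)
          have e6 : ((1 : ℝ) / 2) ^ ((Q + qW) * c5) * 2 ^ ((Q + qW) * c5) = 1 := by
            rw [← mul_pow]
            norm_num
          rw [pow_add] at e5
          calc ((1 : ℝ) / 2) ^ ((Q + qW) * (i - c5)) =
                2 ^ ((Q + qW) * c5) * ((1 / 2) ^ ((Q + qW) * (i - c5)) * (1 / 2) ^ ((Q + qW) * c5)) := by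
                rw [mul_comm (((1 : ℝ) / 2) ^ ((Q + qW) * (i - c5))), ← mul_assoc, mul_comm ((2 : ℝ) ^ _), e6, one_mul]
            _ ≤ _ := by gcongr
        have e7 : W ^ i * (1 / 2) ^ ((Q + qW) * i) ≤ (1 / 2) ^ (Q * i) := by
          have e8 : W ^ i ≤ (2 ^ qW) ^ i := pow_le_pow_left₀ hW0.le hqW.le i
          have e9 : ((2 : ℝ) ^ qW) ^ i * (1 / 2) ^ ((Q + qW) * i) = (1 / 2) ^ (Q * i) := by
            rw [← pow_mul, add_mul, pow_add, mul_comm ((1 / 2 : ℝ) ^ (Q * i)), ← mul_assoc, ← mul_pow]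
            norm_num
          calc W ^ i * (1 / 2) ^ ((Q + qW) * i) ≤ (2 ^ qW) ^ i * (1 / 2) ^ ((Q + qW) * i) := by gcongr
            _ = _ := e9
        rw [e2]
        calc _ ≤ Ce ^ (9 * i + J2) * 2 * (4 * (K * 2 ^ mu)) ^ (J0 + 2) * C2 ^ (mu + 1) * (A * B ^ i) * Dx ^ i *
              (Cm ^ (8 * i + J2) / m k) * (2 ^ i * Ub k) * (1 / 2) ^ ((Q + qW) * (i - c5)) := by gcongr
          _ = F * W ^ i * (Ub k / m k) * (1 / 2) ^ ((Q + qW) * (i - c5)) := by rw [e3]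
          _ ≤ F * W ^ i * (Ub k / m k) * (2 ^ ((Q + qW) * c5) * (1 / 2) ^ ((Q + qW) * i)) := by gcongr
          _ = F * 2 ^ ((Q + qW) * c5) * (W ^ i * (1 / 2) ^ ((Q + qW) * i)) * (Ub k / m k) := by ring
          _ ≤ F * 2 ^ ((Q + qW) * c5) * (1 / 2) ^ (Q * i) * (Ub k / m k) := by gcongr

/-- **the spatial tail at exact n, every shell** -/
theorem allL {E : ℕ → Set (List Bool)} {X : ℕ → ℝ≥0∞} (hcl : ClsX E X) {m : ℕ → ℝ} (hm : MLow m) (hd : MUp m)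
    (hA : ASm m) (hG : GBU m) (hE : ExsM E X m) (hX : ExtC E X m) (Q : ℕ) :
    ∃ A : ℝ, 1 ≤ A ∧ ∀ k i n : ℕ, 1 ≤ i → m k ≤ n → (n : ℝ) < m (k + 1) →
    gf {t | t ∈ E (k + i) ∧ t ∉ WL (k + i - 1) ∧ t.length = n} ≤
      ENNReal.ofReal (A * (1 / 2) ^ (Q * i)) * (ENNReal.ofReal (Ub k / m k) * X k) := by
  obtain ⟨J, hJ, hmany⟩ := manyL hcl hm hd hA hG hE
  obtain ⟨J2, hJ2, hfew⟩ := fewC hcl hm hX hJ
  obtain ⟨A1, D, hA1, h1⟩ := hmany J2 hJ2 Q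
  obtain ⟨A2, hA2, h2⟩ := hfew Q
  obtain ⟨Cm, hCm, hmu⟩ := hd.pow
  obtain ⟨qm, hqm⟩ := two_pow_ge Cm
  obtain ⟨qs, hqs⟩ := sq_two hcl
  obtain ⟨D2, hD2⟩ : ∃ D2, D2 = D + 8 + J2 := ⟨_, rfl⟩
  obtain ⟨qq, hqq⟩ : ∃ qq, qq = qm + qs := ⟨_, rfl⟩
  obtain ⟨A3, hA3, h3⟩ := sp_tail hA (Q + qq * D2)
  obtain ⟨C4, hC4, h4⟩ := tot_WL
  obtain ⟨Dx, hDx, hDX⟩ := Xb_pow
  have hm0 := hm.pos 0
  have hA10 : 0 < A1 := by linarith
  have hA20 : 0 < A2 := by linarith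
  have hA30 : 0 < A3 := by linarith
  have hC40 : 0 < C4 := by linarith
  have hDx0 : 0 < Dx := by linarith
  have hCm0 : 0 < Cm := by linarith
  obtain ⟨A, hAd⟩ : ∃ A : ℝ, A = 9 * A2 + 3 * A1 + A3 * m 0 * 2 ^ (Q + 2 * (qq * D2)) +
    C4 * 2 * Dx ^ 2 * 2 ^ qs * m 0 * 2 ^ Q := ⟨_, rfl⟩
  have t1 : 0 < A3 * m 0 * 2 ^ (Q + 2 * (qq * D2)) := by positivity
  have t2 : 0 < C4 * 2 * Dx ^ 2 * 2 ^ qs * m 0 * 2 ^ Q := by positivity
  refine ⟨A, by linarith, fun k i n hi hn1 hn2 => ?_⟩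
  have hmk := hm.pos k
  have hU := Ub_pos k
  have hkD : D2 * (i + 1) = D * (i + 1) + 8 * i + 8 + J2 * (i + 1) := by
    rw [hD2]
    ring
  have hJ2i : J2 ≤ J2 * (i + 1) := Nat.le_mul_of_pos_right _ (by omega)
  rcases Nat.lt_or_ge k (D2 * (i + 1)) with hk | hk
  · -- large i
    rcases Nat.eq_zero_or_pos (k + (i - 1)) with h0 | h0
    · have e1 : k = 0 := by omega
      have e2 : i = 1 := by omega
      subst e1 e2
      refine (gf_mono (fun t ht => hcl.sub _ ht.1 : {t | t ∈ E (0 + 1) ∧ t ∉ WL (0 + 1 - 1) ∧ t.length = n} ⊆ WL (0 + 1))).trans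
        ((h4 (0 + 1)).trans ?_)
      have hU1 : Ub (0 + 1) ≤ 2 * Ub 0 := Ub_succ 0
      have hX1 := hDX 0 1
      rw [pow_one] at hX1
      have hX0 := hqs 0 1 le_rfl
      rw [mul_one] at hX0
      calc ENNReal.ofReal C4 * (ENNReal.ofReal (Ub (0 + 1)) * Xb (0 + 1) ^ 2)
          ≤ ENNReal.ofReal C4 * (ENNReal.ofReal (2 * Ub 0) * (ENNReal.ofReal Dx * Xb 0) ^ 2) := by
            refine mul_le_mul_right (mul_le_mul' (ENNReal.ofReal_le_ofReal hU1) (pow_le_pow_left' hX1 2)) _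
        _ = ENNReal.ofReal (C4 * (2 * Ub 0) * Dx ^ 2) * Xb 0 ^ 2 := by
            rw [mul_pow, ← ENNReal.ofReal_pow (by positivity), ← mul_assoc, ← mul_assoc, ← ENNReal.ofReal_mul (by positivity),
              ← ENNReal.ofReal_mul (by positivity)]
        _ ≤ ENNReal.ofReal (C4 * (2 * Ub 0) * Dx ^ 2) * (ENNReal.ofReal (2 ^ qs) * X 0) := mul_le_mul_right hX0 _
        _ = ENNReal.ofReal (C4 * (2 * Ub 0) * Dx ^ 2 * 2 ^ qs) * X 0 := by
            rw [← mul_assoc, ← ENNReal.ofReal_mul (by positivity)]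
        _ ≤ ENNReal.ofReal (A * (1 / 2) ^ (Q * 1) * (Ub 0 / m 0)) * X 0 := by
            refine mul_le_mul_left (ENNReal.ofReal_le_ofReal ?_) _
            have e5 : ((2 : ℝ)) ^ Q * (1 / 2) ^ Q = 1 := by
              rw [← mul_pow]
              norm_num
            have e6 : C4 * (2 * Ub 0) * Dx ^ 2 * 2 ^ qs =
                C4 * 2 * Dx ^ 2 * 2 ^ qs * m 0 * 2 ^ Q * (1 / 2) ^ (Q * 1) * (Ub 0 / m 0) := by
              rw [mul_one, mul_assoc (C4 * 2 * Dx ^ 2 * 2 ^ qs * m 0), e5]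
              field_simp
            rw [e6]
            have : C4 * 2 * Dx ^ 2 * 2 ^ qs * m 0 * 2 ^ Q ≤ A := by linarith
            gcongr
        _ = _ := by
            rw [← mul_assoc, ← ENNReal.ofReal_mul (by rw [hAd]; positivity)]
    · have h5 := h3 k (i - 1) n hn2.le (by omega)
      refine (gf_mono ?_).trans (h5.trans ((mul_le_mul_right (hqs k (D2 * (i + 1)) hk) _).trans ?_))
      · rintro t ⟨a1, a2, a3⟩
        refine ⟨⟨(hcl.sub _ a1).1, a3.le⟩, ?_⟩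
        rwa [show k + (i - 1) = k + i - 1 by omega]
      · rw [← mul_assoc (ENNReal.ofReal (A3 * _ * _)) _ (X k), ← mul_assoc (ENNReal.ofReal (A * _)) _ (X k),
          ← ENNReal.ofReal_mul (by positivity), ← ENNReal.ofReal_mul (by rw [hAd]; positivity)]
        refine mul_le_mul_left (ENNReal.ofReal_le_ofReal ?_) _
        have e1 : m k ≤ 2 ^ (qm * (D2 * (i + 1))) * m 0 := by
          have e2 := hmu 0 k
          rw [zero_add] at e2
          refine e2.trans (mul_le_mul_of_nonneg_right ?_ hm0.le)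
          calc Cm ^ k ≤ (2 ^ qm) ^ k := pow_le_pow_left₀ hCm0.le hqm.le k
            _ = 2 ^ (qm * k) := (pow_mul _ _ _).symm
            _ ≤ 2 ^ (qm * (D2 * (i + 1))) := pow_le_pow_right₀ (by norm_num) (Nat.mul_le_mul_left _ hk.le)
        have e3 : ((1 : ℝ) / 2) ^ ((Q + qq * D2) * (i - 1)) * (2 ^ (qm * (D2 * (i + 1))) * 2 ^ (qs * (D2 * (i + 1)))) =
            2 ^ (Q + 2 * (qq * D2)) * (1 / 2) ^ (Q * i) := by
          obtain ⟨r, rfl⟩ := Nat.exists_eq_add_of_le hi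
          rw [show 1 + r - 1 = r by omega, one_div, inv_pow, inv_pow, ← div_eq_inv_mul, ← div_eq_mul_inv,
            div_eq_div_iff (by positivity) (by positivity), ← pow_add, ← pow_add, ← pow_add, hqq]
          congr 1
          ring
        have e4 : Ub k = m k * (Ub k / m k) := by field_simp
        calc A3 * (1 / 2) ^ ((Q + qq * D2) * (i - 1)) * Ub k * 2 ^ (qs * (D2 * (i + 1))) =
              A3 * (1 / 2) ^ ((Q + qq * D2) * (i - 1)) * (m k * (Ub k / m k)) * 2 ^ (qs * (D2 * (i + 1))) := by rw [← e4]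
          _ ≤ A3 * (1 / 2) ^ ((Q + qq * D2) * (i - 1)) * (2 ^ (qm * (D2 * (i + 1))) * m 0 * (Ub k / m k)) *
              2 ^ (qs * (D2 * (i + 1))) := by gcongr
          _ = A3 * m 0 * ((1 / 2) ^ ((Q + qq * D2) * (i - 1)) * (2 ^ (qm * (D2 * (i + 1))) * 2 ^ (qs * (D2 * (i + 1))))) *
              (Ub k / m k) := by ring
          _ = A3 * m 0 * 2 ^ (Q + 2 * (qq * D2)) * (1 / 2) ^ (Q * i) * (Ub k / m k) := by
              rw [e3]
              ring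
          _ ≤ A * (1 / 2) ^ (Q * i) * (Ub k / m k) := by
              have : A3 * m 0 * 2 ^ (Q + 2 * (qq * D2)) ≤ A := by linarith
              gcongr
  · -- the exact estimates
    obtain ⟨s, hs⟩ : ∃ s, s = k - (8 * i + J2) := ⟨_, rfl⟩
    have hsub : {t | t ∈ E (k + i) ∧ t ∉ WL (k + i - 1) ∧ t.length = n} ⊆
        (⋃ x : Fin 3 × Fin 3, {t | x.1 ≠ x.2 ∧ t.length = n ∧ t ∈ E (k + i) ∧ ∀ d, d = x.1 ∨ d = x.2 →
          ¬ HR d (k - (8 * i + J2)) (RJ (k - (8 * i + J2)) (2 ^ (k + i + 3)) J) t}) ∪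
        ⋃ d : Fin 3, {t | t.length = n ∧ t ∈ E (k + i) ∧
          HR d (k - (8 * i + J2)) (RJ (k - (8 * i + J2)) (2 ^ (k + i + 3)) J) t ∧
          ∃ a b, a ≤ n ∧ b ≤ n ∧ (2 : ℤ) ^ (k + i) ≤ 2 * (lv3 d (vx oo up t a) - lv3 d (vx oo up t b))} := by
      rintro t ⟨ht, ho, hlen⟩
      obtain ⟨d, d', hdd, r1, r2⟩ := out_range (hcl.sub _ ht).1 ho
      rw [show k + i - 1 + 1 = k + i by omega, hlen] at r1 r2
      by_cases g1 : HR d (k - (8 * i + J2)) (RJ (k - (8 * i + J2)) (2 ^ (k + i + 3)) J) t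
      · exact Or.inr (Set.mem_iUnion.2 ⟨d, hlen, ht, g1, r1⟩)
      · by_cases g2 : HR d' (k - (8 * i + J2)) (RJ (k - (8 * i + J2)) (2 ^ (k + i + 3)) J) t
        · exact Or.inr (Set.mem_iUnion.2 ⟨d', hlen, ht, g2, r2⟩)
        · refine Or.inl (Set.mem_iUnion.2 ⟨(d, d'), Ne.symm hdd, hlen, ht, ?_⟩)
          rintro e (rfl | rfl)
          · exact g1
          · exact g2
    refine (gf_mono hsub).trans ((gf_union_le _ _).trans ((add_le_add (Crw.gf_iUnion_le _) (Crw.gf_iUnion_le _)).trans ?_))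
    rw [tsum_fintype, tsum_fintype]
    have u1 : ∑ x : Fin 3 × Fin 3, gf {t | x.1 ≠ x.2 ∧ t.length = n ∧ t ∈ E (k + i) ∧ ∀ d, d = x.1 ∨ d = x.2 →
          ¬ HR d (k - (8 * i + J2)) (RJ (k - (8 * i + J2)) (2 ^ (k + i + 3)) J) t} ≤
        9 * (ENNReal.ofReal (A2 * (1 / 2) ^ (Q * i) * (Ub k / m k)) * X k) := by
      refine (Finset.sum_le_card_nsmul _ _ (ENNReal.ofReal (A2 * (1 / 2) ^ (Q * i) * (Ub k / m k)) * X k)
        fun x _ => ?_).trans (le_of_eq ?_)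
      · by_cases hx : x.1 ≠ x.2
        · refine (gf_mono ?_).trans (h2 x.1 x.2 hx k i n (by omega) hn1)
          rintro t ⟨-, h⟩
          exact h
        · refine le_trans (gf_mono ?_) (le_trans (le_of_eq gf_empty) zero_le)
          rintro t ⟨h, -⟩
          exact absurd h hx
      · rw [Finset.card_univ, Fintype.card_prod, Fintype.card_fin, nsmul_eq_mul]
        norm_num
    have u2 : ∑ d : Fin 3, gf {t | t.length = n ∧ t ∈ E (k + i) ∧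
          HR d (k - (8 * i + J2)) (RJ (k - (8 * i + J2)) (2 ^ (k + i + 3)) J) t ∧
          ∃ a b, a ≤ n ∧ b ≤ n ∧ (2 : ℤ) ^ (k + i) ≤ 2 * (lv3 d (vx oo up t a) - lv3 d (vx oo up t b))} ≤
        3 * (ENNReal.ofReal (A1 * (1 / 2) ^ (Q * i) * (Ub k / m k)) * X k) := by
      refine (Finset.sum_le_card_nsmul _ _ (ENNReal.ofReal (A1 * (1 / 2) ^ (Q * i) * (Ub k / m k)) * X k)
        fun d _ => h1 d k i n (by omega) hn2).trans (le_of_eq ?_)
      rw [Finset.card_univ, Fintype.card_fin, nsmul_eq_mul]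
      norm_num
    refine (add_le_add u1 u2).trans ?_
    rw [← mul_assoc, ← mul_assoc, ← mul_assoc, ← add_mul]
    refine mul_le_mul_left ?_ _
    rw [show (9 : ℝ≥0∞) = ENNReal.ofReal 9 by norm_num, show (3 : ℝ≥0∞) = ENNReal.ofReal 3 by norm_num,
      ← ENNReal.ofReal_mul (by norm_num), ← ENNReal.ofReal_mul (by norm_num), ← ENNReal.ofReal_add (by positivity)
      (by positivity), ← ENNReal.ofReal_mul (by rw [hAd]; positivity)]
    refine ENNReal.ofReal_le_ofReal ?_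
    calc 9 * (A2 * (1 / 2) ^ (Q * i) * (Ub k / m k)) + 3 * (A1 * (1 / 2) ^ (Q * i) * (Ub k / m k)) =
          (9 * A2 + 3 * A1) * (1 / 2) ^ (Q * i) * (Ub k / m k) := by ring
      _ ≤ A * (1 / 2) ^ (Q * i) * (Ub k / m k) := by
          have : 9 * A2 + 3 * A1 ≤ A := by linarith
          gcongr

/-- **the pointwise upper bound for a class** -/
theorem upL {E : ℕ → Set (List Bool)} {X : ℕ → ℝ≥0∞} (hcl : ClsX E X) {m : ℕ → ℝ} (hm : MLow m) (hd : MUp m)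
    (hA : ASm m) (hG : GBU m) (hE : ExsM E X m) (hX : ExtC E X m) :
    ∃ C : ℝ, 0 < C ∧ ∀ k n : ℕ, m k ≤ n → n < m (k + 1) →
      gf {t | (∃ K, t ∈ E K) ∧ t.length = n} ≤ ENNReal.ofReal C * (ENNReal.ofReal (Ub k / m k) * X k) := by
  obtain ⟨A, hA1, h⟩ := allL hcl hm hd hA hG hE hX 1
  obtain ⟨C, hC, hQ⟩ := hX
  obtain ⟨A0, hA0, h0⟩ := hQ 0
  have hA' : 0 < A := by linarith
  have hA0' : 0 < A0 := by linarith
  refine ⟨A0 + A, by linarith, fun k n h1 h2 => ?_⟩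
  have hmk := hm.pos k
  have hsub : {t | (∃ K, t ∈ E K) ∧ t.length = n} ⊆
      {t | (t ∈ E k ∧ t.length = n) ∧ ∃ x z : ℕ, Bx (k + 2) t x z ∧ 1 * m k ≤ (z : ℝ) - x} ∪
      ⋃ j : ℕ, {t | t ∈ E (k + (1 + j)) ∧ t ∉ WL (k + (1 + j) - 1) ∧ t.length = n} := by
    rintro t ⟨⟨K, hK⟩, ht⟩
    have hex : ∃ K', t ∈ WL K' := ⟨K, hcl.sub K hK⟩
    classical
    have h3 := hcl.her K _ t hK (Nat.find_spec hex)
    by_cases h4 : t ∈ WL k
    · left
      refine ⟨⟨hcl.her K k t hK h4, ht⟩, 0, t.length, bx_all h4, ?_⟩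
      rw [ht, one_mul]
      simpa using h1
    · right
      have h5 : k < Nat.find hex := by
        by_contra hc
        exact h4 (WL_mono (by omega) (Nat.find_spec hex))
      have h6 : t ∉ WL (Nat.find hex - 1) := Nat.find_min hex (by omega)
      rw [Set.mem_iUnion]
      refine ⟨Nat.find hex - k - 1, ?_, ?_, ht⟩
      · rw [show k + (1 + (Nat.find hex - k - 1)) = Nat.find hex by omega]
        exact h3
      · rw [show k + (1 + (Nat.find hex - k - 1)) - 1 = Nat.find hex - 1 by omega]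
        exact h6
  refine (gf_mono hsub).trans ((gf_union_le _ _).trans ?_)
  rw [ENNReal.ofReal_add hA0'.le hA'.le, add_mul]
  refine add_le_add ?_ ((Crw.gf_iUnion_le _).trans ?_)
  · refine (h0 n k k 1 le_rfl le_rfl).trans (le_of_eq ?_)
    rw [Nat.sub_self, pow_zero, pow_zero, div_one, mul_one]
  · have h3 : ∀ j : ℕ, gf {t | t ∈ E (k + (1 + j)) ∧ t ∉ WL (k + (1 + j) - 1) ∧ t.length = n} ≤
        ENNReal.ofReal (A * (1 / 2 / 2 ^ j)) * (ENNReal.ofReal (Ub k / m k) * X k) := by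
      intro j
      refine (h k (1 + j) n (by omega) h1 h2).trans (mul_le_mul_left (ENNReal.ofReal_le_ofReal (le_of_eq ?_)) _)
      rw [one_mul, pow_add, pow_one, one_div, inv_pow, ← div_eq_mul_inv]
    refine (ENNReal.tsum_le_tsum h3).trans ?_
    rw [ENNReal.tsum_mul_right]
    refine mul_le_mul_left ?_ _
    rw [← ENNReal.ofReal_tsum_of_nonneg (fun j => by positivity) ((summable_geometric_two' 1).mul_left _)]
    refine ENNReal.ofReal_le_ofReal (le_of_eq ?_)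
    rw [tsum_mul_left, tsum_geometric_two', mul_one]

/-- **the pointwise upper bound for a class, for the mean length of the bridges** -/
theorem upL_M {E : ℕ → Set (List Bool)} {X : ℕ → ℝ≥0∞} (hcl : ClsX E X) (hR : RunC E X) (hE : ExsL E X) :
    ∃ C : ℝ, 0 < C ∧ ∀ k n : ℕ, PW.mZ (2 ^ k) ≤ n → n < PW.mZ (2 ^ (k + 1)) →
      gf {t | (∃ K, t ∈ E K) ∧ t.length = n} ≤
        ENNReal.ofReal C * (ENNReal.ofReal (Ub k / PW.mZ (2 ^ k)) * X k) := by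
  obtain ⟨J00, hg⟩ := gbm_M
  exact upL hcl mlow_M mup_M asm_M gbu_M hE
    (extC hcl hR mlow_M mup_M mpow_M longN_M tb_M (hg J00 le_rfl))

end CX

/-- **the pointwise upper bound for the half plane words** -/
theorem hp_upperL (hR : RunC HL Xb) (hE : ExsL HL Xb) : ∃ C : ℝ, 0 < C ∧ ∀ k n : ℕ, PW.mZ (2 ^ k) ≤ n →
    n < PW.mZ (2 ^ (k + 1)) → gf (HpN n) ≤ ENNReal.ofReal C * (ENNReal.ofReal (Ub k / PW.mZ (2 ^ k)) * Xb k) := by
  obtain ⟨C, hC, h⟩ := CX.upL_M cls_HL hR hE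
  refine ⟨C, hC, fun k n h1 h2 => (gf_mono fun t ht => ?_).trans (h k n h1 h2)⟩
  have hSA : t ∈ SA := ⟨fun i h3 h4 => trivial, ht.2.2⟩
  obtain ⟨K, hK⟩ := exists_WL hSA
  exact ⟨⟨K, hK, ht.2⟩, ht.1⟩

end EN

end HexObs
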