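import Pool.Agent.HBD.MarkTot
import Pool.Agent.HBD.DefsK
import Pool.Agent.EN.ExDir

/-!
HexBoundary, marked events (K1): the words with a mark, a run behind the mark in a class of small exact norm.
-/

set_option autoImplicit false

namespace HexObs

namespace EN

namespace MK

open Finset TS SDN SDN.CN NTm NTW NTA EX

open scoped ENNReal

/-- ER with the run behind the letter a -/
def ERk (a kc J : ℕ) (R : Set (List (List Bool))) : Set (List Bool) :=
  {t | t ∈ WL (kc + J) ∧ ∃ (m u : ℕ) (e : ℕ → ℕ), Fd (kc + 5) t m u e ∧ ∃ l d : ℕ, 1 ≤ d ∧ l + d ≤ m ∧ a ≤ e l ∧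
    ∀ ms : List (List Bool), ms.length = d → (∀ (i : ℕ) (hi : i < ms.length), PosL t u e (l + i) ms[i]) →
      (∀ (i : ℕ) (hi : i < ms.length), 1 ≤ l + i → l + i + 2 ≤ m → ms[i] = lw t (e (l + i)) (e (l + i + 1))) →
      ms.IsChain LFold → (∀ g ∈ ms, g ∈ BrR (2 ^ (kc + 4)) (2 ^ (kc + J + 2))) → ms ∈ R}

lemma ermk_sub {a kc J : ℕ} {R : Set (List (List Bool))} : ERMk a kc (kc + J) R ⊆ ERk a kc J R := by
  rintro t ⟨ht, m, u, e, hL, l, d, h1, h2, h3, ha, h4⟩
  obtain ⟨e', hF, he⟩ := RD.fd_of_lf (show 1 ≤ kc + 5 by omega) (by omega) hL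
  refine ⟨ht, m, u, e', hF, l, d, h2, by omega, by rw [he l h1 (by omega)]; exact ha, fun ms hms _ hmid _ _ => ?_⟩
  have h5 : ms = lws t e l d := by
    apply List.ext_getElem
    · rw [hms]
      simp [lws]
    · intro i hi hi'
      rw [hmid i hi (by omega) (by omega), he (l + i) (by omega) (by omega), he (l + i + 1) (by omega) (by omega)]
      simp [lws]
  rw [h5]
  exact h4

open QF in
/-- the norm of the functional of the chains that begin with the run, another left end -/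
theorem fun_boundA {Dm : ℕ → ℝ≥0∞ → (List Bool → ℝ≥0∞) → Prop} (hDm : DmP Dm) (hA : SsA) (h3 : Ss3) :
    ∃ Q : ℝ, 1 ≤ Q ∧ ∀ (kc J n : ℕ) (W : ℕ → Set (List Bool)) (kp : ℕ → ℕ) (R : Set (List (List Bool))) (δ x : ℝ)
      (x0 : ℝ≥0∞) (Φ : ℕ → ℕ → List Bool → ℝ≥0∞) (Ψ : ℕ → List Bool → ℝ≥0∞), Wnd kc J n W kp → 1 ≤ n → 0 ≤ δ →
      0 ≤ x → SmRX Dm kc R δ →
      (∀ i, i < n → Dom (kp i) (ENNReal.ofReal x) (tot (Φ i))) → x0 ≤ ENNReal.ofReal x → Dm kc x0 (tot (Φ 0)) →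
      GH (2 ^ (kc + 4)) (Φ 0) → Dm kc x0 (tot Ψ) → (∀ c, Flp (2 ^ (kc + 4)) (Ψ c)) → GH (2 ^ (kc + 4)) Ψ → ∀ M N : ℕ,
    Rec8.sw (HB (2 ^ (kc + 4))) (fun g => ∑ c ∈ range (N + 1), Ψ c (rev g) *
        sh (runG R (Fg W kp n Φ M 0)) (N - c) g) ≤
      ENNReal.ofReal (Q ^ (n + J + 1) * δ * Ub (kc + J) * x ^ 2) := by
  obtain ⟨C, δ0, hInp⟩ := inp_exists
  obtain ⟨K, hK1, hK⟩ := two_scale
  obtain ⟨K2, hK2, hN⟩ := nextD_of hInp hA h3
  obtain ⟨q, hq⟩ : ∃ q : ℝ, q = 128 * K + 1 := ⟨_, rfl⟩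
  have hq1 : 1 ≤ q := by linarith
  have hq2 : 2 ≤ q := by linarith
  have hq0 : 0 ≤ q := by linarith
  obtain ⟨A, hAdef⟩ : ∃ A : ℝ, A = 65 * K2 := ⟨_, rfl⟩
  have hA1 : 1 ≤ A := by linarith
  refine ⟨A * q ^ 3, one_le_mul_of_one_le_of_one_le hA1 (one_le_pow₀ hq1), ?_⟩
  intro kc J n W kp R δ x x0 Φ Ψ hW hn hδ hx hS hΦ hx0 hΦ0 hΦh hΨ0 hflp hΨh M N
  have hK20 : 0 ≤ K2 := by linarith
  have hU := Ub_pos kc
  have hUL := Ub_pos (kc + J)
  have hUJ : Ub (kc + J) ≤ 2 ^ J * Ub kc := UU_ratio_up kc J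
  have hn0 : (0 : ℝ) ≤ n := Nat.cast_nonneg n
  have hn1 : (1 : ℝ) ≤ n := by exact_mod_cast hn
  obtain ⟨r, hr⟩ : ∃ r, r = Ub (kc + J) / Ub kc := ⟨_, rfl⟩
  have hr1 : 1 ≤ r := by
    rw [hr, le_div_iff₀ hU, one_mul]
    exact Ub_mono (by omega)
  have hr0 : 0 ≤ r := by linarith
  have hrJ : r ≤ 2 ^ J := by
    rw [hr, div_le_iff₀ hU]
    exact hUJ
  have hqn : 1 ≤ q ^ n := one_le_pow₀ hq1
  -- the right functional
  obtain ⟨B, hB⟩ : ∃ B : ℝ, B = 64 * K2 * n * x * r * q ^ n := ⟨_, rfl⟩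
  have hB0 : 0 ≤ B := by rw [hB]; positivity
  have hRx : xT (2 ^ (kc + 4)) kc (tot (Rg W kp n Φ M 0)) ≤ ENNReal.ofReal B := by
    rw [tot_Rg]
    have h1 := rightX (Q := q) hK1 (by linarith) hK hK2 hN hW hx hΦ M 0
      (by rw [hW.zero]; omega)
    rw [hW.zero, Nat.sub_zero, ← hr, ← hB] at h1
    exact h1
  have hRg : GH (2 ^ (kc + 4)) (Rg W kp n Φ M 0) := by
    have := GH_Rg W kp n Φ M 0
    rwa [hW.zero] at this
  have hRD : Dm kc (xT (2 ^ (kc + 4)) kc (tot (Rg W kp n Φ M 0))) (tot (Rg W kp n Φ M 0)) := hDm.dm kc _ (herD_tot hRg)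
  obtain ⟨g, hg⟩ : ∃ g : ℝ, g = δ * (x + B) := ⟨_, rfl⟩
  have hg0 : 0 ≤ g := by
    rw [hg]
    positivity
  have h1 : Rec8.sw (HB (2 ^ (kc + 4))) (fun g => ∑ c ∈ range (N + 1), Ψ c (rev g) *
      sh (runG R (Fg W kp n Φ M 0)) (N - c) g) ≤ ENNReal.ofReal (Ub kc * x * g) := by
    have e1 : Rec8.sw (HB (2 ^ (kc + 4))) (fun g => ∑ c ∈ range (N + 1), Ψ c (rev g) *
        sh (runG R (Fg W kp n Φ M 0)) (N - c) g) =
        Rec8.sw (HB (2 ^ (kc + 4))) (fun g => ∑ c ∈ range (N + 1), Ψ c (rev g) * sh (runG R (Φ 0)) (N - c) g) +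
          Rec8.sw (HB (2 ^ (kc + 4))) (fun g => ∑ c ∈ range (N + 1), Ψ c (rev g) *
            sh (runG R (Rg W kp n Φ M 0)) (N - c) g) := by
      rw [← Rec8.sw_add]
      refine Rec8.sw_congr fun g _ => ?_
      rw [← Finset.sum_add_distrib]
      refine Finset.sum_congr rfl fun c _ => ?_
      rw [← mul_add]
      congr 1
      have e2 : runG R (Fg W kp n Φ M 0) = fun c s => runG R (Φ 0) c s + runG R (Rg W kp n Φ M 0) c s := by
        funext c s
        exact runG_add (Φ 0) (Rg W kp n Φ M 0) c s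
      rw [e2]
      exact shf_addF (fun c => runG R (Φ 0) c g) (fun c => runG R (Rg W kp n Φ M 0) c g) _ _
    rw [e1]
    refine (add_le_add ((hS.free _ _ _ _ hΨh hflp hΦh hΨ0 hΦ0 N).trans (mul_le_mul_right (mul_le_mul' hx0 hx0) _))
      ((hS.free _ _ _ _ hΨh hflp hRg hΨ0 hRD N).trans (mul_le_mul_right (mul_le_mul' hx0 hRx) _))).trans (le_of_eq ?_)
    rw [← ENNReal.ofReal_mul hx, ← ENNReal.ofReal_mul hx, ← ENNReal.ofReal_mul (by positivity),
      ← ENNReal.ofReal_mul (by positivity), ← ENNReal.ofReal_add (by positivity) (by positivity), hg]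
    congr 1
    ring
  refine h1.trans (ENNReal.ofReal_le_ofReal ?_)
  have h5 : g ≤ 65 * K2 * (δ * x) * (n * r * q ^ n) := by
    have a1 : 1 ≤ (n : ℝ) * r * q ^ n :=
      one_le_mul_of_one_le_of_one_le (one_le_mul_of_one_le_of_one_le hn1 hr1) hqn
    have a2 : δ * x ≤ K2 * (δ * x) * (n * r * q ^ n) := by
      have b1 : 1 ≤ K2 * (n * r * q ^ n) := one_le_mul_of_one_le_of_one_le hK2 a1
      calc δ * x = (δ * x) * 1 := (mul_one _).symm
        _ ≤ (δ * x) * (K2 * (n * r * q ^ n)) := mul_le_mul_of_nonneg_left b1 (by positivity)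
        _ = _ := by ring
    rw [hg, hB]
    calc δ * (x + 64 * K2 * n * x * r * q ^ n) = δ * x + 64 * (K2 * (δ * x) * (n * r * q ^ n)) := by ring
      _ ≤ K2 * (δ * x) * (n * r * q ^ n) + 64 * (K2 * (δ * x) * (n * r * q ^ n)) := by linarith
      _ = _ := by ring
  have h6 : (n : ℝ) ≤ q ^ n := by
    have a1 : n < 2 ^ n := Nat.lt_two_pow_self
    have a2 : (n : ℝ) ≤ 2 ^ n := by exact_mod_cast a1.le
    exact a2.trans (pow_le_pow_left₀ (by norm_num) hq2 n)
  have h7 : r ≤ q ^ J := hrJ.trans (pow_le_pow_left₀ (by norm_num) hq2 J)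
  have h8 : (n : ℝ) * r * q ^ n ≤ (q ^ 3) ^ (n + J + 1) := by
    calc (n : ℝ) * r * q ^ n ≤ q ^ n * q ^ J * q ^ n := by gcongr
      _ = q ^ (n + J + n) := by ring
      _ ≤ q ^ (3 * (n + J + 1)) := pow_le_pow_right₀ hq1 (by omega)
      _ = _ := by rw [pow_mul]
  have h9 : A ≤ A ^ (n + J + 1) := by
    calc A = A ^ 1 := (pow_one _).symm
      _ ≤ _ := pow_le_pow_right₀ hA1 (by omega)
  have hUU : Ub kc ≤ Ub (kc + J) := Ub_mono (by omega)
  calc Ub kc * x * g ≤ Ub (kc + J) * x * (65 * K2 * (δ * x) * (n * r * q ^ n)) := by gcongr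
    _ = A * (n * r * q ^ n) * (δ * Ub (kc + J) * x ^ 2) := by
        rw [hAdef]
        ring
    _ ≤ A ^ (n + J + 1) * (q ^ 3) ^ (n + J + 1) * (δ * Ub (kc + J) * x ^ 2) := by gcongr
    _ = (A * q ^ 3) ^ (n + J + 1) * δ * Ub (kc + J) * x ^ 2 := by
        rw [← mul_pow]
        ring

open QF in
open Classical in
/-- **the words with a mark and n letters behind it, a marked run behind the mark in a class of small exact norm** -/
theorem eventRXk {Dm : ℕ → ℝ≥0∞ → (List Bool → ℝ≥0∞) → Prop} (hDm : DmP Dm) (hG : GeoRun)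
    (hA : SsA) (h3 : Ss3) (hD : SsD) : ∃ (C : ℝ) (k0 : ℕ), 1 ≤ C ∧
  ∀ (al : List Bool → ℕ) (kc J lam lam' n : ℕ) (R : Set (List (List Bool))) (δ : ℝ), k0 ≤ kc → 6 ≤ J → 0 < δ →
    QL (kc + J + 8) lam' → SmRX Dm kc R δ →
    gf {t | Mk al n t ∧ t ∈ SAL lam ∧ t ∈ ERk (al t) kc J R} ≤
      ENNReal.ofReal (C ^ J * δ * Ub (kc + J)) * (bl (lam + lam' + 40) (kc + J + 8)) ^ 2 := by
  obtain ⟨V, k0, hV1, hwin⟩ := win_family
  obtain ⟨Q1, hQ1, hfun1⟩ := EX.fun_boundX hDm hA h3 hD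
  obtain ⟨Q2, hQ2, hfun2⟩ := fun_boundA hDm hA h3
  obtain ⟨Q, hQdef⟩ : ∃ Q, Q = max Q1 Q2 := ⟨_, rfl⟩
  have hQ : 1 ≤ Q := by rw [hQdef]; exact hQ1.trans (le_max_left _ _)
  obtain ⟨Kc, hKc, hcov⟩ := coverK
  obtain ⟨Ke, hKe, hE⟩ := hDm.fin
  have hKc0 : 0 < Kc := by linarith
  have hKe0 : 0 < Ke := by linarith
  have hQ0 : 0 < Q := by linarith
  have hKK : 1 ≤ 16 * Kc * Ke ^ 2 := by
    have a1 : 1 ≤ Ke ^ 2 := one_le_pow₀ hKe
    have a2 : 1 ≤ Kc * Ke ^ 2 := one_le_mul_of_one_le_of_one_le hKc a1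
    linarith
  have hQV : 1 ≤ Q ^ (2 * V + 2) := one_le_pow₀ hQ
  refine ⟨16 * Kc * Ke ^ 2 * Q ^ (2 * V + 2), max k0 1, one_le_mul_of_one_le_of_one_le hKK hQV, ?_⟩
  intro al kc J lam lam' nn R δ hkc hJ hδ hQL hS
  have hk0 : k0 ≤ kc := (le_max_left _ _).trans hkc
  have hk1 : 1 ≤ kc := (le_max_right _ _).trans hkc
  have hUL := Ub_pos (kc + J)
  obtain ⟨B, hB⟩ : ∃ B, B = bl (lam + lam' + 40) (kc + J + 8) := ⟨_, rfl⟩
  rw [← hB]
  by_cases hBt : B = ⊤
  · rw [hBt]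
    have h1 : ENNReal.ofReal ((16 * Kc * Ke ^ 2 * Q ^ (2 * V + 2)) ^ J * δ * Ub (kc + J)) ≠ 0 := by
      rw [Ne, ENNReal.ofReal_eq_zero, not_le]
      positivity
    rw [show ((⊤ : ℝ≥0∞)) ^ 2 = ⊤ by simp, ENNReal.mul_top h1]
    exact le_top
  obtain ⟨b, hb⟩ : ∃ b, b = B.toReal := ⟨_, rfl⟩
  have hb0 : 0 ≤ b := by rw [hb]; exact ENNReal.toReal_nonneg
  have hBb : B = ENNReal.ofReal b := by rw [hb, ENNReal.ofReal_toReal hBt]
  obtain ⟨x, hx⟩ : ∃ x, x = Ke * b := ⟨_, rfl⟩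
  have hx0 : 0 ≤ x := by rw [hx]; positivity
  have hxB : ENNReal.ofReal x = ENNReal.ofReal Ke * B := by rw [hx, hBb, ENNReal.ofReal_mul hKe0.le]
  obtain ⟨W, kp, idx, hW, hidx, hmem⟩ := hwin kc (J + 2) hk0 (by omega)
  obtain ⟨n, hn⟩ : ∃ n, n = V * (J + 2) := ⟨_, rfl⟩
  rw [← hn] at hW hmem
  have hn1 : 1 ≤ n := by
    rw [hn]
    exact Nat.mul_pos hV1 (by omega)
  obtain ⟨Φ, hΦ⟩ : ∃ Φ : ℕ → ℕ → List Bool → ℝ≥0∞,
    Φ = fun i => Pg (2 ^ (kp i + 4)) (2 ^ (kp i + 6)) (lam + 20) := ⟨_, rfl⟩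
  have hDmi : ∀ i, i < n → Dm (kp i) (ENNReal.ofReal Ke * bl (lam + 20 + lam' + 12) (kp i + 6)) (tot (Φ i)) := by
    intro i hi
    have h0 : kc ≤ kp i := by
      rw [← hW.zero]
      exact hW.mono 0 i (Nat.zero_le i)
    have h1 := hW.top i hi
    have := hE (kp i + 4) (2 ^ (kp i + 6)) (lam + 20) lam' (by omega) (Nat.pow_lt_pow_right (by norm_num) (by omega))
      (Nat.pow_le_pow_right (by norm_num) (by omega)) (fun a ha => hQL a (by omega))
    rw [hΦ]
    simp only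
    rw [tot_Pg]
    exact this
  have hle : ∀ i, i < n → ENNReal.ofReal Ke * bl (lam + 20 + lam' + 12) (kp i + 6) ≤ ENNReal.ofReal x := by
    intro i hi
    rw [hxB, hB]
    refine mul_le_mul_right ((bl_mono_lam (by omega) _).trans (bl_mono _ ?_)) _
    have h1 := hW.top i hi
    omega
  have hDom : ∀ i, i < n → Dom (kp i) (ENNReal.ofReal x) (tot (Φ i)) := fun i hi =>
    (hDm.dom _ _ _ (hDmi i hi)).mono (hle i hi)
  have hD0 : Dm kc (ENNReal.ofReal Ke * bl (lam + 20 + lam' + 12) (kc + 6)) (tot (Φ 0)) := by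
    have := hDmi 0 (by omega)
    rwa [hW.zero] at this
  have hle0 : ENNReal.ofReal Ke * bl (lam + 20 + lam' + 12) (kc + 6) ≤ ENNReal.ofReal x := by
    have := hle 0 (by omega)
    rwa [hW.zero] at this
  have hΦ0 : Φ 0 = Pg (2 ^ (kc + 4)) (2 ^ (kc + 6)) (lam + 20) := by
    rw [hΦ]
    simp only [hW.zero]
  have hflp : ∀ c, Flp (2 ^ (kc + 4)) (Φ 0 c) := by
    rw [hΦ0]
    exact flp_Pg Nat.one_le_two_pow _ _
  have hΦh : GH (2 ^ (kc + 4)) (Φ 0) := by
    rw [hΦ0]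
    exact GH_Pg Nat.one_le_two_pow _ _
  obtain ⟨R', hR'⟩ : ∃ R', R' = {gs : List (List Bool) | gs ∈ R ∧ ∀ g ∈ gs, g ∈ BrR (2 ^ (kc + 4)) (2 ^ (kc + J + 2))} :=
    ⟨_, rfl⟩
  have hR'S : SmRX Dm kc R' δ := SmRX.anti hS (by rw [hR']; exact fun gs h => h.1)
  have hR'H : ∀ gs ∈ R', ∀ g ∈ gs, g ∈ HB (2 ^ (kc + 4)) := by
    intro gs hgs g hg
    rw [hR'] at hgs
    exact (NTW.EX.Brd_HB le_rfl (hgs.2 g hg)).1
  obtain ⟨M, hM⟩ : ∃ M, M = 100 * 4 ^ (kc + J) := ⟨_, rfl⟩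
  obtain ⟨T, hT⟩ : ∃ T, T = ENNReal.ofReal (Q ^ (n + (J + 2) + 1) * δ * Ub (kc + (J + 2)) * x ^ 2) := ⟨_, rfl⟩
  have hTQ : ∀ Q', 1 ≤ Q' → Q' ≤ Q → ENNReal.ofReal (Q' ^ (n + (J + 2) + 1) * δ * Ub (kc + (J + 2)) * x ^ 2) ≤ T := by
    intro Q' h1 h2
    rw [hT]
    have := Ub_pos (kc + (J + 2))
    apply ENNReal.ofReal_le_ofReal
    have h4 : Q' ^ (n + (J + 2) + 1) ≤ Q ^ (n + (J + 2) + 1) := pow_le_pow_left₀ (by linarith) h2 _
    gcongr
  have hfunB : ∀ N : ℕ, ∑ i ∈ range n, Rec8.sw (W i) (fun g => tot (Φ i) (rev g) *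
      FL W kp (Gm kc R' (Fg W kp n Φ M 0)) M i g) ≤ T := fun N =>
    (le_add_self.trans (hfun1 kc (J + 2) n W kp R' δ x _ Φ hW hn1 hδ.le hx0 hR'S hDom hle0 hD0 hflp hΦh M N)).trans
      (hTQ Q1 hQ1 (by rw [hQdef]; exact le_max_left _ _))
  have hfunA : ∀ (Ψ : ℕ → List Bool → ℝ≥0∞), Dm kc (ENNReal.ofReal Ke * bl (lam + 20 + lam' + 12) (kc + 6)) (tot Ψ) →
      (∀ c, Flp (2 ^ (kc + 4)) (Ψ c)) → GH (2 ^ (kc + 4)) Ψ → ∀ N : ℕ,
      Rec8.sw (HB (2 ^ (kc + 4))) (fun g => ∑ c ∈ range (N + 1), Ψ c (rev g) *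
        sh (runG R' (Fg W kp n Φ M 0)) (N - c) g) ≤ T := fun Ψ p1 p2 p3 N =>
    (hfun2 kc (J + 2) n W kp R' δ x _ Φ Ψ hW hn1 hδ.le hx0 hR'S hDom hle0 hD0 hΦh p1 p2 p3 M N).trans
      (hTQ Q2 hQ2 (by rw [hQdef]; exact le_max_right _ _))
  -- the classes
  obtain ⟨f, hf⟩ : ∃ f : Bool → ℕ → ℕ, f = fun a r => if a then 2 ^ (kc + 5) else r / 3 + 1 := ⟨_, rfl⟩
  have hfm : ∀ a, Monotone (f a) := by
    intro a x y hxy
    rw [hf]
    cases a
    · exact Nat.add_le_add_right (Nat.div_le_div_right hxy) 1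
    · exact le_rfl
  let A : Bool → Bool → Set (List Bool) := fun a a' => {t | Mk al nn t ∧ t ∈ SAL lam ∧ t ∈ WL (kc + J) ∧ ∃ (r u p d : ℕ) (E : ℕ → ℕ),
    p + d < r ∧ al t ≤ E p ∧ FoldG t r u E ∧ (∀ gs, RepG t r u E gs → (∀ g ∈ gs, g ∈ BrR (2 ^ (kc + 4)) (2 ^ (kc + J + 2))) →
      (gs.drop p).take (d + 1) ∈ R') ∧
    (∀ q, q < r → RR (kc + 5) ≤ RG t u E q) ∧ (∀ q, q + 1 < p → RG t u E (q + 1) ≤ RG t u E q) ∧
    (∀ q, p + d < q → q + 1 < r → RG t u E q ≤ RG t u E (q + 1)) ∧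
    (∀ i, i < E 0 → Tight.sg u (lev t i) - Tight.sg u (lev t (E 0)) ≤ if p = 0 then RR (kc + 5) else RG t u E 0) ∧
    (∀ i, E r < i → i ≤ t.length → Tight.sg (u + (r - 1)) (lev t (E r)) - Tight.sg (u + (r - 1)) (lev t i) ≤
      if p + d + 1 = r then RR (kc + 5) else RG t u E (r - 1)) ∧ (a = true ↔ p = 0) ∧ (a' = true ↔ p + d + 1 = r)}
  have hsub : {t | Mk al nn t ∧ t ∈ SAL lam ∧ t ∈ ERk (al t) kc J R} ⊆ ⋃ a ∈ (Finset.univ : Finset Bool), ⋃ a' ∈ (Finset.univ : Finset Bool),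
      A a a' := by
    rintro t ⟨htn, ht, htW, m, u, e, hF, l, d', hd', hl, hal, hgS⟩
    obtain ⟨d, rfl⟩ : ∃ d, d' = d + 1 := ⟨d' - 1, by omega⟩
    obtain ⟨r, u', p, E, g1, g2, gE, g3, gp, gr, g4, g5, g6, g7, g8⟩ :=
      hG (kc + 5) m u t e (by omega) ht.1 hF l d (by omega)
    rw [Set.mem_iUnion₂]
    refine ⟨decide (p = 0), Finset.mem_univ _, ?_⟩
    rw [Set.mem_iUnion₂]
    have hal' : al t ≤ E p := by
      have := gE 0 (by omega)
      rw [add_zero, add_zero] at this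
      omega
    refine ⟨decide (p + d + 1 = r), Finset.mem_univ _, htn, ht, htW, r, u', p, d, E, g1, hal', g2, ?_, g4, g5, g6, g7, g8, ?_, ?_⟩
    · intro gs hR hB
      have hlen := hR.len
      have hml : ((gs.drop p).take (d + 1)).length = d + 1 := by
        rw [List.length_take, List.length_drop]
        omega
      have hget : ∀ (i : ℕ) (hi : i < ((gs.drop p).take (d + 1)).length), ((gs.drop p).take (d + 1))[i] =
          gs[p + i]'(by omega) := by
        intro i hi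
        rw [List.getElem_take, List.getElem_drop]
      have hmB : ∀ g ∈ (gs.drop p).take (d + 1), g ∈ BrR (2 ^ (kc + 4)) (2 ^ (kc + J + 2)) := fun g hg =>
        hB g (List.mem_of_mem_drop (List.mem_of_mem_take hg))
      rw [hR']
      refine ⟨hgS _ hml ?_ ?_ ?_ hmB, hmB⟩
      · intro i hi
        rw [hget i hi]
        exact g3 i (by omega) _ (hR.pos (p + i) (by omega))
      · intro i hi h1 h2
        rw [hget i hi]
        have h3 : 1 ≤ p + i := by
          by_contra hc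
          have h4 := gp (by omega)
          omega
        have h5 : p + i + 2 ≤ r := by
          by_contra hc
          have h4 := gr (by omega)
          omega
        rw [hR.mid (p + i) (by omega) h3 h5, gE i (by omega), add_assoc p i 1, gE (i + 1) (by omega),
          ← add_assoc l i 1]
      · exact (hR.ch.drop p).take (d + 1)
    · simp
    · simp
  have hcl : ∀ a a', gf (A a a') ≤ ENNReal.ofReal Kc * T := by
    intro a a'
    obtain ⟨w1, hw1d⟩ : ∃ w1 : List (List Bool) → ℕ → ℝ≥0∞, w1 = fun gs c =>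
      EEg (f a' (3 * hgt (gs.getLastD []) + 8)) lam c (gs.getLastD []) := ⟨_, rfl⟩
    obtain ⟨Qp, hQp⟩ : ∃ Qp : List (List Bool) → ℕ → Prop, Qp = fun gs p => gs.length ≤ M ∧
      (a = true → p = 0 ∧ TotAK R' (OU.PI W n M Φ) gs (w1 gs)) ∧
      (a = false → ∀ (kap : List (List Bool) → ℕ) (m : ℕ), m = kap (gs.take p) + ll (gs.drop p) →
        TotBK W n R' (OU.PI W n M Φ) Set.univ kap gs (w1 gs) m) := ⟨_, rfl⟩
    refine hcov (A a a') al (f a) (f a') lam nn Qp (hfm a) (hfm a') ?_ T ?_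
    · rintro t ⟨htn, ht, htW, r, u, p, d, E, g1, gal, g2, g3, g4, g5, g6, g7, g8, g9, g10⟩
      have hRR0 : 0 < RR (kc + 5) := by
        unfold RR
        have : (1 : ℤ) ≤ 2 ^ (kc + 5) := one_le_pow₀ (by norm_num)
        omega
      have hgap : E p + 10 ≤ E r := by
        have e1 := g4 p (by omega)
        have e2 : (32 : ℤ) ≤ 2 ^ (kc + 5) := by
          rw [pow_add]
          have : (1 : ℤ) ≤ 2 ^ kc := one_le_pow₀ (by norm_num)
          linarith
        have e3 : E (p + 1) ≤ E r := by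
          have hmon : ∀ q, p + 1 + q ≤ r → E (p + 1) ≤ E (p + 1 + q) := by
            intro q
            induction q with
            | zero => intro _; exact le_rfl
            | succ q ih =>
              intro hq
              have h1 := ih (by omega)
              have h2 := g2.lt (p + 1 + q) (by omega)
              rw [← add_assoc]
              omega
          have := hmon (r - (p + 1)) (by omega)
          rwa [show p + 1 + (r - (p + 1)) = r by omega] at this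
        have e4 := near2 t (a := E p) (b := E (p + 1)) (g2.lt p (by omega)).le (E (p + 1) - E p) (by
          have := g2.lt p (by omega)
          omega)
        have e5 : |Tight.sg (u + p) (lev t (E (p + 1)) - lev t (E p))| ≤ |lev t (E (p + 1)) - lev t (E p)| := by
          unfold Tight.sg
          split_ifs
          · rw [abs_neg]
          · exact le_rfl
        have e6 := le_abs_self (Tight.sg (u + p) (lev t (E (p + 1)) - lev t (E p)))
        rw [NTm.sg_sub] at e5 e6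
        unfold RG at e1
        unfold RR at e1
        have e7 := g2.lt p (by omega)
        omega
      refine ⟨htn, ht, r, u, E, p, by omega, g2, gal, hgap, fun i hi => ?_, fun i hi1 hi2 => ?_, fun gs hR => ?_⟩
      · refine (g7 i hi).trans ?_
        have h4 := g4 0 (by omega)
        by_cases hp : p = 0
        · rw [if_pos hp, g9.2 hp, hf]
          simp only [if_true]
          unfold RR
          push_cast
          omega
        · have ha : a = false := by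
            rw [← Bool.not_eq_true]
            exact fun h => hp (g9.1 h)
          rw [if_neg hp, ha, hf]
          simp only [Bool.false_eq_true, if_false]
          push_cast
          omega
      · refine (g8 i hi1 hi2).trans ?_
        have h4 := g4 (r - 1) (by omega)
        by_cases hp : p + d + 1 = r
        · rw [if_pos hp, g10.2 hp, hf]
          simp only [if_true]
          unfold RR
          push_cast
          omega
        · have ha : a' = false := by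
            rw [← Bool.not_eq_true]
            exact fun h => hp (g10.1 h)
          rw [if_neg hp, ha, hf]
          simp only [Bool.false_eq_true, if_false]
          push_cast
          omega
      · have hlen : gs.length ≤ M := by
          rw [hR.len, hM]
          exact (fold_card g2).trans (WL_length htW)
        have hBr := rep_brr' htW g2 g4 hR
        have hne : gs ≠ [] := by
          intro h0
          have := hR.len
          rw [h0, List.length_nil] at this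
          omega
        have hhd : gs.headD [] ∈ gs := by
          obtain ⟨a, gs', rfl⟩ := List.exists_cons_of_ne_nil hne
          simp
        have hla : gs.getLastD [] ∈ gs := by
          rw [List.getLastD_eq_getLast?, List.getLast?_eq_getLast_of_ne_nil hne, Option.getD_some]
          exact List.getLast_mem hne
        -- weights of the ends
        have hw0 : ∀ g, g ∈ BrR (2 ^ (kc + 4)) (2 ^ (kc + J + 2)) → (∀ q, EEg (2 ^ (kc + 5)) lam q g ≤ Φ 0 q g) ∧
            ∀ q, EEg (2 ^ (kc + 5)) lam q (rev g) ≤ Φ 0 q (rev g) := by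
          intro g hg
          obtain ⟨h1, h2⟩ := NTW.EX.Brd_HB le_rfl hg
          rw [hΦ0]
          have h5 : (2 : ℕ) ^ (kc + 5) ≤ 2 ^ (kc + 6) := Nat.pow_le_pow_right (by norm_num) (by omega)
          exact ⟨fun q => EEg_le h1 h5, fun q => EEg_le h2 h5⟩
        have hw1 : ∀ g, g ∈ BrR (2 ^ (kc + 4)) (2 ^ (kc + J + 2)) →
            (∀ q, EEg ((3 * hgt g + 8) / 3 + 1) lam q g ≤ Φ (idx (hgt g)) q g) ∧
            ∀ q, EEg ((3 * hgt g + 8) / 3 + 1) lam q (rev g) ≤ Φ (idx (hgt g)) q (rev g) := by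
          rintro g ⟨h, a1, a2, a3⟩
          obtain ⟨b1, b2⟩ := hmem g h a3 a1 a2
          have hh : hgt g = h := hgt_eq a3
          rw [hh]
          obtain ⟨h', c1, c2, c3⟩ := hW.sub _ b1 b2
          have e1 : h' = h := Brd_height c3 a3
          rw [e1] at c1 c2
          have h5 : (3 * h + 8) / 3 + 1 ≤ 2 ^ (kp (idx h) + 6) := by
            have e2 : 2 ^ (kp (idx h) + 6) = 2 * 2 ^ (kp (idx h) + 5) := by ring
            have e3 : (2 : ℕ) ^ 2 ≤ 2 ^ (kp (idx h) + 5) := Nat.pow_le_pow_right (by norm_num) (by omega)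
            omega
          obtain ⟨d1, d2⟩ := NTW.EX.Brd_HB le_rfl (hW.sub _ b1 b2)
          rw [hΦ]
          exact ⟨fun q => EEg_le d1 h5, fun q => EEg_le d2 h5⟩
        have key : ∀ (kap : List (List Bool) → ℕ) (m : ℕ), m = kap (gs.take p) + ll (gs.drop p) →
            (p = 0 → TotAK R' (OU.PI W n M Φ) gs (w1 gs)) ∧
            (1 ≤ p → TotBK W n R' (OU.PI W n M Φ) Set.univ kap gs (w1 gs) m) := by
          intro kap m hm
          refine tot_ofK (Φ := Φ) hidx (fun g h a1 a2 a3 => hmem g h a1 a2 a3) ht.1 g2 g1 g5 g6 hR hBr (g3 gs hR hBr) hlen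
            ?_ ?_ (fun rs g q1 q2 _ _ => ⟨q2, q1⟩) (fun _ => Set.mem_univ _) hm
          · intro hp
            rw [hw1d, g10.2 hp, hf]
            exact (hw0 _ (hBr _ hla)).1
          · intro hp
            have ha : a' = false := by
              rw [← Bool.not_eq_true]
              exact fun h => by have := g10.1 h; omega
            rw [hw1d, ha, hf]
            exact (hw1 _ (hBr _ hla)).1
        rw [hQp]
        refine ⟨hlen, fun ha => ?_, fun ha kap m hm => ?_⟩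
        · have hp := g9.1 ha
          exact ⟨hp, (key (fun _ => 0) _ rfl).1 hp⟩
        · refine (key kap m hm).2 ?_
          by_contra hc
          have := g9.2 (by omega)
          rw [ha] at this
          exact Bool.false_ne_true this
    · intro a0 kap N
      unfold SK
      cases a
      · -- the run is not at the beginning
        refine le_trans (ENNReal.tsum_le_tsum fun o => ENNReal.tsum_le_tsum fun gs => ?_)
          ((massBK hW (OU.rb_PI hW M Φ) hR'H Set.univ (fun i g => tot (Φ i) g) M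
            (fun o g => HO (f false (3 * hgt g + 8)) lam o g) ?_ kap a0 w1 N).trans ?_)
        · by_cases h : gs ≠ [] ∧ gs.IsChain LFold ∧ (∀ g ∈ gs, ∃ k : ℕ, 1 ≤ k ∧ g ∈ Brd k) ∧
            HO (f false (3 * hgt (gs.headD []) + 8)) lam o (gs.headD []) ∧
            (∃ p, p < gs.length ∧ Qp gs p ∧ a0 o gs = kap o (gs.take p) + ll (gs.drop p))
          · rw [if_pos h]
            obtain ⟨-, b2, -, b4, p, b5, b6, b7⟩ := h
            rw [hQp] at b6
            rw [if_pos ⟨b4, b6.1, b2, b6.2.2 rfl _ _ b7⟩, hw1d]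
          · rw [if_neg h]
            exact zero_le
        · intro i g hi hg
          obtain ⟨h', c1, c2, c3⟩ := hW.sub i hi hg
          have hh : hgt g = h' := hgt_eq c3
          have h5 : f false (3 * hgt g + 8) ≤ 2 ^ (kp i + 6) := by
            rw [hf, hh]
            show (3 * h' + 8) / 3 + 1 ≤ 2 ^ (kp i + 6)
            have e2 : 2 ^ (kp i + 6) = 2 * 2 ^ (kp i + 5) := by ring
            have e3 : (2 : ℕ) ^ 2 ≤ 2 ^ (kp i + 5) := Nat.pow_le_pow_right (by norm_num) (by omega)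
            omega
          obtain ⟨d1, d2⟩ := NTW.EX.Brd_HB le_rfl (hW.sub _ hi hg)
          have h6 := sum_HO' (D := 2 ^ (kp i + 4)) (lam := lam) d2 h5
          rw [hΦ]
          exact h6
        · exact (Finset.sum_le_sum fun i _ => Rec8.sw_mono Set.inter_subset_left fun _ _ => le_rfl).trans (hfunB N)
      · -- the run is at the beginning
        refine le_trans (ENNReal.tsum_le_tsum fun o => ENNReal.tsum_le_tsum fun gs => ?_)
          ((massAK (OU.rb_PI hW M Φ) hR'H (Pgk (fun o => kap o []) (2 ^ (kc + 4)) (2 ^ (kc + 6)) (lam + 20)) M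
            (fun o g => HO (f true (3 * hgt g + 8)) lam o g) (fun o => kap o []) ?_ w1 N).trans ?_)
        · by_cases h : gs ≠ [] ∧ gs.IsChain LFold ∧ (∀ g ∈ gs, ∃ k : ℕ, 1 ≤ k ∧ g ∈ Brd k) ∧
            HO (f true (3 * hgt (gs.headD []) + 8)) lam o (gs.headD []) ∧
            (∃ p, p < gs.length ∧ Qp gs p ∧ a0 o gs = kap o (gs.take p) + ll (gs.drop p))
          · rw [if_pos h]
            obtain ⟨-, b2, -, b4, p, b5, b6, b7⟩ := h
            rw [hQp] at b6
            obtain ⟨b8, b9⟩ := b6.2.1 rfl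
            rw [b8, List.take_zero, List.drop_zero] at b7
            rw [if_pos ⟨b4, b6.1, b2, b9⟩, hw1d, b7]
          · rw [if_neg h]
            exact zero_le
        · intro g hg c
          have h5 : f true (3 * hgt g + 8) ≤ 2 ^ (kc + 6) := by
            rw [hf]
            exact Nat.pow_le_pow_right (by norm_num) (by omega)
          obtain ⟨h', c1, c2⟩ := hg
          exact sum_HO (fun o => kap o []) (D := 2 ^ (kc + 4)) (lam := lam) ⟨h', c1, Brd_rev c2⟩ h5 c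
        · refine hfunA _ ?_ (fun c => flp_Pgk _ Nat.one_le_two_pow _ _ c) (GH_Pgk _ Nat.one_le_two_pow _ _) N
          rw [tot_Pgk, ← tot_Pg, ← hΦ0]
          exact hD0
  have h4 : gf {t | Mk al nn t ∧ t ∈ SAL lam ∧ t ∈ ERk (al t) kc J R} ≤ 4 * (ENNReal.ofReal Kc * T) := by
    refine (gf_mono hsub).trans ((BAR.gf_bi_le _ _).trans ?_)
    refine (Finset.sum_le_sum fun a _ => (BAR.gf_bi_le _ _).trans (Finset.sum_le_sum fun a' _ => hcl a a')).trans ?_
    simp only [Finset.sum_const, Finset.card_univ, Fintype.card_bool, nsmul_eq_mul]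
    apply le_of_eq
    push_cast
    ring
  refine h4.trans ?_
  have e4 : (4 : ℝ≥0∞) = ENNReal.ofReal 4 := by simp
  have hx2 : x ^ 2 = Ke ^ 2 * b ^ 2 := by rw [hx]; ring
  rw [hT, e4, hBb, ← ENNReal.ofReal_pow hb0, ← ENNReal.ofReal_mul hKc0.le, ← ENNReal.ofReal_mul (by norm_num),
    ← ENNReal.ofReal_mul (by positivity)]
  apply ENNReal.ofReal_le_ofReal
  have hU2 : Ub (kc + (J + 2)) ≤ 4 * Ub (kc + J) := by
    have := UU_ratio_up (kc + J) 2
    calc Ub (kc + (J + 2)) = UU (2 ^ (kc + J + 2)) := rfl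
      _ ≤ 2 ^ 2 * Ub (kc + J) := this
      _ = _ := by norm_num
  have hQp : Q ^ (n + (J + 2) + 1) ≤ (Q ^ (2 * V + 2)) ^ J := by
    rw [← pow_mul]
    apply pow_le_pow_right₀ hQ
    have e5 : V * (J + 2) ≤ 2 * V * J := by
      have : V * 2 ≤ V * J := Nat.mul_le_mul_left _ (by omega)
      calc V * (J + 2) = V * J + V * 2 := by ring
        _ ≤ V * J + V * J := by omega
        _ = _ := by ring
    have e6 : (2 * V + 2) * J = 2 * V * J + 2 * J := by ring
    omega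
  have hKJ : 16 * Kc * Ke ^ 2 ≤ (16 * Kc * Ke ^ 2) ^ J := by
    calc 16 * Kc * Ke ^ 2 = (16 * Kc * Ke ^ 2) ^ 1 := (pow_one _).symm
      _ ≤ _ := pow_le_pow_right₀ hKK (by omega)
  have hUJ2 := Ub_pos (kc + (J + 2))
  calc 4 * (Kc * (Q ^ (n + (J + 2) + 1) * δ * Ub (kc + (J + 2)) * x ^ 2))
      ≤ 4 * (Kc * ((Q ^ (2 * V + 2)) ^ J * δ * (4 * Ub (kc + J)) * x ^ 2)) := by gcongr
    _ = (16 * Kc * Ke ^ 2) * (Q ^ (2 * V + 2)) ^ J * δ * Ub (kc + J) * b ^ 2 := by
        rw [hx2]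
        ring
    _ ≤ (16 * Kc * Ke ^ 2) ^ J * (Q ^ (2 * V + 2)) ^ J * δ * Ub (kc + J) * b ^ 2 := by gcongr
    _ = (16 * Kc * Ke ^ 2 * Q ^ (2 * V + 2)) ^ J * δ * Ub (kc + J) * b ^ 2 := by rw [← mul_pow]


end MK

open Finset TS SDN NTW NTA MK

open scoped ENNReal

/-- **the event theorem for runs, the letters before the mark not counted** -/
theorem k1 : K1 := by
  obtain ⟨Ci, δi, hI⟩ := inp_exists
  obtain ⟨C0, k0, hC0, h0⟩ := eventRXk dmP geoRun (ssA hI) ss3P ssDP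
  obtain ⟨D, hD, hDX⟩ := Xb_pow
  have hC0' : 0 ≤ C0 := by linarith
  have hD0 : 0 ≤ D := by linarith
  refine ⟨C0 * D ^ 16, k0, ?_, fun al kc J n R δ hk hJ hδ hS => ?_⟩
  · have : 1 ≤ D ^ 16 := one_le_pow₀ hD
    nlinarith
  · have hUp := Ub_pos (kc + J)
    obtain ⟨lam', hQ⟩ := QL_exists (kc + J + 8)
    have h1 : gf {t | Cnt al n t ∧ t ∈ ERMk (al t) kc (kc + J) R} ≤
        ENNReal.ofReal (C0 ^ J * δ * Ub (kc + J)) * (Xb (kc + J + 8)) ^ 2 := by
      refine (gf_mono fun t ht => ?_).trans ((h0 al kc J (100 * 4 ^ (kc + J)) lam' n R δ hk hJ hδ hQ hS).trans ?_)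
      · exact ⟨ht.1, ⟨ht.2.1.1, WL_length ht.2.1⟩, ermk_sub ht.2⟩
      · exact mul_le_mul_right (pow_le_pow_left' (bl_le_Xb _ _) 2) _
    refine h1.trans ?_
    calc ENNReal.ofReal (C0 ^ J * δ * Ub (kc + J)) * (Xb (kc + J + 8)) ^ 2
        ≤ ENNReal.ofReal (C0 ^ J * δ * Ub (kc + J)) * (ENNReal.ofReal (D ^ 8) * Xb (kc + J)) ^ 2 := by
          exact mul_le_mul_right (pow_le_pow_left' (hDX (kc + J) 8) 2) _
      _ = ENNReal.ofReal (C0 ^ J * D ^ 16 * δ * Ub (kc + J)) * Xb (kc + J) ^ 2 := by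
          rw [mul_pow, ← ENNReal.ofReal_pow (by positivity), ← mul_assoc, ← ENNReal.ofReal_mul (by positivity)]
          congr 2
          ring
      _ ≤ _ := by
          refine mul_le_mul_left (ENNReal.ofReal_le_ofReal ?_) _
          have e1 : D ^ 16 ≤ (D ^ 16) ^ J := by
            calc D ^ 16 = (D ^ 16) ^ 1 := by rw [pow_one]
              _ ≤ (D ^ 16) ^ J := pow_le_pow_right₀ (one_le_pow₀ hD) (by omega)
          rw [mul_pow]
          gcongr

end EN

end HexObs
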