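import Pool.Agent.HBD.NCMass
import Pool.Agent.HBD.DefsK
import Pool.Agent.EN.FactsM

/-!
HBD: the initial parts (module K5, helper14): half plane words without a cut, the last edge vertical up, in a box, short.

* **`mass_AK`**: their weight is at least `c * Xb k`, every k;
* **`k5`**: the statement K5 of DefsK (with the direction `up` of the joint, `k5up`).
-/

set_option autoImplicit false

namespace HexObs

namespace EN

open Finset TS SDN NTW NTA HBD TPF

open scoped ENNReal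

/-- the initial parts -/
def AK (J : ℕ) (lam : ℝ) (k : ℕ) : Set (List Bool) :=
  {s | s ∈ NCs (2 ^ k) ∧ (s.length : ℝ) ≤ lam * PW.mZ (2 ^ k) ∧ s ++ [true] ∈ WL (k + J)}

lemma nil_AK {J k : ℕ} {lam : ℝ} (h : 0 ≤ lam) : ([] : List Bool) ∈ AK J lam k := by
  have hm : (1 : ℕ) ≤ 2 ^ k := Nat.one_le_two_pow
  refine ⟨nil_NCs hm, ?_, ?_⟩
  · have h1 := mlow_M.pos k
    rw [List.length_nil, Nat.cast_zero]
    positivity
  · have h1 := TPF.SSt_SA (one_mem hm true).1
    refine ⟨h1, fun i hi dir => ?_⟩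
    rw [List.nil_append, List.length_singleton] at hi
    have h2 : |row dir (vx oo up ([] ++ [true]) i)| ≤ 1 := by
      interval_cases i <;> cases dir <;> decide
    exact h2.trans (one_le_pow₀ (by norm_num))

/-- one letter more -/
lemma snoc_le {P Q : Set (List Bool)} (h : ∀ s ∈ P, s ++ [true] ∈ Q) : gf P ≤ ENNReal.ofReal (1 / xc) * gf Q := by
  have h0 := xc_pos
  refine gf_le_of_inj (fun s => s ++ [true]) h (fun s _ s' _ he => List.append_cancel_right he) _ fun s _ => ?_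
  rw [wE_append]
  have e : wE [true] = ENNReal.ofReal xc := by
    unfold wE
    simp
  rw [e, mul_comm (wE s), ← mul_assoc, ← ENNReal.ofReal_mul (by positivity), one_div, inv_mul_cancel₀ h0.ne',
    ENNReal.ofReal_one, one_mul]

/-- **short words without a cut, the last edge vertical up** -/
lemma short_NCs : ∃ C lam : ℝ, 1 ≤ C ∧ 1 ≤ lam ∧ ∀ k : ℕ,
    ENNReal.ofReal (3 / 4) * Xb k ≤ ENNReal.ofReal C * gf {s | s ∈ NCs (2 ^ k) ∧ (s.length : ℝ) ≤ lam * PW.mZ (2 ^ k)} := by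
  obtain ⟨C, hC, hV⟩ := HH_le_VUs
  obtain ⟨A, hA, hT⟩ := ht_M 1
  have h0 := xc_pos
  obtain ⟨lam, hlam⟩ : ∃ lam : ℝ, lam = max 1 (4 * C * A / xc) := ⟨_, rfl⟩
  have hl1 : 1 ≤ lam := by rw [hlam]; exact le_max_left _ _
  have hl2 : 4 * C * A / xc ≤ lam := by rw [hlam]; exact le_max_right _ _
  have hl0 : 0 < lam := by linarith
  refine ⟨C, lam, hC, hl1, fun k => ?_⟩
  obtain ⟨i, hik, hi⟩ := Xb_reach k
  have hU := Ub_pos i
  obtain ⟨N, hN⟩ : ∃ N, N = gf {s | s ∈ NCs (2 ^ k) ∧ (s.length : ℝ) ≤ lam * PW.mZ (2 ^ k)} := ⟨_, rfl⟩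
  have h1 : gf {s | s ∈ VUs (2 ^ i) ∧ (s.length : ℝ) ≤ lam * PW.mZ (2 ^ k)} ≤ ENNReal.ofReal (Ub i) * N := by
    rw [hN]
    refine VUs_le_NCs hik (fun n => (n : ℝ) ≤ lam * PW.mZ (2 ^ k)) fun a b hab hb => ?_
    have : (a : ℝ) ≤ b := by exact_mod_cast hab
    linarith
  have h2 : gf {s | s ∈ VUs (2 ^ i) ∧ lam * PW.mZ (2 ^ k) ≤ (s.length : ℝ)} ≤
      ENNReal.ofReal (Ub i) * (ENNReal.ofReal (1 / (4 * C)) * Xb k) := by
    calc gf {s | s ∈ VUs (2 ^ i) ∧ lam * PW.mZ (2 ^ k) ≤ (s.length : ℝ)}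
        ≤ ENNReal.ofReal (1 / xc) * gf {W | W ∈ SSt (2 ^ i) ∧ lam * PW.mZ (2 ^ i) ≤ (W.length : ℝ)} := by
          refine snoc_le ?_
          rintro s ⟨hs, hl⟩
          refine ⟨hs.2 true, ?_⟩
          have h3 : PW.mZ (2 ^ i) ≤ PW.mZ (2 ^ k) := mlow_M.mono hik
          rw [List.length_append]
          push_cast
          have h4 := mul_le_mul_of_nonneg_left h3 hl0.le
          have h5 : (0 : ℝ) ≤ ([true] : List Bool).length := Nat.cast_nonneg _
          linarith
      _ ≤ ENNReal.ofReal (1 / xc) * (ENNReal.ofReal (A / lam ^ 1 * Ub i) * Xb i) := mul_le_mul' le_rfl (hT i lam hl1)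
      _ ≤ ENNReal.ofReal (Ub i * (1 / (4 * C))) * Xb k := by
          rw [← mul_assoc, ← ENNReal.ofReal_mul (by positivity)]
          refine mul_le_mul' (ENNReal.ofReal_le_ofReal ?_) (Xb_mono hik)
          rw [pow_one, mul_comm (Ub i), ← mul_assoc]
          refine mul_le_mul_of_nonneg_right ?_ hU.le
          rw [div_le_iff₀ h0] at hl2
          rw [one_div_mul_eq_div, div_div, div_le_div_iff₀ (by positivity) (by positivity)]
          linarith
      _ = _ := by rw [ENNReal.ofReal_mul hU.le, mul_assoc]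
  have h3 : ENNReal.ofReal (Ub i) * Xb k ≤ ENNReal.ofReal (Ub i) *
      (ENNReal.ofReal C * N + ENNReal.ofReal (1 / 4) * Xb k) := by
    calc ENNReal.ofReal (Ub i) * Xb k = BAR.HH (2 ^ i) := hi
      _ ≤ ENNReal.ofReal C * gf (VUs (2 ^ i)) := hV _ Nat.one_le_two_pow
      _ ≤ ENNReal.ofReal C * (ENNReal.ofReal (Ub i) * N + ENNReal.ofReal (Ub i) * (ENNReal.ofReal (1 / (4 * C)) * Xb k)) := by
          refine mul_le_mul' le_rfl (((gf_mono fun s hs => ?_).trans (gf_union_le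
            {s | s ∈ VUs (2 ^ i) ∧ (s.length : ℝ) ≤ lam * PW.mZ (2 ^ k)}
            {s | s ∈ VUs (2 ^ i) ∧ lam * PW.mZ (2 ^ k) ≤ (s.length : ℝ)})).trans (add_le_add h1 h2))
          rcases le_total (s.length : ℝ) (lam * PW.mZ (2 ^ k)) with h | h
          · exact Or.inl ⟨hs, h⟩
          · exact Or.inr ⟨hs, h⟩
      _ = _ := by
          rw [← mul_add, mul_left_comm]
          congr 1
          rw [mul_add, ← mul_assoc (ENNReal.ofReal C) (ENNReal.ofReal (1 / (4 * C))), ← ENNReal.ofReal_mul (by linarith)]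
          congr 3
          field_simp
  have h4 := (ENNReal.mul_le_mul_iff_right (by simpa using hU) ENNReal.ofReal_ne_top).1 h3
  rw [← hN]
  have h5 : Xb k = ENNReal.ofReal (3 / 4) * Xb k + ENNReal.ofReal (1 / 4) * Xb k := by
    rw [← add_mul, ← ENNReal.ofReal_add (by positivity) (by positivity)]
    norm_num
  have h6 : ENNReal.ofReal (3 / 4) * Xb k + ENNReal.ofReal (1 / 4) * Xb k ≤
      ENNReal.ofReal C * N + ENNReal.ofReal (1 / 4) * Xb k := h5 ▸ h4
  exact (ENNReal.add_le_add_iff_right (ENNReal.mul_ne_top ENNReal.ofReal_ne_top (Xb_ne_top k))).1 h6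

/-- **the weight of the initial parts** -/
theorem mass_AK : ∃ (c lam : ℝ) (J : ℕ), 0 < c ∧ 1 ≤ lam ∧ ∀ k : ℕ, ENNReal.ofReal c * Xb k ≤ gf (AK J lam k) := by
  obtain ⟨C, lam, hC, hlam, h⟩ := short_NCs
  have h0 := xc_pos
  have hC0 : 0 < C := by linarith
  obtain ⟨J, k0, hfar⟩ := TPC.na_far (ε := xc / (4 * C)) (by positivity)
  obtain ⟨x, hx0, hx⟩ : ∃ x : ℝ, 0 < x ∧ Xb k0 = ENNReal.ofReal x :=
    ⟨(Xb k0).toReal, ENNReal.toReal_pos (Xb_ne_zero k0) (Xb_ne_top k0), (ENNReal.ofReal_toReal (Xb_ne_top k0)).symm⟩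
  refine ⟨min (1 / (2 * C)) (1 / x), lam, J, lt_min (by positivity) (by positivity), hlam, fun k => ?_⟩
  rcases Nat.lt_or_ge k k0 with hk | hk
  · calc ENNReal.ofReal (min (1 / (2 * C)) (1 / x)) * Xb k ≤ ENNReal.ofReal (1 / x) * ENNReal.ofReal x := by
          rw [← hx]
          exact mul_le_mul' (ENNReal.ofReal_le_ofReal (min_le_right _ _)) (Xb_mono hk.le)
      _ = 1 := by
          rw [← ENNReal.ofReal_mul (by positivity), one_div, inv_mul_cancel₀ hx0.ne', ENNReal.ofReal_one]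
      _ = gf ({[]} : Set (List Bool)) := gf_nil.symm
      _ ≤ _ := gf_mono fun t ht => by
          rw [Set.mem_singleton_iff] at ht
          rw [ht]
          exact nil_AK (by linarith)
  · have h1 : gf {s | s ∈ NCs (2 ^ k) ∧ s ++ [true] ∉ WL (k + J)} ≤ ENNReal.ofReal (1 / (4 * C)) * Xb k := by
      have h2 := hfar k (2 ^ k) true hk le_rfl (Nat.pow_lt_pow_right (by norm_num) (by omega))
      calc gf {s | s ∈ NCs (2 ^ k) ∧ s ++ [true] ∉ WL (k + J)}
          ≤ ENNReal.ofReal (1 / xc) * gf {t | t ∈ NAb true (2 ^ k) ∧ t ∉ WL (k + J)} := by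
            refine snoc_le ?_
            rintro s ⟨hs, hw⟩
            exact ⟨NCs_NAb hs true, hw⟩
        _ ≤ ENNReal.ofReal (1 / xc) * (ENNReal.ofReal (xc / (4 * C)) * Xb k) := mul_le_mul' le_rfl h2
        _ = _ := by
            rw [← mul_assoc, ← ENNReal.ofReal_mul (by positivity)]
            congr 2
            field_simp
    have h3 : ENNReal.ofReal (3 / (4 * C)) * Xb k ≤ gf (AK J lam k) + ENNReal.ofReal (1 / (4 * C)) * Xb k := by
      have h4 : ENNReal.ofReal (3 / (4 * C)) * Xb k ≤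
          gf {s | s ∈ NCs (2 ^ k) ∧ (s.length : ℝ) ≤ lam * PW.mZ (2 ^ k)} := by
        have h5 := mul_le_mul_right (h k) (ENNReal.ofReal (1 / C))
        rw [← mul_assoc, ← mul_assoc, ← ENNReal.ofReal_mul (by positivity), ← ENNReal.ofReal_mul (by positivity),
          one_div, inv_mul_cancel₀ hC0.ne', ENNReal.ofReal_one, one_mul] at h5
        refine le_trans (le_of_eq ?_) h5
        congr 2
        field_simp
      refine h4.trans (((gf_mono fun s hs => ?_).trans (gf_union_le (AK J lam k)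
        {s | s ∈ NCs (2 ^ k) ∧ s ++ [true] ∉ WL (k + J)})).trans (add_le_add le_rfl h1))
      by_cases hw : s ++ [true] ∈ WL (k + J)
      · exact Or.inl ⟨hs.1, hs.2, hw⟩
      · exact Or.inr ⟨hs.1, hw⟩
    have h5 : ENNReal.ofReal (3 / (4 * C)) * Xb k =
        ENNReal.ofReal (1 / (2 * C)) * Xb k + ENNReal.ofReal (1 / (4 * C)) * Xb k := by
      rw [← add_mul, ← ENNReal.ofReal_add (by positivity) (by positivity)]
      congr 2
      field_simp
      norm_num
    rw [h5] at h3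
    refine (mul_le_mul' (ENNReal.ofReal_le_ofReal (min_le_left _ _)) le_rfl).trans
      ((ENNReal.add_le_add_iff_right (ENNReal.mul_ne_top ENNReal.ofReal_ne_top (Xb_ne_top k))).1 h3)

/-! ### 2. The joined words -/

/-- the direction of the joint -/
lemma jd_NCs {m : ℕ} {s : List Bool} (h : s ∈ NCs m) : BAR.jd s = up := by
  obtain ⟨R, hR, h1, -, h2⟩ := BAR.frame_rev s
  have h3 := h2 0 (Nat.zero_le _)
  rw [Nat.sub_zero, h.1] at h3
  have h4 : dx up (rev s) 0 = up := rfl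
  rw [h4, ← h1] at h3
  exact (mulE_inj hR h3).symm

lemma NCs_HpN {m : ℕ} {s : List Bool} (h : s ∈ NCs m) (x : Bool) : s ++ [x] ∈ HpN (s.length + 1) := by
  have h1 := SSt_HpN (h.2 x).1
  rwa [List.length_append, List.length_singleton] at h1

/-- the joint is unique -/
lemma joint_uniq {m m' : ℕ} {s s' w w' : List Bool} (hs : s ∈ NCs m) (hs' : s' ∈ NCs m') (hw : Saw HP oo up w)
    (hw' : Saw HP oo up w') (h : rev s ++ w = rev s' ++ w') : s.length = s'.length := by
  have key : ∀ {m m' : ℕ} {s s' w w' : List Bool} (hs : s ∈ NCs m) (hs' : s' ∈ NCs m') (hw : Saw HP oo up w)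
      (hw' : Saw HP oo up w') (h : rev s ++ w = rev s' ++ w'), ¬ s.length < s'.length := by
    intro m m' s s' w w' hs hs' hw hw' h hlt
    have h1 := BAR.glue_cut (NCs_HpN hs true) ⟨rfl, hw⟩ (NCs_HpN hs' true) ⟨rfl, hw'⟩ h
      ((jd_NCs hs).trans (jd_NCs hs').symm) hlt
    rw [NA_cuts (hs'.2 true)] at h1
    exact Finset.not_nonempty_empty h1
  have h1 := key hs hs' hw hw' h
  have h2 := key hs' hs hw' hw h.symm
  omega

open Classical in
/-- the position of the joint -/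
noncomputable def alK (A : Set (List Bool)) (v : List Bool) : ℕ :=
  if h : ∃ s ∈ A, ∃ w, Saw HP oo up w ∧ v = rev s ++ w then h.choose.length else 0

lemma alK_eq {m : ℕ} {A : Set (List Bool)} (hA : A ⊆ NCs m) {s w : List Bool} (hs : s ∈ A) (hw : Saw HP oo up w) :
    alK A (rev s ++ w) = s.length := by
  have h : ∃ s' ∈ A, ∃ w', Saw HP oo up w' ∧ rev s ++ w = rev s' ++ w' := ⟨s, hs, w, hw, rfl⟩
  unfold alK
  rw [dif_pos h]
  obtain ⟨h1, w', hw', h2⟩ := h.choose_spec
  exact (joint_uniq (hA hs) (hA h1) hw hw' h2).symm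

lemma Saw_take {w : List Bool} (hw : Saw HP oo up w) (j : ℕ) : Saw HP oo up (w.take j) := by
  have hl : (w.take j).length ≤ j ∧ (w.take j).length ≤ w.length := by
    rw [List.length_take]
    omega
  have hv : ∀ i, i ≤ (w.take j).length → vx oo up (w.take j) i = vx oo up w i := by
    intro i hi
    have h1 := vx_append (v0 := oo) (d0 := up) (t := w.take j) (s := w.drop j) (i := i) (by omega)
    rw [List.take_append_drop] at h1
    exact h1.symm
  refine ⟨fun i h1 h2 => ?_, fun i k hik hk => ?_⟩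
  · rw [hv i h2]
    exact hw.mem i h1 (by omega)
  · rw [hv i (by omega), hv k hk]
    exact hw.inj i k hik (by omega)

lemma lvl_subK (dir : Bool) (v w : Pt) : lvl dir (v - w) = lvl dir v - lvl dir w := by
  unfold lvl
  rw [ip_sub_left]

lemma abs_lvl_of {R : ℤ} {v : Pt} {dir : Bool} (h : |row dir v| ≤ R) : |lvl dir v| ≤ 3 * R + 2 := LC.lvl_of_row h

/-- the first part of a joined word, in its own frame -/
lemma fst_pos {m : ℕ} {s w : List Bool} (hs : s ∈ NCs m) {i : ℕ} (hi : i ≤ s.length) :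
    vx oo up (rev s ++ w) i = tip oo up s - vx oo up s (s.length + 1 - i) := by
  rw [vx_append (by rw [rev_length]; omega)]
  have h1 := vx_rev oo up s i (by omega)
  rw [hs.1] at h1
  have h2 := vx_mulE (-1, 0) oo (tip oo up s) up (rev s) i
  have e : ∀ q : Pt, mulE (-1, 0) q = -q := by
    intro q
    ext <;> simp [mulE]
  rw [e, e, h1] at h2
  have h4 : vx oo up (rev s) i - oo = vx oo up (rev s) i := sub_zero _
  rw [h4] at h2
  rw [h2]
  abel

/-- the second part of a joined word, in its own frame -/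
lemma snd_pos {m : ℕ} {s w : List Bool} (hs : s ∈ NCs m) (j : ℕ) :
    vx oo up (rev s ++ w) (s.length + j) = vx oo up (rev s ++ w) s.length + vx oo up w j := by
  obtain ⟨R, hR, h1, h2⟩ := BAR.jvx_snd s w
  rw [jd_NCs hs] at h1
  have e : R = (1, 0) := by
    rw [mulE_comm] at h1
    apply mulE_inj (mem_dirs.1 BAR.up_dirs)
    rw [h1]
    decide
  rw [h2 j, e]
  congr 1
  exact mulE_one _

/-- the box of a joined word -/
lemma join_WL {J k K : ℕ} {lam : ℝ} {s w : List Bool} (hs : s ∈ AK J lam k) (hw : Saw HP oo up w) (hk : k ≤ K)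
    (hK : w ∈ WL K) : rev s ++ w ∈ WL (K + (J + 3)) := by
  obtain ⟨h1, h2, h3⟩ := hs
  have hSA : rev s ++ w ∈ SA := (BAR.glue_mem (NCs_HpN h1 true) (v := w) (l := w.length) ⟨rfl, hw⟩).2
  obtain ⟨R, hR⟩ : ∃ R : ℤ, R = 2 ^ (k + J) := ⟨_, rfl⟩
  obtain ⟨S, hS⟩ : ∃ S : ℤ, S = 2 ^ K := ⟨_, rfl⟩
  obtain ⟨T, hT⟩ : ∃ T : ℤ, T = 2 ^ (K + J) := ⟨_, rfl⟩
  have hRT : R ≤ T := by
    rw [hR, hT]
    exact pow_le_pow_right₀ (by norm_num) (by omega)
  have hST : S ≤ T := by
    rw [hS, hT]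
    exact pow_le_pow_right₀ (by norm_num) (by omega)
  have hT1 : 1 ≤ T := by
    rw [hT]
    exact one_le_pow₀ (by norm_num)
  have hs' : ∀ i, i ≤ s.length + 1 → ∀ dir, |lvl dir (vx oo up s i)| ≤ 3 * R + 2 := by
    intro i hi dir
    have h4 := h3.2 i (by rw [List.length_append, List.length_singleton]; exact hi) dir
    rw [vx_append hi, ← hR] at h4
    exact abs_lvl_of h4
  have hfst : ∀ i, i ≤ s.length → ∀ dir, |lvl dir (vx oo up (rev s ++ w) i)| ≤ 6 * R + 4 := by
    intro i hi dir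
    rw [fst_pos h1 hi, lvl_subK]
    have h4 := hs' (s.length + 1) le_rfl dir
    have h5 := hs' (s.length + 1 - i) (by omega) dir
    have e : tip oo up s = vx oo up s (s.length + 1) := rfl
    rw [e]
    rw [abs_le] at h4 h5 ⊢
    omega
  refine ⟨hSA, fun i hi dir => LC.row_of_lvl ?_⟩
  have e : (2 : ℤ) ^ (K + (J + 3)) = 8 * T := by
    rw [hT, ← add_assoc, pow_add]
    norm_num
    ring
  rw [e]
  rcases Nat.lt_or_ge s.length i with h4 | h4
  · obtain ⟨j, rfl⟩ : ∃ j, i = s.length + j := ⟨i - s.length, by omega⟩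
    rw [List.length_append, rev_length] at hi
    rw [snd_pos h1 j, lvl_add]
    have h5 := hfst s.length le_rfl dir
    have h6 := hK.2 j (by omega) dir
    rw [← hS] at h6
    have h7 := abs_lvl_of h6
    rw [abs_le] at h5 h7 ⊢
    omega
  · have h5 := hfst i h4 dir
    rw [abs_le] at h5 ⊢
    omega

/-- **K5 with the direction up of the joint** -/
theorem k5up : ∃ (c lam : ℝ) (s0 : ℕ), 0 < c ∧ 1 ≤ lam ∧ ∀ k : ℕ, ∃ (A : Set (List Bool)) (al : List Bool → ℕ),
    ENNReal.ofReal c * Xb k ≤ gf A ∧ ∀ s ∈ A, BAR.jd s = up ∧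
    (s.length : ℝ) ≤ lam * PW.mZ (2 ^ k) ∧ BX (2 ^ (k + s0)) s ∧
    ∀ w : List Bool, Saw HP oo up w → rev s ++ w ∈ SA ∧ al (rev s ++ w) = s.length ∧
      (∀ i, s.length ≤ i → i ≤ (rev s ++ w).length → al ((rev s ++ w).take i) = s.length) ∧
      ∀ K : ℕ, k ≤ K → w ∈ WL K → rev s ++ w ∈ WL (K + s0) := by
  obtain ⟨c, lam, J, hc, hlam, h⟩ := mass_AK
  refine ⟨c, lam, J + 3, hc, hlam, fun k => ⟨AK J lam k, alK (AK J lam k), h k, fun s hs => ?_⟩⟩
  have hA : AK J lam k ⊆ NCs (2 ^ k) := fun s hs => hs.1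
  refine ⟨jd_NCs hs.1, hs.2.1, fun i hi dir => ?_, fun w hw => ⟨?_, alK_eq hA hs hw, fun i hi hil => ?_, fun K hk hK =>
    join_WL hs hw hk hK⟩⟩
  · have h1 := hs.2.2.2 i (by rw [List.length_append]; omega) dir
    rw [vx_append (by omega)] at h1
    exact h1.trans (pow_le_pow_right₀ (by norm_num) (by omega))
  · exact (BAR.glue_mem (NCs_HpN hs.1 true) (v := w) (l := w.length) ⟨rfl, hw⟩).2
  · have e : (rev s ++ w).take i = rev s ++ w.take (i - s.length) := by
      rw [List.take_append, rev_length, List.take_of_length_le (by rw [rev_length]; exact hi)]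
    rw [e]
    exact alK_eq hA hs (Saw_take hw _)

/-- **K5** -/
theorem k5 : K5 := by
  obtain ⟨c, lam, s0, hc, hlam, h⟩ := k5up
  refine ⟨c, lam, s0, hc, hlam, fun k => ?_⟩
  obtain ⟨A, al, h1, h2⟩ := h k
  exact ⟨A, up, al, BAR.up_dirs, h1, h2⟩

end EN

end HexObs
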