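import Pool.Agent.HBD.DefsK
import Pool.Agent.PW.RunBX

/-!
HBD, K6: the run and the range of the second part w go over to the joined word rev s ++ w.
-/

set_option autoImplicit false

namespace HexObs

namespace EN

open Finset TS SDN NTW NTA

open scoped ENNReal

/-- a rotation is determined by the image of up -/
lemma mulE_up_inj {R R' : Pt} (h : mulE R up = mulE R' up) : R = R' := by
  have h1 := congrArg Prod.fst h
  have h2 := congrArg Prod.snd h
  simp only [mulE, up] at h1 h2
  apply Prod.ext <;> omega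

lemma hd_dirs (dir : Bool) : hd dir ∈ dirs := by
  cases dir <;> decide

/-- **K6** -/
theorem k6 : K6 := by
  intro dir δ hδ
  have hupd : up ∈ dirs := by decide
  have hR0 := rotTo_apply δ hupd
  have hR1 := nrm_rotTo hupd hδ
  obtain ⟨R0, hRd⟩ : ∃ R0, R0 = rotTo up δ := ⟨_, rfl⟩
  rw [← hRd] at hR0 hR1
  refine ⟨mulE R0 (hd dir), ?_, ?_⟩
  · have h1 := hd_dirs dir
    rw [mem_dirs] at h1 ⊢
    rw [nrm_mulE, hR1, h1, one_mul]
  intro kc R s w hs
  obtain ⟨R', hR', h1, h2⟩ := BAR.jvx_snd s w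
  have hRR : R' = R0 := mulE_up_inj (by rw [h1, hs, hR0])
  rw [hRR] at h2
  have hlv : ∀ i, ip (vx oo up (rev s ++ w) (s.length + i)) (mulE R0 (hd dir)) =
      ip (vx oo up (rev s ++ w) s.length) (mulE R0 (hd dir)) + lvl dir (vx oo up w i) := by
    intro i
    rw [h2, ip_add_left, ip_mulE, hR1, one_mul]
    rfl
  refine ⟨fun i j => by rw [hlv, hlv]; ring, ?_⟩
  rintro ⟨m, u, e, hL, l, d, hl, hd1, hm, hms⟩
  have hL' : Hyst (fun i => lvl dir (vx oo up w i)) w.length (RR (kc + 5)) m u e := hL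
  obtain ⟨c0, hc0⟩ : ∃ c0, c0 = ip (vx oo up (rev s ++ w) s.length) (mulE R0 (hd dir)) := ⟨_, rfl⟩
  rw [← hc0] at hlv
  obtain ⟨u', hH⟩ := RD.hyst_sgn (F := fun i => lvl dir (vx oo up w i))
    (f := fun i => ip (vx oo up (rev s ++ w) (s.length + i)) (mulE R0 (hd dir))) (c := -c0) (s := 1) (Or.inl rfl)
    (fun i _ => by
      show lvl dir (vx oo up w i) = -c0 + 1 * ip (vx oo up (rev s ++ w) (s.length + i)) (mulE R0 (hd dir))
      rw [hlv i]
      ring) hL'
  have hRRp : (1 : ℤ) ≤ RR (kc + 5) := by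
    unfold RR
    have : (1 : ℤ) ≤ 2 ^ (kc + 5) := one_le_pow₀ (by norm_num)
    omega
  obtain ⟨M, U, E, hE⟩ := hyst_exists (fun i => ip (vx oo up (rev s ++ w) i) (mulE R0 (hd dir))) (rev s ++ w).length hRRp
  have hle : ∀ j, j ≤ m → e j ≤ w.length := fun j hj => (hL'.monoA hj le_rfl).trans hL'.le
  obtain ⟨c, hc⟩ := PW.hyst_window (F := fun i => ip (vx oo up (rev s ++ w) i) (mulE R0 (hd dir))) (a := s.length) hE hH
    (by rw [List.length_append, rev_length])
  have hld := hc (l + d) (by omega) (by omega)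
  have hll := hc l (by omega) (by omega)
  refine ⟨M, U, E, hE, l + c, d, by omega, hd1, by omega, by omega, ?_⟩
  have h5 : lws (rev s ++ w) E (l + c) d = lws w e l d := by
    unfold lws
    apply List.map_congr_left
    intro i hi
    rw [List.mem_range] at hi
    have e1 := (hc (l + i) (by omega) (by omega)).2
    have e2 := (hc (l + i + 1) (by omega) (by omega)).2
    rw [show l + i + c = l + c + i by omega] at e1
    rw [show l + i + 1 + c = l + c + i + 1 by omega] at e2
    rw [e1, e2]
    have h6 := PW.lw_infix (A := rev s) (t := w) (B := []) (hL'.lt (l + i) (by omega)) (hle (l + i + 1) (by omega))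
    rw [List.append_nil, rev_length] at h6
    exact h6
  rw [h5]
  exact hms

end EN

end HexObs
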