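import Pool.Agent.HBD.MarkCover
import Pool.Agent.HBD.DefsK

/-!
HBD: the outer mark with a count function: the walks t with n letters behind the position al t, a marked run behind this
position in a class of small exact norm and the first or the last piece of the monotone chain through it in a class S.
-/

set_option autoImplicit false

namespace HexObs

namespace EN

namespace MK

open Finset TS SDN SDN.CN NTm NTW NTA EX OU

open scoped ENNReal

/-! ### the chain with the position of the run -/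

/-- p windows in decreasing order, a run in R, a right part with the property P -/
def DecAt (W : ℕ → Set (List Bool)) (R : Set (List (List Bool)))
    (P : List (List Bool) → List Bool → (ℕ → ℝ≥0∞) → Prop) : ℕ → List (List Bool) → ℕ → (ℕ → ℝ≥0∞) → Prop
  | _, [], _, _ => False
  | 0, g :: gs, _, e => MidP R P g gs e
  | p + 1, g :: gs, i, e => ∃ i', i' < i ∧ g ∈ W i' ∧ DecAt W R P p gs (i' + 1) e

/-- the whole chain, the run is behind the first p pieces, 1 ≤ p -/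
def TotAt (W : ℕ → Set (List Bool)) (n : ℕ) (R : Set (List (List Bool)))
    (P : List (List Bool) → List Bool → (ℕ → ℝ≥0∞) → Prop) (A : Set (List Bool)) :
    ℕ → List (List Bool) → (ℕ → ℝ≥0∞) → Prop
  | _, [], _ => False
  | 0, _ :: _, _ => False
  | p + 1, g :: gs, e => ∃ i, i < n ∧ g ∈ W i ∧ g ∈ A ∧ DecAt W R P p gs (i + 1) e

variable {kc J n M : ℕ} {W : ℕ → Set (List Bool)} {kp idx : ℕ → ℕ} {R : Set (List (List Bool))}
  {Φ : ℕ → ℕ → List Bool → ℝ≥0∞} {P : List (List Bool) → List Bool → (ℕ → ℝ≥0∞) → Prop}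

lemma decK_at : ∀ (p : ℕ) (kap : List (List Bool) → ℕ) (gs : List (List Bool)) (i : ℕ) (e : ℕ → ℝ≥0∞) (a : ℕ),
    DecAt W R P p gs i e → a = kap (gs.take p) + ll (gs.drop p) → DecK W R P kap gs i e a := by
  intro p
  induction p with
  | zero =>
    intro kap gs i e a h ha
    cases gs with
    | nil => exact h
    | cons g gs => exact Or.inl ⟨h, ha⟩
  | succ p ih =>
    intro kap gs i e a h ha
    cases gs with
    | nil => exact h
    | cons g gs =>
      obtain ⟨i', h1, h2, h3⟩ := h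
      exact Or.inr ⟨i', h1, h2, ih (fun gl => kap (g :: gl)) gs (i' + 1) e a h3 ha⟩

lemma totK_at {A : Set (List Bool)} {p : ℕ} {kap : List (List Bool) → ℕ} {gs : List (List Bool)} {e : ℕ → ℝ≥0∞} {a : ℕ}
    (h : TotAt W n R P A p gs e) (ha : a = kap (gs.take p) + ll (gs.drop p)) : TotBK W n R P A kap gs e a := by
  cases gs with
  | nil => cases p <;> exact h
  | cons g gs =>
    cases p with
    | zero => exact h.elim
    | succ p =>
      obtain ⟨i, h1, h2, h3, h4⟩ := h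
      exact ⟨i, h1, h2, h3, decK_at p (fun gl => kap (g :: gl)) gs (i + 1) e a h4 ha⟩

/-- left parts -/
lemma dec_ofAt (hidx : ∀ h h' : ℕ, h ≤ h' → idx h ≤ idx h')
    (hmem : ∀ (g : List Bool) (h : ℕ), g ∈ Brd h → 2 ^ (kc + 4) ≤ h → h ≤ 2 ^ (kc + J + 2) → idx h < n ∧ g ∈ W (idx h))
    {c : ℕ → ℝ≥0∞} {g : List Bool} {gs : List (List Bool)} (hg : MidP R P g gs c) :
    ∀ (ls : List (List Bool)) (i : ℕ), (∀ x ∈ ls, x ∈ BrR (2 ^ (kc + 4)) (2 ^ (kc + J + 2))) →
      ls.IsChain (fun a b => hgt b ≤ hgt a) → (∀ x, ls.head? = some x → idx (hgt x) < i) →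
      DecAt W R P ls.length (ls ++ g :: gs) i c := by
  intro ls
  induction ls with
  | nil =>
    intro i _ _ _
    exact hg
  | cons x ls ih =>
    intro i h1 h2 h3
    obtain ⟨h, a1, a2, a3⟩ := h1 x List.mem_cons_self
    obtain ⟨b1, b2⟩ := hmem x h a3 a1 a2
    rw [← hgt_eq a3] at b1 b2
    refine ⟨idx (hgt x), h3 x rfl, b2, ih _ (fun y hy => h1 y (List.mem_cons_of_mem _ hy)) h2.tail ?_⟩
    intro y hy
    obtain ⟨ls', rfl⟩ : ∃ ls', ls = y :: ls' := by
      rcases ls with _ | ⟨z, ls'⟩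
      · simp at hy
      · rw [List.head?_cons, Option.some.injEq] at hy
        exact ⟨ls', by rw [hy]⟩
    rw [List.isChain_cons_cons] at h2
    exact Nat.lt_succ_of_le (hidx _ _ h2.1)

/-- the chain of the pieces of a walk with a monotone chain of folds through a run -/
lemma tot_ofAt (hidx : ∀ h h' : ℕ, h ≤ h' → idx h ≤ idx h')
    (hmem : ∀ (g : List Bool) (h : ℕ), g ∈ Brd h → 2 ^ (kc + 4) ≤ h → h ≤ 2 ^ (kc + J + 2) → idx h < n ∧ g ∈ W (idx h))
    {t : List Bool} {r u p d : ℕ} {E : ℕ → ℕ} {gs : List (List Bool)} (ht : t ∈ SA) (hF : FoldG t r u E) (hp : p + d < r)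
    (hdec : ∀ q, q + 1 < p → RG t u E (q + 1) ≤ RG t u E q)
    (hinc : ∀ q, p + d < q → q + 1 < r → RG t u E q ≤ RG t u E (q + 1))
    (hR : RepG t r u E gs) (hB : ∀ g ∈ gs, g ∈ BrR (2 ^ (kc + 4)) (2 ^ (kc + J + 2)))
    (hS : (gs.drop p).take (d + 1) ∈ R) (hM : gs.length ≤ M) {c : ℕ → ℝ≥0∞}
    (hc0 : p + d + 1 = r → ∀ q, c q ≤ Φ 0 q (gs.getLastD []))
    (hc1 : p + d + 1 < r → ∀ q, c q ≤ Φ (idx (hgt (gs.getLastD []))) q (gs.getLastD []))
    (hPP : ∀ (rs : List (List Bool)) (g : List Bool), IncG W n Φ rs 0 g c → rs.length ≤ M →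
      (p + d + 1 < r → rs ≠ []) → (rs ≠ [] → gs.getLastD [] = rs.getLastD []) → P rs g c)
    {A : Set (List Bool)} (hA : 1 ≤ p → gs.headD [] ∈ A) :
    (p = 0 → TotAK R P gs c) ∧ (1 ≤ p → TotAt W n R P A p gs c) := by
  have hlen := hR.len
  have cmp : ∀ (q q' : ℕ) (hq : q < gs.length) (hq' : q' < gs.length), 1 ≤ q' → q' + 2 ≤ r → RG t u E q' ≤ RG t u E q →
      hgt gs[q'] ≤ hgt gs[q] := by
    intro q q' hq hq' h1 h2 h3
    obtain ⟨k, hk1, hk⟩ := hR.brd _ (List.getElem_mem hq)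
    obtain ⟨k', hk1', hk'⟩ := hR.brd _ (List.getElem_mem hq')
    have h4 := (FoldA.foldG_ht hF (by omega) (hR.pos q hq) hk).2.1
    have h5 := hR.mid q' hq' h1 h2
    have h6 := QF.mid_hgt ht hF h1 h2 (h5 ▸ hk')
    rw [hgt_eq hk, hgt_eq hk']
    unfold RG at h3
    omega
  obtain ⟨ls, hls⟩ : ∃ ls, ls = gs.take p := ⟨_, rfl⟩
  obtain ⟨rs, hrs⟩ : ∃ rs, rs = gs.drop (p + d + 1) := ⟨_, rfl⟩
  obtain ⟨run, hrun⟩ : ∃ run, run = (gs.drop p).take (d + 1) := ⟨_, rfl⟩
  rw [← hrun] at hS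
  have hrunl : run.length = d + 1 := by
    rw [hrun, List.length_take, List.length_drop]
    omega
  have hsp : gs = ls ++ (run ++ rs) := by
    rw [hls, hrs, hrun, show p + d + 1 = p + (d + 1) by ring, ← List.drop_drop, List.take_append_drop,
      List.take_append_drop]
  have hlsl : ls.length = p := by
    rw [hls, List.length_take]
    omega
  have hrsl : rs.length = r - (p + d + 1) := by
    rw [hrs, List.length_drop, hlen]
  have hlsB : ∀ x ∈ ls, x ∈ BrR (2 ^ (kc + 4)) (2 ^ (kc + J + 2)) := fun x hx => hB x (by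
    rw [hls] at hx
    exact List.mem_of_mem_take hx)
  have hrsB : ∀ x ∈ rs, x ∈ BrR (2 ^ (kc + 4)) (2 ^ (kc + J + 2)) := fun x hx => hB x (by
    rw [hrs] at hx
    exact List.mem_of_mem_drop hx)
  have hlsC : ls.IsChain (fun a b => hgt b ≤ hgt a) := by
    rw [List.isChain_iff_getElem]
    intro i hi
    have e1 : ls[i]'(by omega) = gs[i]'(by omega) := by
      subst hls
      exact List.getElem_take
    have e2 : ls[i + 1]'hi = gs[i + 1]'(by omega) := by
      subst hls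
      exact List.getElem_take
    rw [e1, e2]
    exact cmp i (i + 1) _ _ (by omega) (by omega) (hdec i (by omega))
  have hrsC : rs.IsChain (fun a b => hgt a ≤ hgt b) := by
    rw [List.isChain_iff_getElem]
    intro i hi
    have e1 : rs[i]'(by omega) = gs[p + d + 1 + i]'(by omega) := by
      subst hrs
      exact List.getElem_drop
    have e2 : rs[i + 1]'hi = gs[p + d + 1 + (i + 1)]'(by omega) := by
      subst hrs
      exact List.getElem_drop
    rw [e1, e2]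
    exact cmp (p + d + 1 + (i + 1)) (p + d + 1 + i) _ _ (by omega) (by omega)
      (hinc (p + d + 1 + i) (by omega) (by omega))
  obtain ⟨g, ms, hgm⟩ : ∃ g ms, run = g :: ms := List.exists_cons_of_ne_nil (by
    intro h0
    rw [h0, List.length_nil] at hrunl
    omega)
  rw [hgm] at hS hsp
  rw [List.cons_append] at hsp
  have hlast0 : rs = [] → gs.getLastD [] = (g :: ms).getLastD [] := by
    intro h0
    rw [hsp, h0, List.append_nil, QF.last_app]
  have hlast1 : rs ≠ [] → gs.getLastD [] = rs.getLastD [] := by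
    intro h0
    obtain ⟨z, rs', rfl⟩ := List.exists_cons_of_ne_nil h0
    rw [hsp, show ls ++ g :: (ms ++ z :: rs') = (ls ++ g :: ms) ++ z :: rs' by simp, QF.last_app]
  have hrsE : IncG W n Φ rs 0 ((g :: ms).getLastD []) c := by
    refine inc_ofG hidx hmem rs 0 _ hrsB hrsC (fun _ _ => Nat.zero_le _) (fun h0 => ?_) (fun h0 => ?_)
    · have h1 : p + d + 1 = r := by
        rw [h0, List.length_nil] at hrsl
        omega
      have h3 := hc0 h1
      rw [hlast0 h0] at h3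
      exact h3
    · have h1 : p + d + 1 < r := by
        have := List.length_pos_iff.2 h0
        omega
      have h3 := hc1 h1
      rw [hlast1 h0] at h3
      exact h3
  have hrsM : rs.length ≤ M := by
    omega
  have hPr : P rs ((g :: ms).getLastD []) c := hPP rs _ hrsE hrsM (fun h h0 => by
    rw [h0, List.length_nil] at hrsl
    omega) hlast1
  have hmid : MidP R P g (ms ++ rs) c := ⟨ms, rs, rfl, hS, hPr⟩
  rcases ls with _ | ⟨x, xs⟩
  · rw [List.nil_append] at hsp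
    rw [List.length_nil] at hlsl
    refine ⟨fun _ => ?_, fun h => by omega⟩
    rw [hsp]
    exact hmid
  · rw [List.cons_append] at hsp
    rw [List.length_cons] at hlsl
    refine ⟨fun h => by omega, fun _ => ?_⟩
    have h3 := hA (by omega)
    rw [hsp] at h3 ⊢
    obtain ⟨h, a1, a2, a3⟩ := hlsB x List.mem_cons_self
    obtain ⟨b1, b2⟩ := hmem x h a3 a1 a2
    rw [← hgt_eq a3] at b1 b2
    obtain ⟨p', rfl⟩ : ∃ p', p = p' + 1 := ⟨p - 1, by omega⟩
    have hp' : xs.length = p' := by omega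
    rw [← hp']
    refine ⟨idx (hgt x), b1, b2, h3, dec_ofAt hidx hmem hmid xs _
      (fun y hy => hlsB y (List.mem_cons_of_mem _ hy)) hlsC.tail ?_⟩
    intro y hy
    obtain ⟨ls', rfl⟩ : ∃ ls', xs = y :: ls' := by
      rcases xs with _ | ⟨z, ls'⟩
      · simp at hy
      · rw [List.head?_cons, Option.some.injEq] at hy
        exact ⟨ls', by rw [hy]⟩
    rw [List.isChain_cons_cons] at hlsC
    exact Nat.lt_succ_of_le (hidx _ _ hlsC.1)


/-- the pieces are long -/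
lemma gap_len {t : List Bool} {r u kc p : ℕ} {E : ℕ → ℕ} (hF : FoldG t r u E) (hp : p < r)
    (h : RR (kc + 5) ≤ RG t u E p) : E p + 10 ≤ E r := by
  have mono : ∀ q, p + 1 ≤ q → q ≤ r → E (p + 1) ≤ E q := by
    intro q hq
    induction q, hq using Nat.le_induction with
    | base => exact fun _ => le_rfl
    | succ q hq ih =>
      intro h1
      exact (ih (by omega)).trans (hF.lt q (by omega)).le
  have h1 := mono r (by omega) le_rfl
  by_contra hc
  have h2 := (hF.lt p hp).le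
  have h3 := near2 t (a := E p) (b := E (p + 1)) h2 9 (by omega)
  have h4 : RG t u E p = Tight.sg (u + p) (lev t (E (p + 1)) - lev t (E p)) := by
    rw [NTm.sg_sub]
    rfl
  have h5 : |Tight.sg (u + p) (lev t (E (p + 1)) - lev t (E p))| ≤ |lev t (E (p + 1)) - lev t (E p)| := by
    unfold Tight.sg
    split_ifs
    · rw [abs_neg]
    · exact le_rfl
  have h6 := le_abs_self (Tight.sg (u + p) (lev t (E (p + 1)) - lev t (E p)))
  have h7 : (32 : ℤ) ≤ 2 ^ (kc + 5) := by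
    rw [pow_add]
    have := one_le_pow₀ (one_le_two (α := ℤ)) (n := kc)
    linarith
  rw [h4] at h
  unfold RR at h
  push_cast at h3
  linarith

/-! ### the norm of the chains that begin with the run -/

open QF in
/-- **the chains that begin with the run, the last piece in S, general left end** -/
theorem fun_firstK {Dm : ℕ → ℝ≥0∞ → (List Bool → ℝ≥0∞) → Prop} (hDm : DmP Dm) :
    ∃ Q : ℝ, 1 ≤ Q ∧ ∀ (kc J n : ℕ) (W : ℕ → Set (List Bool)) (kp : ℕ → ℕ) (R : Set (List (List Bool)))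
      (S : Set (List Bool)) (δ ε x : ℝ) (x0 : ℝ≥0∞) (P0 : ℕ → List Bool → ℝ≥0∞) (Φ : ℕ → ℕ → List Bool → ℝ≥0∞),
      Wnd kc J n W kp → 1 ≤ n → 0 ≤ δ →
      0 ≤ ε → 0 ≤ x → SmRX Dm kc R δ →
      x0 ≤ ENNReal.ofReal x → Dm kc x0 (tot P0) → (∀ c, Flp (2 ^ (kc + 4)) (P0 c)) → GH (2 ^ (kc + 4)) P0 →
      (∀ i i', i ≤ i' → i' < n → xT (2 ^ (kp i + 4)) (kp i) (vA (2 ^ (kp i + 4)) (W i' ∩ S) (tot (Φ i'))) ≤
        ENNReal.ofReal (ε * x * (Ub (kc + J) / Ub (kp i)))) → ∀ M N : ℕ,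
    Rec8.sw (HB (2 ^ (kc + 4))) (fun g => ∑ c ∈ range (N + 1), P0 c (rev g) *
        sh (runG R (Rg W kp n (rsF S Φ) M 0)) (N - c) g) ≤
      ENNReal.ofReal (Q ^ (n + J + 1) * (δ * ε) * Ub (kc + J) * x ^ 2) := by
  obtain ⟨K, hK1, hK⟩ := two_scale
  obtain ⟨q, hq⟩ : ∃ q : ℝ, q = 128 * K + 1 := ⟨_, rfl⟩
  have hq1 : 1 ≤ q := by linarith
  have hq2 : 2 ≤ q := by linarith
  have hq0 : 0 ≤ q := by linarith
  refine ⟨2 * q ^ 3, by have := one_le_pow₀ (n := 3) hq1; linarith, ?_⟩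
  intro kc J n W kp R S δ ε x x0 P0 Φ hW hn hδ hε hx hS hx0 hP0 hflp hPh hRS M N
  have hU := Ub_pos kc
  have hUL := Ub_pos (kc + J)
  have hUJ : Ub (kc + J) ≤ 2 ^ J * Ub kc := UU_ratio_up kc J
  have hn0 : (0 : ℝ) ≤ n := Nat.cast_nonneg n
  have hn1 : (1 : ℝ) ≤ n := by exact_mod_cast hn
  obtain ⟨r, hr⟩ : ∃ r, r = Ub (kc + J) / Ub kc := ⟨_, rfl⟩
  have hr1 : 1 ≤ r := by
    rw [hr, le_div_iff₀ hU, one_mul]
    exact Ub_mono (by omega)
  have hr0 : 0 ≤ r := by linarith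
  have hrJ : r ≤ 2 ^ J := by
    rw [hr, div_le_iff₀ hU]
    exact hUJ
  -- the numbers
  have h6 : (n : ℝ) ≤ q ^ n := by
    have a1 : n < 2 ^ n := Nat.lt_two_pow_self
    have a2 : (n : ℝ) ≤ 2 ^ n := by exact_mod_cast a1.le
    exact a2.trans (pow_le_pow_left₀ (by norm_num) hq2 n)
  have h7 : r ≤ q ^ J := hrJ.trans (pow_le_pow_left₀ (by norm_num) hq2 J)
  have h8 : (n : ℝ) * r * q ^ n ≤ (q ^ 3) ^ (n + J + 1) := by
    calc (n : ℝ) * r * q ^ n ≤ q ^ n * q ^ J * q ^ n := by gcongr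
      _ = q ^ (n + J + n) := by ring
      _ ≤ q ^ (3 * (n + J + 1)) := pow_le_pow_right₀ hq1 (by omega)
      _ = _ := by rw [pow_mul]
  have h9 : (2 : ℝ) ≤ 2 ^ (n + J + 1) := by
    calc (2 : ℝ) = 2 ^ 1 := (pow_one _).symm
      _ ≤ _ := pow_le_pow_right₀ (by norm_num) (by omega)
  have hUU : Ub kc ≤ Ub (kc + J) := Ub_mono (by omega)
  obtain ⟨B, hB⟩ : ∃ B : ℝ, B = 2 * n * (ε * x) * r * q ^ n := ⟨_, rfl⟩
  have hB0 : 0 ≤ B := by rw [hB]; positivity
  have hRx : xT (2 ^ (kc + 4)) kc (tot (Rg W kp n (rsF S Φ) M 0)) ≤ ENNReal.ofReal B := by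
    rw [tot_Rg]
    have h1 := rightO (Q := q) (Φ := fun i => tot (rsF S Φ i)) hK1 (by linarith) hK hW
      (show 0 ≤ ε * x by positivity) (fun i i' h1 h2 => by
        simp only [vA_rs]
        exact hRS i i' h1 h2) M 0 (by rw [hW.zero]; omega)
    rw [hW.zero, Nat.sub_zero, ← hr, ← hB] at h1
    exact h1
  have hRg : GH (2 ^ (kc + 4)) (Rg W kp n (rsF S Φ) M 0) := by
    have := GH_Rg W kp n (rsF S Φ) M 0
    rwa [hW.zero] at this
  have hRD : Dm kc (xT (2 ^ (kc + 4)) kc (tot (Rg W kp n (rsF S Φ) M 0))) (tot (Rg W kp n (rsF S Φ) M 0)) :=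
    hDm.dm kc _ (herD_tot hRg)
  refine ((hS.free _ _ _ _ hPh hflp hRg hP0 hRD N).trans (mul_le_mul_right (mul_le_mul' hx0 hRx) _)).trans ?_
  rw [← ENNReal.ofReal_mul hx, ← ENNReal.ofReal_mul (by positivity)]
  apply ENNReal.ofReal_le_ofReal
  calc δ * Ub kc * (x * B) = 2 * (n * r * q ^ n) * (δ * ε) * Ub kc * x ^ 2 := by
        rw [hB]
        ring
    _ ≤ 2 ^ (n + J + 1) * (q ^ 3) ^ (n + J + 1) * (δ * ε) * Ub (kc + J) * x ^ 2 := by gcongr
    _ = _ := by
        rw [← mul_pow]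

open QF in
open Classical in
/-- **the outer mark, the letters in front of the position al t are not counted** -/
theorem eventSk_of (hA : SsA) (h3 : Ss3) (hD : SsD) : ∃ (C : ℝ) (k0 : ℕ), 1 ≤ C ∧
    ∀ (al : List Bool → ℕ) (kc J lam lam' nn : ℕ) (R : Set (List (List Bool))) (S : Set (List Bool)) (δ ε : ℝ), k0 ≤ kc → 6 ≤ J → 0 < δ →
      0 < ε → QL (kc + J + 8) lam' → SmRX DmJ kc R δ →
      (∀ k1, kc ≤ k1 → k1 ≤ kc + J → SmD DmJ k1 (S ∩ BrR (2 ^ (k1 + 4)) (2 ^ (kc + J + 2))) ε) →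
      gf {t | Cnt al nn t ∧ t ∈ SAL lam ∧ t ∈ ERSk (al t) kc J R S} ≤
        ENNReal.ofReal (C ^ J * (δ * ε) * Ub (kc + J)) * (bl (lam + lam' + 50) (kc + J + 8)) ^ 2 := by
  have hDm := dmP
  obtain ⟨V, k0, hV1, hwin⟩ := win_family
  obtain ⟨Q1, hQ1, hfun⟩ := fun_boundO hDm hA h3 hD
  obtain ⟨Q2, hQ2, hfir⟩ := fun_firstK hDm
  obtain ⟨Q, hQQ⟩ : ∃ Q, Q = max Q1 Q2 := ⟨_, rfl⟩
  have hQ : 1 ≤ Q := by rw [hQQ]; exact hQ1.trans (le_max_left _ _)
  have hQ1Q : Q1 ≤ Q := by rw [hQQ]; exact le_max_left _ _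
  have hQ2Q : Q2 ≤ Q := by rw [hQQ]; exact le_max_right _ _
  obtain ⟨Kc, hKc, hcov⟩ := coverK
  obtain ⟨Kf, hKf, hE⟩ := hDm.fin
  obtain ⟨Kl, hKl, hEl⟩ := fin_long
  obtain ⟨Ke, hKedef⟩ : ∃ Ke : ℝ, Ke = Kf + 16 * Kl := ⟨_, rfl⟩
  have hKe : 1 ≤ Ke := by linarith
  have hKc0 : 0 < Kc := by linarith
  have hKe0 : 0 < Ke := by linarith
  have hQ0 : 0 < Q := by linarith
  have hKK : 1 ≤ 48 * Kc * Ke ^ 2 := by
    have a1 : 1 ≤ Ke ^ 2 := one_le_pow₀ hKe
    have a2 : 1 ≤ Kc * Ke ^ 2 := one_le_mul_of_one_le_of_one_le hKc a1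
    linarith
  have hQV : 1 ≤ Q ^ (2 * V + 2) := one_le_pow₀ hQ
  refine ⟨48 * Kc * Ke ^ 2 * Q ^ (2 * V + 2), max k0 1, one_le_mul_of_one_le_of_one_le hKK hQV, ?_⟩
  intro al kc J lam lam' nn R S δ ε hkc hJ hδ hε hQL hS hSS
  have hk0 : k0 ≤ kc := (le_max_left _ _).trans hkc
  have hk1 : 1 ≤ kc := (le_max_right _ _).trans hkc
  have hUL := Ub_pos (kc + J)
  obtain ⟨B, hB⟩ : ∃ B, B = bl (lam + lam' + 50) (kc + J + 8) := ⟨_, rfl⟩
  rw [← hB]
  by_cases hBt : B = ⊤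
  · rw [hBt]
    have h1 : ENNReal.ofReal ((48 * Kc * Ke ^ 2 * Q ^ (2 * V + 2)) ^ J * (δ * ε) * Ub (kc + J)) ≠ 0 := by
      rw [Ne, ENNReal.ofReal_eq_zero, not_le]
      positivity
    rw [show ((⊤ : ℝ≥0∞)) ^ 2 = ⊤ by simp, ENNReal.mul_top h1]
    exact le_top
  obtain ⟨b, hb⟩ : ∃ b, b = B.toReal := ⟨_, rfl⟩
  have hb0 : 0 ≤ b := by rw [hb]; exact ENNReal.toReal_nonneg
  have hBb : B = ENNReal.ofReal b := by rw [hb, ENNReal.ofReal_toReal hBt]
  obtain ⟨x, hx⟩ : ∃ x, x = Ke * b := ⟨_, rfl⟩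
  have hx0 : 0 ≤ x := by rw [hx]; positivity
  have hxB : ENNReal.ofReal x = ENNReal.ofReal Ke * B := by rw [hx, hBb, ENNReal.ofReal_mul hKe0.le]
  obtain ⟨W, kp, idx, hW, hidx, hmem⟩ := hwin kc (J + 2) hk0 (by omega)
  obtain ⟨n, hn⟩ : ∃ n, n = V * (J + 2) := ⟨_, rfl⟩
  rw [← hn] at hW hmem
  have hn1 : 1 ≤ n := by
    rw [hn]
    exact Nat.mul_pos hV1 (by omega)
  obtain ⟨Φ, hΦ⟩ : ∃ Φ : ℕ → ℕ → List Bool → ℝ≥0∞,
    Φ = fun i => Pg (2 ^ (kp i + 4)) (2 ^ (kp i + 6)) (lam + 20) := ⟨_, rfl⟩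
  have hDmi : ∀ i, i < n → DmJ (kp i) (ENNReal.ofReal Kf * bl (lam + 20 + lam' + 12) (kp i + 6)) (tot (Φ i)) := by
    intro i hi
    have h0 : kc ≤ kp i := by
      rw [← hW.zero]
      exact hW.mono 0 i (Nat.zero_le i)
    have h1 := hW.top i hi
    have := hE (kp i + 4) (2 ^ (kp i + 6)) (lam + 20) lam' (by omega) (Nat.pow_lt_pow_right (by norm_num) (by omega))
      (Nat.pow_le_pow_right (by norm_num) (by omega)) (fun a ha => hQL a (by omega))
    rw [hΦ]
    simp only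
    rw [tot_Pg]
    exact this
  have hle : ∀ i, i < n → ENNReal.ofReal Kf * bl (lam + 20 + lam' + 12) (kp i + 6) ≤ ENNReal.ofReal x := by
    intro i hi
    rw [hxB, hB]
    refine mul_le_mul' (ENNReal.ofReal_le_ofReal (by linarith)) ((bl_mono_lam (by omega) _).trans (bl_mono _ ?_))
    have h1 := hW.top i hi
    omega
  have hDom : ∀ i, i < n → Dom (kp i) (ENNReal.ofReal x) (tot (Φ i)) := fun i hi =>
    (hDm.dom _ _ _ (hDmi i hi)).mono (hle i hi)
  have hD0 : DmJ kc (ENNReal.ofReal Kf * bl (lam + 20 + lam' + 12) (kc + 6)) (tot (Φ 0)) := by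
    have := hDmi 0 (by omega)
    rwa [hW.zero] at this
  have hle0 : ENNReal.ofReal Kf * bl (lam + 20 + lam' + 12) (kc + 6) ≤ ENNReal.ofReal x := by
    have := hle 0 (by omega)
    rwa [hW.zero] at this
  have hΦ0 : Φ 0 = Pg (2 ^ (kc + 4)) (2 ^ (kc + 6)) (lam + 20) := by
    rw [hΦ]
    simp only [hW.zero]
  have hflp : ∀ c, Flp (2 ^ (kc + 4)) (Φ 0 c) := by
    rw [hΦ0]
    exact flp_Pg Nat.one_le_two_pow _ _
  have hΦh : GH (2 ^ (kc + 4)) (Φ 0) := by
    rw [hΦ0]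
    exact GH_Pg Nat.one_le_two_pow _ _
  obtain ⟨R', hR'⟩ : ∃ R', R' = {gs : List (List Bool) | gs ∈ R ∧ ∀ g ∈ gs, g ∈ BrR (2 ^ (kc + 4)) (2 ^ (kc + J + 2))} :=
    ⟨_, rfl⟩
  have hR'S : SmRX DmJ kc R' δ := SmRX.anti hS (by rw [hR']; exact fun gs h => h.1)
  have hR'H : ∀ gs ∈ R', ∀ g ∈ gs, g ∈ HB (2 ^ (kc + 4)) := by
    intro gs hgs g hg
    rw [hR'] at hgs
    exact (NTW.EX.Brd_HB le_rfl (hgs.2 g hg)).1
  obtain ⟨M, hM⟩ : ∃ M, M = 100 * 4 ^ (kc + J) := ⟨_, rfl⟩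
  obtain ⟨T, hT⟩ : ∃ T, T = ENNReal.ofReal (Q ^ (n + (J + 2) + 1) * (δ * ε) * Ub (kc + (J + 2)) * x ^ 2) := ⟨_, rfl⟩
  obtain ⟨S', hS'⟩ : ∃ S', S' = S ∩ BrR (2 ^ (kc + 4)) (2 ^ (kc + J + 2)) := ⟨_, rfl⟩
  -- the outer pieces
  have hWS : ∀ i' i, i' ≤ i → i < n → kp i' ≤ kc + J → W i ∩ S' ⊆ S ∩ BrR (2 ^ (kp i' + 4)) (2 ^ (kc + J + 2)) := by
    rintro i' i hi' hi - g ⟨g1, g2⟩
    rw [hS'] at g2
    obtain ⟨h, a1, a2, a3⟩ := hW.sub i hi g1
    obtain ⟨h', b1, b2, b3⟩ := g2.2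
    have e1 : h' = h := Brd_height b3 a3
    rw [e1] at b2
    exact ⟨g2.1, h, (Nat.pow_le_pow_right (by norm_num) (Nat.add_le_add_right (hW.mono i' i hi') 4)).trans a1, b2, a3⟩
  have hWE : ∀ i' i, i' ≤ i → i < n → ¬ kp i' ≤ kc + J → W i ∩ S' = ∅ := by
    intro i' i hi' hi hk
    ext g
    simp only [Set.mem_empty_iff_false, iff_false]
    rintro ⟨g1, g2⟩
    rw [hS'] at g2
    obtain ⟨h, a1, a2, a3⟩ := hW.sub i hi g1
    obtain ⟨h', b1, b2, b3⟩ := g2.2
    have e1 : h' = h := Brd_height b3 a3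
    rw [e1] at b2
    have e2 := hW.mono i' i hi'
    have e3 : 2 ^ (kc + J + 2) < 2 ^ (kp i + 4) := Nat.pow_lt_pow_right (by norm_num) (by omega)
    omega
  have hlong : ∀ i' i, i' ≤ i → i < n → DmJ (kp i') (ENNReal.ofReal (x * (Ub (kc + (J + 2)) / Ub (kp i'))))
      (fun t => 1 + ENl (2 ^ (kp i' + 4)) (2 ^ (kp i + 6)) (lam + 20) t) := by
    intro i' i hi' hi
    have hmo := hW.mono i' i hi'
    have htop := hW.top i hi
    have hk0' : kc ≤ kp i' := by
      rw [← hW.zero]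
      exact hW.mono 0 i' (Nat.zero_le _)
    have h1 := hEl (kp i' + 4) (2 ^ (kp i + 6)) (kp i + 4) (lam + 20) lam' (by omega)
      (Nat.pow_lt_pow_right (by norm_num) (by omega)) (by omega) (Nat.pow_le_pow_right (by norm_num) (by omega))
      (fun a ha => hQL a (by omega))
    rw [Nat.add_sub_cancel] at h1
    refine ⟨h1.1, h1.2.mono ?_⟩
    have hUi := Ub_pos (kp i')
    have hUJ2 := Ub_pos (kc + (J + 2))
    have h2 : Ub (kp i + 4) ≤ 16 * Ub (kc + (J + 2)) := by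
      calc Ub (kp i + 4) ≤ 2 ^ 4 * Ub (kp i) := UU_ratio_up (kp i) 4
        _ ≤ 2 ^ 4 * Ub (kc + (J + 2)) := by
            have := Ub_mono (hW.top i hi)
            linarith
        _ = _ := by norm_num
    have h3 : bl (lam + 20 + lam' + 22) (kp i + 4 + 2) ≤ ENNReal.ofReal b := by
      rw [← hBb, hB]
      exact (bl_mono_lam (by omega) _).trans (bl_mono _ (by omega))
    refine (mul_le_mul_right h3 _).trans ?_
    rw [← ENNReal.ofReal_mul (by have := Ub_pos (kp i + 4); positivity)]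
    apply ENNReal.ofReal_le_ofReal
    rw [hx]
    calc Kl * (Ub (kp i + 4) / Ub (kp i')) * b ≤ Kl * (16 * Ub (kc + (J + 2)) / Ub (kp i')) * b := by gcongr
      _ = 16 * Kl * b * (Ub (kc + (J + 2)) / Ub (kp i')) := by ring
      _ ≤ Ke * b * (Ub (kc + (J + 2)) / Ub (kp i')) := by
          gcongr
          linarith
  have htotΦ : ∀ i' i, i' ≤ i → ∀ t, tot (Φ i) t ≤ 1 + ENl (2 ^ (kp i' + 4)) (2 ^ (kp i + 6)) (lam + 20) t := by
    intro i' i hi' t
    rw [hΦ]
    simp only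
    rw [tot_Pg]
    exact add_le_add le_rfl (ENl_mono (Nat.pow_le_pow_right (by norm_num) (Nat.add_le_add_right (hW.mono i' i hi') 4))
      le_rfl le_rfl t)
  have hRS : ∀ i i', i ≤ i' → i' < n → xT (2 ^ (kp i + 4)) (kp i) (vA (2 ^ (kp i + 4)) (W i' ∩ S') (tot (Φ i'))) ≤
      ENNReal.ofReal (ε * x * (Ub (kc + (J + 2)) / Ub (kp i))) := by
    intro i i' hi hi'
    by_cases hk : kp i ≤ kc + J
    · have hk0' : kc ≤ kp i := by
        rw [← hW.zero]
        exact hW.mono 0 i (Nat.zero_le _)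
      refine (xT_mono fun t => (FB.vA_mono (hWS i i' hi hi' hk) _ t).trans (vA_monoF (htotΦ i i' hi) t)).trans
        (((hSS (kp i) hk0' hk).near _ _ (hlong i i' hi hi')).trans (le_of_eq ?_))
      rw [← ENNReal.ofReal_mul hε.le, mul_assoc]
    · rw [hWE i i' hi hi' hk]
      refine le_trans (le_of_eq ?_) zero_le
      have h0 : vA (2 ^ (kp i + 4)) (∅ : Set (List Bool)) (tot (Φ i')) = fun _ => 0 := by
        funext t
        unfold vA
        rw [Rec8.sw_ind]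
        rw [ENNReal.tsum_eq_zero]
        intro g
        rw [if_neg]
        exact fun h => h.1
      rw [h0]
      exact xT_zero _ _
  have hLS : ∀ i' i, i' ≤ i → i < n → ∀ F : List Bool → ℝ≥0∞, HerD (2 ^ (kp i' + 4)) F →
      Rec8.sw (W i ∩ S') (fun z => tot (Φ i) (rev z) * F z) ≤
        ENNReal.ofReal (ε * x * Ub (kc + (J + 2))) * xT (2 ^ (kp i' + 4)) (kp i') F := by
    intro i' i hi' hi F hF
    by_cases hk : kp i' ≤ kc + J
    · have hk0' : kc ≤ kp i' := by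
        rw [← hW.zero]
        exact hW.mono 0 i' (Nat.zero_le _)
      have hUi := Ub_pos (kp i')
      have hUJ2 := Ub_pos (kc + (J + 2))
      refine (Rec8.sw_mono (hWS i' i hi' hi hk) fun g _ => mul_le_mul_left (htotΦ i' i hi' (rev g)) _).trans
        (((hSS (kp i') hk0' hk).free _ _ _ _ (hlong i' i hi' hi) (flp_one Nat.one_le_two_pow _ _)
          (hDm.dm (kp i') F hF)).trans (le_of_eq ?_))
      rw [← mul_assoc, ← ENNReal.ofReal_mul (by positivity)]
      congr 2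
      field_simp
    · rw [hWE i' i hi' hi hk]
      refine le_trans (le_of_eq ?_) zero_le
      rw [Rec8.sw_ind, ENNReal.tsum_eq_zero]
      intro g
      rw [if_neg]
      exact fun h => h
  have hfun' : ∀ N : ℕ, _ ∧ _ := hfun kc (J + 2) n W kp R' S' δ ε x _ Φ hW hn1 hδ.le hε.le hx0 hR'S hDom hle0 hD0 hflp
    hΦh hRS hLS M
  have hUJ2' := Ub_pos (kc + (J + 2))
  have hT1 : ENNReal.ofReal (Q1 ^ (n + (J + 2) + 1) * (δ * ε) * Ub (kc + (J + 2)) * x ^ 2) ≤ T := by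
    rw [hT]
    apply ENNReal.ofReal_le_ofReal
    gcongr
  have hT2 : ENNReal.ofReal (Q2 ^ (n + (J + 2) + 1) * (δ * ε) * Ub (kc + (J + 2)) * x ^ 2) ≤ T := by
    rw [hT]
    apply ENNReal.ofReal_le_ofReal
    gcongr
  have hfir' : ∀ (kap : Option (List Bool) → ℕ) (N : ℕ), Rec8.sw (HB (2 ^ (kc + 4))) (fun g => ∑ c ∈ range (N + 1),
      Pgk kap (2 ^ (kc + 4)) (2 ^ (kc + 6)) (lam + 20) c (rev g) *
        sh (runG R' (Rg W kp n (rsF S' Φ) M 0)) (N - c) g) ≤ T := by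
    intro kap N
    refine (hfir kc (J + 2) n W kp R' S' δ ε x _ (Pgk kap (2 ^ (kc + 4)) (2 ^ (kc + 6)) (lam + 20)) Φ hW hn1 hδ.le hε.le
      hx0 hR'S hle0 ?_ (flp_Pgk kap Nat.one_le_two_pow _ _) (GH_Pgk kap Nat.one_le_two_pow _ _) hRS M N).trans hT2
    rw [tot_Pgk]
    rw [hΦ0, tot_Pg] at hD0
    exact hD0
  -- the classes
  obtain ⟨f, hf⟩ : ∃ f : Bool → ℕ → ℕ, f = fun a r => if a then 2 ^ (kc + 5) else r / 3 + 1 := ⟨_, rfl⟩
  have hfm : ∀ a, Monotone (f a) := by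
    intro a x y hxy
    rw [hf]
    cases a
    · exact Nat.add_le_add_right (Nat.div_le_div_right hxy) 1
    · exact le_rfl
  let A : Bool → Bool → Set (List Bool) := fun a a' => {t | Cnt al nn t ∧ t ∈ SAL lam ∧ t ∈ WL (kc + J) ∧
    ∃ (r u p d : ℕ) (E : ℕ → ℕ), p + d < r ∧ al t ≤ E p ∧ FoldG t r u E ∧ (∀ gs, RepG t r u E gs → (∀ g ∈ gs, g ∈ BrR (2 ^ (kc + 4)) (2 ^ (kc + J + 2))) →
      (gs.drop p).take (d + 1) ∈ R' ∧ ((1 ≤ p ∧ gs.headD [] ∈ S') ∨ (p + d + 1 < r ∧ gs.getLastD [] ∈ S'))) ∧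
    (∀ q, q < r → RR (kc + 5) ≤ RG t u E q) ∧ (∀ q, q + 1 < p → RG t u E (q + 1) ≤ RG t u E q) ∧
    (∀ q, p + d < q → q + 1 < r → RG t u E q ≤ RG t u E (q + 1)) ∧
    (∀ i, i < E 0 → Tight.sg u (lev t i) - Tight.sg u (lev t (E 0)) ≤ if p = 0 then RR (kc + 5) else RG t u E 0) ∧
    (∀ i, E r < i → i ≤ t.length → Tight.sg (u + (r - 1)) (lev t (E r)) - Tight.sg (u + (r - 1)) (lev t i) ≤
      if p + d + 1 = r then RR (kc + 5) else RG t u E (r - 1)) ∧ (a = true ↔ p = 0) ∧ (a' = true ↔ p + d + 1 = r)}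
  have hsub : {t | Cnt al nn t ∧ t ∈ SAL lam ∧ t ∈ ERSk (al t) kc J R S} ⊆ ⋃ a ∈ (Finset.univ : Finset Bool),
      ⋃ a' ∈ (Finset.univ : Finset Bool), A a a' := by
    rintro t ⟨htn, ht, htW, r, u, p, d, E, g1, g2a, g2, g3, g4, g5, g6, g7, g8⟩
    rw [Set.mem_iUnion₂]
    refine ⟨decide (p = 0), Finset.mem_univ _, ?_⟩
    rw [Set.mem_iUnion₂]
    refine ⟨decide (p + d + 1 = r), Finset.mem_univ _, htn, ht, htW, r, u, p, d, E, g1, g2a, g2, ?_, g4, g5, g6, g7,
      g8, ?_, ?_⟩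
    · intro gs hR hB
      obtain ⟨h1, h2⟩ := g3 gs hR hB
      have hne : gs ≠ [] := by
        intro h0
        have := hR.len
        rw [h0, List.length_nil] at this
        omega
      have hhd : gs.headD [] ∈ gs := by
        obtain ⟨a, gs', rfl⟩ := List.exists_cons_of_ne_nil hne
        simp
      have hla : gs.getLastD [] ∈ gs := by
        rw [List.getLastD_eq_getLast?, List.getLast?_eq_getLast_of_ne_nil hne, Option.getD_some]
        exact List.getLast_mem hne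
      rw [hR', hS']
      refine ⟨⟨h1, fun g hg => hB g (List.mem_of_mem_drop (List.mem_of_mem_take hg))⟩, ?_⟩
      rcases h2 with ⟨h3, h4⟩ | ⟨h3, h4⟩
      · exact Or.inl ⟨h3, h4, hB _ hhd⟩
      · exact Or.inr ⟨h3, h4, hB _ hla⟩
    · simp
    · simp
  have hcl : ∀ a a', gf (A a a') ≤ ENNReal.ofReal Kc * (T + T + T) := by
    intro a a'
    obtain ⟨w1, hw1d⟩ : ∃ w1 : List (List Bool) → ℕ → ℝ≥0∞, w1 = fun gs c =>
      EEg (f a' (3 * hgt (gs.getLastD []) + 8)) lam c (gs.getLastD []) := ⟨_, rfl⟩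
    refine hcov (A a a') al (f a) (f a') lam nn (fun gs p => gs.length ≤ M ∧ (a = true ↔ p = 0) ∧
      ((p = 0 ∧ TotAK R' (PS W n M S' Φ) gs (w1 gs)) ∨
      (1 ≤ p ∧ TotAt W n R' (PS W n M S' Φ) Set.univ p gs (w1 gs)) ∨
      (1 ≤ p ∧ TotAt W n R' (PI W n M Φ) S' p gs (w1 gs)))) (hfm a) (hfm a') ?_ (T + T + T) ?_
    · rintro t ⟨htn, ht, htW, r, u, p, d, E, g1, g2a, g2, g3, g4, g5, g6, g7, g8, g9, g10⟩
      have hRR0 : 0 < RR (kc + 5) := by
        unfold RR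
        have : (1 : ℤ) ≤ 2 ^ (kc + 5) := one_le_pow₀ (by norm_num)
        omega
      refine ⟨htn, ht, r, u, E, p, by omega, g2, g2a, gap_len g2 (by omega) (g4 p (by omega)), fun i hi => ?_,
        fun i hi1 hi2 => ?_, fun gs hR => ?_⟩
      · refine (g7 i hi).trans ?_
        have h4 := g4 0 (by omega)
        by_cases hp : p = 0
        · rw [if_pos hp, g9.2 hp, hf]
          simp only [if_true]
          unfold RR
          push_cast
          omega
        · have ha : a = false := by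
            rw [← Bool.not_eq_true]
            exact fun h => hp (g9.1 h)
          rw [if_neg hp, ha, hf]
          simp only [Bool.false_eq_true, if_false]
          push_cast
          omega
      · refine (g8 i hi1 hi2).trans ?_
        have h4 := g4 (r - 1) (by omega)
        by_cases hp : p + d + 1 = r
        · rw [if_pos hp, g10.2 hp, hf]
          simp only [if_true]
          unfold RR
          push_cast
          omega
        · have ha : a' = false := by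
            rw [← Bool.not_eq_true]
            exact fun h => hp (g10.1 h)
          rw [if_neg hp, ha, hf]
          simp only [Bool.false_eq_true, if_false]
          push_cast
          omega
      · have hlen : gs.length ≤ M := by
          rw [hR.len, hM]
          exact (fold_card g2).trans (WL_length htW)
        have hBr := rep_brr' htW g2 g4 hR
        have hne : gs ≠ [] := by
          intro h0
          have := hR.len
          rw [h0, List.length_nil] at this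
          omega
        have hhd : gs.headD [] ∈ gs := by
          obtain ⟨a, gs', rfl⟩ := List.exists_cons_of_ne_nil hne
          simp
        have hla : gs.getLastD [] ∈ gs := by
          rw [List.getLastD_eq_getLast?, List.getLast?_eq_getLast_of_ne_nil hne, Option.getD_some]
          exact List.getLast_mem hne
        -- weights of the ends
        have hw0 : ∀ g, g ∈ BrR (2 ^ (kc + 4)) (2 ^ (kc + J + 2)) → (∀ q, EEg (2 ^ (kc + 5)) lam q g ≤ Φ 0 q g) ∧
            ∀ q, EEg (2 ^ (kc + 5)) lam q (rev g) ≤ Φ 0 q (rev g) := by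
          intro g hg
          obtain ⟨h1, h2⟩ := NTW.EX.Brd_HB le_rfl hg
          rw [hΦ0]
          have h5 : (2 : ℕ) ^ (kc + 5) ≤ 2 ^ (kc + 6) := Nat.pow_le_pow_right (by norm_num) (by omega)
          exact ⟨fun q => EEg_le h1 h5, fun q => EEg_le h2 h5⟩
        have hw1 : ∀ g, g ∈ BrR (2 ^ (kc + 4)) (2 ^ (kc + J + 2)) →
            (∀ q, EEg ((3 * hgt g + 8) / 3 + 1) lam q g ≤ Φ (idx (hgt g)) q g) ∧
            ∀ q, EEg ((3 * hgt g + 8) / 3 + 1) lam q (rev g) ≤ Φ (idx (hgt g)) q (rev g) := by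
          rintro g ⟨h, a1, a2, a3⟩
          obtain ⟨b1, b2⟩ := hmem g h a3 a1 a2
          have hh : hgt g = h := hgt_eq a3
          rw [hh]
          obtain ⟨h', c1, c2, c3⟩ := hW.sub _ b1 b2
          have e1 : h' = h := Brd_height c3 a3
          rw [e1] at c1 c2
          have h5 : (3 * h + 8) / 3 + 1 ≤ 2 ^ (kp (idx h) + 6) := by
            have e2 : 2 ^ (kp (idx h) + 6) = 2 * 2 ^ (kp (idx h) + 5) := by ring
            have e3 : (2 : ℕ) ^ 2 ≤ 2 ^ (kp (idx h) + 5) := Nat.pow_le_pow_right (by norm_num) (by omega)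
            omega
          obtain ⟨d1, d2⟩ := NTW.EX.Brd_HB le_rfl (hW.sub _ b1 b2)
          rw [hΦ]
          exact ⟨fun q => EEg_le d1 h5, fun q => EEg_le d2 h5⟩
        obtain ⟨q1, q2⟩ := g3 gs hR hBr
        have hc0 : p + d + 1 = r → ∀ q, EEg (f a' (3 * hgt (gs.getLastD []) + 8)) lam q (gs.getLastD []) ≤
            Φ 0 q (gs.getLastD []) := by
          intro hp
          rw [g10.2 hp, hf]
          exact (hw0 _ (hBr _ hla)).1
        have hc1 : p + d + 1 < r → ∀ q, EEg (f a' (3 * hgt (gs.getLastD []) + 8)) lam q (gs.getLastD []) ≤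
            Φ (idx (hgt (gs.getLastD []))) q (gs.getLastD []) := by
          intro hp
          have ha : a' = false := by
            rw [← Bool.not_eq_true]
            exact fun h => by have := g10.1 h; omega
          rw [ha, hf]
          exact (hw1 _ (hBr _ hla)).1
        have hw1' : ∀ q, w1 gs q = EEg (f a' (3 * hgt (gs.getLastD []) + 8)) lam q (gs.getLastD []) := by
          intro q
          rw [hw1d]
        simp only [← hw1'] at hc0 hc1
        refine ⟨hlen, g9, ?_⟩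
        rcases q2 with ⟨q3, q4⟩ | ⟨q3, q4⟩
        · exact Or.inr (Or.inr ⟨q3, (tot_ofAt (P := PI W n M Φ) (A := S') hidx (fun g h a1 a2 a3 => hmem g h a1 a2 a3) ht.1
            g2 g1 g5 g6 hR hBr q1 hlen hc0 hc1 (fun rs g h1 h2 _ _ => ⟨h2, h1⟩) (fun _ => q4)).2 q3⟩)
        · have h5 := tot_ofAt (P := PS W n M S' Φ) (A := Set.univ) hidx (fun g h a1 a2 a3 => hmem g h a1 a2 a3) ht.1
            g2 g1 g5 g6 hR hBr q1 hlen hc0 hc1 (fun rs g h1 h2 h3 h4 => ⟨h3 q3, by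
              rw [← h4 (h3 q3)]
              exact q4, h2, h1⟩) (fun _ => Set.mem_univ _)
          rcases Nat.eq_zero_or_pos p with h6 | h6
          · exact Or.inl ⟨h6, h5.1 h6⟩
          · exact Or.inr (Or.inl ⟨h6, h5.2 h6⟩)
    · intro aa kap N
      unfold SK
      -- the left ends
      have hA0 : ∀ g ∈ HB (2 ^ (kc + 4)), ∀ c, (∑' o, if HO (f true (3 * hgt g + 8)) lam o g ∧ kap o [] = c then wO o else 0) ≤
          Pgk (fun o => kap o []) (2 ^ (kc + 4)) (2 ^ (kc + 6)) (lam + 20) c (rev g) := by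
        intro g hg c
        have hg' : rev g ∈ HB (2 ^ (kc + 4)) := by
          obtain ⟨h, h1, h2⟩ := hg
          exact ⟨h, h1, Brd_rev h2⟩
        refine sum_HO (fun o => kap o []) hg' ?_ c
        rw [hf]
        exact Nat.pow_le_pow_right (by norm_num) (by omega)
      have hB0 : ∀ i g, i < n → g ∈ W i → (∑' o, if HO (f false (3 * hgt g + 8)) lam o g then wO o else 0) ≤ tot (Φ i) (rev g) := by
        intro i g hi hg
        obtain ⟨h', c1, c2, c3⟩ := hW.sub i hi hg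
        have hg' : rev g ∈ HB (2 ^ (kp i + 4)) := ⟨h', c1, Brd_rev c3⟩
        have h5 : (3 * h' + 8) / 3 + 1 ≤ 2 ^ (kp i + 6) := by
          have e2 : 2 ^ (kp i + 6) = 2 * 2 ^ (kp i + 5) := by ring
          have e3 : (2 : ℕ) ^ 2 ≤ 2 ^ (kp i + 5) := Nat.pow_le_pow_right (by norm_num) (by omega)
          omega
        have h6 := sum_HO' (N := f false (3 * hgt g + 8)) (N' := 2 ^ (kp i + 6)) (lam := lam) hg' (by
          rw [hf, hgt_eq c3]
          exact h5)
        rw [hΦ]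
        exact h6
      cases a
      · have m2 := massBK hW (rb_PS hW M S' Φ) hR'H Set.univ (fun i => tot (Φ i)) M (fun o g => HO (f false (3 * hgt g + 8)) lam o g) hB0 kap aa w1 N
        have m3 := massBK hW (rb_PI hW M Φ) hR'H S' (fun i => tot (Φ i)) M (fun o g => HO (f false (3 * hgt g + 8)) lam o g) hB0 kap aa w1 N
        refine le_trans ?_ (add_le_add ((m2.trans (le_add_self.trans (hfun' N).1)).trans (hT1.trans le_self_add))
          ((m3.trans (hfun' N).2).trans hT1))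
        simp only [← ENNReal.tsum_add]
        refine ENNReal.tsum_le_tsum fun o => ENNReal.tsum_le_tsum fun gs => ?_
        by_cases hc : gs ≠ [] ∧ gs.IsChain LFold ∧ (∀ g ∈ gs, ∃ k : ℕ, 1 ≤ k ∧ g ∈ Brd k) ∧
          HO (f false (3 * hgt (gs.headD []) + 8)) lam o (gs.headD []) ∧ ∃ p, p < gs.length ∧ (gs.length ≤ M ∧ (false = true ↔ p = 0) ∧
          ((p = 0 ∧ TotAK R' (PS W n M S' Φ) gs (w1 gs)) ∨
          (1 ≤ p ∧ TotAt W n R' (PS W n M S' Φ) Set.univ p gs (w1 gs)) ∨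
          (1 ≤ p ∧ TotAt W n R' (PI W n M Φ) S' p gs (w1 gs)))) ∧ aa o gs = kap o (gs.take p) + ll (gs.drop p)
        · rw [if_pos hc]
          obtain ⟨-, c2, -, c4, p, -, ⟨c5, c6, c7⟩, c8⟩ := hc
          have hw : (fun c => EEg (f a' (3 * hgt (gs.getLastD []) + 8)) lam c (gs.getLastD [])) = w1 gs := by
            rw [hw1d]
          rw [hw]
          rcases c7 with ⟨c9, -⟩ | ⟨-, c9⟩ | ⟨-, c9⟩
          · exact absurd (c6.2 c9) (by decide)
          · refine le_trans (le_of_eq ?_) le_self_add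
            rw [if_pos ⟨c4, c5, c2, totK_at c9 c8⟩]
          · refine le_trans (le_of_eq ?_) le_add_self
            rw [if_pos ⟨c4, c5, c2, totK_at c9 c8⟩]
        · rw [if_neg hc]
          exact zero_le
      · have m1 := massAK (M := M) (rb_PS hW M S' Φ) hR'H (Pgk (fun o => kap o []) (2 ^ (kc + 4)) (2 ^ (kc + 6)) (lam + 20))
          (fun o g => HO (f true (3 * hgt g + 8)) lam o g) (fun o => kap o []) hA0 w1 N
        refine le_trans ?_ ((m1.trans (hfir' _ N)).trans (le_self_add.trans le_self_add))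
        refine ENNReal.tsum_le_tsum fun o => ENNReal.tsum_le_tsum fun gs => ?_
        by_cases hc : gs ≠ [] ∧ gs.IsChain LFold ∧ (∀ g ∈ gs, ∃ k : ℕ, 1 ≤ k ∧ g ∈ Brd k) ∧
          HO (f true (3 * hgt (gs.headD []) + 8)) lam o (gs.headD []) ∧ ∃ p, p < gs.length ∧ (gs.length ≤ M ∧ (true = true ↔ p = 0) ∧
          ((p = 0 ∧ TotAK R' (PS W n M S' Φ) gs (w1 gs)) ∨
          (1 ≤ p ∧ TotAt W n R' (PS W n M S' Φ) Set.univ p gs (w1 gs)) ∨
          (1 ≤ p ∧ TotAt W n R' (PI W n M Φ) S' p gs (w1 gs)))) ∧ aa o gs = kap o (gs.take p) + ll (gs.drop p)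
        · rw [if_pos hc]
          obtain ⟨-, c2, -, c4, p, -, ⟨c5, c6, c7⟩, c8⟩ := hc
          have hw : (fun c => EEg (f a' (3 * hgt (gs.getLastD []) + 8)) lam c (gs.getLastD [])) = w1 gs := by
            rw [hw1d]
          have hp0 : p = 0 := c6.1 rfl
          rw [hp0, List.take_zero, List.drop_zero] at c8
          rcases c7 with ⟨-, c9⟩ | ⟨c9, -⟩ | ⟨c9, -⟩
          · rw [hw, if_pos ⟨c4, c5, c2, c9⟩, c8]
          · omega
          · omega
        · rw [if_neg hc]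
          exact zero_le
  have h4 : gf {t | Cnt al nn t ∧ t ∈ SAL lam ∧ t ∈ ERSk (al t) kc J R S} ≤ 12 * (ENNReal.ofReal Kc * T) := by
    refine (gf_mono hsub).trans ((BAR.gf_bi_le _ _).trans ?_)
    refine (Finset.sum_le_sum fun a _ => (BAR.gf_bi_le _ _).trans (Finset.sum_le_sum fun a' _ => hcl a a')).trans ?_
    simp only [Finset.sum_const, Finset.card_univ, Fintype.card_bool, nsmul_eq_mul]
    apply le_of_eq
    push_cast
    ring
  refine h4.trans ?_
  have e4 : (12 : ℝ≥0∞) = ENNReal.ofReal 12 := by simp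
  have hx2 : x ^ 2 = Ke ^ 2 * b ^ 2 := by rw [hx]; ring
  rw [hT, e4, hBb, ← ENNReal.ofReal_pow hb0, ← ENNReal.ofReal_mul hKc0.le, ← ENNReal.ofReal_mul (by norm_num),
    ← ENNReal.ofReal_mul (by positivity)]
  apply ENNReal.ofReal_le_ofReal
  have hU2 : Ub (kc + (J + 2)) ≤ 4 * Ub (kc + J) := by
    have := UU_ratio_up (kc + J) 2
    calc Ub (kc + (J + 2)) = UU (2 ^ (kc + J + 2)) := rfl
      _ ≤ 2 ^ 2 * Ub (kc + J) := this
      _ = _ := by norm_num
  have hQp : Q ^ (n + (J + 2) + 1) ≤ (Q ^ (2 * V + 2)) ^ J := by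
    rw [← pow_mul]
    apply pow_le_pow_right₀ hQ
    have e5 : V * (J + 2) ≤ 2 * V * J := by
      have : V * 2 ≤ V * J := Nat.mul_le_mul_left _ (by omega)
      calc V * (J + 2) = V * J + V * 2 := by ring
        _ ≤ V * J + V * J := by omega
        _ = _ := by ring
    have e6 : (2 * V + 2) * J = 2 * V * J + 2 * J := by ring
    omega
  have hKJ : 48 * Kc * Ke ^ 2 ≤ (48 * Kc * Ke ^ 2) ^ J := by
    calc 48 * Kc * Ke ^ 2 = (48 * Kc * Ke ^ 2) ^ 1 := (pow_one _).symm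
      _ ≤ _ := pow_le_pow_right₀ hKK (by omega)
  have hUJ2 := Ub_pos (kc + (J + 2))
  calc 12 * (Kc * (Q ^ (n + (J + 2) + 1) * (δ * ε) * Ub (kc + (J + 2)) * x ^ 2))
      ≤ 12 * (Kc * ((Q ^ (2 * V + 2)) ^ J * (δ * ε) * (4 * Ub (kc + J)) * x ^ 2)) := by gcongr
    _ = (48 * Kc * Ke ^ 2) * (Q ^ (2 * V + 2)) ^ J * (δ * ε) * Ub (kc + J) * b ^ 2 := by
        rw [hx2]
        ring
    _ ≤ (48 * Kc * Ke ^ 2) ^ J * (Q ^ (2 * V + 2)) ^ J * (δ * ε) * Ub (kc + J) * b ^ 2 := by gcongr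
    _ = (48 * Kc * Ke ^ 2 * Q ^ (2 * V + 2)) ^ J * (δ * ε) * Ub (kc + J) * b ^ 2 := by rw [← mul_pow]


end MK

open Finset TS SDN SDN.CN NTm NTW NTA

open scoped ENNReal

/-- **K2: the outer mark, the letters before the mark not counted** -/
theorem k2 : K2 := by
  obtain ⟨Ci, δi, hI⟩ := inp_exists
  obtain ⟨C0, k0, hC0, h0⟩ := MK.eventSk_of (ssA hI) ss3P ssDP
  obtain ⟨D, hD, hDX⟩ := Xb_pow
  have hC0' : 0 ≤ C0 := by linarith
  have hD0 : 0 ≤ D := by linarith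
  refine ⟨C0 * D ^ 16, k0, ?_, fun al kc J n R S δ ε hk hJ hδ hε hS hSS => ?_⟩
  · have : 1 ≤ D ^ 16 := one_le_pow₀ hD
    nlinarith
  · have hUp := Ub_pos (kc + J)
    obtain ⟨lam', hQ⟩ := QL_exists (kc + J + 8)
    have h1 : gf {t | Cnt al n t ∧ t ∈ ERSk (al t) kc J R S} ≤
        ENNReal.ofReal (C0 ^ J * (δ * ε) * Ub (kc + J)) * (Xb (kc + J + 8)) ^ 2 := by
      refine (gf_mono fun t ht => ?_).trans ((h0 al kc J (100 * 4 ^ (kc + J)) lam' n R S δ ε hk hJ hδ hε hQ hS hSS).trans ?_)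
      · exact ⟨ht.1, ⟨ht.2.1.1, WL_length ht.2.1⟩, ht.2⟩
      · exact mul_le_mul_right (pow_le_pow_left' (bl_le_Xb _ _) 2) _
    refine h1.trans ?_
    calc ENNReal.ofReal (C0 ^ J * (δ * ε) * Ub (kc + J)) * (Xb (kc + J + 8)) ^ 2
        ≤ ENNReal.ofReal (C0 ^ J * (δ * ε) * Ub (kc + J)) * (ENNReal.ofReal (D ^ 8) * Xb (kc + J)) ^ 2 := by
          exact mul_le_mul_right (pow_le_pow_left' (hDX (kc + J) 8) 2) _
      _ = ENNReal.ofReal (C0 ^ J * D ^ 16 * (δ * ε) * Ub (kc + J)) * Xb (kc + J) ^ 2 := by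
          rw [mul_pow, ← ENNReal.ofReal_pow (by positivity), ← mul_assoc, ← ENNReal.ofReal_mul (by positivity)]
          congr 2
          ring
      _ ≤ _ := by
          refine mul_le_mul_left (ENNReal.ofReal_le_ofReal ?_) _
          have e1 : D ^ 16 ≤ (D ^ 16) ^ J := by
            calc D ^ 16 = (D ^ 16) ^ 1 := by rw [pow_one]
              _ ≤ (D ^ 16) ^ J := pow_le_pow_right₀ (one_le_pow₀ hD) (by omega)
          rw [mul_pow]
          gcongr

end EN

end HexObs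

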