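import Pool.Agent.HBD.Num
import Pool.Agent.HBD.AsmK
import Pool.Agent.HBD.EventK
import Pool.Agent.HBD.OutK
import Pool.Agent.HBD.GeoK
import Pool.Agent.HBD.AxK
import Pool.Agent.HBD.JoinK
import Pool.Agent.HBD.MarkK

/-!
HexBoundary: the upper bound for the half plane words without hypotheses.
-/

set_option autoImplicit false

namespace HexObs

namespace EN

open TS SDN NTW NTA

open scoped ENNReal

/-- **the half plane words with exactly n letters, upper bound, every n** -/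
theorem hp_full : ∃ C : ℝ, 0 < C ∧ ∀ k n : ℕ, PW.mZ (2 ^ k) ≤ n → n < PW.mZ (2 ^ (k + 1)) →
    gf (HpN n) ≤ ENNReal.ofReal C * (ENNReal.ofReal (Ub k / PW.mZ (2 ^ k)) * NTA.Xb k) :=
  hp_upperL (run_HL k1 k4' k5 k6) (exs_HL k1 k2 k3 k4 k5 k6)

end EN

end HexObs

theorem Pool.Agent.HBD.hb_full : ∃ c : ℝ, 0 < c ∧ ∀ n : ℕ, 1 ≤ n →
    c * (n : ℝ) ^ (-(3 / 64) : ℝ) ≤ ((Pool.Agent.HBD.hpw n).card : ℝ) * HexObs.xc ^ n ∧
      ((Pool.Agent.HBD.hpw n).card : ℝ) * HexObs.xc ^ n ≤ c⁻¹ * (n : ℝ) ^ (-(3 / 64) : ℝ) := by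
  refine Pool.Agent.HBD.hp_two ?_
  obtain ⟨C, hC, h⟩ := HexObs.EN.hp_full
  exact ⟨C, hC, fun k n h1 h2 => h k n h1 h2⟩

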