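import Pool.Agent.HBD.EnsG

/-!
HBD: the half plane words of the boxes are a class with the normalisation Xb; the pointwise upper bound for the half plane
words with exactly n letters from the two event theorems.
-/

set_option autoImplicit false

namespace HexObs

namespace EN

open Finset TS SDN NTW NTA

open scoped ENNReal

/-- the half plane words of the box 2 ^ K -/
def HL (K : ℕ) : Set (List Bool) := {t | t ∈ WL K ∧ Saw HP oo up t}

/-- **the half plane words are a class** -/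
theorem cls_HL : ClsX HL Xb := by
  obtain ⟨D, hD, hDX⟩ := Xb_pow
  obtain ⟨x, hx0, hx⟩ : ∃ x : ℝ, 0 < x ∧ Xb 0 = ENNReal.ofReal x :=
    ⟨(Xb 0).toReal, ENNReal.toReal_pos (Xb_ne_zero 0) (Xb_ne_top 0), (ENNReal.ofReal_toReal (Xb_ne_top 0)).symm⟩
  refine ⟨fun K t ht => ht.1, fun K K' t ht h => ⟨h, ht.2⟩, ⟨D, hD, hDX⟩, ⟨D * (x + 1), ?_, fun k => ?_⟩⟩
  · exact one_le_mul_of_one_le_of_one_le hD (by linarith)
  · rw [sq]
    refine mul_le_mul_left ?_ _
    have h1 := hDX 0 k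
    rw [zero_add, hx, ← ENNReal.ofReal_mul (by positivity)] at h1
    refine h1.trans (ENNReal.ofReal_le_ofReal ?_)
    rw [mul_pow]
    have e1 : D ^ k ≤ D ^ (k + 1) := pow_le_pow_right₀ hD (by omega)
    have e2 : x ≤ (x + 1) ^ (k + 1) := by
      calc x ≤ (x + 1) ^ 1 := by rw [pow_one]; linarith
        _ ≤ _ := pow_le_pow_right₀ (by linarith) (by omega)
    gcongr

/-- **the pointwise upper bound for the half plane words** -/
theorem hp_upper (hR : RunC HL Xb) (hE : ExsC HL Xb) : ∃ C : ℝ, 0 < C ∧ ∀ k n : ℕ, PW.mZ (2 ^ k) ≤ n →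
    n < PW.mZ (2 ^ (k + 1)) → gf (HpN n) ≤ ENNReal.ofReal C * (ENNReal.ofReal (Ub k / PW.mZ (2 ^ k)) * Xb k) := by
  obtain ⟨C, hC, h⟩ := CX.upC_M cls_HL hR hE
  refine ⟨C, hC, fun k n h1 h2 => (gf_mono fun t ht => ?_).trans (h k n h1 h2)⟩
  have hSA : t ∈ SA := ⟨fun i h3 h4 => trivial, ht.2.2⟩
  obtain ⟨K, hK⟩ := exists_WL hSA
  exact ⟨⟨K, hK, ht.2⟩, ht.1⟩

end EN

end HexObs
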