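import Pool.Agent.EN.FactsM
import Pool.Agent.TPC.XLow
import Pool.Agent.VF.XiMain
import Pool.Agent.VF.RenC

/-!
HBD: the half plane walks with exactly n letters, lower bound c n ^ (-3/64), every n: a bridge in front of a word without cut.
-/

set_option autoImplicit false

namespace HexObs

namespace HBD

open Finset TS NTW NTA BrL

open scoped ENNReal

/-- half plane words with exactly n letters -/
def HPx (n : ℕ) : Set (List Bool) := {t | t.length = n ∧ ∃ d, t ∈ SSt d}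

/-- one letter less -/
lemma HPx_succ (n : ℕ) : gf (HPx (n + 1)) ≤ 2 * gf (HPx n) := by
  have h1 : HPx (n + 1) ⊆
      {w | ∃ c ∈ HPx n, ∃ s ∈ ({[true], [false]} : Set (List Bool)), w = c ++ s} := by
    rintro t ⟨hl, d, ht⟩
    rcases List.eq_nil_or_concat t with rfl | ⟨c, x, rfl⟩
    · simp at hl
    · rw [List.concat_eq_append] at hl ht ⊢
      rw [List.length_append, List.length_singleton] at hl
      have hc : c.length = n := by omega
      have hv : ∀ i, i ≤ n + 1 → vx oo up (c ++ [x]) i = vx oo up c i := fun i hi => vx_append (by omega)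
      refine ⟨c, ⟨hc, d, fun i h1 h2 => ?_, fun i k hik hk heq => ?_⟩, [x], ?_, rfl⟩
      · have h3 := ht.mem i h1 (by rw [List.length_append, List.length_singleton]; omega)
        rwa [hv i (by omega)] at h3
      · refine ht.inj i k hik (by rw [List.length_append, List.length_singleton]; omega) ?_
        rwa [hv i (by omega), hv k (by omega)]
      · cases x
        · right
          rfl
        · left
          rfl
  refine (gf_mono h1).trans ((gf_le_mul fun t ht => ht).trans ?_)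
  rw [mul_comm]
  exact mul_le_mul_left EN.gf_two _

lemma HPx_add (n j : ℕ) : gf (HPx (n + j)) ≤ 2 ^ j * gf (HPx n) := by
  induction j with
  | zero => rw [pow_zero, one_mul, add_zero]
  | succ j ih =>
    rw [← add_assoc]
    refine (HPx_succ _).trans ((mul_le_mul_right ih _).trans (le_of_eq ?_))
    rw [← mul_assoc, pow_succ']

/-- the last cut is unique -/
lemma uniq_aux {d r r' : ℕ} {c c' s s' : List Bool} (hc : c ∈ Brd r) (hc' : c' ∈ Brd r') (hs : s ∈ BAR.NA d)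
    (hs' : s' ∈ BAR.NA d) (hr : r ≤ r') (h : c ++ s = c' ++ s') : c = c' := by
  obtain ⟨v, hv, h2, h3⟩ := BAR.nested hc hc' (BAR.pos_SSt hs.1) (BAR.pos_SSt hs'.1) hr h
  rcases Nat.eq_zero_or_pos (r' - r) with h0 | h0
  · rw [h0, Brd_zero] at hv
    have h4 : v = [] := hv
    rw [h2, h4, List.append_nil]
  · exact absurd ⟨v, s', hv, BAR.pos_SSt hs'.1, h3⟩ (hs.2 (r' - r) h0)

lemma uniq {d : ℕ} {c c' s s' : List Bool} (hc : c ∈ BU) (hc' : c' ∈ BU) (hs : s ∈ BAR.NA d) (hs' : s' ∈ BAR.NA d)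
    (h : c ++ s = c' ++ s') : c = c' := by
  obtain ⟨r, hc⟩ := hc
  obtain ⟨r', hc'⟩ := hc'
  rcases Nat.le_total r r' with hr | hr
  · exact uniq_aux hc hc' hs hs' hr h
  · exact (uniq_aux hc' hc hs' hs hr h.symm).symm

open Classical in
/-- bridges in front of the words without cut -/
lemma conv_low {n M d p : ℕ} {v : ℝ≥0∞} (hM : M ≤ n) (hv : ∀ i, i ≤ M → i % 2 = p → v ≤ gf (BLs (n - i))) :
    v * gf {W | W ∈ BAR.NA d ∧ W.length ≤ M ∧ W.length % 2 = p} ≤ gf (HPx n) := by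
  obtain ⟨I, hI⟩ : ∃ I, I = (Finset.range (M + 1)).filter (fun i => i % 2 = p) := ⟨_, rfl⟩
  have hI' : ∀ i, i ∈ I ↔ i ≤ M ∧ i % 2 = p := by
    intro i
    rw [hI, Finset.mem_filter, Finset.mem_range]
    constructor <;> rintro ⟨a, b⟩ <;> exact ⟨by omega, b⟩
  have h1 : {W | W ∈ BAR.NA d ∧ W.length ≤ M ∧ W.length % 2 = p} ⊆
      ⋃ i ∈ I, {W | W ∈ BAR.NA d ∧ W.length = i} := by
    rintro W ⟨a1, a2, a3⟩
    rw [Set.mem_iUnion₂]
    exact ⟨W.length, (hI' _).2 ⟨a2, a3⟩, a1, rfl⟩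
  refine (mul_le_mul_right ((gf_mono h1).trans (BAR.gf_bi_le _ _)) v).trans ?_
  rw [Finset.mul_sum]
  have h2 : ∀ i ∈ I, v * gf {W | W ∈ BAR.NA d ∧ W.length = i} ≤
      gf {w | ∃ c ∈ BLs (n - i), ∃ s ∈ {W | W ∈ BAR.NA d ∧ W.length = i}, w = c ++ s} := by
    intro i hi
    obtain ⟨a1, a2⟩ := (hI' i).1 hi
    refine (mul_le_mul_left (hv i a1 a2) _).trans ?_
    refine mul_le_gf (fun a ha b hb => ⟨a, ha, b, hb, rfl⟩) ?_
    intro a ha b hb a' ha' b' hb' h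
    exact uniq ha.1 ha'.1 hb.1 hb'.1 h
  refine (Finset.sum_le_sum h2).trans ((BAR.gf_bi_eq _ _ ?_).trans (gf_mono ?_))
  · rintro i j w ⟨c, hc, s, hs, rfl⟩ ⟨c', hc', s', hs', h⟩
    have h3 := uniq hc.1 hc'.1 hs.1 hs'.1 h
    rw [h3] at h
    have h4 := List.append_cancel_left h
    rw [← hs.2, ← hs'.2, h4]
  · intro w hw
    rw [Set.mem_iUnion₂] at hw
    obtain ⟨i, hi, c, hc, s, hs, rfl⟩ := hw
    obtain ⟨a1, a2⟩ := (hI' i).1 hi
    obtain ⟨r, hr⟩ := hc.1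
    refine ⟨?_, r + d, BAR.SSt_cat hr hs.1.1⟩
    rw [List.length_append, hc.2, hs.2]
    omega

/-- the square root of the lower bound of Xb -/
lemma xb_low : ∃ c : ℝ, 0 < c ∧ ∀ k : ℕ, ENNReal.ofReal (c * (2 : ℝ) ^ (25 / 48 * (k : ℝ))) ≤ Xb k := by
  obtain ⟨c, hc, h⟩ := TPC.xLow
  refine ⟨Real.sqrt c, Real.sqrt_pos.2 hc, fun k => ?_⟩
  by_contra hcon
  rw [not_le] at hcon
  have h1 : Xb k ^ 2 < ENNReal.ofReal (Real.sqrt c * (2 : ℝ) ^ (25 / 48 * (k : ℝ))) ^ 2 :=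
    ENNReal.pow_lt_pow_left two_ne_zero hcon
  have h2 : ENNReal.ofReal (Real.sqrt c * (2 : ℝ) ^ (25 / 48 * (k : ℝ))) ^ 2 =
      ENNReal.ofReal (c * (2 : ℝ) ^ (25 / 24 * (k : ℝ))) := by
    rw [← ENNReal.ofReal_pow (by positivity), mul_pow, Real.sq_sqrt hc.le, ← Real.rpow_natCast, ← Real.rpow_mul (by norm_num)]
    congr 3
    push_cast
    ring
  rw [h2] at h1
  exact absurd (h k) (not_le.2 h1)

/-- **the half plane walks with exactly n letters, lower bound** -/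
theorem lowH : ∃ c : ℝ, 0 < c ∧ ∀ n : ℕ, 1 ≤ n → ENNReal.ofReal (c * (n : ℝ) ^ (-(3 / 64) : ℝ)) ≤ gf (HPx n) := by
  obtain ⟨lam, hlam, hN⟩ := half_shortH mlow_M EN.ht_M
  obtain ⟨cu, Cu, hcu, hCu, hub⟩ := Pool.Agent.VF.ub_C (Pool.Agent.VF.lo_UU_Z (VF.zUpC_of VF.sharpZ)) VF.uup_M
  obtain ⟨cx, hcx, hX⟩ := xb_low
  obtain ⟨C, hC, hm⟩ := VF.mUp VF.sharpZ
  obtain ⟨y, hy⟩ : ∃ y : ℝ, y = (2 : ℝ) ^ (4 / 3 : ℝ) := ⟨_, rfl⟩
  have hy0 : 0 < y := by rw [hy]; positivity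
  have hy1 : 1 < y := by
    rw [hy]
    exact Real.one_lt_rpow (by norm_num) (by norm_num)
  have hyk : ∀ k : ℕ, (2 : ℝ) ^ (4 / 3 * (k : ℝ)) = y ^ k := by
    intro k
    rw [hy, Real.rpow_mul (by norm_num), Real.rpow_natCast]
  have hyx : ∀ k : ℕ, (2 : ℝ) ^ (25 / 48 * (k : ℝ)) = (y ^ k) ^ (25 / 64 : ℝ) := by
    intro k
    rw [← hyk, ← Real.rpow_mul (by norm_num)]
    congr 1
    ring
  obtain ⟨D, hD⟩ : ∃ D : ℝ, D = (1 / (4 * lam * C * y)) ^ (25 / 64 : ℝ) := ⟨_, rfl⟩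
  have hD0 : 0 < D := by rw [hD]; positivity
  obtain ⟨n0, hn0⟩ := exists_nat_ge (4 * lam * C + 4)
  obtain ⟨c1, hc1⟩ : ∃ c1 : ℝ, c1 = cu * (1 / 4 * (cx * D)) / 2 := ⟨_, rfl⟩
  have hc10 : 0 < c1 := by rw [hc1]; positivity
  -- large numbers of letters
  have main : ∀ n : ℕ, n0 ≤ n → ENNReal.ofReal (c1 * (n : ℝ) ^ (-(3 / 64) : ℝ)) ≤ gf (HPx n) := by
    intro n hn
    have hnR : 4 * lam * C + 4 ≤ (n : ℝ) := hn0.trans (by exact_mod_cast hn)
    have hlC : 0 < 4 * lam * C := by positivity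
    have hn4 : 4 ≤ n := by
      have : (4 : ℝ) ≤ n := by linarith
      exact_mod_cast this
    have hnp : (0 : ℝ) < n := by linarith
    obtain ⟨x, hx⟩ : ∃ x : ℝ, x = (n : ℝ) / (4 * lam * C) := ⟨_, rfl⟩
    have hx1 : 1 ≤ x := by
      rw [hx, le_div_iff₀ hlC]
      linarith
    obtain ⟨k, hk1, hk2⟩ := exists_nat_pow_near hx1 hy1
    have hmk : lam * PW.mZ (2 ^ k) ≤ (n : ℝ) / 4 := by
      have h1 := hm k
      rw [hyk] at h1
      calc lam * PW.mZ (2 ^ k) ≤ lam * (C * x) := by gcongr; exact h1.trans (by gcongr)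
        _ = (n : ℝ) / 4 := by
            rw [hx]
            field_simp
    -- the words without cut
    have hS : ENNReal.ofReal (1 / 2) * Xb k ≤ gf {W | W ∈ BAR.NA (2 ^ k) ∧ W.length ≤ n / 4} := by
      refine (hN k).trans (gf_mono ?_)
      rintro W ⟨hW, hl⟩
      refine ⟨hW, ?_⟩
      have h1 : (W.length : ℝ) ≤ (n : ℝ) / 4 := hl.trans hmk
      have h2 : ((4 * W.length : ℕ) : ℝ) ≤ n := by push_cast; linarith
      have h3 : 4 * W.length ≤ n := by exact_mod_cast h2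
      omega
    obtain ⟨p, hp, hp2⟩ : ∃ p : ℕ, p < 2 ∧ ENNReal.ofReal (1 / 4) * Xb k ≤
        gf {W | W ∈ BAR.NA (2 ^ k) ∧ W.length ≤ n / 4 ∧ W.length % 2 = p} := by
      by_contra hcon
      push Not at hcon
      have h0 := hcon 0 (by norm_num)
      have h1 := hcon 1 (by norm_num)
      have h2 : {W | W ∈ BAR.NA (2 ^ k) ∧ W.length ≤ n / 4} ⊆
          {W | W ∈ BAR.NA (2 ^ k) ∧ W.length ≤ n / 4 ∧ W.length % 2 = 0} ∪
          {W | W ∈ BAR.NA (2 ^ k) ∧ W.length ≤ n / 4 ∧ W.length % 2 = 1} := by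
        rintro W ⟨a1, a2⟩
        rcases Nat.mod_two_eq_zero_or_one W.length with h | h
        · exact Or.inl ⟨a1, a2, h⟩
        · exact Or.inr ⟨a1, a2, h⟩
      have h3 := (hS.trans ((gf_mono h2).trans (gf_union_le _ _))).trans_lt (ENNReal.add_lt_add h0 h1)
      rw [← add_mul, ← ENNReal.ofReal_add (by norm_num) (by norm_num)] at h3
      norm_num at h3
    -- the parity of the number of letters
    obtain ⟨n', hn'1, hn'2, hn'3⟩ : ∃ n', n' % 2 = p ∧ n ≤ n' ∧ n' ≤ n + 1 := by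
      rcases Nat.eq_or_lt_of_le (show n % 2 ≤ 1 by omega) with h | h
      · rcases Nat.eq_or_lt_of_le (show p ≤ 1 by omega) with h' | h'
        · exact ⟨n, by omega, le_rfl, by omega⟩
        · exact ⟨n + 1, by omega, by omega, le_rfl⟩
      · rcases Nat.eq_or_lt_of_le (show p ≤ 1 by omega) with h' | h'
        · exact ⟨n + 1, by omega, by omega, le_rfl⟩
        · exact ⟨n, by omega, le_rfl, by omega⟩
    have h4 : ENNReal.ofReal (cu * (n : ℝ) ^ (-(7 / 16) : ℝ)) *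
        gf {W | W ∈ BAR.NA (2 ^ k) ∧ W.length ≤ n / 4 ∧ W.length % 2 = p} ≤ gf (HPx n') := by
      refine conv_low (by omega) fun i hi hip => ?_
      obtain ⟨j, hj⟩ : ∃ j, n' - i = 2 * j := ⟨(n' - i) / 2, by omega⟩
      have hj1 : 1 ≤ j := by omega
      have hjn : j ≤ n := by omega
      rw [hj]
      have h5 : gf (BLs (2 * j)) = ENNReal.ofReal (ub j) := (ENNReal.ofReal_toReal (BLs_ne_top _)).symm
      rw [h5]
      apply ENNReal.ofReal_le_ofReal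
      refine le_trans ?_ (hub j hj1).1
      have hj0 : (0 : ℝ) < j := by exact_mod_cast hj1
      have hjR : (j : ℝ) ≤ n := by exact_mod_cast hjn
      refine mul_le_mul_of_nonneg_left ?_ hcu.le
      exact Real.rpow_le_rpow_of_nonpos hj0 hjR (by norm_num)
    -- the numbers
    have h6 : D * (n : ℝ) ^ (25 / 64 : ℝ) ≤ (y ^ k) ^ (25 / 64 : ℝ) := by
      rw [hD, ← Real.mul_rpow (by positivity) hnp.le]
      apply Real.rpow_le_rpow (by positivity) _ (by norm_num)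
      rw [pow_succ] at hk2
      rw [hx, div_lt_iff₀ hlC] at hk2
      rw [one_div_mul_eq_div, div_le_iff₀ (by positivity)]
      nlinarith
    have h7 : ENNReal.ofReal (2 * c1 * (n : ℝ) ^ (-(3 / 64) : ℝ)) ≤ gf (HPx n') := by
      refine le_trans ?_ h4
      refine le_trans ?_ (mul_le_mul_right ((mul_le_mul_right (hX k) _).trans hp2) _)
      rw [← ENNReal.ofReal_mul (by norm_num), ← ENNReal.ofReal_mul (by positivity)]
      apply ENNReal.ofReal_le_ofReal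
      have e : (n : ℝ) ^ (-(3 / 64) : ℝ) = (n : ℝ) ^ (-(7 / 16) : ℝ) * (n : ℝ) ^ (25 / 64 : ℝ) := by
        rw [← Real.rpow_add hnp]
        norm_num
      rw [hyx, e, hc1]
      calc 2 * (cu * (1 / 4 * (cx * D)) / 2) * ((n : ℝ) ^ (-(7 / 16) : ℝ) * (n : ℝ) ^ (25 / 64 : ℝ)) =
            cu * (n : ℝ) ^ (-(7 / 16) : ℝ) * (1 / 4 * (cx * (D * (n : ℝ) ^ (25 / 64 : ℝ)))) := by ring
        _ ≤ _ := by gcongr
    have h8 : gf (HPx n') ≤ 2 * gf (HPx n) := by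
      rcases Nat.eq_or_lt_of_le hn'3 with h | h
      · rw [h]
        exact HPx_succ n
      · have e : n' = n := by omega
        rw [e]
        exact le_mul_of_one_le_left zero_le (by norm_num)
    have h9 := h7.trans h8
    have e2 : ENNReal.ofReal (2 * c1 * (n : ℝ) ^ (-(3 / 64) : ℝ)) =
        2 * ENNReal.ofReal (c1 * (n : ℝ) ^ (-(3 / 64) : ℝ)) := by
      rw [mul_assoc, ENNReal.ofReal_mul (by norm_num), ENNReal.ofReal_ofNat]
    rw [e2] at h9
    exact (ENNReal.mul_le_mul_iff_right (by norm_num) (by norm_num)).1 h9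
  -- all numbers of letters
  refine ⟨c1 * ((n0 : ℝ) + 1) ^ (-(3 / 64) : ℝ) / 2 ^ n0, by positivity, fun n hn => ?_⟩
  have h1 := (main (n + n0) (by omega)).trans (HPx_add n n0)
  have hn1 : (1 : ℝ) ≤ n := by exact_mod_cast hn
  have hn0' : (0 : ℝ) ≤ n0 := Nat.cast_nonneg _
  have h2 : ((n0 : ℝ) + 1) ^ (-(3 / 64) : ℝ) * (n : ℝ) ^ (-(3 / 64) : ℝ) ≤ ((n + n0 : ℕ) : ℝ) ^ (-(3 / 64) : ℝ) := by
    rw [← Real.mul_rpow (by positivity) (by positivity)]
    refine Real.rpow_le_rpow_of_nonpos (by push_cast; positivity) ?_ (by norm_num)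
    push_cast
    nlinarith
  have h3 : ENNReal.ofReal (c1 * ((n0 : ℝ) + 1) ^ (-(3 / 64) : ℝ) * (n : ℝ) ^ (-(3 / 64) : ℝ)) ≤ 2 ^ n0 * gf (HPx n) := by
    refine (ENNReal.ofReal_le_ofReal ?_).trans h1
    rw [mul_assoc]
    exact mul_le_mul_of_nonneg_left h2 hc10.le
  have e3 : c1 * ((n0 : ℝ) + 1) ^ (-(3 / 64) : ℝ) / 2 ^ n0 * (n : ℝ) ^ (-(3 / 64) : ℝ) =
      (2 ^ n0)⁻¹ * (c1 * ((n0 : ℝ) + 1) ^ (-(3 / 64) : ℝ) * (n : ℝ) ^ (-(3 / 64) : ℝ)) := by
    rw [div_eq_mul_inv]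
    ring
  rw [e3, ENNReal.ofReal_mul (by positivity)]
  refine (mul_le_mul_right h3 _).trans (le_of_eq ?_)
  rw [← mul_assoc]
  have e4 : ENNReal.ofReal ((2 ^ n0)⁻¹) * 2 ^ n0 = 1 := by
    have e5 : (2 : ℝ≥0∞) ^ n0 = ENNReal.ofReal (2 ^ n0) := by
      rw [ENNReal.ofReal_pow (by norm_num), ENNReal.ofReal_ofNat]
    rw [e5, ← ENNReal.ofReal_mul (by positivity), inv_mul_cancel₀ (by positivity), ENNReal.ofReal_one]
  rw [e4, one_mul]

end HBD

end HexObs
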