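import Pool.Agent.EN.OutSum
import Pool.Agent.EN.ExEnd
import Pool.Agent.NTA.StepA

/-!
HexBoundary, marked events (doc H/MARK65): words with a mark, the letters before the mark are not counted. Sums over the
monotone chains with a marked run; kap = count of the letters before the run, a = count of the letters of the chain, both
arbitrary functions.
-/

set_option autoImplicit false

namespace HexObs

namespace EN

namespace MK

open Finset TS SDN SDN.CN NTm NTW NTA EX

open scoped ENNReal

/-- the first al t letters are not counted, n letters behind them; the mark is found in every longer beginning -/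
def Mk (al : List Bool → ℕ) (n : ℕ) (t : List Bool) : Prop :=
  t.length = al t + n ∧ ∀ i, al t ≤ i → i ≤ t.length → al (t.take i) = al t

/-- an interior run of t in R behind the position a -/
def HasRunK (dir : Bool) (kc : ℕ) (R : Set (List (List Bool))) (a : ℕ) (t : List Bool) : Prop :=
  ∃ (m u : ℕ) (e : ℕ → ℕ), Lf dir (kc + 5) t m u e ∧ ∃ l d : ℕ, 2 ≤ l ∧ 1 ≤ d ∧ l + d + 1 ≤ m ∧ a ≤ e l ∧
    lws t e l d ∈ R

/-- windows number < i in decreasing order, a run in R, a right part with the property P, a letters counted -/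
def DecK (W : ℕ → Set (List Bool)) (R : Set (List (List Bool)))
    (P : List (List Bool) → List Bool → (ℕ → ℝ≥0∞) → Prop) :
    (List (List Bool) → ℕ) → List (List Bool) → ℕ → (ℕ → ℝ≥0∞) → ℕ → Prop
  | _, [], _, _, _ => False
  | kap, g :: gs, i, e, a => (OU.MidP R P g gs e ∧ a = kap [] + ll (g :: gs)) ∨
      ∃ i', i' < i ∧ g ∈ W i' ∧ DecK W R P (fun gl => kap (g :: gl)) gs (i' + 1) e a

/-- the whole chain, the run is not at its beginning, a letters counted -/
def TotBK (W : ℕ → Set (List Bool)) (n : ℕ) (R : Set (List (List Bool)))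
    (P : List (List Bool) → List Bool → (ℕ → ℝ≥0∞) → Prop) (A : Set (List Bool)) :
    (List (List Bool) → ℕ) → List (List Bool) → (ℕ → ℝ≥0∞) → ℕ → Prop
  | _, [], _, _ => False
  | kap, g :: gs, e, a => ∃ i, i < n ∧ g ∈ W i ∧ g ∈ A ∧ DecK W R P (fun gl => kap (g :: gl)) gs (i + 1) e a

/-- the whole chain, the run is at its beginning -/
def TotAK (R : Set (List (List Bool))) (P : List (List Bool) → List Bool → (ℕ → ℝ≥0∞) → Prop) :
    List (List Bool) → (ℕ → ℝ≥0∞) → Prop
  | [], _ => False
  | g :: gs, e => OU.MidP R P g gs e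

variable {kc J n : ℕ} {W : ℕ → Set (List Bool)} {kp : ℕ → ℕ} {R : Set (List (List Bool))}
  {P : List (List Bool) → List Bool → (ℕ → ℝ≥0∞) → Prop} {F : ℕ → List Bool → ℝ≥0∞}

/-- a bound for the sums with the count kap + letters -/
lemma sum_cnt {c : List (List Bool) → Prop} [DecidablePred c] {a : List (List Bool) → ℕ} {k b : ℕ}
    {e : List (List Bool) → ℕ → ℝ≥0∞} {B : ℕ → ℝ≥0∞}
    (h : ∀ N, (∑' gs : List (List Bool), if c gs then SDN.wl gs * shf (e gs) (b + ll gs) N else 0) ≤ B N)
    (N : ℕ) : (∑' gs : List (List Bool), if c gs ∧ a gs = k + (b + ll gs) then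
      SDN.wl gs * shf (e gs) (a gs) N else 0) ≤ shf B k N := by
  by_cases hk : k ≤ N
  · have h1 : shf B k N = B (N - k) := if_pos hk
    rw [h1]
    refine le_trans (ENNReal.tsum_le_tsum fun gs => ?_) (h (N - k))
    by_cases hc : c gs ∧ a gs = k + (b + ll gs)
    · rw [if_pos hc, if_pos hc.1, hc.2, shf_add]
      have h2 : shf (fun c' => shf (e gs) (b + ll gs) c') k N = shf (e gs) (b + ll gs) (N - k) := if_pos hk
      rw [h2]
    · rw [if_neg hc]
      exact zero_le
  · refine le_trans (le_of_eq ?_) zero_le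
    rw [ENNReal.tsum_eq_zero]
    intro gs
    split_ifs with hc
    · rw [hc.2]
      have h1 : shf (e gs) (k + (b + ll gs)) N = 0 := if_neg (by omega)
      rw [h1, mul_zero]
    · rfl

open Classical in
/-- left chains, a run in R and right parts behind the leaf g, any count of the letters of the left chain -/
lemma TL_leK (hW : Wnd kc J n W kp) (hP : OU.RB (2 ^ (kc + 4)) P F) (hR : ∀ gs ∈ R, ∀ g ∈ gs, g ∈ HB (2 ^ (kc + 4)))
    (M' : ℕ) :
    ∀ (i : ℕ) (g : List Bool) (kap : List (List Bool) → ℕ) (a : List (List Bool) → ℕ)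
      (e : List (List Bool) → ℕ → ℝ≥0∞) (N : ℕ), i < n → g ∈ HB (2 ^ (kp i + 4)) →
    (∑' gs : List (List Bool), if gs.length ≤ M' + 1 ∧ (g :: gs).IsChain LFold ∧
      DecK W R P kap gs (i + 1) (e gs) (a gs) then SDN.wl gs * shf (e gs) (a gs) N else 0) ≤
      FL W kp (Gm kc R F) M' i g := by
  have hmono : ∀ (i i' : ℕ) (g : List Bool), i' ≤ i → g ∈ HB (2 ^ (kp i + 4)) → g ∈ HB (2 ^ (kp i' + 4)) := by
    rintro i i' g hi ⟨h, a1, a2⟩
    exact ⟨h, (Nat.pow_le_pow_right (by norm_num) (Nat.add_le_add_right (hW.mono i' i hi) 4)).trans a1, a2⟩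
  have hmid0 : ∀ (g' : List Bool) (k : ℕ) (a : List (List Bool) → ℕ) (e : List (List Bool) → ℕ → ℝ≥0∞) (N : ℕ),
      (∑' gs : List (List Bool), if ((g' :: gs).IsChain LFold ∧ OU.MidP R P g' gs (e (g' :: gs))) ∧
        a (g' :: gs) = k + ((g'.length + 1) + ll gs) then
        SDN.wl gs * shf (e (g' :: gs)) (a (g' :: gs)) N else 0) ≤ shf (fun N' => sh (runG R F) N' g') k N := by
    intro g' k a e N
    exact sum_cnt (e := fun gs => e (g' :: gs)) (a := fun gs => a (g' :: gs)) (k := k) (b := g'.length + 1)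
      (B := fun N' => sh (runG R F) N' g')
      (fun N' => sum_shf (fun N'' => OU.mid_leP hP hR g' (fun gs => e (g' :: gs)) N'') (g'.length + 1) N') N
  -- the sum over the first leaf of the run
  have hfirst : ∀ (g : List Bool) (k N : ℕ), Rec8.sw {g' | g' ∈ HB (2 ^ (kc + 4)) ∧ RT (2 ^ (kc + 4)) LFold g g'}
      (fun g' => shf (fun N' => sh (runG R F) N' g') k N) ≤ Gm kc R F g := by
    intro g k N
    by_cases hk : k ≤ N
    · refine le_trans (le_of_eq (Rec8.sw_congr fun g' _ => ?_)) (GF.sw_le_Gm R F (N - k) g)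
      exact if_pos hk
    · refine le_trans (le_of_eq ?_) zero_le
      unfold Rec8.sw
      rw [ENNReal.tsum_eq_zero]
      intro g'
      have h1 : shf (fun N' => sh (runG R F) N' g'.1) k N = 0 := if_neg hk
      show wE g'.1 * shf (fun N' => sh (runG R F) N' g'.1) k N = 0
      rw [h1, mul_zero]
  induction M' with
  | zero =>
    intro i g kap a e N hi hg
    have hg0 : g ∈ HB (2 ^ (kc + 4)) := by
      have := hmono i 0 g (Nat.zero_le i) hg
      rwa [hW.zero] at this
    refine (CCh.tsum_list _ ?_).trans ?_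
    · rw [if_neg]
      rintro ⟨-, -, h⟩
      exact h
    · refine (QF.sum_consW (range 1) (fun _ => {g' | g' ∈ HB (2 ^ (kc + 4)) ∧ RT (2 ^ (kc + 4)) LFold g g'})
        (fun _ => fun g' => shf (fun N' => sh (runG R F) N' g') (kap []) N) (fun gs => shf (e gs) (a gs) N)
        (fun gs => gs.length ≤ 0 + 1 ∧ (g :: gs).IsChain LFold ∧ DecK W R P kap gs (i + 1) (e gs) (a gs))
        (fun _ g' gs => ((g' :: gs).IsChain LFold ∧ OU.MidP R P g' gs (e (g' :: gs))) ∧
          a (g' :: gs) = kap [] + ((g'.length + 1) + ll gs)) ?_ ?_).trans ?_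
      · rintro g' gs ⟨h1, h2, h3⟩
        rw [List.isChain_cons_cons] at h2
        rw [List.length_cons] at h1
        have h0 : gs = [] := List.length_eq_zero_iff.1 (by omega)
        rcases h3 with ⟨h4, h4'⟩ | ⟨i', h4, h5, h6⟩
        · exact ⟨0, Finset.mem_range.2 (by omega), ⟨OU.mid_HBP hR h4, RT_of hg0 h2.1⟩, ⟨h2.2, h4⟩, h4'⟩
        · rw [h0] at h6
          exact h6.elim
      · rintro _ _ g' -
        exact hmid0 g' (kap []) a e N
      · rw [Finset.sum_range_one]
        exact hfirst g (kap []) N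
  | succ M' ih =>
    intro i g kap a e N hi hg
    have hg0 : g ∈ HB (2 ^ (kc + 4)) := by
      have := hmono i 0 g (Nat.zero_le i) hg
      rwa [hW.zero] at this
    refine (CCh.tsum_list _ ?_).trans ?_
    · rw [if_neg]
      rintro ⟨-, -, h⟩
      exact h
    · refine (QF.sum_consW (range (i + 1 + 1)) (fun j => if j = 0 then
          {g' | g' ∈ HB (2 ^ (kc + 4)) ∧ RT (2 ^ (kc + 4)) LFold g g'} else
          {g' | g' ∈ W (j - 1) ∧ RT (2 ^ (kp (j - 1) + 4)) LFold g g'})
        (fun j => if j = 0 then (fun g' => shf (fun N' => sh (runG R F) N' g') (kap []) N) else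
          FL W kp (Gm kc R F) M' (j - 1)) (fun gs => shf (e gs) (a gs) N)
        (fun gs => gs.length ≤ M' + 1 + 1 ∧ (g :: gs).IsChain LFold ∧ DecK W R P kap gs (i + 1) (e gs) (a gs))
        (fun j g' gs => if j = 0 then ((g' :: gs).IsChain LFold ∧ OU.MidP R P g' gs (e (g' :: gs))) ∧
            a (g' :: gs) = kap [] + ((g'.length + 1) + ll gs) else
          gs.length ≤ M' + 1 ∧ (g' :: gs).IsChain LFold ∧
            DecK W R P (fun gl => kap (g' :: gl)) gs (j - 1 + 1) (e (g' :: gs)) (a (g' :: gs))) ?_ ?_).trans ?_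
      · rintro g' gs ⟨h1, h2, h3⟩
        rw [List.isChain_cons_cons] at h2
        rw [List.length_cons] at h1
        rcases h3 with ⟨h4, h4'⟩ | ⟨i', h4, h5, h6⟩
        · refine ⟨0, Finset.mem_range.2 (by omega), ?_, ?_⟩
          · rw [if_pos rfl]
            exact ⟨OU.mid_HBP hR h4, RT_of hg0 h2.1⟩
          · rw [if_pos rfl]
            exact ⟨⟨h2.2, h4⟩, h4'⟩
        · refine ⟨i' + 1, Finset.mem_range.2 (by omega), ?_, ?_⟩
          · rw [if_neg (by omega), Nat.add_sub_cancel]
            exact ⟨h5, RT_of (hmono i i' g (by omega) hg) h2.1⟩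
          · rw [if_neg (by omega), Nat.add_sub_cancel]
            exact ⟨by omega, h2.2, h6⟩
      · rintro j hj g' h5
        rcases Nat.eq_zero_or_pos j with h0 | h0
        · rw [if_pos h0] at h5 ⊢
          simp only [if_pos h0]
          exact hmid0 g' (kap []) a e N
        · rw [if_neg (by omega)] at h5 ⊢
          simp only [if_neg (show j ≠ 0 by omega)]
          have hjn : j - 1 < n := by
            have := Finset.mem_range.1 hj
            omega
          obtain ⟨h, a1, a2, a3⟩ := hW.sub (j - 1) hjn h5.1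
          exact ih (j - 1) g' (fun gl => kap (g' :: gl)) (fun gs => a (g' :: gs)) (fun gs => e (g' :: gs)) N hjn
            ⟨h, a1, a3⟩
      · rw [Finset.sum_range_succ', if_pos rfl, if_pos rfl, add_comm]
        refine add_le_add (hfirst g (kap []) N) (le_of_eq (Finset.sum_congr rfl fun j _ => ?_))
        rw [if_neg (Nat.succ_ne_zero j), if_neg (Nat.succ_ne_zero j), Nat.add_sub_cancel]
        rfl

open Classical in
/-- **the sum over the chains that do not begin with the run, and over the left ends** -/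
theorem massBK (hW : Wnd kc J n W kp) (hP : OU.RB (2 ^ (kc + 4)) P F) (hR : ∀ gs ∈ R, ∀ g ∈ gs, g ∈ HB (2 ^ (kc + 4)))
    (A : Set (List Bool)) (Ψ : ℕ → List Bool → ℝ≥0∞) (M : ℕ) (h : Option (List Bool) → List Bool → Prop)
    (hΨ : ∀ i g, i < n → g ∈ W i → (∑' o : Option (List Bool), if h o g then wO o else 0) ≤ Ψ i (rev g))
    (kap a : Option (List Bool) → List (List Bool) → ℕ) (w1 : List (List Bool) → ℕ → ℝ≥0∞) (N : ℕ) :
    (∑' (o : Option (List Bool)) (gs : List (List Bool)), if h o (gs.headD []) ∧ gs.length ≤ M ∧ gs.IsChain LFold ∧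
      TotBK W n R P A (kap o) gs (w1 gs) (a o gs) then wO o * (SDN.wl gs * shf (w1 gs) (a o gs) N) else 0) ≤
      ∑ i ∈ range n, Rec8.sw (W i ∩ A) (fun g => Ψ i (rev g) * FL W kp (Gm kc R F) M i g) := by
  obtain ⟨Fo, hFo⟩ : ∃ Fo : Option (List Bool) → ℕ → List Bool → ℝ≥0∞, Fo = fun o i g =>
    (if h o g then wO o else 0) * FL W kp (Gm kc R F) M i g := ⟨_, rfl⟩
  have h1 : ∀ o : Option (List Bool), (∑' gs : List (List Bool), if h o (gs.headD []) ∧ gs.length ≤ M ∧
      gs.IsChain LFold ∧ TotBK W n R P A (kap o) gs (w1 gs) (a o gs) then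
        wO o * (SDN.wl gs * shf (w1 gs) (a o gs) N) else 0) ≤ ∑ i ∈ range n, Rec8.sw (W i ∩ A) (Fo o i) := by
    intro o
    have e1 : ∀ gs : List (List Bool), (if h o (gs.headD []) ∧ gs.length ≤ M ∧ gs.IsChain LFold ∧
        TotBK W n R P A (kap o) gs (w1 gs) (a o gs) then wO o * (SDN.wl gs * shf (w1 gs) (a o gs) N) else 0) =
        (if h o (gs.headD []) ∧ gs.length ≤ M ∧ gs.IsChain LFold ∧
        TotBK W n R P A (kap o) gs (w1 gs) (a o gs) then SDN.wl gs * (wO o * shf (w1 gs) (a o gs) N) else 0) := by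
      intro gs
      split_ifs
      · ring
      · rfl
    simp only [e1]
    refine (CCh.tsum_list _ ?_).trans ?_
    · rw [if_neg]
      rintro ⟨-, -, -, h⟩
      exact h
    · refine QF.sum_consW (range n) (fun j => W j ∩ A) (fun j => Fo o j)
        (fun gs => wO o * shf (w1 gs) (a o gs) N)
        (fun gs => h o (gs.headD []) ∧ gs.length ≤ M ∧ gs.IsChain LFold ∧ TotBK W n R P A (kap o) gs (w1 gs) (a o gs))
        (fun j g' gs => h o g' ∧ gs.length ≤ M + 1 ∧ (g' :: gs).IsChain LFold ∧
          DecK W R P (fun gl => kap o (g' :: gl)) gs (j + 1) (w1 (g' :: gs)) (a o (g' :: gs))) ?_ ?_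
      · rintro g' gs ⟨h0, h1, h2, i', h4, h5, h8, h6⟩
        rw [List.length_cons] at h1
        exact ⟨i', Finset.mem_range.2 h4, ⟨h5, h8⟩, h0, by omega, h2, h6⟩
      · rintro j hj g' ⟨h5, -⟩
        have hjn : j < n := Finset.mem_range.1 hj
        obtain ⟨hh, a1, a2, a3⟩ := hW.sub j hjn h5
        rw [hFo]
        simp only
        by_cases hg : h o g'
        · rw [if_pos hg]
          have h2 : ∀ gs : List (List Bool), (if h o g' ∧ gs.length ≤ M + 1 ∧ (g' :: gs).IsChain LFold ∧
              DecK W R P (fun gl => kap o (g' :: gl)) gs (j + 1) (w1 (g' :: gs)) (a o (g' :: gs)) then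
              SDN.wl gs * (wO o * shf (w1 (g' :: gs)) (a o (g' :: gs)) N) else 0) =
              wO o * (if gs.length ≤ M + 1 ∧ (g' :: gs).IsChain LFold ∧
              DecK W R P (fun gl => kap o (g' :: gl)) gs (j + 1) (w1 (g' :: gs)) (a o (g' :: gs)) then
              SDN.wl gs * shf (w1 (g' :: gs)) (a o (g' :: gs)) N else 0) := by
            intro gs
            by_cases hc : gs.length ≤ M + 1 ∧ (g' :: gs).IsChain LFold ∧
              DecK W R P (fun gl => kap o (g' :: gl)) gs (j + 1) (w1 (g' :: gs)) (a o (g' :: gs))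
            · rw [if_pos ⟨hg, hc⟩, if_pos hc]
              ring
            · rw [if_neg fun h => hc h.2, if_neg hc, mul_zero]
          simp only [h2]
          rw [ENNReal.tsum_mul_left]
          exact mul_le_mul_right (TL_leK hW hP hR M j g' (fun gl => kap o (g' :: gl)) (fun gs => a o (g' :: gs))
            (fun gs => w1 (g' :: gs)) N hjn ⟨hh, a1, a3⟩) _
        · refine le_trans (le_of_eq ?_) zero_le
          rw [ENNReal.tsum_eq_zero]
          intro gs
          rw [if_neg fun h => hg h.1]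
  refine (ENNReal.tsum_le_tsum h1).trans ?_
  rw [Summable.tsum_finsetSum (fun _ _ => ENNReal.summable)]
  refine Finset.sum_le_sum fun i hi => ?_
  rw [← sw_tsum]
  refine Rec8.sw_mono le_rfl fun g hg => ?_
  rw [hFo]
  simp only
  rw [ENNReal.tsum_mul_right]
  exact mul_le_mul_left (hΨ i g (Finset.mem_range.1 hi) hg.1) _

open Classical in
/-- **the sum over the chains that begin with the run, and over the left ends** -/
theorem massAK (hP : OU.RB (2 ^ (kc + 4)) P F) (hR : ∀ gs ∈ R, ∀ g ∈ gs, g ∈ HB (2 ^ (kc + 4)))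
    (Ψ : ℕ → List Bool → ℝ≥0∞) (M : ℕ) (h : Option (List Bool) → List Bool → Prop) (kap : Option (List Bool) → ℕ)
    (hΨ : ∀ g, g ∈ HB (2 ^ (kc + 4)) → ∀ c, (∑' o : Option (List Bool), if h o g ∧ kap o = c then wO o else 0) ≤
      Ψ c (rev g)) (w1 : List (List Bool) → ℕ → ℝ≥0∞) (N : ℕ) :
    (∑' (o : Option (List Bool)) (gs : List (List Bool)), if h o (gs.headD []) ∧ gs.length ≤ M ∧ gs.IsChain LFold ∧
      TotAK R P gs (w1 gs) then wO o * (SDN.wl gs * shf (w1 gs) (kap o + ll gs) N) else 0) ≤
      Rec8.sw (HB (2 ^ (kc + 4))) (fun g => ∑ c ∈ range (N + 1), Ψ c (rev g) * sh (runG R F) (N - c) g) := by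
  obtain ⟨Fo, hFo⟩ : ∃ Fo : Option (List Bool) → List Bool → ℝ≥0∞, Fo = fun o g =>
    (if h o g then wO o else 0) * shf (fun N' => sh (runG R F) N' g) (kap o) N := ⟨_, rfl⟩
  have h1 : ∀ o : Option (List Bool), (∑' gs : List (List Bool), if h o (gs.headD []) ∧ gs.length ≤ M ∧
      gs.IsChain LFold ∧ TotAK R P gs (w1 gs) then
        wO o * (SDN.wl gs * shf (w1 gs) (kap o + ll gs) N) else 0) ≤ Rec8.sw (HB (2 ^ (kc + 4))) (Fo o) := by
    intro o
    have e1 : ∀ gs : List (List Bool), (if h o (gs.headD []) ∧ gs.length ≤ M ∧ gs.IsChain LFold ∧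
        TotAK R P gs (w1 gs) then wO o * (SDN.wl gs * shf (w1 gs) (kap o + ll gs) N) else 0) =
        (if h o (gs.headD []) ∧ gs.length ≤ M ∧ gs.IsChain LFold ∧
        TotAK R P gs (w1 gs) then SDN.wl gs * (wO o * shf (w1 gs) (kap o + ll gs) N) else 0) := by
      intro gs
      split_ifs
      · ring
      · rfl
    simp only [e1]
    refine (CCh.tsum_list _ ?_).trans ?_
    · rw [if_neg]
      rintro ⟨-, -, -, h⟩
      exact h
    · refine (QF.sum_consW (range 1) (fun _ => HB (2 ^ (kc + 4))) (fun _ => Fo o)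
        (fun gs => wO o * shf (w1 gs) (kap o + ll gs) N)
        (fun gs => h o (gs.headD []) ∧ gs.length ≤ M ∧ gs.IsChain LFold ∧ TotAK R P gs (w1 gs))
        (fun _ g' gs => h o g' ∧ (g' :: gs).IsChain LFold ∧ OU.MidP R P g' gs (w1 (g' :: gs))) ?_ ?_).trans ?_
      · rintro g' gs ⟨h0, -, h2, h4⟩
        exact ⟨0, Finset.mem_range.2 (by omega), OU.mid_HBP hR h4, h0, h2, h4⟩
      · rintro _ - g' -
        rw [hFo]
        simp only
        by_cases hg : h o g'
        · rw [if_pos hg]
          have h2 : ∀ gs : List (List Bool), (if h o g' ∧ (g' :: gs).IsChain LFold ∧ OU.MidP R P g' gs (w1 (g' :: gs)) then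
              SDN.wl gs * (wO o * shf (w1 (g' :: gs)) (kap o + ll (g' :: gs)) N) else 0) =
              wO o * (if (g' :: gs).IsChain LFold ∧ OU.MidP R P g' gs (w1 (g' :: gs)) then
              SDN.wl gs * shf (w1 (g' :: gs)) (kap o + ((g'.length + 1) + ll gs)) N else 0) := by
            intro gs
            by_cases hc : (g' :: gs).IsChain LFold ∧ OU.MidP R P g' gs (w1 (g' :: gs))
            · rw [if_pos ⟨hg, hc⟩, if_pos hc, ll_cons]
              ring
            · rw [if_neg fun h => hc h.2, if_neg hc, mul_zero]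
          simp only [h2]
          rw [ENNReal.tsum_mul_left]
          refine mul_le_mul_right ?_ _
          have h3 := sum_cnt (c := fun gs => (g' :: gs).IsChain LFold ∧ OU.MidP R P g' gs (w1 (g' :: gs)))
            (e := fun gs => w1 (g' :: gs)) (a := fun gs => kap o + ((g'.length + 1) + ll gs)) (k := kap o)
            (b := g'.length + 1) (B := fun N' => sh (runG R F) N' g')
            (fun N' => sum_shf (fun N'' => OU.mid_leP hP hR g' (fun gs => w1 (g' :: gs)) N'') (g'.length + 1) N') N
          refine le_trans (le_of_eq (tsum_congr fun gs => ?_)) h3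
          by_cases hc : (g' :: gs).IsChain LFold ∧ OU.MidP R P g' gs (w1 (g' :: gs))
          · rw [if_pos hc, if_pos ⟨hc, rfl⟩]
          · rw [if_neg hc, if_neg fun h => hc h.1]
        · refine le_trans (le_of_eq ?_) zero_le
          rw [ENNReal.tsum_eq_zero]
          intro gs
          rw [if_neg fun h => hg h.1]
      · rw [Finset.sum_range_one]
  refine (ENNReal.tsum_le_tsum h1).trans ?_
  rw [← sw_tsum]
  refine Rec8.sw_mono le_rfl fun g hg => ?_
  rw [hFo]
  simp only
  have h4 : ∀ o : Option (List Bool), (if h o g then wO o else 0) * shf (fun N' => sh (runG R F) N' g) (kap o) N =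
      ∑ c ∈ range (N + 1), (if h o g ∧ kap o = c then wO o else 0) * sh (runG R F) (N - c) g := by
    intro o
    by_cases hk : kap o ≤ N
    · rw [Finset.sum_eq_single (kap o)]
      · have h5 : shf (fun N' => sh (runG R F) N' g) (kap o) N = sh (runG R F) (N - kap o) g := if_pos hk
        rw [h5]
        by_cases hg : h o g
        · rw [if_pos hg, if_pos ⟨hg, rfl⟩]
        · rw [if_neg hg, if_neg fun h => hg h.1]
      · intro c _ hc
        rw [if_neg fun h => hc h.2.symm, zero_mul]
      · intro hc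
        exact absurd (Finset.mem_range.2 (by omega)) hc
    · have h5 : shf (fun N' => sh (runG R F) N' g) (kap o) N = 0 := if_neg hk
      rw [h5, mul_zero]
      symm
      apply Finset.sum_eq_zero
      intro c hc
      rw [if_neg, zero_mul]
      rintro ⟨-, h6⟩
      have := Finset.mem_range.1 hc
      omega
  simp only [h4]
  rw [Summable.tsum_finsetSum (fun _ _ => ENNReal.summable)]
  refine Finset.sum_le_sum fun c _ => ?_
  rw [ENNReal.tsum_mul_right]
  exact mul_le_mul_left (hΨ g hg c) _

/-! ### the left end graded by a count function -/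

/-- the free ends with count c -/
noncomputable def ENk (kap : Option (List Bool) → ℕ) (D N lam c : ℕ) (t : List Bool) : ℝ≥0∞ :=
  gf {W | W ∈ SSt N ∧ RT D LFold t W ∧ t.length + W.length ≤ lam ∧ kap (some W) = c}

/-- the end functional graded by the count kap -/
noncomputable def Pgk (kap : Option (List Bool) → ℕ) (D N lam c : ℕ) (t : List Bool) : ℝ≥0∞ :=
  (if kap none = c then 1 else 0) + ENk kap D N lam c t

lemma gf_gradeK (S : Set (List Bool)) (kap : List Bool → ℕ) : ∑' c, gf {W | W ∈ S ∧ kap W = c} = gf S := by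
  classical
  have h : ∀ c, gf {W | W ∈ S ∧ kap W = c} = ∑' W : List Bool, if kap W = c then (if W ∈ S then wE W else 0) else 0 := by
    intro c
    rw [← Rec8.sw_one, Rec8.sw_ind]
    refine tsum_congr fun W => ?_
    by_cases h1 : W ∈ S
    · by_cases h2 : kap W = c
      · rw [if_pos (show W ∈ {W | W ∈ S ∧ kap W = c} from ⟨h1, h2⟩), if_pos h2, if_pos h1, mul_one]
      · rw [if_neg (show W ∉ {W | W ∈ S ∧ kap W = c} from fun h => h2 h.2), if_neg h2]
    · rw [if_neg (show W ∉ {W | W ∈ S ∧ kap W = c} from fun h => h1 h.1), if_neg h1]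
      split_ifs <;> rfl
  simp only [h]
  rw [ENNReal.tsum_comm, ← Rec8.sw_one, Rec8.sw_ind]
  refine tsum_congr fun W => ?_
  rw [tsum_eq_single (kap W) (fun c hc => if_neg (Ne.symm hc)), if_pos rfl]
  split_ifs
  · rw [mul_one]
  · rfl

lemma tot_Pgk (kap : Option (List Bool) → ℕ) (D N lam : ℕ) : tot (Pgk kap D N lam) = fun t => 1 + ENl D N lam t := by
  funext t
  unfold tot Pgk
  rw [ENNReal.tsum_add]
  congr 1
  · have h1 : ∀ c, (if kap none = c then (1 : ℝ≥0∞) else 0) = if c = kap none then 1 else 0 := by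
      intro c
      by_cases h : kap none = c
      · rw [if_pos h, if_pos h.symm]
      · rw [if_neg h, if_neg (Ne.symm h)]
    simp only [h1]
    exact tsum_ite_eq _ _
  · unfold ENk ENl
    rw [← gf_gradeK _ (fun W => kap (some W))]
    refine tsum_congr fun c => ?_
    congr 1
    ext W
    simp only [Set.mem_ofPred_eq, and_assoc]

theorem flp_Pgk (kap : Option (List Bool) → ℕ) {D : ℕ} (hD : 1 ≤ D) (N lam c : ℕ) : Flp D (Pgk kap D N lam c) := by
  intro s t b hc _
  refine add_le_add le_rfl (gf_mono fun W hW => ⟨hW.1, ?_, ?_, hW.2.2.2⟩)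
  · obtain ⟨Z, h1, h2, h3⟩ := hW.2.1
    rw [← List.append_assoc] at h3
    exact RT_of hc (LFold_flip hc hD h3)
  · have := hW.2.2.1
    rw [List.length_append, List.length_cons] at this
    rw [List.length_cons]
    omega

/-- the graded end functional is hereditary -/
theorem GH_Pgk (kap : Option (List Bool) → ℕ) {D : ℕ} (hD : 1 ≤ D) (N lam : ℕ) : GH D (Pgk kap D N lam) := by
  intro c
  refine ⟨fun s hs t => add_le_add le_rfl (gf_mono fun W hW => ⟨hW.1, RT_her hs hW.2.1, ?_, hW.2.2.2⟩),
    fun s t ht _ => add_le_add le_rfl (gf_mono fun W hW => ⟨hW.1, ?_, ?_, hW.2.2.2⟩)⟩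
  · have := hW.2.2.1
    rw [List.length_append] at this
    omega
  · obtain ⟨Z, h1, h2, h3⟩ := hW.2.1
    rw [← List.append_assoc] at h2 h3
    exact RT_of ht (LFold_suf ht h2 hD h3)
  · have := hW.2.2.1
    rw [List.length_append] at this
    omega

/-- the condition of a left end with reach N at the first leaf g -/
def HO (N lam : ℕ) (o : Option (List Bool)) (g : List Bool) : Prop :=
  ∀ W ∈ o, W ∈ SSt N ∧ LFold (rev g) W ∧ (rev g).length + W.length ≤ lam + 20

open Classical in
/-- the left ends with count c at the first leaf g -/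
lemma sum_HO (kap : Option (List Bool) → ℕ) {D N N' lam : ℕ} {g : List Bool} (hg : rev g ∈ HB D) (hN : N ≤ N') (c : ℕ) :
    (∑' o : Option (List Bool), if HO N lam o g ∧ kap o = c then wO o else 0) ≤ Pgk kap D N' (lam + 20) c (rev g) := by
  rw [tsum_option]
  refine add_le_add ?_ ?_
  · split_ifs with h1 h2
    · exact le_rfl
    · exact absurd h1.2 h2
    · exact zero_le
    · exact zero_le
  · unfold ENk
    rw [← Rec8.sw_one, Rec8.sw_ind]
    refine ENNReal.tsum_le_tsum fun W => ?_
    by_cases h : HO N lam (some W) g ∧ kap (some W) = c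
    · rw [if_pos h]
      obtain ⟨h1, h2⟩ := h
      obtain ⟨h3, h4, h5⟩ := h1 W rfl
      rw [if_pos (show W ∈ {W | W ∈ SSt N' ∧ RT D LFold (rev g) W ∧ (rev g).length + W.length ≤ lam + 20 ∧
        kap (some W) = c} from ⟨SSt_mo hN h3, RT_of hg h4, h5, h2⟩), mul_one]
      exact le_rfl
    · rw [if_neg h]
      exact zero_le

open Classical in
/-- all left ends at the first leaf g -/
lemma sum_HO' {D N N' lam : ℕ} {g : List Bool} (hg : rev g ∈ HB D) (hN : N ≤ N') :
    (∑' o : Option (List Bool), if HO N lam o g then wO o else 0) ≤ tot (Pg D N' (lam + 20)) (rev g) := by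
  have h1 : tot (Pg D N' (lam + 20)) (rev g) = tot (Pgk (fun _ => 0) D N' (lam + 20)) (rev g) := by
    rw [tot_Pg, tot_Pgk]
  rw [h1]
  refine le_trans ?_ (le_tot _ 0 _)
  refine le_trans (le_of_eq (tsum_congr fun o => ?_)) (sum_HO (fun _ => 0) hg hN 0)
  by_cases h : HO N lam o g
  · rw [if_pos h, if_pos ⟨h, rfl⟩]
  · rw [if_neg h, if_neg fun h2 => h h2.1]

end MK

end EN

end HexObs
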