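import Pool.Agent.HBD.RepK
import Pool.Agent.HBD.MarkSum
import Pool.Agent.EN.ExCoverV

/-!
HexBoundary, marked events: the cover of the words with a mark by the chains of leaves with two free ends, any count function.
-/

set_option autoImplicit false

namespace HexObs

namespace EN

namespace MK

open Finset TS SDN SDN.CN NTm NTW NTA EX NTW.Rp

open scoped ENNReal

/-! ### letters of the chain and folds -/

lemma lw_len {t : List Bool} {a b : ℕ} (h : a + 2 ≤ b) (hb : b ≤ t.length) : (lw t a b).length + 1 = b - a := by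
  unfold lw
  rw [List.length_append, List.length_take, List.length_drop, List.length_singleton]
  omega

/-- the position of the folds against the letters of the leaves -/
lemma fold_ll {t : List Bool} {m u : ℕ} {e : ℕ → ℕ} {gs : List (List Bool)} (hF : FoldG t m u e)
    (hR : RepG t m u e gs) : ∀ p, p ≤ m → e p ≤ e 0 + ll (gs.take p) + (if p < m then 1 else 2) := by
  intro p
  induction p with
  | zero =>
    intro _
    omega
  | succ p ih =>
    intro hp
    have h1 := ih (by omega)
    rw [if_pos (by omega)] at h1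
    have hl : p < gs.length := by rw [hR.len]; omega
    have h2 : ll (gs.take (p + 1)) = ll (gs.take p) + ((gs[p]).length + 1) := by
      rw [List.take_add_one, List.getElem?_eq_getElem hl, ll_append]
      simp [ll]
    rw [h2]
    rcases Nat.eq_zero_or_pos p with h0 | h0
    · subst h0
      obtain ⟨s, s1, s2, s3, s4, -⟩ := hR.pos 0 hl
      rw [Nat.zero_add] at s4 ⊢
      have h3 : ll (gs.take 0) = 0 := by simp [ll]
      rw [h3]
      split_ifs <;> omega
    · rcases Nat.lt_or_ge (p + 1) m with h4 | h4
      · have h5 := hR.mid p hl h0 (by omega)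
        have h6 : e (p + 1) ≤ t.length := e_le hF (by omega)
        have h7 : e p + 2 ≤ e (p + 1) := by
          have a1 := hF.lt p (by omega)
          have a2 := hF.gap p (by omega)
          by_contra hc
          have a3 : e (p + 1) = e p + 1 := by omega
          rw [a3] at a2
          have a4 := near2 t (a := e p) (b := e p + 1) (by omega) 1 (by omega)
          rw [← NTm.sg_sub] at a2
          have a5 : |Tight.sg (u + p) (lev t (e p + 1) - lev t (e p))| ≤ |lev t (e p + 1) - lev t (e p)| := by
            unfold Tight.sg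
            split_ifs
            · rw [abs_neg]
            · exact le_rfl
          have a6 := le_abs_self (Tight.sg (u + p) (lev t (e p + 1) - lev t (e p)))
          push_cast at a4
          linarith
        have h8 := lw_len h7 h6
        rw [← h5] at h8
        rw [if_pos h4]
        omega
      · obtain ⟨s, s1, s2, s3, s4, -⟩ := hR.pos p hl
        rw [if_neg (by omega)]
        omega

/-! ### the beginnings -/

/-- the beginning of the word with the leaves gl -/
def Pl (o : Option (List Bool)) (gl : List (List Bool)) : List Bool := if gl = [] then rev (o.getD []) else Pf o gl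

lemma Pl_len (o : Option (List Bool)) {gl : List (List Bool)} (h2 : ∀ g ∈ gl, 2 ≤ g.length) :
    (Pl o gl).length ≤ (o.getD []).length + ll gl ∧ (o.getD []).length + ll gl ≤ (Pl o gl).length + 2 := by
  unfold Pl
  by_cases h : gl = []
  · rw [if_pos h, h, rev_length, ll_nil]
    omega
  · rw [if_neg h]
    have hne : ∀ g ∈ gl, g ≠ [] := by
      intro g hg h0
      have := h2 g hg
      rw [h0] at this
      simp at this
    have h3 := ll_unf hne h
    have h4 : 2 ≤ (unf gl).length := by
      obtain ⟨g, gl', rfl⟩ := List.exists_cons_of_ne_nil h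
      exact (h2 g List.mem_cons_self).trans (length_le_unf hne List.mem_cons_self)
    have h5 : (unf gl).dropLast ≠ [] := by
      intro h0
      have := congrArg List.length h0
      rw [List.length_dropLast, List.length_nil] at this
      omega
    have h6 := pre_length o h5
    rw [List.length_dropLast] at h6
    unfold Pf
    omega

/-- the word begins with the left end and the leaves gl -/
lemma Pl_prefix (c : Fin 16) (o : Option (List Bool)) {gs : List (List Bool)} (o' : Option (List Bool))
    (h2 : ∀ g ∈ gs, 2 ≤ g.length) (hgs : gs ≠ []) (p : ℕ) : ∃ r, asmF c o gs o' = Pl o (gs.take p) ++ r := by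
  have hne : ∀ g ∈ gs, g ≠ [] := by
    intro g hg h0
    have := h2 g hg
    rw [h0] at this
    simp at this
  have h4 : ∀ gl : List (List Bool), gl ≠ [] → (∀ g ∈ gl, g ∈ gs) → 2 ≤ (unf gl).length := by
    intro gl hgl hsub
    obtain ⟨g, gl', rfl⟩ := List.exists_cons_of_ne_nil hgl
    exact (h2 g (hsub g List.mem_cons_self)).trans (length_le_unf (fun g' hg' => hne g' (hsub g' hg')) List.mem_cons_self)
  obtain ⟨r, hr⟩ := asmF_eq c o o' (h4 gs hgs fun g hg => hg)
  unfold Pl
  by_cases h : gs.take p = []
  · rw [if_pos h]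
    cases o with
    | none => exact ⟨asmF c none gs o', by simp [rev]⟩
    | some W => exact asmF_rev c W gs o'
  · rw [if_neg h]
    by_cases h5 : gs.drop p = []
    · have h6 : gs.take p = gs := by
        have := List.take_append_drop p gs
        rw [h5, List.append_nil] at this
        exact this
      rw [h6]
      exact ⟨r, hr⟩
    · obtain ⟨r', hr'⟩ := Pf_append o h h5 (fun g hg => hne g (List.mem_of_mem_take hg))
        (fun g hg => hne g (List.mem_of_mem_drop hg)) (h4 _ h fun g hg => List.mem_of_mem_take hg)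
      rw [List.take_append_drop] at hr'
      exact ⟨r' ++ r, by rw [hr, hr', List.append_assoc]⟩

/-! ### the right end -/

open Classical in
lemma sum_right (N1 lam : ℕ) (g : List Bool) (a n : ℕ) :
    (∑' o' : Option (List Bool), if (∀ W ∈ o', W ∈ SSt N1 ∧ LFold g W ∧ g.length + W.length ≤ lam + 20) ∧
      n + 1 ≤ a + (o'.getD []).length ∧ a + (o'.getD []).length ≤ n + 21 then wO o' else 0) ≤
      ∑ N ∈ Icc (n + 1) (n + 21), shf (fun c => EEg N1 lam c g) a N := by
  obtain ⟨P1, hP1⟩ : ∃ P1 : List Bool → Prop, P1 = fun W => W ∈ SSt N1 ∧ LFold g W ∧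
    g.length + W.length ≤ lam + 20 := ⟨_, rfl⟩
  have e1 : ∀ c, EEg N1 lam c g = ∑' o : Option (List Bool),
      Set.indicator {o : Option (List Bool) | (∀ W ∈ o, P1 W) ∧ (o.getD []).length = c} wO o := by
    intro c
    rw [sum_endG P1 c]
    unfold EEg
    congr 2
    ext W
    rw [hP1]
    simp only [Set.mem_ofPred_eq, and_assoc]
  have e2 : ∀ N, shf (fun c => EEg N1 lam c g) a N = ∑' o : Option (List Bool),
      shf (fun c => Set.indicator {o : Option (List Bool) | (∀ W ∈ o, P1 W) ∧ (o.getD []).length = c} wO o) a N := by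
    intro N
    simp only [e1]
    exact shf_tsum _ a N
  simp only [e2]
  rw [← Summable.tsum_finsetSum (fun _ _ => ENNReal.summable)]
  refine ENNReal.tsum_le_tsum fun o' => ?_
  split_ifs with h
  · obtain ⟨h1, h2, h3⟩ := h
    refine le_trans (le_of_eq ?_) (Finset.single_le_sum (f := fun N => shf (fun c =>
      Set.indicator {o : Option (List Bool) | (∀ W ∈ o, P1 W) ∧ (o.getD []).length = c} wO o') a N)
      (fun _ _ => zero_le) (Finset.mem_Icc.2 ⟨h2, h3⟩))
    have h4 : shf (fun c => Set.indicator {o : Option (List Bool) | (∀ W ∈ o, P1 W) ∧ (o.getD []).length = c} wO o') a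
        (a + (o'.getD []).length) = Set.indicator {o : Option (List Bool) | (∀ W ∈ o, P1 W) ∧
        (o.getD []).length = a + (o'.getD []).length - a} wO o' := if_pos (by omega)
    rw [h4, Nat.add_sub_cancel_left, Set.indicator_of_mem]
    refine ⟨?_, rfl⟩
    rw [hP1]
    exact h1
  · exact zero_le

open Classical in
/-- the sum over the left ends and the chains, a letters counted, N in all -/
noncomputable def SK (f0 f1 : ℕ → ℕ) (lam : ℕ) (Q : List (List Bool) → ℕ → Prop)
    (a kap : Option (List Bool) → List (List Bool) → ℕ) (N : ℕ) : ℝ≥0∞ :=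
  ∑' (o : Option (List Bool)) (gs : List (List Bool)), if gs ≠ [] ∧ gs.IsChain LFold ∧
    (∀ g ∈ gs, ∃ k : ℕ, 1 ≤ k ∧ g ∈ Brd k) ∧ HO (f0 (3 * hgt (gs.headD []) + 8)) lam o (gs.headD []) ∧
    (∃ p, p < gs.length ∧ Q gs p ∧ a o gs = kap o (gs.take p) + ll (gs.drop p)) then
    wO o * (SDN.wl gs * shf (fun c => EEg (f1 (3 * hgt (gs.getLastD []) + 8)) lam c (gs.getLastD [])) (a o gs) N) else 0

/-- the count of the chain and of the left end; al = the mark -/
def cA (al : List Bool → ℕ) (o : Option (List Bool)) (gs : List (List Bool)) : ℕ :=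
  (o.getD []).length + ll gs + 10 - al (Pf o gs)

/-- the counts of the beginnings -/
def cK (al : List Bool → ℕ) (k : Fin 11) (o : Option (List Bool)) (gl : List (List Bool)) : ℕ :=
  if k = 0 then (o.getD []).length + ll gl + 10 - al (Pl o gl) else (o.getD []).length + ll gl + 10 - ((Pl o gl).length + k)

open Classical in
/-- **the cover of the words with a mark** -/
theorem coverK : ∃ K : ℝ, 1 ≤ K ∧ ∀ (A : Set (List Bool)) (al : List Bool → ℕ) (f0 f1 : ℕ → ℕ) (lam n : ℕ)
    (Q : List (List Bool) → ℕ → Prop), Monotone f0 → Monotone f1 →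
    (∀ t ∈ A, Mk al n t ∧ t ∈ SAL lam ∧ ∃ (m u : ℕ) (e : ℕ → ℕ) (p : ℕ), p < m ∧ FoldG t m u e ∧ al t ≤ e p ∧
      e p + 10 ≤ e m ∧
      (∀ i, i < e 0 → Tight.sg u (lev t i) - Tight.sg u (lev t (e 0)) ≤ 3 * f0 (RG t u e 0).toNat) ∧
      (∀ i, e m < i → i ≤ t.length → Tight.sg (u + (m - 1)) (lev t (e m)) - Tight.sg (u + (m - 1)) (lev t i) ≤
        3 * f1 (RG t u e (m - 1)).toNat) ∧
      ∀ gs, RepG t m u e gs → Q gs p) →
    ∀ B : ℝ≥0∞, (∀ (a kap : Option (List Bool) → List (List Bool) → ℕ) (N : ℕ), SK f0 f1 lam Q a kap N ≤ B) →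
    gf A ≤ ENNReal.ofReal K * B := by
  have hx := xc_pos
  have hx1 := xc_bounds.2
  refine ⟨16 * 11 * 21 * xc⁻¹ ^ 10, ?_, ?_⟩
  · have h1 : 1 ≤ xc⁻¹ := (one_le_inv₀ hx).2 hx1
    have h2 : 1 ≤ xc⁻¹ ^ 10 := one_le_pow₀ h1
    linarith
  intro A al f0 f1 lam n Q hf0 hf1 hA B hB
  obtain ⟨C1, hC1⟩ : ∃ C1 : Fin 11 → Option (List Bool) → List (List Bool) → Prop, C1 = fun k o gs =>
    gs ≠ [] ∧ gs.IsChain LFold ∧
    (∀ g ∈ gs, ∃ k : ℕ, 1 ≤ k ∧ g ∈ Brd k) ∧ HO (f0 (3 * hgt (gs.headD []) + 8)) lam o (gs.headD []) ∧
    (∃ p, p < gs.length ∧ Q gs p ∧ cA al o gs = cK al k o (gs.take p) + ll (gs.drop p)) := ⟨_, rfl⟩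
  obtain ⟨C2, hC2⟩ : ∃ C2 : Option (List Bool) → List (List Bool) → Option (List Bool) → Prop, C2 = fun o gs o' =>
    (∀ W ∈ o', W ∈ SSt (f1 (3 * hgt (gs.getLastD []) + 8)) ∧ LFold (gs.getLastD []) W ∧
      (gs.getLastD []).length + W.length ≤ lam + 20) ∧
      n + 1 ≤ cA al o gs + (o'.getD []).length ∧ cA al o gs + (o'.getD []).length ≤ n + 21 := ⟨_, rfl⟩
  obtain ⟨F, hF⟩ : ∃ F : Fin 11 → Option (List Bool) → List (List Bool) → Option (List Bool) → ℝ≥0∞,
    F = fun k o gs o' => if C1 k o gs then wO o * (SDN.wl gs * (if C2 o gs o' then wO o' else 0)) else 0 := ⟨_, rfl⟩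
  have hgoal : gf A ≤ ENNReal.ofReal (16 * xc⁻¹ ^ 10) * ∑ k : Fin 11, ∑' (o : Option (List Bool))
      (gs : List (List Bool)) (o' : Option (List Bool)), F k o gs o' := by
    rw [← Rec8.sw_one]
    refine (Rec8.sw_cover A (fun _ => 1)
      (fun x : Fin 16 × (Fin 11 × (Option (List Bool) × (List (List Bool) × Option (List Bool)))) =>
        ENNReal.ofReal (xc⁻¹ ^ 10) * F x.2.1 x.2.2.1 x.2.2.2.1 x.2.2.2.2)
      (fun x => asmF x.1 x.2.2.1 x.2.2.2.1 x.2.2.2.2) ?_).trans ?_
    · intro t ht
      obtain ⟨hMk, h1, m, u, e, p, hp, hG, hal, hpm, h0, h0', hQ⟩ := hA t ht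
      obtain ⟨c, o, o', gs, r1, r2, r3, r4, r5, r6, r7⟩ := rep_twoK h1.1 (by omega : 1 ≤ m) hG h0 h0'
      have hlt := h1.2
      have h2l : ∀ g ∈ gs, 2 ≤ g.length := by
        intro g hg
        obtain ⟨k, k1, k2⟩ := r1.brd g hg
        have a1 := (mem_Brd.1 k2).2.2.2
        have a2 := near2 g (a := 0) (b := g.length) (Nat.zero_le _) g.length (by omega)
        rw [lev_zero, sub_zero] at a2
        have a3 := le_abs_self (lev g g.length)
        omega
      have hne : ∀ g ∈ gs, g ≠ [] := by
        intro g hg
        obtain ⟨k, k1, k2⟩ := r1.brd g hg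
        exact Brd_ne_nil k2 k1
      have hgs : gs ≠ [] := by
        rintro rfl
        have := r1.len
        simp at this
        omega
      have hhead : gs.headD [] ∈ gs := by
        cases gs with
        | nil => exact absurd rfl hgs
        | cons g gs => exact List.mem_cons_self
      have hlast : gs.getLastD [] ∈ gs := by
        rw [List.getLastD_eq_getLast?, List.getLast?_eq_getLast_of_ne_nil hgs]
        exact List.getLast_mem hgs
      have l1 := length_le_unf hne hhead
      have l2 := length_le_unf hne hlast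
      have l3 := ll_unf hne hgs
      -- the heights of the first and of the last leaf
      have g1 : (RG t u e 0).toNat ≤ 3 * hgt (gs.headD []) + 8 := by
        have hl : 0 < gs.length := by rw [r1.len]; omega
        obtain ⟨k, k1, k2⟩ := r1.brd _ (List.getElem_mem hl)
        have h8 := NTW.EX.leaf_hgt k2 k1 (r1.pos 0 hl)
        have h9 : gs.headD [] = gs[0] := by
          cases gs with
          | nil => simp at hl
          | cons a gs => rfl
        rw [h9, hgt_eq k2]
        have h10 : RG t u e 0 = Tight.sg (u + 0) (lev t (e (0 + 1))) - Tight.sg (u + 0) (lev t (e 0)) := rfl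
        rw [← h10, abs_le] at h8
        omega
      have g2 : (RG t u e (m - 1)).toNat ≤ 3 * hgt (gs.getLastD []) + 8 := by
        have hl : m - 1 < gs.length := by rw [r1.len]; omega
        obtain ⟨k, k1, k2⟩ := r1.brd _ (List.getElem_mem hl)
        have h8 := NTW.EX.leaf_hgt k2 k1 (r1.pos (m - 1) hl)
        have h9 : gs.getLastD [] = gs[m - 1] := by
          rw [List.getLastD_eq_getLast?, List.getLast?_eq_getLast_of_ne_nil hgs, Option.getD_some, List.getLast_eq_getElem]
          congr 1
          rw [r1.len]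
        rw [h9, hgt_eq k2]
        have h10 : RG t u e (m - 1) = Tight.sg (u + (m - 1)) (lev t (e (m - 1 + 1))) -
          Tight.sg (u + (m - 1)) (lev t (e (m - 1))) := rfl
        rw [← h10, abs_le] at h8
        omega
      -- the mark
      have hfix : ∀ P r : List Bool, t = P ++ r → al t ≤ P.length → al P = al t := by
        intro P r hPr hP
        have h5 := hMk.2 P.length hP (by rw [hPr, List.length_append]; omega)
        rwa [hPr, List.take_left, ← hPr] at h5
      have hll : ll gs = ll (gs.take p) + ll (gs.drop p) := by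
        rw [← ll_append, List.take_append_drop]
      have q1 := fold_ll hG r1 p hp.le
      rw [if_pos hp] at q1
      have q2 := fold_ll hG r1 m le_rfl
      rw [if_neg (by omega), List.take_of_length_le (by rw [r1.len])] at q2
      have q3 := Pl_len o (gl := gs.take p) fun g hg => h2l g (List.mem_of_mem_take hg)
      have q4 := Pl_len o (gl := gs) h2l
      have q5 : Pl o gs = Pf o gs := if_neg hgs
      obtain ⟨ra, hra⟩ := Pl_prefix c o o' h2l hgs gs.length
      rw [List.take_length, q5] at hra
      obtain ⟨rb, hrb⟩ := Pl_prefix c o o' h2l hgs p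
      rw [← r4] at hra hrb
      rw [q5] at q4
      have q6 : al (Pf o gs) = al t := hfix _ _ hra (by omega)
      have q7 : cA al o gs = (o.getD []).length + ll gs + 10 - al t := by
        unfold cA
        rw [q6]
      have q8 : ∃ k : Fin 11, cK al k o (gs.take p) = (o.getD []).length + ll (gs.take p) + 10 - al t := by
        rcases Nat.lt_or_ge (Pl o (gs.take p)).length (al t) with h5 | h5
        · refine ⟨⟨al t - (Pl o (gs.take p)).length, by omega⟩, ?_⟩
          unfold cK
          rw [if_neg]
          · show _ - ((Pl o (gs.take p)).length + (al t - (Pl o (gs.take p)).length)) = _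
            congr 1
            omega
          · intro h6
            have := congrArg Fin.val h6
            simp at this
            omega
        · refine ⟨0, ?_⟩
          unfold cK
          rw [if_pos rfl, hfix _ _ hrb h5]
      obtain ⟨k, hk⟩ := q8
      have hMk1 := hMk.1
      refine ⟨(c, k, o, gs, o'), r4.symm, ?_⟩
      rw [hF]
      simp only
      rw [if_pos, if_pos]
      · rw [mul_one]
        refine (CovA.wE_bound hne hgs r5).trans (le_of_eq ?_)
        ring
      · rw [hC2]
        refine ⟨?_, ?_, ?_⟩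
        · intro W hW
          obtain ⟨w1, w2⟩ := r3 W hW
          refine ⟨SSt_mo (hf1 g2) w1, w2, ?_⟩
          have : (o'.getD []).length = W.length := by
            rw [Option.mem_def.1 hW]
            rfl
          omega
        · rw [q7]
          omega
        · rw [q7]
          omega
      · rw [hC1]
        refine ⟨hgs, r1.ch, r1.brd, ?_, p, by rw [r1.len]; exact hp, hQ gs r1, ?_⟩
        · intro W hW
          obtain ⟨w1, w2⟩ := r2 W hW
          refine ⟨SSt_mo (hf0 g1) w1, w2, ?_⟩
          have : (o.getD []).length = W.length := by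
            rw [Option.mem_def.1 hW]
            rfl
          rw [rev_length]
          omega
        · rw [q7, hk]
          omega
    · have e1 : ∀ c : Fin 16, ∑' y : Fin 11 × (Option (List Bool) × (List (List Bool) × Option (List Bool))),
          ENNReal.ofReal (xc⁻¹ ^ 10) * F (c, y).2.1 (c, y).2.2.1 (c, y).2.2.2.1 (c, y).2.2.2.2 =
          ENNReal.ofReal (xc⁻¹ ^ 10) * ∑ k : Fin 11, ∑' (o : Option (List Bool)) (gs : List (List Bool))
            (o' : Option (List Bool)), F k o gs o' := by
        intro c
        rw [ENNReal.tsum_mul_left, ENNReal.tsum_prod', tsum_fintype]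
        congr 1
        refine Finset.sum_congr rfl fun k _ => ?_
        rw [ENNReal.tsum_prod']
        refine tsum_congr fun o => ?_
        rw [ENNReal.tsum_prod']
      rw [ENNReal.tsum_prod', tsum_fintype, Finset.sum_congr rfl fun c _ => e1 c, Finset.sum_const, Finset.card_univ,
        Fintype.card_fin, nsmul_eq_mul, ENNReal.ofReal_mul (by norm_num), mul_assoc]
      refine mul_le_mul' ?_ le_rfl
      norm_num
  -- the sum over the right ends
  have hk : ∀ k : Fin 11, (∑' (o : Option (List Bool)) (gs : List (List Bool)) (o' : Option (List Bool)), F k o gs o') ≤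
      21 * B := by
    intro k
    have h1 : ∀ (o : Option (List Bool)) (gs : List (List Bool)), (∑' o' : Option (List Bool), F k o gs o') ≤
        ∑ N ∈ Icc (n + 1) (n + 21), if C1 k o gs then wO o * (SDN.wl gs * shf (fun c =>
          EEg (f1 (3 * hgt (gs.getLastD []) + 8)) lam c (gs.getLastD [])) (cA al o gs) N) else 0 := by
      intro o gs
      rw [hF]
      simp only
      by_cases h : C1 k o gs
      · simp only [if_pos h]
        rw [ENNReal.tsum_mul_left, ENNReal.tsum_mul_left, ← Finset.mul_sum, ← Finset.mul_sum]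
        refine mul_le_mul_right (mul_le_mul_right ?_ _) _
        refine (ENNReal.tsum_le_tsum fun o' => ?_).trans
          (sum_right (f1 (3 * hgt (gs.getLastD []) + 8)) lam (gs.getLastD []) (cA al o gs) n)
        by_cases hc : C2 o gs o'
        · rw [if_pos hc, if_pos (by rw [hC2] at hc; exact hc)]
        · rw [if_neg hc]
          exact zero_le
      · simp only [if_neg h, tsum_zero]
        exact zero_le
    refine (ENNReal.tsum_le_tsum fun o => ENNReal.tsum_le_tsum fun gs => h1 o gs).trans ?_
    have h2 : (∑' (o : Option (List Bool)) (gs : List (List Bool)), ∑ N ∈ Icc (n + 1) (n + 21),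
        if C1 k o gs then wO o * (SDN.wl gs * shf (fun c =>
          EEg (f1 (3 * hgt (gs.getLastD []) + 8)) lam c (gs.getLastD [])) (cA al o gs) N) else 0) =
        ∑ N ∈ Icc (n + 1) (n + 21), SK f0 f1 lam Q (cA al) (cK al k) N := by
      unfold SK
      rw [← Summable.tsum_finsetSum (fun _ _ => ENNReal.summable)]
      refine tsum_congr fun o => ?_
      rw [← Summable.tsum_finsetSum (fun _ _ => ENNReal.summable)]
      refine tsum_congr fun gs => Finset.sum_congr rfl fun N _ => ?_
      by_cases hc : C1 k o gs
      · rw [if_pos hc, if_pos (by rw [hC1] at hc; exact hc)]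
      · rw [if_neg hc, if_neg (by rw [hC1] at hc; exact hc)]
    rw [h2]
    refine (Finset.sum_le_card_nsmul _ _ B fun N _ => hB _ _ N).trans (le_of_eq ?_)
    rw [nsmul_eq_mul, Nat.card_Icc]
    congr 1
    have : n + 21 + 1 - (n + 1) = 21 := by omega
    rw [this]
    norm_num
  refine hgoal.trans ?_
  refine (mul_le_mul_right (Finset.sum_le_card_nsmul _ _ _ fun k _ => hk k) _).trans (le_of_eq ?_)
  rw [Finset.card_univ, Fintype.card_fin, nsmul_eq_mul]
  have e3 : (16 : ℝ) * 11 * 21 * xc⁻¹ ^ 10 = (16 * xc⁻¹ ^ 10) * (11 * 21) := by ring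
  have e4 : ENNReal.ofReal (11 * 21) = 11 * 21 := by
    rw [ENNReal.ofReal_mul (by norm_num)]
    norm_num
  have e5 : ENNReal.ofReal (16 * 11 * 21 * xc⁻¹ ^ 10) = ENNReal.ofReal (16 * xc⁻¹ ^ 10) * (11 * 21) := by
    rw [e3, ENNReal.ofReal_mul (p := 16 * xc⁻¹ ^ 10) (by positivity), e4]
  rw [e5]
  push_cast
  ring

end MK

end EN

end HexObs
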