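import Pool.Agent.HBD.MarkCover
import Pool.Agent.EN.ExEvent

/-!
HexBoundary, marked events: the chain of the pieces of a walk through a marked run, with the counts of the letters.
-/

set_option autoImplicit false

namespace HexObs

namespace EN

namespace MK

open Finset TS SDN SDN.CN NTm NTW NTA EX

open scoped ENNReal

variable {kc J n M : ℕ} {W : ℕ → Set (List Bool)} {kp idx : ℕ → ℕ} {R : Set (List (List Bool))}
  {Φ : ℕ → ℕ → List Bool → ℝ≥0∞} {P : List (List Bool) → List Bool → (ℕ → ℝ≥0∞) → Prop}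

/-- left parts -/
lemma dec_ofK (hidx : ∀ h h' : ℕ, h ≤ h' → idx h ≤ idx h')
    (hmem : ∀ (g : List Bool) (h : ℕ), g ∈ Brd h → 2 ^ (kc + 4) ≤ h → h ≤ 2 ^ (kc + J + 2) → idx h < n ∧ g ∈ W (idx h))
    {c : ℕ → ℝ≥0∞} {g : List Bool} {gs : List (List Bool)} (hg : OU.MidP R P g gs c) {a : ℕ} :
    ∀ (ls : List (List Bool)) (i : ℕ) (kap : List (List Bool) → ℕ), a = kap ls + ll (g :: gs) →
      (∀ x ∈ ls, x ∈ BrR (2 ^ (kc + 4)) (2 ^ (kc + J + 2))) →
      ls.IsChain (fun a b => hgt b ≤ hgt a) → (∀ x, ls.head? = some x → idx (hgt x) < i) →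
      DecK W R P kap (ls ++ g :: gs) i c a := by
  intro ls
  induction ls with
  | nil =>
    intro i kap ha _ _ _
    exact Or.inl ⟨hg, ha⟩
  | cons x ls ih =>
    intro i kap ha h1 h2 h3
    obtain ⟨h, a1, a2, a3⟩ := h1 x List.mem_cons_self
    obtain ⟨b1, b2⟩ := hmem x h a3 a1 a2
    rw [← hgt_eq a3] at b1 b2
    right
    refine ⟨idx (hgt x), h3 x rfl, b2, ih _ (fun gl => kap (x :: gl)) ha
      (fun y hy => h1 y (List.mem_cons_of_mem _ hy)) h2.tail ?_⟩
    intro y hy
    obtain ⟨ls', rfl⟩ : ∃ ls', ls = y :: ls' := by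
      rcases ls with _ | ⟨z, ls'⟩
      · simp at hy
      · rw [List.head?_cons, Option.some.injEq] at hy
        exact ⟨ls', by rw [hy]⟩
    rw [List.isChain_cons_cons] at h2
    exact Nat.lt_succ_of_le (hidx _ _ h2.1)

/-- the chain of the pieces of a walk with a monotone chain of folds through a run -/
lemma tot_ofK (hidx : ∀ h h' : ℕ, h ≤ h' → idx h ≤ idx h')
    (hmem : ∀ (g : List Bool) (h : ℕ), g ∈ Brd h → 2 ^ (kc + 4) ≤ h → h ≤ 2 ^ (kc + J + 2) → idx h < n ∧ g ∈ W (idx h))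
    {t : List Bool} {r u p d : ℕ} {E : ℕ → ℕ} {gs : List (List Bool)} (ht : t ∈ SA) (hF : FoldG t r u E) (hp : p + d < r)
    (hdec : ∀ q, q + 1 < p → RG t u E (q + 1) ≤ RG t u E q)
    (hinc : ∀ q, p + d < q → q + 1 < r → RG t u E q ≤ RG t u E (q + 1))
    (hR : RepG t r u E gs) (hB : ∀ g ∈ gs, g ∈ BrR (2 ^ (kc + 4)) (2 ^ (kc + J + 2)))
    (hS : (gs.drop p).take (d + 1) ∈ R) (hM : gs.length ≤ M) {c : ℕ → ℝ≥0∞}
    (hc0 : p + d + 1 = r → ∀ q, c q ≤ Φ 0 q (gs.getLastD []))
    (hc1 : p + d + 1 < r → ∀ q, c q ≤ Φ (idx (hgt (gs.getLastD []))) q (gs.getLastD []))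
    (hPP : ∀ (rs : List (List Bool)) (g : List Bool), IncG W n Φ rs 0 g c → rs.length ≤ M →
      (p + d + 1 < r → rs ≠ []) → (rs ≠ [] → gs.getLastD [] = rs.getLastD []) → P rs g c)
    {A : Set (List Bool)} (hA : 1 ≤ p → gs.headD [] ∈ A) {kap : List (List Bool) → ℕ} {a : ℕ}
    (ha : a = kap (gs.take p) + ll (gs.drop p)) :
    (p = 0 → TotAK R P gs c) ∧ (1 ≤ p → TotBK W n R P A kap gs c a) := by
  have hlen := hR.len
  have cmp : ∀ (q q' : ℕ) (hq : q < gs.length) (hq' : q' < gs.length), 1 ≤ q' → q' + 2 ≤ r → RG t u E q' ≤ RG t u E q →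
      hgt gs[q'] ≤ hgt gs[q] := by
    intro q q' hq hq' h1 h2 h3
    obtain ⟨k, hk1, hk⟩ := hR.brd _ (List.getElem_mem hq)
    obtain ⟨k', hk1', hk'⟩ := hR.brd _ (List.getElem_mem hq')
    have h4 := (FoldA.foldG_ht hF (by omega) (hR.pos q hq) hk).2.1
    have h5 := hR.mid q' hq' h1 h2
    have h6 := QF.mid_hgt ht hF h1 h2 (h5 ▸ hk')
    rw [hgt_eq hk, hgt_eq hk']
    unfold RG at h3
    omega
  obtain ⟨ls, hls⟩ : ∃ ls, ls = gs.take p := ⟨_, rfl⟩
  obtain ⟨rs, hrs⟩ : ∃ rs, rs = gs.drop (p + d + 1) := ⟨_, rfl⟩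
  obtain ⟨run, hrun⟩ : ∃ run, run = (gs.drop p).take (d + 1) := ⟨_, rfl⟩
  rw [← hrun] at hS
  have hrunl : run.length = d + 1 := by
    rw [hrun, List.length_take, List.length_drop]
    omega
  have hsp : gs = ls ++ (run ++ rs) := by
    rw [hls, hrs, hrun, show p + d + 1 = p + (d + 1) by ring, ← List.drop_drop, List.take_append_drop,
      List.take_append_drop]
  have hlsl : ls.length = p := by
    rw [hls, List.length_take]
    omega
  have hrsl : rs.length = r - (p + d + 1) := by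
    rw [hrs, List.length_drop, hlen]
  have hlsB : ∀ x ∈ ls, x ∈ BrR (2 ^ (kc + 4)) (2 ^ (kc + J + 2)) := fun x hx => hB x (by
    rw [hls] at hx
    exact List.mem_of_mem_take hx)
  have hrsB : ∀ x ∈ rs, x ∈ BrR (2 ^ (kc + 4)) (2 ^ (kc + J + 2)) := fun x hx => hB x (by
    rw [hrs] at hx
    exact List.mem_of_mem_drop hx)
  have hlsC : ls.IsChain (fun a b => hgt b ≤ hgt a) := by
    rw [List.isChain_iff_getElem]
    intro i hi
    have e1 : ls[i]'(by omega) = gs[i]'(by omega) := by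
      subst hls
      exact List.getElem_take
    have e2 : ls[i + 1]'hi = gs[i + 1]'(by omega) := by
      subst hls
      exact List.getElem_take
    rw [e1, e2]
    exact cmp i (i + 1) _ _ (by omega) (by omega) (hdec i (by omega))
  have hrsC : rs.IsChain (fun a b => hgt a ≤ hgt b) := by
    rw [List.isChain_iff_getElem]
    intro i hi
    have e1 : rs[i]'(by omega) = gs[p + d + 1 + i]'(by omega) := by
      subst hrs
      exact List.getElem_drop
    have e2 : rs[i + 1]'hi = gs[p + d + 1 + (i + 1)]'(by omega) := by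
      subst hrs
      exact List.getElem_drop
    rw [e1, e2]
    exact cmp (p + d + 1 + (i + 1)) (p + d + 1 + i) _ _ (by omega) (by omega)
      (hinc (p + d + 1 + i) (by omega) (by omega))
  obtain ⟨g, ms, hgm⟩ : ∃ g ms, run = g :: ms := List.exists_cons_of_ne_nil (by
    intro h0
    rw [h0, List.length_nil] at hrunl
    omega)
  rw [hgm] at hS hsp
  rw [List.cons_append] at hsp
  have hlast0 : rs = [] → gs.getLastD [] = (g :: ms).getLastD [] := by
    intro h0
    rw [hsp, h0, List.append_nil, QF.last_app]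
  have hlast1 : rs ≠ [] → gs.getLastD [] = rs.getLastD [] := by
    intro h0
    obtain ⟨z, rs', rfl⟩ := List.exists_cons_of_ne_nil h0
    rw [hsp, show ls ++ g :: (ms ++ z :: rs') = (ls ++ g :: ms) ++ z :: rs' by simp, QF.last_app]
  have hrsE : IncG W n Φ rs 0 ((g :: ms).getLastD []) c := by
    refine inc_ofG hidx hmem rs 0 _ hrsB hrsC (fun _ _ => Nat.zero_le _) (fun h0 => ?_) (fun h0 => ?_)
    · have h1 : p + d + 1 = r := by
        rw [h0, List.length_nil] at hrsl
        omega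
      have h3 := hc0 h1
      rw [hlast0 h0] at h3
      exact h3
    · have h1 : p + d + 1 < r := by
        have := List.length_pos_iff.2 h0
        omega
      have h3 := hc1 h1
      rw [hlast1 h0] at h3
      exact h3
  have hrsM : rs.length ≤ M := by
    omega
  have hPr : P rs ((g :: ms).getLastD []) c := hPP rs _ hrsE hrsM (fun h h0 => by
    rw [h0, List.length_nil] at hrsl
    omega) hlast1
  have hmid : OU.MidP R P g (ms ++ rs) c := ⟨ms, rs, rfl, hS, hPr⟩
  have ha' : a = kap ls + ll (g :: (ms ++ rs)) := by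
    rw [ha, ← hls]
    congr 2
    rw [hsp, ← hlsl, List.drop_left]
  rcases ls with _ | ⟨x, xs⟩
  · rw [List.nil_append] at hsp
    rw [List.length_nil] at hlsl
    refine ⟨fun _ => ?_, fun h => by omega⟩
    rw [hsp]
    exact hmid
  · rw [List.cons_append] at hsp
    rw [List.length_cons] at hlsl
    refine ⟨fun h => by omega, fun _ => ?_⟩
    have h3 := hA (by omega)
    rw [hsp] at h3 ⊢
    obtain ⟨h, a1, a2, a3⟩ := hlsB x List.mem_cons_self
    obtain ⟨b1, b2⟩ := hmem x h a3 a1 a2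
    rw [← hgt_eq a3] at b1 b2
    refine ⟨idx (hgt x), b1, b2, h3, dec_ofK hidx hmem hmid xs _ (fun gl => kap (x :: gl)) ha'
      (fun y hy => hlsB y (List.mem_cons_of_mem _ hy)) hlsC.tail ?_⟩
    intro y hy
    obtain ⟨ls', rfl⟩ : ∃ ls', xs = y :: ls' := by
      rcases xs with _ | ⟨z, ls'⟩
      · simp at hy
      · rw [List.head?_cons, Option.some.injEq] at hy
        exact ⟨ls', by rw [hy]⟩
    rw [List.isChain_cons_cons] at hlsC
    exact Nat.lt_succ_of_le (hidx _ _ hlsC.1)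

end MK

end EN

end HexObs
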