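import Pool.Agent.TPC.NaC
import Pool.Agent.TightD.Embed

/-!
HBD: half plane words without a cut, the last edge vertical up, in a box of the same scale (helper14).

* **`nc_mass`**: `Xb K ≤ C * gf {A | ∃ s ∈ NCs (2 ^ K), A = rev s ∧ A ∈ WL (K + J)}`;
* `nc_dir`, `nc_lev`, `nc_no`, `nc_glue`: the word `rev s` in its own frame.
-/

set_option autoImplicit false

namespace HexObs

namespace HBD

open Finset TS SDN NTW NTA BAR TPF TPC

open scoped ENNReal

/-! ### 1. Words without a vertical step up -/

/-- words without a vertical step up behind the first step -/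
def NU : Set (List Bool) := {r | ∀ i, 1 ≤ i → i ≤ r.length → dx up r i ≠ up}

/-- the even ones -/
def NUe (j : ℕ) : Set (List Bool) := {r | r ∈ NU ∧ r.length = 2 * j}

lemma up_two : ∀ d ∈ dirs, cl d = cl up → ∃ x y : Bool, turn y (turn x d) = up := by decide

/-- two letters more -/
lemma NUe_step (j : ℕ) : gf (NUe (j + 1)) ≤ ENNReal.ofReal (3 * xc ^ 2) * gf (NUe j) := by
  classical
  have hex : ∀ r : List Bool, ∃ x y : Bool, Even r.length → turn y (turn x (dx up r r.length)) = up := by
    intro r
    by_cases hr : Even r.length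
    · obtain ⟨x, y, h⟩ := up_two (dx up r r.length) (dx_mem upd r _) (by rw [cl_dx, if_pos hr])
      exact ⟨x, y, fun _ => h⟩
    · exact ⟨true, true, fun h => absurd h hr⟩
  choose X0 Y0 hXY using hex
  have hdec : ∀ r ∈ NUe (j + 1), ∃ (r' : List Bool) (a b : Bool), r' ∈ NUe j ∧ r = r' ++ [a, b] ∧
      ¬ (a = X0 r' ∧ b = Y0 r') := by
    rintro r ⟨h1, h2⟩
    have h3 : (r.drop (2 * j)).length = 2 := by
      rw [List.length_drop]
      omega
    obtain ⟨a, b, hab⟩ := List.length_eq_two.1 h3
    have hl : (r.take (2 * j)).length = 2 * j := by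
      rw [List.length_take]
      omega
    have hr : r = r.take (2 * j) ++ [a, b] := by rw [← hab, List.take_append_drop]
    refine ⟨r.take (2 * j), a, b, ⟨fun i hi hil => ?_, hl⟩, hr, ?_⟩
    · rw [hl] at hil
      rw [dx_take (by omega) hil]
      exact h1 i hi (by omega)
    · rintro ⟨ha, hb⟩
      have h4 := hXY (r.take (2 * j)) (by rw [hl]; exact even_two_mul j)
      rw [← ha, ← hb, hl, dx_take (by omega) le_rfl] at h4
      refine h1 (2 * j + 2) (by omega) (by omega) ?_
      have e1 : tf r (2 * j) = a := by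
        unfold tf
        conv_lhs => rw [hr]
        rw [List.getD_append_right _ _ _ _ (by rw [hl]), hl, Nat.sub_self]
        rfl
      have e2 : tf r (2 * j + 1) = b := by
        unfold tf
        conv_lhs => rw [hr]
        rw [List.getD_append_right _ _ _ _ (by rw [hl]; omega), hl, show 2 * j + 1 - 2 * j = 1 by omega]
        rfl
      rw [show 2 * j + 2 = 2 * j + 1 + 1 by ring, dx_succ, dx_succ, e1, e2]
      exact h4
  choose! f ga gb hf1 hf2 hf3 using hdec
  let ψ : NUe (j + 1) → NUe j × Fin 3 := fun r =>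
    (⟨f r.1, hf1 r.1 r.2⟩, if ga r.1 = X0 (f r.1) then 2 else if gb r.1 then 0 else 1)
  have hψ : Function.Injective ψ := by
    intro r r' h
    have h1 : f r.1 = f r'.1 := congrArg (fun p => (p.1 : List Bool)) h
    have h2 : (if ga r.1 = X0 (f r.1) then (2 : Fin 3) else if gb r.1 then 0 else 1) =
        (if ga r'.1 = X0 (f r'.1) then 2 else if gb r'.1 then 0 else 1) := congrArg (fun p => p.2) h
    have h3 := hf3 r.1 r.2
    have h3' := hf3 r'.1 r'.2
    have key : ∀ a b a' b' x y : Bool, ¬ (a = x ∧ b = y) → ¬ (a' = x ∧ b' = y) →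
        (if a = x then (2 : Fin 3) else if b then 0 else 1) = (if a' = x then 2 else if b' then 0 else 1) →
        a = a' ∧ b = b' := by decide
    rw [← h1] at h2 h3'
    obtain ⟨e1, e2⟩ := key _ _ _ _ _ _ h3 h3' h2
    apply Subtype.ext
    rw [hf2 r.1 r.2, hf2 r'.1 r'.2, h1, e1, e2]
  have hw : ∀ r : NUe (j + 1), wE r.1 = ENNReal.ofReal (xc ^ 2) * wE (ψ r).1.1 := by
    intro r
    conv_lhs => rw [hf2 r.1 r.2, wE_append, mul_comm]
    rfl
  calc gf (NUe (j + 1)) = ∑' r : NUe (j + 1), ENNReal.ofReal (xc ^ 2) * wE (ψ r).1.1 := tsum_congr hw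
    _ ≤ ∑' p : NUe j × Fin 3, ENNReal.ofReal (xc ^ 2) * wE p.1.1 :=
        ENNReal.tsum_comp_le_tsum_of_injective hψ (fun p : NUe j × Fin 3 => ENNReal.ofReal (xc ^ 2) * wE p.1.1)
    _ = ENNReal.ofReal (3 * xc ^ 2) * gf (NUe j) := by
        rw [ENNReal.tsum_prod' (f := fun p : NUe j × Fin 3 => ENNReal.ofReal (xc ^ 2) * wE p.1.1)]
        have e : ∀ a : NUe j, ∑' _b : Fin 3, ENNReal.ofReal (xc ^ 2) * wE a.1 = ENNReal.ofReal (3 * xc ^ 2) * wE a.1 := by
          intro a
          rw [tsum_fintype, Finset.sum_const, Finset.card_univ, Fintype.card_fin, nsmul_eq_mul, ← mul_assoc,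
            ENNReal.ofReal_mul (by norm_num)]
          congr 2
          simp
        rw [tsum_congr e, ENNReal.tsum_mul_left]
        rfl

lemma gf_nil : gf ({[]} : Set (List Bool)) = 1 := by
  have e : ({[]} : Set (List Bool)) = (({[]} : Finset (List Bool)) : Set (List Bool)) := by simp
  rw [e, gf_finset]
  simp

lemma gf_tf : gf ({[true], [false]} : Set (List Bool)) ≤ 2 := by
  have e : ({[true], [false]} : Set (List Bool)) = {t : List Bool | t = [true] ∨ t = [false]} := by
    ext t
    simp
  rw [e]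
  exact gf_let

lemma NUe_le (j : ℕ) : gf (NUe j) ≤ ENNReal.ofReal (3 * xc ^ 2) ^ j := by
  induction j with
  | zero =>
    rw [pow_zero, ← gf_nil]
    refine gf_mono fun t ht => ?_
    exact List.length_eq_zero_iff.1 ht.2
  | succ j ih =>
    rw [pow_succ']
    exact (NUe_step j).trans (mul_le_mul' le_rfl ih)

lemma xc_three : 3 * xc ^ 2 < 1 := by
  rw [xc_sq]
  have h1 : (1 : ℝ) < Real.sqrt 2 := by
    rw [Real.lt_sqrt (by norm_num)]
    norm_num
  rw [mul_one_div, div_lt_one (by positivity)]
  linarith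

/-- **the weight of the words without a vertical step up is finite** -/
lemma NU_fin : ∃ C : ℝ, 0 < C ∧ gf NU ≤ ENNReal.ofReal C := by
  have h1 : NU ⊆ ⋃ j : ℕ, {t | ∃ a ∈ NUe j, ∃ b ∈ ({[]} ∪ ({[true], [false]} : Set (List Bool))), t = a ++ b} := by
    intro r hr
    rw [Set.mem_iUnion]
    rcases Nat.even_or_odd r.length with ⟨j, hj⟩ | ⟨j, hj⟩
    · exact ⟨j, r, ⟨hr, by omega⟩, [], Or.inl rfl, (List.append_nil r).symm⟩
    · have h3 : (r.drop (2 * j)).length = 1 := by
        rw [List.length_drop]
        omega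
      obtain ⟨a, ha⟩ := List.length_eq_one_iff.1 h3
      have hl : (r.take (2 * j)).length = 2 * j := by
        rw [List.length_take]
        omega
      refine ⟨j, r.take (2 * j), ⟨fun i hi hil => ?_, hl⟩, [a], Or.inr ?_, by rw [← ha, List.take_append_drop]⟩
      · rw [hl] at hil
        rw [dx_take (by omega) hil]
        exact hr i hi (by omega)
      · cases a
        · right
          rfl
        · left
          rfl
  have h2 : gf ({[]} ∪ ({[true], [false]} : Set (List Bool))) ≤ 3 := by
    refine (gf_union_le _ _).trans ((add_le_add gf_nil.le gf_tf).trans ?_)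
    norm_num
  have h0 : 0 < xc := xc_pos
  have h3 := xc_three
  have h4 : (0 : ℝ) < 1 - 3 * xc ^ 2 := by linarith
  refine ⟨3 * (1 - 3 * xc ^ 2)⁻¹, by positivity, ?_⟩
  refine ((gf_mono h1).trans (ENNReal.tsum_iUnion_le_tsum wE _)).trans ?_
  calc ∑' j, gf {t | ∃ a ∈ NUe j, ∃ b ∈ ({[]} ∪ ({[true], [false]} : Set (List Bool))), t = a ++ b}
      ≤ ∑' j : ℕ, ENNReal.ofReal (3 * xc ^ 2) ^ j * 3 := by
        refine ENNReal.tsum_le_tsum fun j => ?_
        exact (gf_le_mul fun t ht => ht).trans (mul_le_mul' (NUe_le j) h2)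
    _ = ENNReal.ofReal (3 * (1 - 3 * xc ^ 2)⁻¹) := by
        rw [ENNReal.tsum_mul_right, ENNReal.tsum_geometric, mul_comm, ENNReal.ofReal_mul (show (0 : ℝ) ≤ 3 by norm_num)
          (q := (1 - 3 * xc ^ 2)⁻¹), ENNReal.ofReal_inv_of_pos h4, ENNReal.ofReal_sub _ (by positivity),
          ENNReal.ofReal_one]
        congr 1
        simp

/-! ### 2. The last edge vertical up -/

/-- half plane words of the strip, the last edge vertical up -/
def VUs (m : ℕ) : Set (List Bool) := {s | dx up s s.length = up ∧ ∀ x, s ++ [x] ∈ SSt m}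

/-- half plane words of the strip without a cut, the last edge vertical up -/
def NCs (m : ℕ) : Set (List Bool) := {s | dx up s s.length = up ∧ ∀ x, s ++ [x] ∈ BAR.NA m}

/-- the last letter is not seen -/
lemma SSt_snoc {m : ℕ} {s : List Bool} {x : Bool} : s ++ [x] ∈ SSt m ↔
    (∀ i, 1 ≤ i → i ≤ s.length + 1 → 0 < lev s i ∧ lev s i ≤ 3 * m) ∧
    (∀ i k, i < k → k ≤ s.length + 1 → vx oo up s i ≠ vx oo up s k) := by
  rw [mem_SSt, List.length_append, List.length_singleton]
  constructor
  · rintro ⟨h1, h2⟩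
    refine ⟨fun i hi hil => ?_, fun i k hik hk => ?_⟩
    · have := h1 i hi hil
      rwa [lev_append hil] at this
    · have := h2 i k hik hk
      rwa [vx_append (by omega), vx_append (by omega)] at this
  · rintro ⟨h1, h2⟩
    refine ⟨fun i hi hil => ?_, fun i k hik hk => ?_⟩
    · rw [lev_append hil]
      exact h1 i hi hil
    · rw [vx_append (by omega), vx_append (by omega)]
      exact h2 i k hik hk

lemma nil_VUs {m : ℕ} (hm : 1 ≤ m) : ([] : List Bool) ∈ VUs m := by
  refine ⟨rfl, fun x => ?_⟩
  exact (one_mem hm x).1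

/-- **half plane words: a positive part has the last edge vertical up** -/
theorem HH_le_VUs : ∃ C : ℝ, 1 ≤ C ∧ ∀ m : ℕ, 1 ≤ m → HH m ≤ ENNReal.ofReal C * gf (VUs m) := by
  obtain ⟨C, hC, h⟩ := NU_fin
  refine ⟨1 + C * 2, by linarith, fun m hm => ?_⟩
  have h1 : SSt m ⊆ {[]} ∪ {t | ∃ a ∈ {t | ∃ a ∈ VUs m, ∃ b ∈ NU, t = a ++ b},
      ∃ b ∈ ({[true], [false]} : Set (List Bool)), t = a ++ b} := by
    intro t ht
    rcases List.eq_nil_or_concat t with rfl | ⟨t0, x, rfl⟩
    · exact Or.inl rfl
    right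
    rw [List.concat_eq_append] at ht ⊢
    obtain ⟨h2, h3⟩ := SSt_snoc.1 ht
    classical
    obtain ⟨j, hj⟩ : ∃ j, j = Nat.findGreatest (fun i => dx up t0 i = up) t0.length := ⟨_, rfl⟩
    have hj1 : j ≤ t0.length := by rw [hj]; exact Nat.findGreatest_le _
    have hj2 : dx up t0 j = up := by
      rw [hj]
      exact Nat.findGreatest_spec (P := fun i => dx up t0 i = up) (m := 0) (Nat.zero_le _) rfl
    have hj3 : ∀ i, j < i → i ≤ t0.length → dx up t0 i ≠ up := by
      intro i hi hil
      rw [hj] at hi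
      exact Nat.findGreatest_is_greatest hi hil
    have hl : (t0.take j).length = j := by rw [List.length_take]; omega
    refine ⟨t0, ⟨t0.take j, ⟨?_, fun y => ?_⟩, t0.drop j, fun i hi hil => ?_, (List.take_append_drop j t0).symm⟩,
      [x], ?_, rfl⟩
    · rw [hl, dx_take hj1 le_rfl]
      exact hj2
    · rw [SSt_snoc, hl]
      refine ⟨fun i hi hil => ?_, fun i k hik hk => ?_⟩
      · rw [lev_take hj1 hil]
        exact h2 i hi (by omega)
      · rw [vx_take hj1 (by omega), vx_take hj1 (by omega)]
        exact h3 i k hik (by omega)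
    · rw [List.length_drop] at hil
      rw [← dx_drop hj2]
      exact hj3 _ (by omega) (by omega)
    · cases x
      · right
        rfl
      · left
        rfl
  have h5 : (1 : ℝ≥0∞) ≤ gf (VUs m) := by
    rw [← gf_nil]
    refine gf_mono fun t ht => ?_
    rw [Set.mem_singleton_iff] at ht
    rw [ht]
    exact nil_VUs hm
  calc HH m ≤ 1 + gf (VUs m) * gf NU * 2 := by
        refine (gf_mono h1).trans ((gf_union_le _ _).trans (add_le_add gf_nil.le ?_))
        exact (gf_le_mul fun t ht => ht).trans (mul_le_mul' (gf_le_mul fun t ht => ht) gf_tf)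
    _ ≤ gf (VUs m) + gf (VUs m) * ENNReal.ofReal C * 2 := by gcongr
    _ = ENNReal.ofReal (1 + C * 2) * gf (VUs m) := by
        rw [ENNReal.ofReal_add (by norm_num) (by positivity), ENNReal.ofReal_mul hC.le, ENNReal.ofReal_one]
        simp only [ENNReal.ofReal_ofNat]
        ring

/-! ### 3. The last cut -/

lemma even_VUs {s : List Bool} (h : dx up s s.length = up) : Even s.length := even_of_up upd h

/-- the last cut of a word with the last edge vertical up -/
lemma VUs_le_NCs {i k : ℕ} (hik : i ≤ k) (p : ℕ → Prop) (hp : ∀ a b, a ≤ b → p b → p a) :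
    gf {s | s ∈ VUs (2 ^ i) ∧ p s.length} ≤ ENNReal.ofReal (Ub i) * gf {s | s ∈ NCs (2 ^ k) ∧ p s.length} := by
  have h1 : {s | s ∈ VUs (2 ^ i) ∧ p s.length} ⊆
      ⋃ r ∈ range (2 ^ i + 1), {w | ∃ c ∈ Brd r, ∃ s ∈ {s | s ∈ NCs (2 ^ k) ∧ p s.length}, w = c ++ s} := by
    rintro t ⟨⟨hd, ht⟩, hl⟩
    obtain ⟨r, hr, c, hc, s', hs', he⟩ := last_cut (ht true) (2 ^ i)
    -- the last part is not empty
    have hne : s' ≠ [] := by
      rintro rfl
      have h2 := congrArg List.length he
      rw [List.length_append, List.length_singleton, List.append_nil] at h2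
      have h3 := Brd_even hc
      rw [← h2] at h3
      have h4 := even_VUs hd
      rw [Nat.even_iff, Nat.mod_two_of_bodd] at h4
      rw [Nat.bodd_succ] at h3
      cases hb : t.length.bodd
      · rw [hb] at h3
        simp at h3
      · rw [hb] at h4
        simp at h4
    obtain ⟨y, hy⟩ := last_split hne
    obtain ⟨s, hs⟩ : ∃ s, s = s'.dropLast := ⟨_, rfl⟩
    rw [← hs] at hy
    have he2 : t = c ++ s ∧ ([true] : List Bool) = [y] := by
      rw [hy, ← List.append_assoc] at he
      exact List.append_inj' he rfl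
    have hcu := (mem_Brd.1 hc).2.2.1
    have hds : dx up s s.length = up := by
      have h2 := dx_cat (s := c) (t := s) hcu s.length
      rw [← he2.1, show c.length + s.length = t.length by rw [he2.1, List.length_append], hd] at h2
      exact h2.symm
    have hsx : ∀ x, s ++ [x] ∈ BAR.NA (2 ^ k) := by
      have hst : s ++ [y] ∈ SSt (2 ^ i) := by rw [← hy]; exact hs'.1
      intro x
      refine ⟨SSt_mono (Nat.pow_le_pow_right (by norm_num) hik) (SSt_snoc.2 (SSt_snoc.1 hst)), fun j hj hcut => ?_⟩
      obtain ⟨c1, s1, hc1, hs1, he1⟩ := hcut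
      have hne1 : s1 ≠ [] := by
        rintro rfl
        have h2 := congrArg List.length he1
        rw [List.length_append, List.length_singleton, List.append_nil] at h2
        have h3 := Brd_even hc1
        rw [← h2] at h3
        have h4 := even_VUs hds
        rw [Nat.even_iff, Nat.mod_two_of_bodd] at h4
        rw [Nat.bodd_succ] at h3
        cases hb : s.length.bodd
        · rw [hb] at h3
          simp at h3
        · rw [hb] at h4
          simp at h4
      obtain ⟨z, hz⟩ := last_split hne1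
      have he3 : s = c1 ++ s1.dropLast ∧ ([x] : List Bool) = [z] := by
        rw [hz, ← List.append_assoc] at he1
        exact List.append_inj' he1 rfl
      have hcut : HCut (s ++ [y]) j := by
        refine ⟨c1, s1.dropLast ++ [y], hc1, fun i hi hil => ?_, by rw [he3.1, List.append_assoc]⟩
        rw [List.length_append, List.length_singleton] at hil
        have h2 := hs1 i hi (by rw [hz, List.length_append, List.length_singleton]; exact hil)
        rw [hz, lev_append hil] at h2
        rwa [lev_append hil]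
      rw [← hy] at hcut
      by_cases hjr : j ≤ 2 ^ i - r
      · exact hs'.2 j hj hjr hcut
      · obtain ⟨c', s'', hc', hs'', he''⟩ := hcut
        have h2 := Brd_height_le (Brd_append hc hc') (s := s'') (by
          rw [List.append_assoc, ← he'', ← he]
          exact ht true)
        omega
    rw [Set.mem_iUnion₂]
    refine ⟨r, mem_range.2 (by omega), c, hc, s, ⟨⟨hds, hsx⟩, hp _ _ ?_ hl⟩, he2.1⟩
    rw [he2.1, List.length_append]
    omega
  refine (gf_mono h1).trans ((gf_bi_le _ _).trans ?_)
  show _ ≤ ENNReal.ofReal (UU (2 ^ i)) * _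
  rw [← sum_BT, sum_mul]
  refine sum_le_sum fun r _ => ?_
  rw [← gf_Brd]
  exact gf_le_mul fun t ht => ht

lemma NCs_NAb {m : ℕ} {s : List Bool} (h : s ∈ NCs m) (x : Bool) : s ++ [x] ∈ NAb true m := by
  refine ⟨h.2 x, ?_⟩
  have h4 := even_VUs h.1
  rw [Nat.even_iff, Nat.mod_two_of_bodd] at h4
  rw [List.length_append, List.length_singleton, Nat.bodd_succ]
  cases hb : s.length.bodd
  · rfl
  · rw [hb] at h4
    simp at h4

lemma nil_NCs {m : ℕ} (hm : 1 ≤ m) : ([] : List Bool) ∈ NCs m := by
  refine ⟨rfl, fun x => ⟨(one_mem hm x).1, fun j hj hcut => ?_⟩⟩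
  obtain ⟨c, s, hc, -, he⟩ := hcut
  have h1 := congrArg List.length he
  rw [List.nil_append, List.length_singleton, List.length_append] at h1
  have h2 := Brd_even hc
  have h3 : c.length = 0 := by
    by_contra hne
    have h4 : c.length = 1 := by omega
    rw [h4] at h2
    simp at h2
  have h4 := List.length_eq_zero_iff.1 h3
  subst h4
  have := (mem_Brd.1 hc).2.2.2
  rw [List.length_nil, lev_zero] at this
  omega

end HBD

end HexObs
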