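import Pool.Agent.NTW.Rep2
import Pool.Agent.SDN.CrowdBrd

/-!
HexBoundary, marked events: the two ended representation with the position of the first fold, and the beginnings of the word.
-/

set_option autoImplicit false

namespace HexObs

namespace EN

namespace MK

open Finset TS SDN NTW NTW.Rp

/-- the two ended representation, with the length of the left end -/
theorem rep_twoK {t : List Bool} {m u : ℕ} {e : ℕ → ℕ} {N0 N1 : ℕ} (ht : t ∈ SA) (hm : 1 ≤ m) (h : FoldG t m u e)
    (h0 : ∀ i, i < e 0 → Tight.sg u (lev t i) - Tight.sg u (lev t (e 0)) ≤ 3 * N0)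
    (h1 : ∀ i, e m < i → i ≤ t.length → Tight.sg (u + (m - 1)) (lev t (e m)) - Tight.sg (u + (m - 1)) (lev t i) ≤ 3 * N1) :
    ∃ (c : Fin 16) (o o' : Option (List Bool)) (gs : List (List Bool)), RepG t m u e gs ∧
      (∀ W ∈ o, W ∈ SSt N0 ∧ LFold (rev (gs.headD [])) W) ∧ (∀ W ∈ o', W ∈ SSt N1 ∧ LFold (gs.getLastD []) W) ∧
      t = asmF c o gs o' ∧ (o.getD []).length + (unf gs).length + (o'.getD []).length ≤ t.length + 10 ∧
      t.length ≤ (o.getD []).length + (unf gs).length + (o'.getD []).length + 10 ∧ e 0 ≤ (o.getD []).length + 4 := by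
  have h01 : e (0 + 1) = e 1 := rfl
  have hlt := h.lt 0 hm
  have hle1 := e_le h (j := 0 + 1) (by omega)
  -- the common end of the two cases
  have key : ∀ (s : ℕ) (q : List Bool) (o : Option (List Bool)), Stt t u e 0 s q →
      (∀ W ∈ o, W ∈ SSt N0) →
      (∀ W ∈ o, ∀ (g : List Bool) (k : ℕ), g ∈ Brd k → 1 ≤ k → s + g.length ≤ t.length →
        (∀ i, i ≤ g.length → vx oo up g i = vx oo up q i) → LFold (rev g) W) →
      (o = none → t = q) → (∀ W ∈ o, t = rev W ++ (!q.headD true) :: (!q.headD true) :: q.tail) →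
      (o.getD []).length + q.length ≤ t.length + 3 → t.length ≤ (o.getD []).length + q.length + 3 →
      ∃ (c : Fin 16) (o o' : Option (List Bool)) (gs : List (List Bool)), RepG t m u e gs ∧
        (∀ W ∈ o, W ∈ SSt N0 ∧ LFold (rev (gs.headD [])) W) ∧ (∀ W ∈ o', W ∈ SSt N1 ∧ LFold (gs.getLastD []) W) ∧
        t = asmF c o gs o' ∧ (o.getD []).length + (unf gs).length + (o'.getD []).length ≤ t.length + 10 ∧
        t.length ≤ (o.getD []).length + (unf gs).length + (o'.getD []).length + 10 ∧ e 0 ≤ (o.getD []).length + 4 := by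
    intro s q o S k1 k2 k3 k4 k6 k7
    obtain ⟨g, gs, o', x, y, b1, b2, b3, b4, b5, b6, b7, b8, b9, b10, b11, b12⟩ :=
      tail_rep (fun hE hEq hinj h1 h3 hfin => Rp.end_q hE hEq hinj h1 h3 hfin) ht h h1 (m - 1) 0 s q (by omega) S
    have hql := S.fr.1
    have hs1 := S.s1
    have r1 : (g :: gs).length = m := by
      clear b12
      rw [List.length_cons]
      omega
    have r2 : (o.getD []).length + (unf (g :: gs)).length + (o'.getD []).length ≤ t.length + 10 := by
      clear b12
      omega
    have r3 : t.length ≤ (o.getD []).length + (unf (g :: gs)).length + (o'.getD []).length + 10 := by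
      clear b12
      omega
    obtain ⟨c, hc1, hc2⟩ := code x y
    refine ⟨c, o, o', g :: gs, ⟨r1, b2, b3, ?_, ?_⟩, ?_, b6, ?_, r2, r3, by omega⟩
    · intro l hl
      have := b4 l hl
      rwa [Nat.zero_add] at this
    · intro l hl c1 c2
      have := b5 l hl (by omega) (by omega)
      rwa [Nat.zero_add] at this
    · intro W hW
      obtain ⟨k, a1, a2⟩ := b3 g (by simp)
      exact ⟨k1 W hW, k2 W hW g k a2 a1 b10 b11⟩
    · cases o with
      | none =>
        show t = endF _ _ o' (unf (g :: gs))
        rw [hc1, hc2, ← b7]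
        exact k3 rfl
      | some W =>
        show t = rev W ++ (!(endF _ _ o' (unf (g :: gs))).headD true) :: (!(endF _ _ o' (unf (g :: gs))).headD true) ::
          (endF _ _ o' (unf (g :: gs))).tail
        rw [hc1, hc2, ← b7]
        exact k4 W rfl
  rcases Nat.eq_zero_or_pos (e 0) with he | he
  · have S := stt_zero h hm he
    exact key 0 t none S (by simp) (by simp) (fun _ => rfl) (by simp) (by simp) (by simp)
  · obtain ⟨c0, W0, a1, a2, a3, a4, a5, a6⟩ := Rp.start_rep ht hm h h0 he
    have S := stt_pos h hm he a3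
    refine key (e 0 - 1) (c0 :: t.drop (e 0)) (some W0) S ?_ ?_ (fun hh => by simp at hh) ?_ ?_ ?_
    · intro W hW
      rw [Option.mem_some_iff] at hW
      rw [← hW]
      exact a4
    · intro W hW g k g1 g2 g3 g4
      rw [Option.mem_some_iff] at hW
      rw [← hW]
      exact a6 g k g1 g2 g3 g4
    · intro W hW
      rw [Option.mem_some_iff] at hW
      rw [← hW]
      exact a1
    · have := a3.1
      show W0.length + _ ≤ _
      omega
    · have := a3.1
      show _ ≤ W0.length + _ + 3
      omega

/-! ### the beginnings of the word -/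

/-- the word w behind the left end o -/
def pre (o : Option (List Bool)) (w : List Bool) : List Bool :=
  match o with
  | none => w
  | some W => rev W ++ (!w.headD true) :: (!w.headD true) :: w.tail

lemma pre_append (o : Option (List Bool)) {w : List Bool} (hw : w ≠ []) (r : List Bool) : pre o (w ++ r) = pre o w ++ r := by
  obtain ⟨x, w', rfl⟩ := List.exists_cons_of_ne_nil hw
  cases o with
  | none => rfl
  | some W => simp [pre]

lemma pre_length (o : Option (List Bool)) {w : List Bool} (hw : w ≠ []) : (o.getD []).length + w.length ≤ (pre o w).length ∧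
    (pre o w).length ≤ (o.getD []).length + w.length + 1 := by
  obtain ⟨x, w', rfl⟩ := List.exists_cons_of_ne_nil hw
  cases o with
  | none => simp [pre]
  | some W =>
    simp only [pre, List.length_append, List.length_cons, List.tail_cons, rev_length, Option.getD_some]
    omega

lemma endF_eq (x : Bool) (y : Fin 3) (o' : Option (List Bool)) {w : List Bool} (hw : w ≠ []) :
    ∃ r, endF x y o' w = w.dropLast ++ r := by
  unfold endF
  cases o' with
  | some W => exact ⟨_, rfl⟩
  | none =>
    simp only
    split_ifs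
    · exact ⟨_, rfl⟩
    · refine ⟨[w.getLast hw] ++ [x], ?_⟩
      rw [← List.append_assoc, List.dropLast_append_getLast]
    · exact ⟨_, rfl⟩

/-- the word without its end, up to the leaves gs -/
def Pf (o : Option (List Bool)) (gs : List (List Bool)) : List Bool := pre o (unf gs).dropLast

lemma asmF_eq (c : Fin 16) (o : Option (List Bool)) {gs : List (List Bool)} (o' : Option (List Bool))
    (h2 : 2 ≤ (unf gs).length) : ∃ r, asmF c o gs o' = Pf o gs ++ r := by
  have hne : (unf gs).dropLast ≠ [] := by
    intro h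
    have := congrArg List.length h
    rw [List.length_dropLast, List.length_nil] at this
    omega
  have hne' : unf gs ≠ [] := by
    intro h
    rw [h] at h2
    simp at h2
  obtain ⟨r, hr⟩ := endF_eq (decide (c.val % 2 = 1)) ⟨c.val / 2 % 3, Nat.mod_lt _ (by decide)⟩ o' hne'
  refine ⟨r, ?_⟩
  have h3 : asmF c o gs o' = pre o (endF (decide (c.val % 2 = 1)) ⟨c.val / 2 % 3, Nat.mod_lt _ (by decide)⟩ o' (unf gs)) := by
    cases o <;> rfl
  rw [h3, hr, pre_append o hne]
  rfl

lemma asmF_rev (c : Fin 16) (W : List Bool) (gs : List (List Bool)) (o' : Option (List Bool)) :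
    ∃ r, asmF c (some W) gs o' = rev W ++ r := ⟨_, rfl⟩

lemma unf_append : ∀ (us vs : List (List Bool)), us ≠ [] → vs ≠ [] → (∀ g ∈ us, g ≠ []) → (∀ g ∈ vs, g ≠ []) →
    ∃ r, r ≠ [] ∧ unf (us ++ vs) = (unf us).dropLast ++ r
  | [], _, h, _, _, _ => absurd rfl h
  | [a], v :: vs, _, _, _, _ => ⟨(!lst a) :: (!lst a) :: unf (v :: vs), by simp, rfl⟩
  | [a], [], _, h, _, _ => absurd rfl h
  | a :: a' :: us, vs, _, hv, h1, h2 => by
    obtain ⟨r, hr0, hr⟩ := unf_append (a' :: us) vs (by simp) hv (fun u hu => h1 u (List.mem_cons_of_mem _ hu)) h2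
    refine ⟨r, hr0, ?_⟩
    have e1 : unf (a :: a' :: us ++ vs) = a.dropLast ++ (!lst a) :: (!lst a) :: unf (a' :: us ++ vs) := rfl
    have e2 : unf (a :: a' :: us) = a.dropLast ++ (!lst a) :: (!lst a) :: unf (a' :: us) := rfl
    have e3 : unf (a' :: us) ≠ [] := unf_ne_nil _ (by simp) (fun u hu => h1 u (List.mem_cons_of_mem _ hu))
    rw [e1, e2, hr, List.dropLast_append_of_ne_nil (by simp), List.dropLast_cons_of_ne_nil (by simp),
      List.dropLast_cons_of_ne_nil e3]
    simp

lemma Pf_append (o : Option (List Bool)) {us vs : List (List Bool)} (hu : us ≠ []) (hv : vs ≠ [])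
    (h1 : ∀ g ∈ us, g ≠ []) (h2 : ∀ g ∈ vs, g ≠ []) (h3 : 2 ≤ (unf us).length) :
    ∃ r, Pf o (us ++ vs) = Pf o us ++ r := by
  obtain ⟨r, hr0, hr⟩ := unf_append us vs hu hv h1 h2
  have hne : (unf us).dropLast ≠ [] := by
    intro h
    have := congrArg List.length h
    rw [List.length_dropLast, List.length_nil] at this
    omega
  refine ⟨r.dropLast, ?_⟩
  unfold Pf
  rw [hr, List.dropLast_append_of_ne_nil hr0, pre_append o hne]

end MK

end EN

end HexObs
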